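import Mathlib

/-!
# Gaussian sections of the cube: slicing and Fourier inversion
-/

open MeasureTheory Real Set Filter
open scoped FourierTransform ENNReal RealInnerProductSpace Topology

namespace Agent238.GS

noncomputable section

/-- The hyperplane `θ^⊥`. -/
abbrev Hyp {n : ℕ} (θ : EuclideanSpace ℝ (Fin n)) : Submodule ℝ (EuclideanSpace ℝ (Fin n)) :=
  (ℝ ∙ θ)ᗮ

variable {n : ℕ}

/-- the orthogonal decomposition `z = s θ + x` with `x ⊥ θ`. -/
def decomp (θ : EuclideanSpace ℝ (Fin n)) (hθ : ‖θ‖ = 1) :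
    EuclideanSpace ℝ (Fin n) ≃ᵐ ℝ × Hyp θ :=
  ((ℝ ∙ θ).orthogonalDecomposition.toHomeomorph.toMeasurableEquiv.trans
    (MeasurableEquiv.toLp 2 _).symm).trans
    (MeasurableEquiv.prodCongr
      (LinearIsometryEquiv.toSpanUnitSingleton (𝕜 := ℝ) θ hθ).symm.toHomeomorph.toMeasurableEquiv
      (MeasurableEquiv.refl _))

lemma decomp_symm_apply (θ : EuclideanSpace ℝ (Fin n)) (hθ : ‖θ‖ = 1) (q : ℝ × Hyp θ) :
    (decomp θ hθ).symm q = q.1 • θ + (q.2 : EuclideanSpace ℝ (Fin n)) := by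
  change (ℝ ∙ θ).orthogonalDecomposition.symm (WithLp.toLp 2
    ((LinearIsometryEquiv.toSpanUnitSingleton (𝕜 := ℝ) θ hθ) q.1, q.2)) = _
  simp

lemma decomp_mp (θ : EuclideanSpace ℝ (Fin n)) (hθ : ‖θ‖ = 1) :
    MeasurePreserving (decomp θ hθ) volume (volume.prod volume) := by
  have h1 : MeasurePreserving ((ℝ ∙ θ).orthogonalDecomposition) volume volume :=
    (ℝ ∙ θ).orthogonalDecomposition.measurePreserving
  have h2 := WithLp.volume_preserving_ofLp (ℝ ∙ θ) (ℝ ∙ θ)ᗮ
  have h3 : MeasurePreserving ((LinearIsometryEquiv.toSpanUnitSingleton (𝕜 := ℝ) θ hθ).symm)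
      volume volume :=
    (LinearIsometryEquiv.toSpanUnitSingleton (𝕜 := ℝ) θ hθ).symm.measurePreserving
  have h4 := h3.prod (MeasurePreserving.id (volume : Measure (Hyp θ)))
  exact (h2.comp h1 |> h4.comp)

/-- the standard Gaussian density on the line -/
def gam (x : ℝ) : ℝ := (√(2 * π))⁻¹ * exp (-x ^ 2 / 2)

lemma gam_pos (x : ℝ) : 0 < gam x := by unfold gam; positivity

lemma gam_cont : Continuous gam := by unfold gam; fun_prop

lemma gam_int : Integrable gam := by
  unfold gam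
  have := (integrable_exp_neg_mul_sq (b := 1 / 2) (by norm_num)).const_mul ((√(2 * π))⁻¹)
  refine this.congr (Eventually.of_forall fun x => ?_)
  simp only; congr 2; ring

/-- admissible one dimensional factors -/
structure Adm (g : ℝ → ℝ) : Prop where
  meas : Measurable g
  nonneg : ∀ x, 0 ≤ g x
  le : ∀ x, g x ≤ gam x
  cont : ∀ x, |x| ≠ 1 → ContinuousAt g x

/-- product function on euclidean space -/
def GG (g : Fin n → ℝ → ℝ) (z : EuclideanSpace ℝ (Fin n)) : ℝ := ∏ i, g i (z i)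

lemma GG_nonneg {g : Fin n → ℝ → ℝ} (hg : ∀ i, Adm (g i)) (z : EuclideanSpace ℝ (Fin n)) :
    0 ≤ GG g z := Finset.prod_nonneg fun i _ => (hg i).nonneg _

lemma GG_meas {g : Fin n → ℝ → ℝ} (hg : ∀ i, Adm (g i)) : Measurable (GG g) := by
  unfold GG
  refine Finset.measurable_prod _ fun i _ => (hg i).meas.comp ?_
  fun_prop

lemma prod_gam (z : EuclideanSpace ℝ (Fin n)) :
    ∏ i, gam (z i) = (√(2 * π))⁻¹ ^ n * exp (-‖z‖ ^ 2 / 2) := by
  unfold gam
  rw [Finset.prod_mul_distrib, ← Real.exp_sum, EuclideanSpace.norm_sq_eq]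
  simp only [Finset.prod_const, Finset.card_univ, Fintype.card_fin, Real.norm_eq_abs, sq_abs]
  congr 2
  rw [neg_div, Finset.sum_div, ← Finset.sum_neg_distrib]
  simp only [neg_div]

lemma GG_le {g : Fin n → ℝ → ℝ} (hg : ∀ i, Adm (g i)) (z : EuclideanSpace ℝ (Fin n)) :
    GG g z ≤ (√(2 * π))⁻¹ ^ n * exp (-‖z‖ ^ 2 / 2) := by
  rw [← prod_gam]
  exact Finset.prod_le_prod (fun i _ => (hg i).nonneg _) fun i _ => (hg i).le _

lemma gauss_int {V : Type*} [NormedAddCommGroup V] [InnerProductSpace ℝ V]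
    [FiniteDimensional ℝ V] [MeasurableSpace V] [BorelSpace V] :
    Integrable (fun v : V => exp (-‖v‖ ^ 2 / 2)) := by
  have h := (GaussianFourier.integrable_cexp_neg_mul_sq_norm_add (V := V) (b := 1 / 2)
    (by norm_num) 0 0).re
  refine h.congr (Eventually.of_forall fun x => ?_)
  simp only [zero_mul, add_zero]
  have : (-(1 / 2 : ℂ) * (‖x‖ : ℂ) ^ 2) = ((-‖x‖ ^ 2 / 2 : ℝ) : ℂ) := by push_cast; ring
  rw [this, ← Complex.ofReal_exp]
  exact Complex.ofReal_re _

lemma GG_int {g : Fin n → ℝ → ℝ} (hg : ∀ i, Adm (g i)) : Integrable (GG g) := by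
  refine Integrable.mono' ((gauss_int (V := EuclideanSpace ℝ (Fin n))).const_mul
    ((√(2 * π))⁻¹ ^ n)) (GG_meas hg).aestronglyMeasurable (Eventually.of_forall fun z => ?_)
  rw [Real.norm_eq_abs, abs_of_nonneg (GG_nonneg hg z)]
  exact GG_le hg z

/-- the sliced function -/
def AA (g : Fin n → ℝ → ℝ) (θ : EuclideanSpace ℝ (Fin n)) (s : ℝ) : ℂ :=
  ∫ x : Hyp θ, ((GG g (s • θ + (x : EuclideanSpace ℝ (Fin n))) : ℝ) : ℂ)

lemma GG_int' {g : Fin n → ℝ → ℝ} (hg : ∀ i, Adm (g i)) (θ : EuclideanSpace ℝ (Fin n))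
    (hθ : ‖θ‖ = 1) : Integrable (fun q : ℝ × Hyp θ =>
      ((GG g (q.1 • θ + (q.2 : EuclideanSpace ℝ (Fin n))) : ℝ) : ℂ)) := by
  have h := (GG_int hg).ofReal (𝕜 := ℂ)
  have h2 := ((decomp_mp θ hθ).symm (decomp θ hθ)).integrable_comp_emb
    (decomp θ hθ).symm.measurableEmbedding (g := fun z => ((GG g z : ℝ) : ℂ))
  have h3 := h2.2 h
  refine h3.congr (Eventually.of_forall fun q => ?_)
  simp only [Function.comp, decomp_symm_apply]

lemma AA_int {g : Fin n → ℝ → ℝ} (hg : ∀ i, Adm (g i)) (θ : EuclideanSpace ℝ (Fin n))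
    (hθ : ‖θ‖ = 1) : Integrable (AA g θ) :=
  (GG_int' hg θ hθ).integral_prod_left

lemma norm_decomp (θ : EuclideanSpace ℝ (Fin n)) (hθ : ‖θ‖ = 1) (s : ℝ) (x : Hyp θ) :
    ‖s • θ + (x : EuclideanSpace ℝ (Fin n))‖ ^ 2 = s ^ 2 + ‖x‖ ^ 2 := by
  have h : ⟪s • θ, (x : EuclideanSpace ℝ (Fin n))⟫ = 0 := by
    rw [inner_smul_left]
    have := Submodule.mem_orthogonal_singleton_iff_inner_right.1 x.2
    rw [this]; simp
  rw [norm_add_sq_real, h, norm_smul, hθ]
  simp

lemma inner_decomp (θ : EuclideanSpace ℝ (Fin n)) (hθ : ‖θ‖ = 1) (s : ℝ) (x : Hyp θ) :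
    ⟪θ, s • θ + (x : EuclideanSpace ℝ (Fin n))⟫ = s := by
  have h := Submodule.mem_orthogonal_singleton_iff_inner_right.1 x.2
  rw [inner_add_right, h, inner_smul_right, real_inner_self_eq_norm_sq, hθ]
  simp

/-- one dimensional (real) cosine transform -/
def ct (g : ℝ → ℝ) (t : ℝ) : ℝ := ∫ x, g x * cos (t * x)

lemma Adm.int {g : ℝ → ℝ} (hg : Adm g) : Integrable g := by
  refine Integrable.mono' gam_int hg.meas.aestronglyMeasurable (Eventually.of_forall fun x => ?_)
  rw [Real.norm_eq_abs, abs_of_nonneg (hg.nonneg x)]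
  exact hg.le x

lemma fourier_one {g : ℝ → ℝ} (hg : Adm g) (hev : ∀ x, g (-x) = g x) (t : ℝ) :
    ∫ x, Complex.exp (((-t * x : ℝ) : ℂ) * Complex.I) * ((g x : ℝ) : ℂ) = ((ct g t : ℝ) : ℂ) := by
  have hc : Integrable (fun x => g x * cos (t * x)) := by
    refine hg.int.mul_bdd (c := 1) ?_ ?_
    · exact (by fun_prop : Continuous fun x => cos (t * x)).aestronglyMeasurable
    · exact Eventually.of_forall fun x => by simpa using abs_cos_le_one (t * x)
  have hs : Integrable (fun x => g x * sin (t * x)) := by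
    refine hg.int.mul_bdd (c := 1) ?_ ?_
    · exact (by fun_prop : Continuous fun x => sin (t * x)).aestronglyMeasurable
    · exact Eventually.of_forall fun x => by simpa using abs_sin_le_one (t * x)
  have hodd : ∫ x, g x * sin (t * x) = 0 := by
    have h := integral_neg_eq_self (fun x => g x * sin (t * x)) volume
    have h2 : (fun x => g (-x) * sin (t * (-x))) = fun x => -(g x * sin (t * x)) := by
      funext x; rw [hev, mul_neg, sin_neg, mul_neg]
    rw [h2, integral_neg] at h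
    linarith
  have h1 : ∀ x : ℝ, Complex.exp (((-t * x : ℝ) : ℂ) * Complex.I) * ((g x : ℝ) : ℂ) =
      ((g x * cos (t * x) : ℝ) : ℂ) - ((g x * sin (t * x) : ℝ) : ℂ) * Complex.I := by
    intro x
    rw [Complex.exp_mul_I, ← Complex.ofReal_cos, ← Complex.ofReal_sin, neg_mul, cos_neg, sin_neg]
    push_cast; ring
  simp_rw [h1]
  rw [integral_sub hc.ofReal (hs.ofReal.mul_const _), integral_mul_const,
    integral_complex_ofReal, integral_complex_ofReal, hodd, ct]
  simp

lemma fourier_GG {g : Fin n → ℝ → ℝ} (hg : ∀ i, Adm (g i)) (hev : ∀ i x, g i (-x) = g i x)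
    (θ : EuclideanSpace ℝ (Fin n)) (t : ℝ) :
    ∫ z : EuclideanSpace ℝ (Fin n), Complex.exp (((-t * ⟪θ, z⟫ : ℝ) : ℂ) * Complex.I) *
      ((GG g z : ℝ) : ℂ) = ((∏ i, ct (g i) (θ i * t) : ℝ) : ℂ) := by
  rw [← (PiLp.volume_preserving_toLp (Fin n)).integral_comp
    (MeasurableEquiv.toLp 2 _).measurableEmbedding]
  have h1 : ∀ x : Fin n → ℝ, Complex.exp (((-t * ⟪θ, WithLp.toLp 2 x⟫ : ℝ) : ℂ) * Complex.I) *
      ((GG g (WithLp.toLp 2 x) : ℝ) : ℂ) =
      ∏ i, (Complex.exp (((-(θ i * t) * x i : ℝ) : ℂ) * Complex.I) * ((g i (x i) : ℝ) : ℂ)) := by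
    intro x
    rw [Finset.prod_mul_distrib, ← Complex.exp_sum, GG]
    push_cast
    congr 2
    rw [← Finset.sum_mul]
    congr 1
    simp only [PiLp.inner_apply, RCLike.inner_apply, conj_trivial]
    push_cast
    rw [Finset.mul_sum]
    refine Finset.sum_congr rfl fun i _ => by ring
  simp_rw [h1]
  rw [integral_fintype_prod_volume_eq_prod (f := fun i (v : ℝ) =>
    (Complex.exp (((-(θ i * t) * v : ℝ) : ℂ) * Complex.I) * ((g i v : ℝ) : ℂ)))]
  rw [Complex.ofReal_prod]
  refine Finset.prod_congr rfl fun i _ => ?_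
  exact fourier_one (hg i) (hev i) (θ i * t)

lemma fourier_AA {g : Fin n → ℝ → ℝ} (hg : ∀ i, Adm (g i)) (hev : ∀ i x, g i (-x) = g i x)
    (θ : EuclideanSpace ℝ (Fin n)) (hθ : ‖θ‖ = 1) (w : ℝ) :
    𝓕 (AA g θ) w = ((∏ i, ct (g i) (θ i * (2 * π * w)) : ℝ) : ℂ) := by
  rw [← fourier_GG hg hev θ (2 * π * w), Real.fourier_real_eq_integral_exp_smul]
  have hint : Integrable (fun z : EuclideanSpace ℝ (Fin n) =>
      Complex.exp (((-(2 * π * w) * ⟪θ, z⟫ : ℝ) : ℂ) * Complex.I) * ((GG g z : ℝ) : ℂ)) := by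
    refine (GG_int hg).ofReal.bdd_mul (c := 1) ?_ ?_
    · exact (by fun_prop : Continuous fun z : EuclideanSpace ℝ (Fin n) =>
        Complex.exp (((-(2 * π * w) * ⟪θ, z⟫ : ℝ) : ℂ) * Complex.I)).aestronglyMeasurable
    · exact Eventually.of_forall fun z => by rw [Complex.norm_exp_ofReal_mul_I]
  have h1 := ((decomp_mp θ hθ).symm (decomp θ hθ)).integral_comp
    (decomp θ hθ).symm.measurableEmbedding (fun z : EuclideanSpace ℝ (Fin n) =>
      Complex.exp (((-(2 * π * w) * ⟪θ, z⟫ : ℝ) : ℂ) * Complex.I) * ((GG g z : ℝ) : ℂ))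
  rw [← h1]
  have h2 := ((decomp_mp θ hθ).symm (decomp θ hθ)).integrable_comp_emb
    (decomp θ hθ).symm.measurableEmbedding (g := fun z : EuclideanSpace ℝ (Fin n) =>
      Complex.exp (((-(2 * π * w) * ⟪θ, z⟫ : ℝ) : ℂ) * Complex.I) * ((GG g z : ℝ) : ℂ))
  have h3 : Integrable (fun q : ℝ × Hyp θ =>
      Complex.exp (((-(2 * π * w) * ⟪θ, (decomp θ hθ).symm q⟫ : ℝ) : ℂ) * Complex.I) *
      ((GG g ((decomp θ hθ).symm q) : ℝ) : ℂ)) (volume.prod volume) := h2.2 hint
  rw [integral_prod _ h3]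
  refine integral_congr_ae (Eventually.of_forall fun s => ?_)
  simp only [AA, smul_eq_mul, decomp_symm_apply]
  rw [← integral_const_mul]
  refine integral_congr_ae (Eventually.of_forall fun x => ?_)
  simp only
  rw [inner_decomp θ hθ]
  congr 3
  push_cast; ring

lemma cont_zero {g : Fin n → ℝ → ℝ} (hg : ∀ i, Adm (g i))
    (θ : EuclideanSpace ℝ (Fin n)) (hθ : ‖θ‖ = 1) : ContinuousAt (AA g θ) 0 := by
  unfold AA
  refine continuousAt_of_dominated (bound := fun x : Hyp θ =>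
    (√(2 * π))⁻¹ ^ n * exp (-‖x‖ ^ 2 / 2)) ?_ ?_ ?_ ?_
  · refine Eventually.of_forall fun s => ?_
    have : Measurable fun x : Hyp θ => GG g (s • θ + (x : EuclideanSpace ℝ (Fin n))) :=
      (GG_meas hg).comp (by fun_prop)
    exact (Complex.measurable_ofReal.comp this).aestronglyMeasurable
  · refine Eventually.of_forall fun s => Eventually.of_forall fun x => ?_
    rw [Complex.norm_real, Real.norm_eq_abs, abs_of_nonneg (GG_nonneg hg _)]
    refine (GG_le hg _).trans ?_
    rw [norm_decomp θ hθ]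
    gcongr
    nlinarith [sq_nonneg s]
  · exact (gauss_int (V := Hyp θ)).const_mul _
  · have hnull : ∀ (i : Fin n) (c : ℝ), c ≠ 0 →
        ∀ᵐ x : Hyp θ, (x : EuclideanSpace ℝ (Fin n)) i ≠ c := by
      intro i c hc
      let L : Hyp θ →ₗ[ℝ] ℝ :=
        (EuclideanSpace.proj i : EuclideanSpace ℝ (Fin n) →L[ℝ] ℝ).toLinearMap ∘ₗ (Hyp θ).subtype
      let S : AffineSubspace ℝ (Hyp θ) :=
        (AffineSubspace.mk' (c : ℝ) (⊥ : Submodule ℝ ℝ)).comap L.toAffineMap
      have hS : S ≠ ⊤ := by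
        intro h
        have h0 : (0 : Hyp θ) ∈ S := by rw [h]; trivial
        simp only [S, AffineSubspace.mem_comap, AffineSubspace.mem_mk'] at h0
        simp at h0
        exact hc h0
      have := Measure.addHaar_affineSubspace (volume : Measure (Hyp θ)) S hS
      rw [ae_iff]
      refine measure_mono_null (fun x hx => ?_) this
      simp only [Set.mem_ofPred_eq, not_not] at hx
      show x ∈ S
      simp only [S, AffineSubspace.mem_comap, AffineSubspace.mem_mk']
      simp [L, hx]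
    have h1 : ∀ᵐ x : Hyp θ, ∀ i, (x : EuclideanSpace ℝ (Fin n)) i ≠ 1 :=
      ae_all_iff.2 fun i => hnull i 1 one_ne_zero
    have h2 : ∀ᵐ x : Hyp θ, ∀ i, (x : EuclideanSpace ℝ (Fin n)) i ≠ -1 :=
      ae_all_iff.2 fun i => hnull i (-1) (by norm_num)
    filter_upwards [h1, h2] with x hx1 hx2
    refine Complex.continuous_ofReal.continuousAt.comp ?_
    unfold GG
    refine tendsto_finsetProd _ fun i _ => ?_
    have hc : ContinuousAt (g i) ((0 : ℝ) * θ i + (x : EuclideanSpace ℝ (Fin n)) i) := by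
      rw [zero_mul, zero_add]
      refine (hg i).cont _ fun h => ?_
      rcases eq_or_eq_neg_of_abs_eq h with h | h
      · exact hx1 i h
      · exact hx2 i h
    have h3 : ContinuousAt (fun s : ℝ => s * θ i + (x : EuclideanSpace ℝ (Fin n)) i) 0 := by
      fun_prop
    have := ContinuousAt.comp (f := fun s : ℝ => s * θ i + (x : EuclideanSpace ℝ (Fin n)) i)
      (g := g i) hc h3
    exact this

lemma inversion {g : Fin n → ℝ → ℝ} (hg : ∀ i, Adm (g i)) (hev : ∀ i x, g i (-x) = g i x)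
    (θ : EuclideanSpace ℝ (Fin n)) (hθ : ‖θ‖ = 1)
    (hint : Integrable fun t => ∏ i, ct (g i) (θ i * t)) :
    ∫ x : Hyp θ, GG g (x : EuclideanSpace ℝ (Fin n)) =
      (2 * π)⁻¹ * ∫ t, ∏ i, ct (g i) (θ i * t) := by
  have h2pi : (2 * π) ≠ 0 := by positivity
  have hF : 𝓕 (AA g θ) = fun w => ((∏ i, ct (g i) (θ i * (2 * π * w)) : ℝ) : ℂ) :=
    funext fun w => fourier_AA hg hev θ hθ w
  have hFi : Integrable (𝓕 (AA g θ)) := by
    rw [hF]
    exact (hint.comp_mul_left' h2pi).ofReal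
  have h := (AA_int hg θ hθ).fourierInv_fourier_eq hFi (cont_zero hg θ hθ)
  rw [Real.fourierInv_eq] at h
  have h1 : ∀ w : ℝ, 𝐞 ⟪w, (0 : ℝ)⟫ • 𝓕 (AA g θ) w =
      ((∏ i, ct (g i) (θ i * (2 * π * w)) : ℝ) : ℂ) := by
    intro w
    rw [hF, inner_zero_right]
    simp
  simp_rw [h1] at h
  rw [integral_complex_ofReal] at h
  have h2 : AA g θ 0 = ((∫ x : Hyp θ, GG g (x : EuclideanSpace ℝ (Fin n)) : ℝ) : ℂ) := by
    unfold AA
    rw [← integral_complex_ofReal]
    simp
  rw [h2] at h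
  have h3 := Complex.ofReal_injective h
  rw [← h3]
  have h4 := Measure.integral_comp_mul_left (fun t => ∏ i, ct (g i) (θ i * t)) (2 * π)
  rw [h4, abs_of_pos (by positivity)]
  simp

/-! ### section measures -/

/-- The cube `[-1,1]^n`. -/
def cube (n : ℕ) : Set (EuclideanSpace ℝ (Fin n)) := {x | ∀ i, |x i| ≤ 1}

/-- The standard Gaussian measure on a finite dimensional Euclidean space. -/
def stdGauss (F : Type*) [NormedAddCommGroup F] [InnerProductSpace ℝ F] [FiniteDimensional ℝ F]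
    [MeasurableSpace F] [BorelSpace F] : Measure F :=
  (volume : Measure F).withDensity fun x =>
    ENNReal.ofReal ((2 * π) ^ (-(Module.finrank ℝ F : ℝ) / 2) * exp (-‖x‖ ^ 2 / 2))

/-- The Gaussian measure of the section of the cube by `θ^⊥`. -/
def secM {n : ℕ} (θ : EuclideanSpace ℝ (Fin n)) : ℝ :=
  (stdGauss (Hyp θ) {x : Hyp θ | (x : EuclideanSpace ℝ (Fin n)) ∈ cube n}).toReal

/-- cut Gaussian density -/
def cg (x : ℝ) : ℝ := Set.indicator (Set.Icc (-1) 1) gam x

lemma cg_adm : Adm cg where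
  meas := gam_cont.measurable.indicator measurableSet_Icc
  nonneg x := Set.indicator_nonneg (fun y _ => (gam_pos y).le) x
  le x := Set.indicator_le_self' (fun y _ => (gam_pos y).le) x
  cont x hx := by
    rcases lt_or_gt_of_ne hx with h | h
    · have h' : x ∈ Set.Ioo (-1 : ℝ) 1 := by
        rw [abs_lt] at h; exact h
      have : cg =ᶠ[𝓝 x] gam := by
        filter_upwards [Ioo_mem_nhds h'.1 h'.2] with y hy
        exact Set.indicator_of_mem (Ioo_subset_Icc_self hy) _
      exact (gam_cont.continuousAt).congr this.symm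
    · have : cg =ᶠ[𝓝 x] fun _ => 0 := by
        have : ∀ᶠ y in 𝓝 x, 1 < |y| := (continuous_abs.tendsto x).eventually (lt_mem_nhds h)
        filter_upwards [this] with y hy
        refine Set.indicator_of_notMem (fun hy' => ?_) _
        rw [Set.mem_Icc, ← abs_le] at hy'
        linarith
      exact continuousAt_const.congr this.symm

lemma gam_adm : Adm gam where
  meas := gam_cont.measurable
  nonneg x := (gam_pos x).le
  le x := le_rfl
  cont x _ := gam_cont.continuousAt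

lemma gam_even (x : ℝ) : gam (-x) = gam x := by unfold gam; simp

lemma cg_even (x : ℝ) : cg (-x) = cg x := by
  unfold cg
  by_cases h : x ∈ Set.Icc (-1 : ℝ) 1
  · have h' : -x ∈ Set.Icc (-1 : ℝ) 1 := ⟨by linarith [h.2], by linarith [h.1]⟩
    rw [Set.indicator_of_mem h, Set.indicator_of_mem h', gam_even]
  · have h' : -x ∉ Set.Icc (-1 : ℝ) 1 := fun hh => h ⟨by linarith [hh.2], by linarith [hh.1]⟩
    rw [Set.indicator_of_notMem h, Set.indicator_of_notMem h']

lemma cube_closed (n : ℕ) : IsClosed (cube n) := by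
  have : cube n = ⋂ i, {x : EuclideanSpace ℝ (Fin n) | |x i| ≤ 1} := by
    ext x; simp [cube]
  rw [this]
  refine isClosed_iInter fun i => isClosed_le ?_ continuous_const
  fun_prop

lemma finrank_hyp {n : ℕ} (θ : EuclideanSpace ℝ (Fin n)) (hθ : ‖θ‖ = 1) :
    (Module.finrank ℝ (Hyp θ) : ℝ) = n - 1 := by
  have h0 : θ ≠ 0 := by
    intro h; rw [h] at hθ; simp at hθ
  have h1 := Submodule.finrank_add_finrank_orthogonal (ℝ ∙ θ)
  rw [finrank_span_singleton h0, finrank_euclideanSpace, Fintype.card_fin] at h1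
  have : (1 : ℝ) + (Module.finrank ℝ (Hyp θ) : ℝ) = n := by exact_mod_cast h1
  linarith

lemma secM_eq {n : ℕ} (θ : EuclideanSpace ℝ (Fin n)) (hθ : ‖θ‖ = 1) :
    secM θ = √(2 * π) * ∫ x : Hyp θ, GG (fun _ => cg) (x : EuclideanSpace ℝ (Fin n)) := by
  have hmeas : MeasurableSet {x : Hyp θ | (x : EuclideanSpace ℝ (Fin n)) ∈ cube n} :=
    (cube_closed n).measurableSet.preimage measurable_subtype_coe
  unfold secM stdGauss
  rw [withDensity_apply _ hmeas]
  have hint : Integrable (fun x : Hyp θ =>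
      (2 * π) ^ (-(Module.finrank ℝ (Hyp θ) : ℝ) / 2) * exp (-‖x‖ ^ 2 / 2)) :=
    (gauss_int (V := Hyp θ)).const_mul _
  rw [← ofReal_integral_eq_lintegral_ofReal hint.integrableOn
    (Eventually.of_forall fun x => by positivity), ENNReal.toReal_ofReal
    (integral_nonneg fun x => by positivity), ← integral_indicator hmeas, ← integral_const_mul]
  refine integral_congr_ae (Eventually.of_forall fun x => ?_)
  have hc : (2 * π) ^ (-(Module.finrank ℝ (Hyp θ) : ℝ) / 2) = √(2 * π) * (√(2 * π))⁻¹ ^ n := by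
    rw [finrank_hyp θ hθ, ← Real.rpow_natCast, Real.sqrt_eq_rpow, ← Real.rpow_neg (by positivity),
      ← Real.rpow_mul (by positivity), ← Real.rpow_add (by positivity)]
    congr 1; ring
  by_cases hx : (x : EuclideanSpace ℝ (Fin n)) ∈ cube n
  · rw [Set.indicator_of_mem (show x ∈ {x : Hyp θ | (x : EuclideanSpace ℝ (Fin n)) ∈ cube n}
      from hx)]
    have h1 : GG (fun _ => cg) (x : EuclideanSpace ℝ (Fin n)) =
        ∏ i, gam ((x : EuclideanSpace ℝ (Fin n)) i) := by
      unfold GG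
      refine Finset.prod_congr rfl fun i _ => ?_
      exact Set.indicator_of_mem (Set.mem_Icc.2 (abs_le.1 (hx i))) _
    simp only
    rw [h1, prod_gam, hc]
    simp only [Submodule.coe_norm]
    ring
  · rw [Set.indicator_of_notMem (show x ∉ {x : Hyp θ | (x : EuclideanSpace ℝ (Fin n)) ∈ cube n}
      from hx)]
    have h1 : GG (fun _ => cg) (x : EuclideanSpace ℝ (Fin n)) = 0 := by
      unfold cube at hx
      simp only [Set.mem_ofPred_eq, not_forall, not_le] at hx
      obtain ⟨i, hi⟩ := hx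
      unfold GG
      refine Finset.prod_eq_zero (Finset.mem_univ i) (Set.indicator_of_notMem (fun h => ?_) _)
      rw [Set.mem_Icc, ← abs_le] at h
      linarith
    simp only
    rw [h1, mul_zero]

/-- The section formula. -/
lemma secM_formula {n : ℕ} (θ : EuclideanSpace ℝ (Fin n)) (hθ : ‖θ‖ = 1)
    (hint : Integrable fun t => ∏ i, ct cg (θ i * t)) :
    secM θ = (√(2 * π))⁻¹ * ∫ t, ∏ i, ct cg (θ i * t) := by
  rw [secM_eq θ hθ, inversion (fun _ => cg_adm) (fun _ => cg_even) θ hθ hint, ← mul_assoc]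
  congr 1
  have h : (2 * π) = √(2 * π) * √(2 * π) := (Real.mul_self_sqrt (by positivity)).symm
  have h2 : √(2 * π) ≠ 0 := by positivity
  nth_rewrite 2 [h]
  field_simp

/-- replacing the first factor by the full Gaussian. -/
lemma secM_le {n : ℕ} (θ : EuclideanSpace ℝ (Fin n)) (hθ : ‖θ‖ = 1) (i₀ : Fin n)
    (hint : Integrable fun t => ∏ i, ct (if i = i₀ then gam else cg) (θ i * t)) :
    secM θ ≤ (√(2 * π))⁻¹ * ∫ t, ∏ i, ct (if i = i₀ then gam else cg) (θ i * t) := by
  have had : ∀ i, Adm (if i = i₀ then gam else cg) := by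
    intro i; split_ifs
    · exact gam_adm
    · exact cg_adm
  have hev : ∀ (i : Fin n) x, (if i = i₀ then gam else cg) (-x) = (if i = i₀ then gam else cg) x := by
    intro i x; split_ifs
    · exact gam_even x
    · exact cg_even x
  have h1 := inversion had hev θ hθ hint
  have h2 : ∫ x : Hyp θ, GG (fun _ => cg) (x : EuclideanSpace ℝ (Fin n)) ≤
      ∫ x : Hyp θ, GG (fun i => if i = i₀ then gam else cg) (x : EuclideanSpace ℝ (Fin n)) := by
    have hI : ∀ (g : Fin n → ℝ → ℝ), (∀ i, Adm (g i)) →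
        Integrable fun x : Hyp θ => GG g (x : EuclideanSpace ℝ (Fin n)) := by
      intro g hg
      refine Integrable.mono' ((gauss_int (V := Hyp θ)).const_mul ((√(2 * π))⁻¹ ^ n)) ?_ ?_
      · exact ((GG_meas hg).comp measurable_subtype_coe).aestronglyMeasurable
      · refine Eventually.of_forall fun z => ?_
        rw [Real.norm_eq_abs, abs_of_nonneg (GG_nonneg hg _)]
        exact GG_le hg _
    refine integral_mono (hI _ fun _ => cg_adm) (hI _ had) fun x => ?_
    unfold GG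
    refine Finset.prod_le_prod (fun i _ => cg_adm.nonneg _) fun i _ => ?_
    by_cases h : i = i₀
    · simp only [h, if_true]; exact cg_adm.le _
    · simp only [h, if_false]; exact le_rfl
  rw [secM_eq θ hθ]
  have h3 := mul_le_mul_of_nonneg_left h2 (Real.sqrt_nonneg (2 * π))
  refine h3.trans (le_of_eq ?_)
  rw [h1, ← mul_assoc]
  congr 1
  have h : (2 * π) = √(2 * π) * √(2 * π) := (Real.mul_self_sqrt (by positivity)).symm
  have h2 : √(2 * π) ≠ 0 := by positivity
  nth_rewrite 2 [h]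
  field_simp

/-- cosine transform of the Gaussian -/
lemma ct_gam (t : ℝ) : ct gam t = exp (-t ^ 2 / 2) := by
  have h := fourier_one gam_adm gam_even t
  have h2 := fourierIntegral_gaussian (b := 1 / 2) (by norm_num) (-t : ℂ)
  have h3 : ∀ x : ℝ, Complex.exp (((-t * x : ℝ) : ℂ) * Complex.I) * ((gam x : ℝ) : ℂ) =
      (((√(2 * π))⁻¹ : ℝ) : ℂ) * (Complex.exp (Complex.I * (-t : ℂ) * x) *
        Complex.exp (-(1 / 2) * (x : ℂ) ^ 2)) := by
    intro x
    unfold gam
    push_cast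
    have : Complex.exp (-(x : ℂ) ^ 2 / 2) = Complex.exp (-(1 / 2) * (x : ℂ) ^ 2) := by
      congr 1; ring
    rw [this]
    have : Complex.exp (-(t : ℂ) * x * Complex.I) = Complex.exp (Complex.I * (-t : ℂ) * x) := by
      congr 1; ring
    rw [this]; ring
  simp_rw [h3] at h
  rw [integral_const_mul, h2] at h
  have h4 : ((π : ℂ) / (1 / 2)) ^ (1 / 2 : ℂ) = ((√(2 * π) : ℝ) : ℂ) := by
    rw [Real.sqrt_eq_rpow, Complex.ofReal_cpow (by positivity)]
    push_cast
    congr 1; ring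
  rw [h4] at h
  have h5 : (((√(2 * π))⁻¹ : ℝ) : ℂ) * (((√(2 * π) : ℝ) : ℂ) *
      Complex.exp (-(-(t : ℂ)) ^ 2 / (4 * (1 / 2)))) = ((exp (-t ^ 2 / 2) : ℝ) : ℂ) := by
    rw [← mul_assoc, ← Complex.ofReal_mul, inv_mul_cancel₀ (by positivity)]
    push_cast
    rw [one_mul]
    congr 1; ring
  rw [h5] at h
  exact (Complex.ofReal_injective h).symm

end

end Agent238.GS
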