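import Pool.Agent.Helper238.GS.A

/-!
# The normalised cosine transform of the cut Gaussian
-/

open MeasureTheory Real Set Filter intervalIntegral
open scoped ENNReal Topology

namespace Agent238.GS

noncomputable section

/-- normalising constant `∫_{-1}^1 e^{-x²/2}` -/
def Zc : ℝ := ∫ x in (-1 : ℝ)..1, exp (-x ^ 2 / 2)

lemma Zc_pos : 0 < Zc := by
  unfold Zc
  refine intervalIntegral_pos_of_pos_on ?_ (fun x _ => by positivity) (by norm_num)
  exact (by fun_prop : Continuous fun x : ℝ => exp (-x ^ 2 / 2)).intervalIntegrable _ _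

/-- normalised cosine transform -/
def ph (t : ℝ) : ℝ := Zc⁻¹ * ∫ x in (-1 : ℝ)..1, exp (-x ^ 2 / 2) * cos (t * x)

lemma ct_cg (t : ℝ) : ct cg t = (√(2 * π))⁻¹ * Zc * ph t := by
  unfold ct ph cg
  have h1 : (fun x => Set.indicator (Set.Icc (-1 : ℝ) 1) gam x * cos (t * x)) =
      Set.indicator (Set.Icc (-1 : ℝ) 1) (fun x => gam x * cos (t * x)) := by
    funext x
    by_cases h : x ∈ Set.Icc (-1 : ℝ) 1
    · rw [Set.indicator_of_mem h, Set.indicator_of_mem h]
    · rw [Set.indicator_of_notMem h, Set.indicator_of_notMem h, zero_mul]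
  rw [h1, MeasureTheory.integral_indicator measurableSet_Icc, integral_Icc_eq_integral_Ioc,
    ← intervalIntegral.integral_of_le (by norm_num)]
  have h2 : ∀ x : ℝ, gam x * cos (t * x) =
      (√(2 * π))⁻¹ * (exp (-x ^ 2 / 2) * cos (t * x)) := by
    intro x; unfold gam; ring
  simp_rw [h2]
  rw [intervalIntegral.integral_const_mul, mul_assoc, mul_inv_cancel_left₀ Zc_pos.ne']

lemma ph_zero : ph 0 = 1 := by
  unfold ph
  simp only [zero_mul, cos_zero, mul_one]
  exact inv_mul_cancel₀ Zc_pos.ne'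

lemma ph_even (t : ℝ) : ph (-t) = ph t := by
  unfold ph; simp [neg_mul, cos_neg]

lemma ph_abs (t : ℝ) : ph |t| = ph t := by
  rcases abs_choice t with h | h <;> rw [h]
  exact ph_even t

/-- moments -/
def mo (k : ℕ) : ℝ := Zc⁻¹ * ∫ x in (-1 : ℝ)..1, exp (-x ^ 2 / 2) * x ^ (2 * k)

/-- the constant `K` -/
def Kc : ℝ := Zc⁻¹ * (2 * exp (-1 / 2))

lemma mo_zero : mo 0 = 1 := by
  unfold mo
  simp only [mul_zero, pow_zero, mul_one]
  exact inv_mul_cancel₀ Zc_pos.ne'

lemma mo_nonneg (k : ℕ) : 0 ≤ mo k := by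
  unfold mo
  refine mul_nonneg (inv_nonneg.2 Zc_pos.le) (intervalIntegral.integral_nonneg (by norm_num) fun x _ => ?_)
  have : 0 ≤ x ^ (2 * k) := by rw [pow_mul]; positivity
  positivity

lemma mo_le_one (k : ℕ) : mo k ≤ 1 := by
  rw [← mo_zero]
  unfold mo
  refine mul_le_mul_of_nonneg_left ?_ (inv_nonneg.2 Zc_pos.le)
  refine intervalIntegral.integral_mono_on (by norm_num) ?_ ?_ fun x hx => ?_
  · exact (by fun_prop : Continuous fun x : ℝ => exp (-x ^ 2 / 2) * x ^ (2 * k)).intervalIntegrable _ _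
  · exact (by fun_prop : Continuous fun x : ℝ => exp (-x ^ 2 / 2) * x ^ (2 * 0)).intervalIntegrable _ _
  · have : x ^ (2 * k) ≤ 1 := by
      rw [pow_mul]
      refine pow_le_one₀ (sq_nonneg x) ?_
      have := abs_le.2 ⟨hx.1, hx.2⟩
      rw [← sq_abs]; nlinarith [abs_nonneg x]
    rw [mul_zero, pow_zero]
    exact mul_le_mul_of_nonneg_left this (exp_pos _).le

lemma mo_succ (k : ℕ) : mo (k + 1) = (2 * k + 1) * mo k - Kc := by
  have h : ∫ x in (-1 : ℝ)..1, (-(exp (-x ^ 2 / 2) * x ^ (2 * (k + 1))) +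
      (2 * k + 1) * (exp (-x ^ 2 / 2) * x ^ (2 * k))) = 2 * exp (-1 / 2) := by
    have hd : ∀ x ∈ uIcc (-1 : ℝ) 1, HasDerivAt (fun x : ℝ => exp (-x ^ 2 / 2) * x ^ (2 * k + 1))
        (-(exp (-x ^ 2 / 2) * x ^ (2 * (k + 1))) +
      (2 * k + 1) * (exp (-x ^ 2 / 2) * x ^ (2 * k))) x := by
      intro x _
      have h1 : HasDerivAt (fun x : ℝ => -x ^ 2 / 2) (-x) x := by
        have := ((hasDerivAt_pow 2 x).neg).div_const 2
        refine this.congr_deriv ?_
        norm_num
        ring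
      have h2 := h1.exp.mul (hasDerivAt_pow (2 * k + 1) x)
      refine h2.congr_deriv ?_
      have e : 2 * k + 1 - 1 = 2 * k := by omega
      rw [e]
      push_cast
      ring
    rw [integral_eq_sub_of_hasDerivAt hd]
    · have hodd : ((-1 : ℝ)) ^ (2 * k + 1) = -1 := by
        rw [pow_succ, pow_mul]; norm_num
      rw [hodd]
      norm_num
      ring
    · exact (by fun_prop : Continuous fun x : ℝ => (-(exp (-x ^ 2 / 2) * x ^ (2 * (k + 1))) +
      (2 * k + 1) * (exp (-x ^ 2 / 2) * x ^ (2 * k)))).intervalIntegrable _ _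
  rw [intervalIntegral.integral_add, intervalIntegral.integral_neg,
    intervalIntegral.integral_const_mul] at h
  · unfold mo Kc
    rw [← h]
    ring
  · exact (by fun_prop : Continuous fun x : ℝ => -(exp (-x ^ 2 / 2) * x ^ (2 * (k + 1)))).intervalIntegrable _ _
  · exact (by fun_prop : Continuous fun x : ℝ => (2 * (k : ℝ) + 1) * (exp (-x ^ 2 / 2) * x ^ (2 * k))).intervalIntegrable _ _

/-- `mo k = A_k - B_k K` with integers -/
def cA : ℕ → ℕ
  | 0 => 1
  | k + 1 => (2 * k + 1) * cA k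

def cB : ℕ → ℕ
  | 0 => 0
  | k + 1 => (2 * k + 1) * cB k + 1

lemma mo_eq (k : ℕ) : mo k = cA k - cB k * Kc := by
  induction k with
  | zero => simp [mo_zero, cA, cB]
  | succ k ih =>
    rw [mo_succ, ih, cA, cB]
    push_cast; ring

lemma Kc_bounds : ((cA 30 : ℕ) - 1 : ℝ) / (cB 30 : ℕ) ≤ Kc ∧ Kc ≤ (cA 30 : ℕ) / (cB 30 : ℕ) := by
  have h0 := mo_nonneg 30
  have h1 := mo_le_one 30
  rw [mo_eq] at h0 h1
  have hB : (0 : ℝ) < ((cB 30 : ℕ) : ℝ) := by
    have : 0 < cB 30 := by decide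
    exact_mod_cast this
  constructor
  · rw [div_le_iff₀ hB]; linarith
  · rw [le_div_iff₀ hB]; linarith

/-- Taylor estimate for the cosine -/
lemma cos_taylor (N : ℕ) (v : ℝ) (hv : |v| / (2 * N + 1) ≤ 1 / 2) :
    |cos v - ∑ k ∈ Finset.range N, (-1) ^ k * v ^ (2 * k) / (2 * k).factorial| ≤
      |v| ^ (2 * N) / (2 * N).factorial * 2 := by
  have h := Complex.exp_bound' (x := (v : ℂ) * Complex.I) (n := 2 * N) (by
    rw [norm_mul, Complex.norm_I, mul_one, Complex.norm_real, Real.norm_eq_abs]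
    push_cast
    simpa using hv)
  rw [norm_mul, Complex.norm_I, mul_one, Complex.norm_real, Real.norm_eq_abs] at h
  refine le_trans ?_ h
  have h2 := Complex.abs_re_le_norm (Complex.exp ((v : ℂ) * Complex.I) -
    ∑ m ∈ Finset.range (2 * N), ((v : ℂ) * Complex.I) ^ m / (m.factorial : ℂ))
  refine le_trans (le_of_eq ?_) h2
  congr 1
  rw [Complex.sub_re, Complex.exp_ofReal_mul_I_re]
  congr 1
  clear h2 h hv
  induction N with
  | zero => simp
  | succ N ih =>
    rw [Finset.sum_range_succ, ih, show 2 * (N + 1) = 2 * N + 1 + 1 by ring,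
      Finset.sum_range_succ, Finset.sum_range_succ, Complex.add_re, Complex.add_re]
    have e1 : (((v : ℂ) * Complex.I) ^ (2 * N) / ((2 * N).factorial : ℂ)).re =
        (-1) ^ N * v ^ (2 * N) / (2 * N).factorial := by
      rw [mul_pow, pow_mul Complex.I, Complex.I_sq]
      have : ((v : ℂ) ^ (2 * N) * (-1) ^ N / ((2 * N).factorial : ℂ)) =
          (((-1) ^ N * v ^ (2 * N) / (2 * N).factorial : ℝ) : ℂ) := by
        push_cast; ring
      rw [this, Complex.ofReal_re]
    have e2 : (((v : ℂ) * Complex.I) ^ (2 * N + 1) / ((2 * N + 1).factorial : ℂ)).re = 0 := by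
      rw [mul_pow, pow_succ Complex.I, pow_mul Complex.I, Complex.I_sq]
      have : ((v : ℂ) ^ (2 * N + 1) * ((-1) ^ N * Complex.I) / ((2 * N + 1).factorial : ℂ)) =
          (((-1) ^ N * v ^ (2 * N + 1) / (2 * N + 1).factorial : ℝ) : ℂ) * Complex.I := by
        push_cast; ring
      rw [this, Complex.re_ofReal_mul, Complex.I_re, mul_zero]
    rw [e1, e2, add_zero]

/-- Taylor estimate for `ph` -/
lemma ph_taylor (N : ℕ) (u : ℝ) (hu : |u| / (2 * N + 1) ≤ 1 / 2) :
    |ph u - ∑ k ∈ Finset.range N, (-1) ^ k * mo k * u ^ (2 * k) / (2 * k).factorial| ≤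
      |u| ^ (2 * N) / (2 * N).factorial * 2 := by
  have hsum : ∑ k ∈ Finset.range N, (-1) ^ k * mo k * u ^ (2 * k) / (2 * k).factorial =
      Zc⁻¹ * ∫ x in (-1 : ℝ)..1, exp (-x ^ 2 / 2) *
        ∑ k ∈ Finset.range N, (-1) ^ k * (u * x) ^ (2 * k) / (2 * k).factorial := by
    have h1 : ∀ x : ℝ, exp (-x ^ 2 / 2) *
        ∑ k ∈ Finset.range N, (-1) ^ k * (u * x) ^ (2 * k) / (2 * k).factorial =
        ∑ k ∈ Finset.range N, ((-1) ^ k * u ^ (2 * k) / (2 * k).factorial) *
          (exp (-x ^ 2 / 2) * x ^ (2 * k)) := by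
      intro x
      rw [Finset.mul_sum]
      refine Finset.sum_congr rfl fun k _ => ?_
      rw [mul_pow]; ring
    simp_rw [h1]
    rw [intervalIntegral.integral_finsetSum]
    · rw [Finset.mul_sum]
      refine Finset.sum_congr rfl fun k _ => ?_
      rw [intervalIntegral.integral_const_mul]
      unfold mo; ring
    · intro k _
      exact (by fun_prop : Continuous fun x : ℝ => ((-1) ^ k * u ^ (2 * k) / (2 * k).factorial : ℝ) *
          (exp (-x ^ 2 / 2) * x ^ (2 * k))).intervalIntegrable _ _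
  rw [hsum]
  unfold ph
  rw [← mul_sub, ← intervalIntegral.integral_sub, abs_mul, abs_of_pos (inv_pos.2 Zc_pos)]
  · have hb : ∀ x ∈ Set.Ioc (-1 : ℝ) 1, ‖exp (-x ^ 2 / 2) * cos (u * x) - exp (-x ^ 2 / 2) *
        ∑ k ∈ Finset.range N, (-1) ^ k * (u * x) ^ (2 * k) / (2 * k).factorial‖ ≤
        exp (-x ^ 2 / 2) * (|u| ^ (2 * N) / (2 * N).factorial * 2) := by
      intro x hx
      have hx1 : |x| ≤ 1 := abs_le.2 ⟨hx.1.le, hx.2⟩
      rw [← mul_sub, Real.norm_eq_abs, abs_mul, abs_of_pos (exp_pos _)]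
      refine mul_le_mul_of_nonneg_left ?_ (exp_pos _).le
      have hux : |u * x| ≤ |u| := by
        rw [abs_mul]; exact mul_le_of_le_one_right (abs_nonneg _) hx1
      refine (cos_taylor N (u * x) ?_).trans ?_
      · exact (div_le_div_of_nonneg_right hux (by positivity)).trans hu
      · gcongr
    have := intervalIntegral.norm_integral_le_of_norm_le (μ := volume) (a := (-1 : ℝ)) (b := 1)
      (by norm_num) (Filter.Eventually.of_forall fun x => hb x)
      ((by fun_prop : Continuous fun x : ℝ => exp (-x ^ 2 / 2) *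
        (|u| ^ (2 * N) / (2 * N).factorial * 2)).intervalIntegrable _ _)
    rw [Real.norm_eq_abs, intervalIntegral.integral_mul_const] at this
    have h2 := mul_le_mul_of_nonneg_left this (inv_pos.2 Zc_pos).le
    refine h2.trans (le_of_eq ?_)
    change Zc⁻¹ * (Zc * _) = _
    rw [inv_mul_cancel_left₀ Zc_pos.ne']
  · exact (by fun_prop : Continuous fun x : ℝ => exp (-x ^ 2 / 2) * cos (u * x)).intervalIntegrable _ _
  · exact (by fun_prop : Continuous fun x : ℝ => exp (-x ^ 2 / 2) *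
        ∑ k ∈ Finset.range N, (-1) ^ k * (u * x) ^ (2 * k) / (2 * k).factorial).intervalIntegrable _ _

/-- the ODE satisfied by `ph` -/
lemma ph_deriv (u : ℝ) : HasDerivAt ph (Kc * sin u - u * ph u) u := by
  have h1 : HasDerivAt (fun t => ∫ x in (-1 : ℝ)..1, exp (-x ^ 2 / 2) * cos (t * x))
      (∫ x in (-1 : ℝ)..1, exp (-x ^ 2 / 2) * (-sin (u * x) * x)) u := by
    refine (intervalIntegral.hasDerivAt_integral_of_dominated_loc_of_deriv_le
      (F := fun t x => exp (-x ^ 2 / 2) * cos (t * x))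
      (F' := fun t x => exp (-x ^ 2 / 2) * (-sin (t * x) * x)) (x₀ := u)
      (s := Set.univ) (bound := fun _ => 1) Filter.univ_mem ?_ ?_ ?_ ?_ ?_ ?_).2
    · exact Filter.Eventually.of_forall fun t => (by fun_prop : Continuous fun x : ℝ =>
        exp (-x ^ 2 / 2) * cos (t * x)).aestronglyMeasurable
    · exact (by fun_prop : Continuous fun x : ℝ => exp (-x ^ 2 / 2) * cos (u * x)).intervalIntegrable _ _
    · exact (by fun_prop : Continuous fun x : ℝ =>
        exp (-x ^ 2 / 2) * (-sin (u * x) * x)).aestronglyMeasurable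
    · refine Filter.Eventually.of_forall fun x hx t _ => ?_
      rw [Set.uIoc_of_le (by norm_num)] at hx
      have hx1 : |x| ≤ 1 := abs_le.2 ⟨hx.1.le, hx.2⟩
      rw [Real.norm_eq_abs, abs_mul, abs_mul, abs_neg, abs_of_pos (exp_pos _)]
      have h1 : exp (-x ^ 2 / 2) ≤ 1 := Real.exp_le_one_iff.2 (by nlinarith [sq_nonneg x])
      have h2 := abs_sin_le_one (t * x)
      calc exp (-x ^ 2 / 2) * (|sin (t * x)| * |x|) ≤ 1 * (1 * 1) := by gcongr
        _ = 1 := by norm_num
    · exact (continuous_const).intervalIntegrable _ _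
    · refine Filter.Eventually.of_forall fun x _ t _ => ?_
      have := ((hasDerivAt_mul_const x (x := t)).cos).const_mul (exp (-x ^ 2 / 2))
      exact this
  have h2 := h1.const_mul Zc⁻¹
  refine h2.congr_deriv ?_
  have h3 : ∫ x in (-1 : ℝ)..1, (-x * exp (-x ^ 2 / 2) * sin (u * x) +
      u * (exp (-x ^ 2 / 2) * cos (u * x))) = 2 * exp (-1 / 2) * sin u := by
    have hd : ∀ x ∈ uIcc (-1 : ℝ) 1, HasDerivAt (fun x : ℝ => exp (-x ^ 2 / 2) * sin (u * x))
        (-x * exp (-x ^ 2 / 2) * sin (u * x) + u * (exp (-x ^ 2 / 2) * cos (u * x))) x := by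
      intro x _
      have h1 : HasDerivAt (fun x : ℝ => -x ^ 2 / 2) (-x) x := by
        have := ((hasDerivAt_pow 2 x).neg).div_const 2
        refine this.congr_deriv ?_
        norm_num
        ring
      have h2 : HasDerivAt (fun x : ℝ => sin (u * x)) (cos (u * x) * u) x := by
        have := (hasDerivAt_id x).const_mul u
        simp only [id, mul_one] at this
        exact this.sin
      refine (h1.exp.mul h2).congr_deriv ?_
      ring
    rw [integral_eq_sub_of_hasDerivAt hd]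
    · norm_num
      ring
    · exact (by fun_prop : Continuous fun x : ℝ => (-x * exp (-x ^ 2 / 2) * sin (u * x) +
        u * (exp (-x ^ 2 / 2) * cos (u * x)))).intervalIntegrable _ _
  rw [intervalIntegral.integral_add, intervalIntegral.integral_const_mul] at h3
  · have h4 : ∫ x in (-1 : ℝ)..1, exp (-x ^ 2 / 2) * (-sin (u * x) * x) =
        ∫ x in (-1 : ℝ)..1, -x * exp (-x ^ 2 / 2) * sin (u * x) := by
      refine intervalIntegral.integral_congr fun x _ => ?_
      ring
    rw [h4]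
    unfold Kc ph
    have h5 : ∫ x in (-1 : ℝ)..1, -x * exp (-x ^ 2 / 2) * sin (u * x) =
        2 * exp (-1 / 2) * sin u - u * ∫ x in (-1 : ℝ)..1, exp (-x ^ 2 / 2) * cos (u * x) := by
      linarith
    rw [h5]; ring
  · exact (by fun_prop : Continuous fun x : ℝ => -x * exp (-x ^ 2 / 2) * sin (u * x)).intervalIntegrable _ _
  · exact (by fun_prop : Continuous fun x : ℝ => u * (exp (-x ^ 2 / 2) * cos (u * x))).intervalIntegrable _ _

lemma ph_cont : Continuous ph :=
  continuous_iff_continuousAt.2 fun u => (ph_deriv u).continuousAt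

lemma ph_abs_le (u : ℝ) : |ph u| ≤ 1 := by
  unfold ph
  rw [abs_mul, abs_of_pos (inv_pos.2 Zc_pos)]
  have hb : ∀ x ∈ Set.Ioc (-1 : ℝ) 1, ‖exp (-x ^ 2 / 2) * cos (u * x)‖ ≤ exp (-x ^ 2 / 2) := by
    intro x _
    rw [Real.norm_eq_abs, abs_mul, abs_of_pos (exp_pos _)]
    exact mul_le_of_le_one_right (exp_pos _).le (abs_cos_le_one _)
  have := intervalIntegral.norm_integral_le_of_norm_le (μ := volume) (a := (-1 : ℝ)) (b := 1)
    (by norm_num) (Filter.Eventually.of_forall fun x => hb x)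
    ((by fun_prop : Continuous fun x : ℝ => exp (-x ^ 2 / 2)).intervalIntegrable _ _)
  rw [Real.norm_eq_abs] at this
  have h2 := mul_le_mul_of_nonneg_left this (inv_pos.2 Zc_pos).le
  refine h2.trans (le_of_eq ?_)
  exact inv_mul_cancel₀ Zc_pos.ne'

end

end Agent238.GS
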