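import Pool.Agent.Helper238.GS.B
import Pool.Agent.Helper238.Alg

/-!
# Certified enclosures for `ph`
-/

set_option autoImplicit false

open Real Pool.Agent.Helper238

namespace Agent238.GS

/-- integer coefficients (units `2^-64`, variable `z = u^2/64`) -/
def cpI : List Int := [18446744073709551616, -171849923734660951413, 517887384426336821007, -763147790514017500666, 664057398359482569059, -380722957854354265072, 154525161091666782489, -46709384929563267209, 10919845987723767152, -2032875934279684163, 308446251474762115, -38873010251051388, 4133804048328629, -375881313188823, 29558443332294, -2030051507501, 122815212762, -6594750455, 316415970, -13646933]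
def csI : List Int := [18446744073709551616, -196765270119568550571, 629648864382619361826, -959464936202086646592, 852857721068521463638, -496208128621685215207, 203572565588383678034, -62041162845983597115, 14597920669643199321, -2731774628237323850, 416270419540925539, -52650804052607183, 5616085765611433, -512007819087082, 40355296085681, -2777138655359, 168311433658, -9052043491, 434933021, -18782533]
def cs1I : List Int := [-3074457345618258603, 19676527011956855057, -44974918884472811559, 53303607566782591477, -38766260048569157438, 19084928023910969816, -6785752186279455934, 1824740083705399915, -384155807095873666, 65042253053269615, -9049356946541860, 1053016081052144, -104001588252064, 8827721018743, -650891872350, 42077858415, -2404449052, 122324912, -5576064]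

/-- Horner scheme -/
def hor {α : Type} [Alg α] : List α → α → α
  | [], _ => Alg.cst 0 1
  | c :: l, Z => Alg.add c (Alg.mul Z (hor l Z))

def rawC (e : Nat) (n : Int) : TM := ⟨n, 0, 0, e⟩

theorem hor_mem {x y : ℝ} (hx : |x| ≤ 1) (hy : |y| ≤ 1) {cs : List TM} {rs : List ℝ}
    (h : List.Forall₂ (Mem x y) cs rs) {Z : TM} {z : ℝ} (hZ : Mem x y Z z) :
    Mem x y (hor cs Z) (hor rs z) := by
  induction h with
  | nil => exact Mem.cst 0 1 (by norm_num)
  | cons h1 _ ih => exact h1.add (hZ.mul hx hy ih)

theorem hor_eq (f : ℕ → ℝ) (n : ℕ) (z : ℝ) :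
    hor ((List.range n).map f) z = ∑ k ∈ Finset.range n, f k * z ^ k := by
  induction n generalizing f with
  | zero => simp [hor]; show ((0 : ℤ) : ℝ) / ((1 : ℕ) : ℝ) = 0; simp
  | succ n ih =>
    rw [List.range_succ_eq_map, List.map_cons, List.map_map, hor]
    have := ih (f ∘ Nat.succ)
    rw [this, Finset.sum_range_succ']
    show f 0 + z * _ = _
    rw [Finset.mul_sum, pow_zero, mul_one, add_comm]
    congr 1
    refine Finset.sum_congr rfl fun k _ => ?_
    simp only [Function.comp, Nat.succ_eq_add_one]
    ring

theorem raw_mem {x y : ℝ} (l : List Int) (f : ℕ → ℝ) (e : ℕ)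
    (h : ∀ k, k < l.length → |f k * 18446744073709551616 - ((l.getD k 0 : ℤ) : ℝ)| ≤ e) :
    List.Forall₂ (Mem x y) (l.map (rawC e)) ((List.range l.length).map f) := by
  rw [List.forall₂_iff_get]
  refine ⟨by simp, fun i h1 h2 => ?_⟩
  have hi : i < l.length := by simpa using h1
  have := h i hi
  simp only [List.get_eq_getElem, List.getElem_map, List.getElem_range]
  unfold Mem rawC
  simp only [Int.cast_zero, zero_mul, add_zero]
  rw [List.getD_eq_getElem _ _ hi] at this
  exact this

/-- real coefficients -/
noncomputable def cpR (k : ℕ) : ℝ := (-1) ^ k * mo k * 64 ^ k / (2 * k).factorial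
noncomputable def csR (k : ℕ) : ℝ := (-1) ^ k * 64 ^ k / (2 * k + 1).factorial
noncomputable def cs1R (k : ℕ) : ℝ := (-1) ^ (k + 1) * (k + 1) * 64 ^ k / (2 * k + 3).factorial

theorem cp_ok (k : ℕ) (hk : k < cpI.length) :
    |cpR k * 18446744073709551616 - ((cpI.getD k 0 : ℤ) : ℝ)| ≤ (1 : ℕ) := by
  have hK := Kc_bounds
  have h30 : cA 30 = 29215606371473169285018060091249259296875 := by decide +kernel
  have h30' : cB 30 = 41214050823408760878085909697213290529568 := by decide +kernel
  rw [h30, h30'] at hK
  push_cast at hK
  have hl : cpI.length = 20 := by decide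
  rw [hl] at hk
  unfold cpR
  rw [mo_eq, abs_le]
  interval_cases k <;> norm_num [cpI, cA, cB, Nat.factorial] at hK ⊢ <;>
    constructor <;> linarith [hK.1, hK.2]

theorem cs_ok (k : ℕ) (hk : k < csI.length) :
    |csR k * 18446744073709551616 - ((csI.getD k 0 : ℤ) : ℝ)| ≤ (1 : ℕ) := by
  have hl : csI.length = 20 := by decide
  rw [hl] at hk
  unfold csR
  rw [abs_le]
  interval_cases k <;> norm_num [csI, Nat.factorial]

theorem cs1_ok (k : ℕ) (hk : k < cs1I.length) :
    |cs1R k * 18446744073709551616 - ((cs1I.getD k 0 : ℤ) : ℝ)| ≤ (1 : ℕ) := by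
  have hl : cs1I.length = 19 := by decide
  rw [hl] at hk
  unfold cs1R
  rw [abs_le]
  interval_cases k <;> norm_num [cs1I, Nat.factorial]

end Agent238.GS
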