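import Pool.Agent.Helper238.GS.R4

/-!
# Quadrature of `u^k ph(u)^N`
-/

open MeasureTheory Real Set Filter Pool.Agent.Helper238
open scoped ENNReal Topology Nat

namespace Agent238.GS

def tpow (t : TM) : Nat → TM
  | 0 => TM.cst 1 1
  | k + 1 => TM.mul (tpow t k) t

theorem tpow_snd {F : TM → TM} {f : ℝ → ℝ} {b : ℝ} (hF : Snd F f b) (k : ℕ) :
    Snd (fun W => tpow (F W) k) (fun w => f w ^ k) b := by
  induction k with
  | zero =>
    refine (Snd.cst 1 1 (by norm_num) b).congr fun w _ _ => ?_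
    norm_num
  | succ k ih =>
    refine (ih.mul hF).congr fun w _ _ => ?_
    rw [pow_succ]

def tJ (k N : Nat) (W : TM) : TM := TM.mul (tpow W k) (tpow (tPh W) N)

theorem tJ_snd (k N : ℕ) : Snd (tJ k N) (fun w => w ^ k * ph (8 * w) ^ N) (4 / 5) :=
  (tpow_snd (Snd.id _) k).mul (tpow_snd tPh_snd N)

/-- `∫_0^u v^k ph(v)^N` -/
noncomputable def JJ (k N : ℕ) (u : ℝ) : ℝ := ∫ v in (0 : ℝ)..u, v ^ k * ph v ^ N

theorem JJ_scale (k N : ℕ) (w : ℝ) :
    JJ k N (8 * w) = 8 ^ (k + 1) * ∫ v in (0 : ℝ)..w, v ^ k * ph (8 * v) ^ N := by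
  unfold JJ
  have h := intervalIntegral.mul_integral_comp_mul_left (f := fun v => v ^ k * ph v ^ N) (a := 0) (b := w) 8
  rw [mul_zero] at h
  rw [← h, pow_succ', mul_assoc]
  congr 1
  rw [← intervalIntegral.integral_const_mul]
  refine intervalIntegral.integral_congr fun v _ => ?_
  show (8 * v) ^ k * ph (8 * v) ^ N = 8 ^ k * (v ^ k * ph (8 * v) ^ N)
  rw [mul_pow]; ring

theorem JJ_bounds (k N h n : ℕ) (hh : 0 < h) (hb : (2 * (n : ℝ) * h) / 18446744073709551616 ≤ 4 / 5) :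
    8 ^ (k + 1) * ((2 * h : ℝ) / 18446744073709551616 * ((qlo (tJ k N) h n h : ℤ) / 18446744073709551616)) ≤
      JJ k N (8 * ((2 * (n : ℝ) * h) / 18446744073709551616)) ∧
    JJ k N (8 * ((2 * (n : ℝ) * h) / 18446744073709551616)) ≤
      8 ^ (k + 1) * ((2 * h : ℝ) / 18446744073709551616 * ((qup (tJ k N) h n h : ℤ) / 18446744073709551616)) := by
  have hc : Continuous (fun w : ℝ => w ^ k * ph (8 * w) ^ N) :=
    (continuous_pow k).mul ((ph_cont.comp (by fun_prop)).pow N)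
  have e1 : (((h : ℤ) : ℝ) + (2 * n - 1) * h) = 2 * n * h := by push_cast; ring
  have e2 : (((h : ℤ) : ℝ) - h) = 0 := by push_cast; ring
  have := quad_sound (tJ_snd k N) hc h hh n (h : ℤ) (by rw [e2]) (by rw [e1]; exact hb)
  rw [e1, e2, zero_div] at this
  rw [JJ_scale]
  exact ⟨mul_le_mul_of_nonneg_left this.1 (by positivity), mul_le_mul_of_nonneg_left this.2 (by positivity)⟩

end Agent238.GS
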