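import Pool.Agent.Helper238.GS.P1

/-!
# Numerical certificates
-/

open MeasureTheory Real Set Filter Pool.Agent.Helper238
open scoped ENNReal Topology Nat

namespace Agent238.GS

noncomputable section

theorem JJ_lo {k N h n : ℕ} {A : ℤ} {v u : ℝ} (hh : 0 < h)
    (hq : A ≤ qlo (tJ k N) h n (h : ℤ)) (hb : (2 * (n : ℝ) * h) / 18446744073709551616 ≤ 4 / 5)
    (hu : u = 8 * ((2 * (n : ℝ) * h) / 18446744073709551616))
    (hv : v ≤ 8 ^ (k + 1) * ((2 * h : ℝ) / 18446744073709551616 * ((A : ℝ) / 18446744073709551616))) :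
    v ≤ JJ k N u := by
  rw [hu]
  refine (hv.trans ?_).trans (JJ_bounds k N h n hh hb).1
  have : (A : ℝ) ≤ (qlo (tJ k N) h n (h : ℤ) : ℝ) := by exact_mod_cast hq
  gcongr

theorem JJ_up {k N h n : ℕ} {A : ℤ} {v u : ℝ} (hh : 0 < h)
    (hq : qup (tJ k N) h n (h : ℤ) ≤ A) (hb : (2 * (n : ℝ) * h) / 18446744073709551616 ≤ 4 / 5)
    (hu : u = 8 * ((2 * (n : ℝ) * h) / 18446744073709551616))
    (hv : 8 ^ (k + 1) * ((2 * h : ℝ) / 18446744073709551616 * ((A : ℝ) / 18446744073709551616)) ≤ v) :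
    JJ k N u ≤ v := by
  rw [hu]
  refine (JJ_bounds k N h n hh hb).2.trans (le_trans ?_ hv)
  have : (qup (tJ k N) h n (h : ℤ) : ℝ) ≤ (A : ℝ) := by exact_mod_cast hq
  gcongr

def uu5a : ℝ := 8 * ((2 * ((64 : ℕ) : ℝ) * ((43443021027102744 : ℕ) : ℝ)) / 18446744073709551616)

theorem q5a4 : (123309802062872309 : ℤ) ≤ qlo (tJ 4 5) 43443021027102744 64 ((43443021027102744 : ℕ) : ℤ) := by decide +kernel
theorem J5a4 : (1031711103 / 1000000000 : ℝ) ≤ JJ 4 5 uu5a :=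
  JJ_lo (by norm_num) q5a4 (by norm_num) rfl (by norm_num)

theorem q5a6 : (4870766452622792 : ℤ) ≤ qlo (tJ 6 5) 43443021027102744 64 ((43443021027102744 : ℕ) : ℤ) := by decide +kernel
theorem J5a6 : (2608181344 / 1000000000 : ℝ) ≤ JJ 6 5 uu5a :=
  JJ_lo (by norm_num) q5a6 (by norm_num) rfl (by norm_num)

theorem q5a8 : qup (tJ 8 5) 43443021027102744 64 ((43443021027102744 : ℕ) : ℤ) ≤ (245541614586565 : ℤ) := by decide +kernel
theorem J5a8 : JJ 8 5 uu5a ≤ (8414834122 / 1000000000 : ℝ) :=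
  JJ_up (by norm_num) q5a8 (by norm_num) rfl (by norm_num)

theorem q5a10 : qup (tJ 10 5) 43443021027102744 64 ((43443021027102744 : ℕ) : ℤ) ≤ (14200836627524 : ℤ) := by decide +kernel
theorem J5a10 : JJ 10 5 uu5a ≤ (31146866197 / 1000000000 : ℝ) :=
  JJ_up (by norm_num) q5a10 (by norm_num) rfl (by norm_num)

theorem q5a12 : qup (tJ 12 5) 43443021027102744 64 ((43443021027102744 : ℕ) : ℤ) ≤ (905384129520 : ℤ) := by decide +kernel
theorem J5a12 : JJ 12 5 uu5a ≤ (127090555369 / 1000000000 : ℝ) :=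
  JJ_up (by norm_num) q5a12 (by norm_num) rfl (by norm_num)

def uu5b : ℝ := 8 * ((2 * ((64 : ℕ) : ℝ) * ((38893678519983040 : ℕ) : ℝ)) / 18446744073709551616)

theorem q5b4 : (127612998433129947 : ℤ) ≤ qlo (tJ 4 5) 38893678519983040 64 ((38893678519983040 : ℕ) : ℤ) := by decide +kernel
theorem J5b4 : (955904308 / 1000000000 : ℝ) ≤ JJ 4 5 uu5b :=
  JJ_lo (by norm_num) q5b4 (by norm_num) rfl (by norm_num)

theorem q5b6 : (4624663080193911 : ℤ) ≤ qlo (tJ 6 5) 38893678519983040 64 ((38893678519983040 : ℕ) : ℤ) := by decide +kernel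
theorem J5b6 : (2217070883 / 1000000000 : ℝ) ≤ JJ 6 5 uu5b :=
  JJ_lo (by norm_num) q5b6 (by norm_num) rfl (by norm_num)

theorem q5b8 : qup (tJ 8 5) 38893678519983040 64 ((38893678519983040 : ℕ) : ℤ) ≤ (206960683495637 : ℤ) := by decide +kernel
theorem J5b8 : JJ 8 5 uu5b ≤ (6349906109 / 1000000000 : ℝ) :=
  JJ_up (by norm_num) q5b8 (by norm_num) rfl (by norm_num)

theorem q5b10 : qup (tJ 10 5) 38893678519983040 64 ((38893678519983040 : ℕ) : ℤ) ≤ (10393934258168 : ℤ) := by decide +kernel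
theorem J5b10 : JJ 10 5 uu5b ≤ (20409830281 / 1000000000 : ℝ) :=
  JJ_up (by norm_num) q5b10 (by norm_num) rfl (by norm_num)

theorem q5b12 : qup (tJ 12 5) 38893678519983040 64 ((38893678519983040 : ℕ) : ℤ) ≤ (565060715380 : ℤ) := by decide +kernel
theorem J5b12 : JJ 12 5 uu5b ≤ (71012453305 / 1000000000 : ℝ) :=
  JJ_up (by norm_num) q5b12 (by norm_num) rfl (by norm_num)

def uu5c : ℝ := 8 * ((2 * ((64 : ℕ) : ℝ) * ((37226023679435624 : ℕ) : ℝ)) / 18446744073709551616)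

theorem q5c4 : (127238967960355475 : ℤ) ≤ qlo (tJ 4 5) 37226023679435624 64 ((37226023679435624 : ℕ) : ℤ) := by decide +kernel
theorem J5c4 : (912236138 / 1000000000 : ℝ) ≤ JJ 4 5 uu5c :=
  JJ_lo (by norm_num) q5c4 (by norm_num) rfl (by norm_num)

theorem q5c6 : (4407626644237780 : ℤ) ≤ qlo (tJ 6 5) 37226023679435624 64 ((37226023679435624 : ℕ) : ℤ) := by decide +kernel
theorem J5c6 : (2022422594 / 1000000000 : ℝ) ≤ JJ 6 5 uu5c :=
  JJ_lo (by norm_num) q5c6 (by norm_num) rfl (by norm_num)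

theorem q5c8 : qup (tJ 8 5) 37226023679435624 64 ((37226023679435624 : ℕ) : ℤ) ≤ (186260812188324 : ℤ) := by decide +kernel
theorem J5c8 : JJ 8 5 uu5c ≤ (5469763833 / 1000000000 : ℝ) :=
  JJ_up (by norm_num) q5c8 (by norm_num) rfl (by norm_num)

theorem q5c10 : qup (tJ 10 5) 37226023679435624 64 ((37226023679435624 : ℕ) : ℤ) ≤ (8767501679301 : ℤ) := by decide +kernel
theorem J5c10 : JJ 10 5 uu5c ≤ (16477939903 / 1000000000 : ℝ) :=
  JJ_up (by norm_num) q5c10 (by norm_num) rfl (by norm_num)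

theorem q5c12 : qup (tJ 12 5) 37226023679435624 64 ((37226023679435624 : ℕ) : ℤ) ≤ (444208740925 : ℤ) := by decide +kernel
theorem J5c12 : JJ 12 5 uu5c ≤ (53431101939 / 1000000000 : ℝ) :=
  JJ_up (by norm_num) q5c12 (by norm_num) rfl (by norm_num)

def uu6a : ℝ := 8 * ((2 * ((64 : ℕ) : ℝ) * ((39657870971105240 : ℕ) : ℝ)) / 18446744073709551616)

theorem q6a4 : (89065709581098259 : ℤ) ≤ qlo (tJ 4 6) 39657870971105240 64 ((39657870971105240 : ℕ) : ℤ) := by decide +kernel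
theorem J6a4 : (680268581 / 1000000000 : ℝ) ≤ JJ 4 6 uu6a :=
  JJ_lo (by norm_num) q6a4 (by norm_num) rfl (by norm_num)

theorem q6a6 : (2993075942216735 : ℤ) ≤ qlo (tJ 6 6) 39657870971105240 64 ((39657870971105240 : ℕ) : ℤ) := by decide +kernel
theorem J6a6 : (1463078374 / 1000000000 : ℝ) ≤ JJ 6 6 uu6a :=
  JJ_lo (by norm_num) q6a6 (by norm_num) rfl (by norm_num)

theorem q6a8 : qup (tJ 8 6) 39657870971105240 64 ((39657870971105240 : ℕ) : ℤ) ≤ (128089297236538 : ℤ) := by decide +kernel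
theorem J6a8 : JJ 8 6 uu6a ≤ (4007215255 / 1000000000 : ℝ) :=
  JJ_up (by norm_num) q6a8 (by norm_num) rfl (by norm_num)

theorem q6a10 : qup (tJ 10 6) 39657870971105240 64 ((39657870971105240 : ℕ) : ℤ) ≤ (6275499738985 : ℤ) := by decide +kernel
theorem J6a10 : JJ 10 6 uu6a ≤ (12564873451 / 1000000000 : ℝ) :=
  JJ_up (by norm_num) q6a10 (by norm_num) rfl (by norm_num)

theorem q6a12 : qup (tJ 12 6) 39657870971105240 64 ((39657870971105240 : ℕ) : ℤ) ≤ (338058397065 : ℤ) := by decide +kernel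
theorem J6a12 : JJ 12 6 uu6a ≤ (43319307450 / 1000000000 : ℝ) :=
  JJ_up (by norm_num) q6a12 (by norm_num) rfl (by norm_num)

def uu6b : ℝ := 8 * ((2 * ((64 : ℕ) : ℝ) * ((35504908449494292 : ℕ) : ℝ)) / 18446744073709551616)

theorem q6b4 : (91282613856467011 : ℤ) ≤ qlo (tJ 4 6) 35504908449494292 64 ((35504908449494292 : ℕ) : ℤ) := by decide +kernel
theorem J6b4 : (624190206 / 1000000000 : ℝ) ≤ JJ 4 6 uu6b :=
  JJ_lo (by norm_num) q6b4 (by norm_num) rfl (by norm_num)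

theorem q6b6 : (2791431824041888 : ℤ) ≤ qlo (tJ 6 6) 35504908449494292 64 ((35504908449494292 : ℕ) : ℤ) := by decide +kernel
theorem J6b6 : (1221619290 / 1000000000 : ℝ) ≤ JJ 6 6 uu6b :=
  JJ_lo (by norm_num) q6b6 (by norm_num) rfl (by norm_num)

theorem q6b8 : qup (tJ 8 6) 35504908449494292 64 ((35504908449494292 : ℕ) : ℤ) ≤ (105161181257925 : ℤ) := by decide +kernel
theorem J6b8 : JJ 8 6 uu6b ≤ (2945400028 / 1000000000 : ℝ) :=
  JJ_up (by norm_num) q6b8 (by norm_num) rfl (by norm_num)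

theorem q6b10 : qup (tJ 10 6) 35504908449494292 64 ((35504908449494292 : ℕ) : ℤ) ≤ (4438177738993 : ℤ) := by decide +kernel
theorem J6b10 : JJ 10 6 uu6b ≤ (7955610193 / 1000000000 : ℝ) :=
  JJ_up (by norm_num) q6b10 (by norm_num) rfl (by norm_num)

theorem q6b12 : qup (tJ 12 6) 35504908449494292 64 ((35504908449494292 : ℕ) : ℤ) ≤ (202421919574 : ℤ) := by decide +kernel
theorem J6b12 : JJ 12 6 uu6b ≤ (23222358094 / 1000000000 : ℝ) :=
  JJ_up (by norm_num) q6b12 (by norm_num) rfl (by norm_num)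

def uu6c : ℝ := 8 * ((2 * ((64 : ℕ) : ℝ) * ((33982554825660128 : ℕ) : ℝ)) / 18446744073709551616)

theorem q6c4 : (90684269070979888 : ℤ) ≤ qlo (tJ 4 6) 33982554825660128 64 ((33982554825660128 : ℕ) : ℤ) := by decide +kernel
theorem J6c4 : (593510584 / 1000000000 : ℝ) ≤ JJ 4 6 uu6c :=
  JJ_lo (by norm_num) q6c4 (by norm_num) rfl (by norm_num)

theorem q6c6 : (2644384253236664 : ℤ) ≤ qlo (tJ 6 6) 33982554825660128 64 ((33982554825660128 : ℕ) : ℤ) := by decide +kernel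
theorem J6c6 : (1107646165 / 1000000000 : ℝ) ≤ JJ 6 6 uu6c :=
  JJ_lo (by norm_num) q6c6 (by norm_num) rfl (by norm_num)

theorem q6c8 : qup (tJ 8 6) 33982554825660128 64 ((33982554825660128 : ℕ) : ℤ) ≤ (93866201332480 : ℤ) := by decide +kernel
theorem J6c8 : JJ 8 6 uu6c ≤ (2516319034 / 1000000000 : ℝ) :=
  JJ_up (by norm_num) q6c8 (by norm_num) rfl (by norm_num)

theorem q6c10 : qup (tJ 10 6) 33982554825660128 64 ((33982554825660128 : ℕ) : ℤ) ≤ (3705788466205 : ℤ) := by decide +kernel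
theorem J6c10 : JJ 10 6 uu6c ≤ (6357949282 / 1000000000 : ℝ) :=
  JJ_up (by norm_num) q6c10 (by norm_num) rfl (by norm_num)

theorem q6c12 : qup (tJ 12 6) 33982554825660128 64 ((33982554825660128 : ℕ) : ℤ) ≤ (157263697205 : ℤ) := by decide +kernel
theorem J6c12 : JJ 12 6 uu6c ≤ (17268113294 / 1000000000 : ℝ) :=
  JJ_up (by norm_num) q6c12 (by norm_num) rfl (by norm_num)

def us_tau2 : ℝ := 8 * ((2 * ((256 : ℕ) : ℝ) * ((15738729617771672 : ℕ) : ℝ)) / 18446744073709551616)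

theorem qs_tau2 : (2068229512443126319830 : ℤ) ≤ qlo (tJ 0 2) 15738729617771672 256 ((15738729617771672 : ℕ) : ℤ) := by decide +kernel
theorem Js_tau2 : (1530555009 / 1000000000 : ℝ) ≤ JJ 0 2 us_tau2 :=
  JJ_lo (by norm_num) qs_tau2 (by norm_num) rfl (by norm_num)

def us_s45 : ℝ := 8 * ((2 * ((256 : ℕ) : ℝ) * ((20266198323167232 : ℕ) : ℝ)) / 18446744073709551616)

theorem qs_s45 : (1616483133285941856974 : ℤ) ≤ qlo (tJ 0 2) 20266198323167232 256 ((20266198323167232 : ℕ) : ℤ) := by decide +kernel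
theorem Js_s45 : (1540366281 / 1000000000 : ℝ) ≤ JJ 0 2 us_s45 :=
  JJ_lo (by norm_num) qs_s45 (by norm_num) rfl (by norm_num)

def us_m5 : ℝ := 8 * ((2 * ((256 : ℕ) : ℝ) * ((15739179977734410 : ℕ) : ℝ)) / 18446744073709551616)

theorem qs_m5 : qup (tJ 0 5) 15739179977734410 256 ((15739179977734410 : ℕ) : ℤ) ≤ (1365959745448093852685 : ℤ) := by decide +kernel
theorem Js_m5 : JJ 0 5 us_m5 ≤ (1010882179 / 1000000000 : ℝ) :=
  JJ_up (by norm_num) qs_m5 (by norm_num) rfl (by norm_num)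

def us_m6 : ℝ := 8 * ((2 * ((128 : ℕ) : ℝ) * ((31477459235543344 : ℕ) : ℝ)) / 18446744073709551616)

theorem qs_m6 : (626266499245089501462 : ℤ) ≤ qlo (tJ 0 6) 31477459235543344 128 ((31477459235543344 : ℕ) : ℤ) := by decide +kernel
theorem Js_m6 : (926913886 / 1000000000 : ℝ) ≤ JJ 0 6 us_m6 :=
  JJ_lo (by norm_num) qs_m6 (by norm_num) rfl (by norm_num)

theorem qs_q45 : qup (tJ 0 2) 36219749643164478 32 (8094449313942260731 : ℤ) ≤ (5783332925968438026 : ℤ) := by decide +kernel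

theorem qs_q362 : qup (tJ 0 2) 9028816532952371 16 (8067258380832048624 : ℤ) ≤ (86197281591815600 : ℤ) := by decide +kernel

end

end Agent238.GS
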