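import Pool.Agent.Helper238.GS.C

/-!
# Certified enclosures, II: functions of `w = u/8`
-/

set_option autoImplicit false

open Real MeasureTheory Set Pool.Agent.Helper238 intervalIntegral

namespace Agent238.GS

/-- enlarge the error -/
def TM.more (e : Nat) (t : TM) : TM := ⟨t.a, t.b, t.c, Nat.add t.e e⟩

theorem mem_more {x y : ℝ} {t : TM} {v w : ℝ} (e : Nat) (h : Mem x y t v)
    (hw : |w - v| * 18446744073709551616 ≤ e) : Mem x y (TM.more e t) w := by
  unfold Mem at *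
  show |w * 18446744073709551616 - (t.a + t.b * x + t.c * y)| ≤ ((t.e + e : ℕ) : ℝ)
  have h1 : w * 18446744073709551616 - (t.a + t.b * x + t.c * y) =
    (v * 18446744073709551616 - (t.a + t.b * x + t.c * y)) + (w - v) * 18446744073709551616 := by
    ring
  rw [h1]
  refine (abs_add_le _ _).trans ?_
  push_cast
  rw [abs_mul (w - v), abs_of_pos (by norm_num : (0:ℝ) < 18446744073709551616)]
  linarith

/-- soundness of a scheme `F` for `f` on `(0,b]` -/
def Snd (F : TM → TM) (f : ℝ → ℝ) (b : ℝ) : Prop :=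
  ∀ (x : ℝ) (W : TM) (w : ℝ), |x| ≤ 1 → Mem x 0 W w → 0 < w → w ≤ b → Mem x 0 (F W) (f w)

theorem abs0 : |(0 : ℝ)| ≤ 1 := by simp

theorem Snd.add {F G : TM → TM} {f g : ℝ → ℝ} {b : ℝ} (hF : Snd F f b) (hG : Snd G g b) :
    Snd (fun W => TM.add (F W) (G W)) (fun w => f w + g w) b := fun x W w hx h h0 h1 =>
  (hF x W w hx h h0 h1).add (hG x W w hx h h0 h1)

theorem Snd.sub {F G : TM → TM} {f g : ℝ → ℝ} {b : ℝ} (hF : Snd F f b) (hG : Snd G g b) :
    Snd (fun W => TM.sub (F W) (G W)) (fun w => f w - g w) b := fun x W w hx h h0 h1 =>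
  (hF x W w hx h h0 h1).sub (hG x W w hx h h0 h1)

theorem Snd.mul {F G : TM → TM} {f g : ℝ → ℝ} {b : ℝ} (hF : Snd F f b) (hG : Snd G g b) :
    Snd (fun W => TM.mul (F W) (G W)) (fun w => f w * g w) b := fun x W w hx h h0 h1 =>
  (hF x W w hx h h0 h1).mul hx abs0 (hG x W w hx h h0 h1)

theorem Snd.sc {F : TM → TM} {f : ℝ → ℝ} {b : ℝ} (n : Int) (d : Nat) (hd : 0 < d)
    (hF : Snd F f b) :
    Snd (fun W => TM.sc n d (F W)) (fun w => (n : ℝ) / (d : ℝ) * f w) b := fun x W w hx h h0 h1 =>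
  (hF x W w hx h h0 h1).sc n d hd hx abs0

theorem Snd.cst (n : Int) (d : Nat) (hd : 0 < d) (b : ℝ) :
    Snd (fun _ => TM.cst n d) (fun _ => (n : ℝ) / (d : ℝ)) b := fun _ _ _ _ _ _ _ =>
  Mem.cst n d hd

theorem Snd.id (b : ℝ) : Snd (fun W => W) (fun w => w) b := fun _ _ _ _ h _ _ => h

theorem Snd.mono {F : TM → TM} {f : ℝ → ℝ} {b b' : ℝ} (hF : Snd F f b) (h : b' ≤ b) :
    Snd F f b' := fun x W w hx hm h0 h1 => hF x W w hx hm h0 (h1.trans h)

theorem Snd.congr {F : TM → TM} {f g : ℝ → ℝ} {b : ℝ} (hF : Snd F f b)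
    (h : ∀ w, 0 < w → w ≤ b → f w = g w) : Snd F g b := fun x W w hx hm h0 h1 => by
  rw [← h w h0 h1]; exact hF x W w hx hm h0 h1

/-! ### the basic functions -/

noncomputable def SSf (u : ℝ) : ℝ := sin u / u
noncomputable def S1f (u : ℝ) : ℝ := (cos u - sin u / u) / (2 * u ^ 2)
/-- `dΦ/dy`, where `Φ(u²) = ph u` -/
noncomputable def P1 (u : ℝ) : ℝ := (Kc * SSf u - ph u) / 2
/-- `d²Φ/dy²` -/
noncomputable def P2 (u : ℝ) : ℝ := (Kc * S1f u - P1 u) / 2

def tPh (W : TM) : TM := TM.more 50000 (hor (cpI.map (rawC 1)) (TM.mul W W))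
def tS (W : TM) : TM := TM.more 50000 (hor (csI.map (rawC 1)) (TM.mul W W))
def tS1 (W : TM) : TM := TM.more 50000 (hor (cs1I.map (rawC 1)) (TM.mul W W))
def tK : TM := ⟨13076433957001396884, 0, 0, 1⟩
def tP1 (W : TM) : TM := TM.sc 1 2 (TM.sub (TM.mul tK (tS W)) (tPh W))
def tP2 (W : TM) : TM := TM.sc 1 2 (TM.sub (TM.mul tK (tS1 W)) (tP1 W))

theorem w_pow (w : ℝ) (k : ℕ) : (8 * w) ^ (2 * k) = 64 ^ k * (w * w) ^ k := by
  rw [pow_mul, ← mul_pow]; congr 1; ring

theorem tPh_snd : Snd tPh (fun w => ph (8 * w)) (4 / 5) := by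
  intro x W w hx h h0 h1
  have hm := hor_mem hx abs0 (raw_mem (x := x) (y := 0) cpI cpR 1 cp_ok) (h.mul hx abs0 h)
  have hl : cpI.length = 20 := by decide
  rw [hl, hor_eq] at hm
  refine mem_more 50000 hm ?_
  have hw : |8 * w| = 8 * w := abs_of_nonneg (by linarith)
  have ht := ph_taylor 20 (8 * w) (by rw [hw]; push_cast; linarith)
  have hs : ∑ k ∈ Finset.range 20, (-1) ^ k * mo k * (8 * w) ^ (2 * k) / (2 * k).factorial =
      ∑ k ∈ Finset.range 20, cpR k * (Alg.mul w w) ^ k := by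
    refine Finset.sum_congr rfl fun k _ => ?_
    show _ = cpR k * (w * w) ^ k
    rw [w_pow, cpR]; ring
  rw [hs, hw] at ht
  have hb : (8 * w) ^ (2 * 20) / ((2 * 20).factorial : ℝ) * 2 ≤ 50000 / 18446744073709551616 := by
    have : (8 * w) ^ (2 * 20) ≤ (32 / 5) ^ (2 * 20) := by gcongr; linarith
    refine (mul_le_mul_of_nonneg_right (div_le_div_of_nonneg_right this (by positivity))
      (by norm_num)).trans ?_
    norm_num [Nat.factorial]
  have := ht.trans hb
  push_cast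
  rw [le_div_iff₀ (by norm_num)] at this
  exact this

theorem sin_taylor (N : ℕ) (v : ℝ) (hv : |v| / (2 * N + 2) ≤ 1 / 2) :
    |sin v - ∑ k ∈ Finset.range N, (-1) ^ k * v ^ (2 * k + 1) / (2 * k + 1).factorial| ≤
      |v| ^ (2 * N + 1) / (2 * N + 1).factorial * 2 := by
  have h := Complex.exp_bound' (x := (v : ℂ) * Complex.I) (n := 2 * N + 1) (by
    rw [norm_mul, Complex.norm_I, mul_one, Complex.norm_real, Real.norm_eq_abs]
    push_cast
    rw [show (2 * (N : ℝ) + 1 + 1) = 2 * N + 2 by ring]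
    exact hv)
  rw [norm_mul, Complex.norm_I, mul_one, Complex.norm_real, Real.norm_eq_abs] at h
  refine le_trans ?_ h
  have h2 := Complex.abs_im_le_norm (Complex.exp ((v : ℂ) * Complex.I) -
    ∑ m ∈ Finset.range (2 * N + 1), ((v : ℂ) * Complex.I) ^ m / (m.factorial : ℂ))
  refine le_trans (le_of_eq ?_) h2
  congr 1
  rw [Complex.sub_im, Complex.exp_ofReal_mul_I_im]
  congr 1
  clear h2 h hv
  induction N with
  | zero => simp
  | succ N ih =>
    rw [Finset.sum_range_succ, ih, show 2 * (N + 1) + 1 = 2 * N + 1 + 1 + 1 by ring,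
      Finset.sum_range_succ _ (2 * N + 1 + 1), Finset.sum_range_succ _ (2 * N + 1),
      Complex.add_im, Complex.add_im]
    have e1 : (((v : ℂ) * Complex.I) ^ (2 * N + 1) / ((2 * N + 1).factorial : ℂ)).im =
        (-1) ^ N * v ^ (2 * N + 1) / (2 * N + 1).factorial := by
      rw [mul_pow, pow_succ Complex.I, pow_mul Complex.I, Complex.I_sq]
      have : ((v : ℂ) ^ (2 * N + 1) * ((-1) ^ N * Complex.I) / ((2 * N + 1).factorial : ℂ)) =
          (((-1) ^ N * v ^ (2 * N + 1) / (2 * N + 1).factorial : ℝ) : ℂ) * Complex.I := by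
        push_cast; ring
      rw [this, Complex.im_ofReal_mul, Complex.I_im, mul_one]
    have e2 : (((v : ℂ) * Complex.I) ^ (2 * N + 1 + 1) / ((2 * N + 1 + 1).factorial : ℂ)).im = 0 := by
      rw [mul_pow, show 2 * N + 1 + 1 = 2 * (N + 1) by ring, pow_mul Complex.I, Complex.I_sq]
      have : ((v : ℂ) ^ (2 * (N + 1)) * (-1) ^ (N + 1) / ((2 * (N + 1)).factorial : ℂ)) =
          (((-1) ^ (N + 1) * v ^ (2 * (N + 1)) / (2 * (N + 1)).factorial : ℝ) : ℂ) := by
        push_cast; ring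
      rw [this, Complex.ofReal_im]
    rw [e1, e2, add_zero]

theorem tS_snd {w x : ℝ} {W : TM} (hx : |x| ≤ 1) (h : Mem x 0 W w) (h0 : 0 < w)
    (h1 : w ≤ 4 / 5) : Mem x 0 (tS W) (SSf (8 * w)) := by
  have hm := hor_mem hx abs0 (raw_mem (x := x) (y := 0) csI csR 1 cs_ok) (h.mul hx abs0 h)
  have hl : csI.length = 20 := by decide
  rw [hl, hor_eq] at hm
  refine mem_more 50000 hm ?_
  have hw : |8 * w| = 8 * w := abs_of_nonneg (by linarith)
  have hp : 0 < 8 * w := by linarith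
  have ht := sin_taylor 20 (8 * w) (by rw [hw]; push_cast; linarith)
  have hs : ∑ k ∈ Finset.range 20, (-1) ^ k * (8 * w) ^ (2 * k + 1) / (2 * k + 1).factorial =
      8 * w * ∑ k ∈ Finset.range 20, csR k * (Alg.mul w w) ^ k := by
    rw [Finset.mul_sum]
    refine Finset.sum_congr rfl fun k _ => ?_
    show _ = 8 * w * (csR k * (w * w) ^ k)
    rw [pow_succ, w_pow, csR]; ring
  rw [hs, hw] at ht
  have e : SSf (8 * w) - ∑ k ∈ Finset.range 20, csR k * (Alg.mul w w) ^ k =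
      (sin (8 * w) - 8 * w * ∑ k ∈ Finset.range 20, csR k * (Alg.mul w w) ^ k) / (8 * w) := by
    unfold SSf; field_simp
  rw [e, abs_div, abs_of_pos hp]
  have hb : (8 * w) ^ (2 * 20 + 1) / ((2 * 20 + 1).factorial : ℝ) * 2 / (8 * w) ≤
      50000 / 18446744073709551616 := by
    have e2 : (8 * w) ^ (2 * 20 + 1) / ((2 * 20 + 1).factorial : ℝ) * 2 / (8 * w) =
      (8 * w) ^ (2 * 20) / ((2 * 20 + 1).factorial : ℝ) * 2 := by
      rw [pow_succ]; field_simp
    rw [e2]
    have : (8 * w) ^ (2 * 20) ≤ (32 / 5) ^ (2 * 20) := by gcongr; linarith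
    refine (mul_le_mul_of_nonneg_right (div_le_div_of_nonneg_right this (by positivity))
      (by norm_num)).trans ?_
    norm_num [Nat.factorial]
  have := (div_le_div_of_nonneg_right ht hp.le).trans hb
  push_cast
  rw [le_div_iff₀ (by norm_num)] at this
  exact this

theorem tS1_snd {w x : ℝ} {W : TM} (hx : |x| ≤ 1) (h : Mem x 0 W w) (h0 : 0 < w)
    (h1 : w ≤ 4 / 5) : Mem x 0 (tS1 W) (S1f (8 * w)) := by
  have hm := hor_mem hx abs0 (raw_mem (x := x) (y := 0) cs1I cs1R 1 cs1_ok) (h.mul hx abs0 h)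
  have hl : cs1I.length = 19 := by decide
  rw [hl, hor_eq] at hm
  refine mem_more 50000 hm ?_
  have hw : |8 * w| = 8 * w := abs_of_nonneg (by linarith)
  have hp : 0 < 8 * w := by linarith
  have ht := sin_taylor 20 (8 * w) (by rw [hw]; push_cast; linarith)
  have ht2 := cos_taylor 20 (8 * w) (by rw [hw]; push_cast; linarith)
  obtain ⟨u, hu⟩ : ∃ u, u = 8 * w := ⟨_, rfl⟩
  have hs : (∑ k ∈ Finset.range 20, (-1) ^ k * (8 * w) ^ (2 * k) / ((2 * k).factorial : ℝ)) -
      (∑ k ∈ Finset.range 20, (-1) ^ k * (8 * w) ^ (2 * k + 1) / ((2 * k + 1).factorial : ℝ)) / (8 * w) =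
      2 * (8 * w) ^ 2 * ∑ k ∈ Finset.range 19, cs1R k * (Alg.mul w w) ^ k := by
    rw [Finset.sum_div, ← Finset.sum_sub_distrib, Finset.sum_range_succ', Finset.mul_sum]
    have hz : (-1 : ℝ) ^ 0 * (8 * w) ^ (2 * 0) / ((2 * 0).factorial : ℝ) -
        (-1) ^ 0 * (8 * w) ^ (2 * 0 + 1) / ((2 * 0 + 1).factorial : ℝ) / (8 * w) = 0 := by
      simp; field_simp; ring
    rw [hz, add_zero]
    refine Finset.sum_congr rfl fun k _ => ?_
    show _ = 2 * (8 * w) ^ 2 * (cs1R k * (w * w) ^ k)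
    rw [show 2 * (k + 1) = 2 * k + 2 by ring, cs1R]
    have f1 : ((2 * k + 2 + 1).factorial : ℝ) = (2 * k + 3) * ((2 * k + 2).factorial : ℝ) := by
      rw [Nat.factorial_succ]; push_cast; ring
    have f2 : ((2 * k + 3).factorial : ℝ) = (2 * k + 3) * ((2 * k + 2).factorial : ℝ) := by
      rw [← f1]
    have f3 : (0 : ℝ) < ((2 * k + 2).factorial : ℝ) := by positivity
    have f4 : (0 : ℝ) < 2 * (k : ℝ) + 3 := by positivity
    rw [f1, pow_succ ((8 : ℝ) * w) (2 * k + 2), pow_add ((8 : ℝ) * w) (2 * k) 2, w_pow, pow_succ (-1 : ℝ)]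
    field_simp
    ring
  have e : S1f (8 * w) - ∑ k ∈ Finset.range 19, cs1R k * (Alg.mul w w) ^ k =
      ((cos (8 * w) - ∑ k ∈ Finset.range 20, (-1) ^ k * (8 * w) ^ (2 * k) / ((2 * k).factorial : ℝ)) -
      (sin (8 * w) - ∑ k ∈ Finset.range 20, (-1) ^ k * (8 * w) ^ (2 * k + 1) /
        ((2 * k + 1).factorial : ℝ)) / (8 * w)) / (2 * (8 * w) ^ 2) := by
    have h2 : (2 * (8 * w) ^ 2) ≠ 0 := by positivity
    rw [eq_div_iff h2]
    have : (S1f (8 * w) - ∑ k ∈ Finset.range 19, cs1R k * (Alg.mul w w) ^ k) * (2 * (8 * w) ^ 2) =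
      S1f (8 * w) * (2 * (8 * w) ^ 2) -
        2 * (8 * w) ^ 2 * ∑ k ∈ Finset.range 19, cs1R k * (Alg.mul w w) ^ k := by ring
    rw [this, ← hs]
    unfold S1f
    rw [div_mul_cancel₀ _ h2]
    ring
  rw [e, abs_div, abs_of_pos (by positivity : 0 < 2 * (8 * w) ^ 2)]
  rw [hw] at ht ht2
  have hsub := abs_sub (cos (8 * w) - ∑ k ∈ Finset.range 20, (-1) ^ k * (8 * w) ^ (2 * k) / ((2 * k).factorial : ℝ))
    ((sin (8 * w) - ∑ k ∈ Finset.range 20, (-1) ^ k * (8 * w) ^ (2 * k + 1) /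
        ((2 * k + 1).factorial : ℝ)) / (8 * w))
  rw [abs_div _ (8 * w), abs_of_pos hp] at hsub
  have hsub2 := hsub.trans (add_le_add ht2 (div_le_div_of_nonneg_right ht hp.le))
  have hb : ((8 * w) ^ (2 * 20) / ((2 * 20).factorial : ℝ) * 2 +
      (8 * w) ^ (2 * 20 + 1) / ((2 * 20 + 1).factorial : ℝ) * 2 / (8 * w)) / (2 * (8 * w) ^ 2) ≤
      50000 / 18446744073709551616 := by
    have e2 : ((8 * w) ^ (2 * 20) / ((2 * 20).factorial : ℝ) * 2 +
      (8 * w) ^ (2 * 20 + 1) / ((2 * 20 + 1).factorial : ℝ) * 2 / (8 * w)) / (2 * (8 * w) ^ 2) =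
      (8 * w) ^ 38 * (1 / ((2 * 20).factorial : ℝ) + 1 / ((2 * 20 + 1).factorial : ℝ)) := by
      rw [← hu] at hp ⊢
      field_simp
      ring
    rw [e2]
    have : (8 * w) ^ 38 ≤ (32 / 5) ^ 38 := by gcongr; linarith
    refine (mul_le_mul_of_nonneg_right this (by positivity)).trans ?_
    norm_num [Nat.factorial]
  have := (div_le_div_of_nonneg_right hsub2 (by positivity : 0 ≤ 2 * (8 * w) ^ 2)).trans hb
  push_cast
  rw [le_div_iff₀ (by norm_num)] at this
  exact this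

theorem tS_snd' : Snd tS (fun w => SSf (8 * w)) (4 / 5) := fun _ _ _ hx h h0 h1 =>
  tS_snd hx h h0 h1

theorem tS1_snd' : Snd tS1 (fun w => S1f (8 * w)) (4 / 5) := fun _ _ _ hx h h0 h1 =>
  tS1_snd hx h h0 h1

theorem tK_snd (b : ℝ) : Snd (fun _ => tK) (fun _ => Kc) b := by
  intro x W w hx h h0 h1
  have hK := Kc_bounds
  have h30 : cA 30 = 29215606371473169285018060091249259296875 := by decide +kernel
  have h30' : cB 30 = 41214050823408760878085909697213290529568 := by decide +kernel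
  unfold Mem tK
  rw [abs_le]
  rw [h30, h30'] at hK
  push_cast at hK ⊢
  constructor <;> linarith [hK.1, hK.2]

theorem tP1_snd : Snd tP1 (fun w => P1 (8 * w)) (4 / 5) := by
  have h := ((((tK_snd (4 / 5)).mul tS_snd').sub tPh_snd).sc 1 2 (by norm_num))
  refine h.congr fun w _ _ => ?_
  unfold P1; push_cast; ring

theorem tP2_snd : Snd tP2 (fun w => P2 (8 * w)) (4 / 5) := by
  have h := ((((tK_snd (4 / 5)).mul tS1_snd').sub tP1_snd).sc 1 2 (by norm_num))
  refine h.congr fun w _ _ => ?_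
  unfold P2; push_cast; ring

/-! ### scanning and quadrature -/

/-- positivity on `n` consecutive cells of half width `h` -/
def scan (F : TM → TM) (h : Nat) : Nat → Int → Bool
  | 0, _ => true
  | n + 1, c => (F ⟨c, h, 0, 0⟩).pos && scan F h n (c + 2 * h)

theorem cell_coord {w : ℝ} {c : ℤ} {h : ℕ} (hw : |w * 18446744073709551616 - c| ≤ h) :
    ∃ x : ℝ, |x| ≤ 1 ∧ Mem x 0 ⟨c, h, 0, 0⟩ w := by
  obtain ⟨x, hx, hxu⟩ := local_coord _ _ _ hw
  refine ⟨x, hx, ?_⟩
  unfold Mem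
  rw [hxu]; simp

theorem scan_sound {F : TM → TM} {f : ℝ → ℝ} {b : ℝ} (hF : Snd F f b) (h : ℕ) :
    ∀ (n : ℕ) (c : ℤ), scan F h n c = true → ∀ w : ℝ, 0 < w → w ≤ b →
      (c : ℝ) - h ≤ w * 18446744073709551616 → w * 18446744073709551616 ≤ c + (2 * n - 1) * h →
      0 < n → 0 < f w := by
  intro n
  induction n with
  | zero => intro c _ w _ _ _ _ h0; exact absurd h0 (lt_irrefl _)
  | succ n ih =>
    intro c hs w hw0 hwb h1 h2 _
    rw [scan, Bool.and_eq_true] at hs
    rcases le_total (w * 18446744073709551616) (c + h) with h3 | h3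
    · obtain ⟨x, hx, hm⟩ := cell_coord (w := w) (c := c) (h := h)
        (abs_le.2 ⟨by linarith, by linarith⟩)
      exact (hF x _ w hx hm hw0 hwb).pos hx abs0 hs.1
    · rcases Nat.eq_zero_or_pos n with hn | hn
      · subst hn
        have : w * 18446744073709551616 = c + h := by
          apply le_antisymm _ h3
          push_cast at h2; linarith
        obtain ⟨x, hx, hm⟩ := cell_coord (w := w) (c := c) (h := h)
          (abs_le.2 ⟨by linarith, by linarith⟩)
        exact (hF x _ w hx hm hw0 hwb).pos hx abs0 hs.1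
      · refine ih (c + 2 * h) hs.2 w hw0 hwb ?_ ?_ hn
        · push_cast; linarith
        · push_cast at h2 ⊢; linarith

/-- upper and lower quadrature sums -/
def qup (F : TM → TM) (h : Nat) : Nat → Int → Int
  | 0, _ => 0
  | n + 1, c => ((F ⟨c, h, 0, 0⟩).a + (F ⟨c, h, 0, 0⟩).e) + qup F h n (c + 2 * h)

def qlo (F : TM → TM) (h : Nat) : Nat → Int → Int
  | 0, _ => 0
  | n + 1, c => ((F ⟨c, h, 0, 0⟩).a - (F ⟨c, h, 0, 0⟩).e) + qlo F h n (c + 2 * h)

/-- one cell -/
theorem cell_int {F : TM → TM} {f : ℝ → ℝ} {b : ℝ} (hF : Snd F f b) (hf : Continuous f)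
    (h : ℕ) (hh : 0 < h) (c : ℤ) (h0 : (0 : ℝ) ≤ c - h)
    (hb : ((c : ℝ) + h) / 18446744073709551616 ≤ b) :
    (2 * h : ℝ) / 18446744073709551616 * (((F ⟨c, h, 0, 0⟩).a - (F ⟨c, h, 0, 0⟩).e) /
      18446744073709551616) ≤ ∫ w in (((c : ℝ) - h) / 18446744073709551616)..(((c : ℝ) + h) / 18446744073709551616), f w ∧
    ∫ w in (((c : ℝ) - h) / 18446744073709551616)..(((c : ℝ) + h) / 18446744073709551616), f w ≤
      (2 * h : ℝ) / 18446744073709551616 * (((F ⟨c, h, 0, 0⟩).a + (F ⟨c, h, 0, 0⟩).e) /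
      18446744073709551616) := by
  obtain ⟨S, hS⟩ : ∃ S : ℝ, S = 18446744073709551616 := ⟨_, rfl⟩
  have hSp : 0 < S := by rw [hS]; norm_num
  have hhp : (0 : ℝ) < h := by exact_mod_cast hh
  set T := F ⟨c, h, 0, 0⟩ with hT
  have hpt : ∀ w, ((c : ℝ) - h) / S < w → w ≤ ((c : ℝ) + h) / S →
      |f w * S - (T.a + T.b * ((w * S - c) / h))| ≤ T.e := by
    intro w h1 h2
    rw [div_lt_iff₀ hSp] at h1
    have h2' := h2
    rw [le_div_iff₀ hSp] at h2
    have hx : |(w * S - c) / h| ≤ 1 := by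
      rw [abs_div, abs_of_pos hhp, div_le_one hhp, abs_le]; constructor <;> linarith
    have hm : Mem ((w * S - c) / h) 0 ⟨c, h, 0, 0⟩ w := by
      unfold Mem; rw [← hS]; simp only [Int.cast_natCast]
      rw [mul_div_cancel₀ _ hhp.ne']; simp
    have hw0 : 0 < w := by
      by_contra hn
      push Not at hn
      nlinarith
    have := hF _ _ w hx hm hw0 (h2'.trans (by rw [hS]; exact hb))
    unfold Mem at this
    rw [← hS] at this
    simpa using this
  have hle : ((c : ℝ) - h) / S ≤ ((c : ℝ) + h) / S := by gcongr; linarith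
  have hlin : ∀ r : ℝ, ∫ w in (((c : ℝ) - h) / S)..(((c : ℝ) + h) / S),
      (r + T.b * ((w * S - c) / h)) / S = 2 * h / S * (r / S) := by
    intro r
    have hd : ∀ w ∈ uIcc (((c : ℝ) - h) / S) (((c : ℝ) + h) / S),
        HasDerivAt (fun w => (r * w + T.b * (w * w * S / 2 - c * w) / h) / S)
          ((r + T.b * ((w * S - c) / h)) / S) w := by
      intro w _
      have h1 := (hasDerivAt_id w)
      have h2 := ((h1.mul h1).mul_const S).div_const 2
      have h3 := h2.sub (h1.const_mul (c : ℝ))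
      have h4 := ((h1.const_mul r).add ((h3.const_mul (T.b : ℝ)).div_const (h : ℝ))).div_const S
      refine h4.congr_deriv ?_
      simp only [id]
      ring
    rw [integral_eq_sub_of_hasDerivAt hd
      ((by fun_prop : Continuous fun w : ℝ => (r + T.b * ((w * S - c) / h)) / S).intervalIntegrable _ _)]
    field_simp
    ring
  rw [← hS]
  constructor
  · rw [← hlin]
    refine intervalIntegral.integral_mono_on_of_le_Ioo hle
      ((by fun_prop : Continuous fun w : ℝ => ((T.a - T.e : ℝ) + T.b * ((w * S - c) / h)) / S).intervalIntegrable _ _)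
      (hf.intervalIntegrable _ _) fun w hw => ?_
    have := (abs_le.1 (hpt w hw.1 hw.2.le)).1
    rw [div_le_iff₀ hSp]; linarith
  · rw [← hlin]
    refine intervalIntegral.integral_mono_on_of_le_Ioo hle (hf.intervalIntegrable _ _)
      ((by fun_prop : Continuous fun w : ℝ => ((T.a + T.e : ℝ) + T.b * ((w * S - c) / h)) / S).intervalIntegrable _ _)
      fun w hw => ?_
    have := (abs_le.1 (hpt w hw.1 hw.2.le)).2
    rw [le_div_iff₀ hSp]; linarith

/-- quadrature soundness -/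
theorem quad_sound {F : TM → TM} {f : ℝ → ℝ} {b : ℝ} (hF : Snd F f b) (hf : Continuous f)
    (h : ℕ) (hh : 0 < h) : ∀ (n : ℕ) (c : ℤ), (0 : ℝ) ≤ c - h →
      ((c : ℝ) + (2 * n - 1) * h) / 18446744073709551616 ≤ b →
      (2 * h : ℝ) / 18446744073709551616 * ((qlo F h n c : ℤ) / 18446744073709551616) ≤
        ∫ w in (((c : ℝ) - h) / 18446744073709551616)..(((c : ℝ) + (2 * n - 1) * h) / 18446744073709551616), f w ∧
      ∫ w in (((c : ℝ) - h) / 18446744073709551616)..(((c : ℝ) + (2 * n - 1) * h) / 18446744073709551616), f w ≤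
        (2 * h : ℝ) / 18446744073709551616 * ((qup F h n c : ℤ) / 18446744073709551616) := by
  intro n
  induction n with
  | zero =>
    intro c _ _
    have : ((c : ℝ) + (2 * ((0 : ℕ) : ℝ) - 1) * h) = c - h := by push_cast; ring
    rw [this, intervalIntegral.integral_same]
    simp [qlo, qup]
  | succ n ih =>
    intro c h0 hb
    have hhp : (0 : ℝ) < h := by exact_mod_cast hh
    have e1 : (((c + 2 * h : ℤ) : ℝ)) - h = c + h := by push_cast; ring
    have e2 : (((c + 2 * h : ℤ) : ℝ)) + (2 * n - 1) * h = c + (2 * ((n + 1 : ℕ) : ℝ) - 1) * h := by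
      push_cast; ring
    have hn0 : (0 : ℝ) ≤ n := by positivity
    have hb1 : ((c : ℝ) + h) / 18446744073709551616 ≤ b := by
      refine le_trans ?_ hb
      gcongr
      push_cast
      nlinarith
    have i1 := cell_int hF hf h hh c h0 hb1
    have i2 := ih (c + 2 * h) (by rw [e1]; linarith) (by rw [e2]; exact hb)
    rw [e1, e2] at i2
    rw [← intervalIntegral.integral_add_adjacent_intervals (hf.intervalIntegrable _ _)
      (hf.intervalIntegrable _ _) (b := ((c : ℝ) + h) / 18446744073709551616)]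
    rw [qlo, qup]
    push_cast
    push_cast at i1 i2
    constructor
    · have := add_le_add i1.1 i2.1
      refine le_trans (le_of_eq ?_) this
      ring
    · have := add_le_add i1.2 i2.2
      refine le_trans this (le_of_eq ?_)
      ring

end Agent238.GS
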