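import Pool.Agent.Helper238.GS.R4

/-!
# One big coordinate, I: pointwise estimate
-/

open MeasureTheory Real Set Filter Pool.Agent.Helper238
open scoped ENNReal Topology

namespace Agent238.GS

noncomputable section

theorem cos_sub_le (A B : ℝ) : |cos A - cos B| ≤ |A ^ 2 - B ^ 2| / 2 := by
  rw [Real.cos_sub_cos, abs_mul, abs_mul]
  have h1 : |sin ((A + B) / 2)| ≤ |(A + B) / 2| := Real.abs_sin_le_abs
  have h2 : |sin ((A - B) / 2)| ≤ |(A - B) / 2| := Real.abs_sin_le_abs
  have h3 : |A ^ 2 - B ^ 2| = |A + B| * |A - B| := by rw [← abs_mul]; congr 1; ring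
  have e1 : |(A + B) / 2| = |A + B| / 2 := by rw [abs_div]; norm_num
  have e2 : |(A - B) / 2| = |A - B| / 2 := by rw [abs_div]; norm_num
  rw [e1] at h1
  rw [e2] at h2
  rw [h3]
  have h4 : |sin ((A + B) / 2)| * |sin ((A - B) / 2)| ≤ |A + B| / 2 * (|A - B| / 2) :=
    mul_le_mul h1 h2 (abs_nonneg _) (by positivity)
  norm_num
  linarith

theorem mo_one_aa : mo 1 = 2 * aa := by rw [mo_one]; unfold aa; ring

theorem ph_lip (v w : ℝ) : |ph v - ph w| ≤ aa * |v ^ 2 - w ^ 2| := by
  unfold ph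
  have hc : ∀ v : ℝ, IntervalIntegrable (fun x : ℝ => exp (-x ^ 2 / 2) * cos (v * x)) volume (-1) 1 :=
    fun v => (by fun_prop : Continuous fun x : ℝ => exp (-x ^ 2 / 2) * cos (v * x)).intervalIntegrable _ _
  rw [← mul_sub, ← intervalIntegral.integral_sub (hc v) (hc w), abs_mul, abs_of_pos (inv_pos.2 Zc_pos)]
  have h1 : |∫ x in (-1 : ℝ)..1, (exp (-x ^ 2 / 2) * cos (v * x) - exp (-x ^ 2 / 2) * cos (w * x))| ≤
      ∫ x in (-1 : ℝ)..1, |v ^ 2 - w ^ 2| / 2 * (exp (-x ^ 2 / 2) * x ^ (2 * 1)) := by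
    refine (intervalIntegral.abs_integral_le_integral_abs (by norm_num)).trans ?_
    refine intervalIntegral.integral_mono_on (by norm_num) ?_ ?_ fun x _ => ?_
    · exact (by fun_prop : Continuous fun x : ℝ => |exp (-x ^ 2 / 2) * cos (v * x) - exp (-x ^ 2 / 2) * cos (w * x)|).intervalIntegrable _ _
    · exact (by fun_prop : Continuous fun x : ℝ => |v ^ 2 - w ^ 2| / 2 * (exp (-x ^ 2 / 2) * x ^ (2 * 1))).intervalIntegrable _ _
    · rw [← mul_sub, abs_mul, abs_of_pos (exp_pos _)]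
      have h := cos_sub_le (v * x) (w * x)
      have h2 : |(v * x) ^ 2 - (w * x) ^ 2| = |v ^ 2 - w ^ 2| * x ^ 2 := by
        rw [show (v * x) ^ 2 - (w * x) ^ 2 = (v ^ 2 - w ^ 2) * x ^ 2 by ring, abs_mul,
          abs_of_nonneg (sq_nonneg x)]
      rw [h2] at h
      have := mul_le_mul_of_nonneg_left h (exp_pos (-x ^ 2 / 2)).le
      refine this.trans (le_of_eq ?_)
      ring
  have h2 := mul_le_mul_of_nonneg_left h1 (inv_pos.2 Zc_pos).le
  refine h2.trans (le_of_eq ?_)
  rw [intervalIntegral.integral_const_mul]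
  have h3 := mo_one_aa
  unfold mo at h3
  rw [show aa * |v ^ 2 - w ^ 2| = |v ^ 2 - w ^ 2| / 2 * (2 * aa) by ring, ← h3]
  ring

/-- continuous version of `P1` -/
def P1c (u : ℝ) : ℝ := (Kc * Real.sinc u - ph u) / 2

theorem P1c_cont : Continuous P1c := by
  unfold P1c
  exact ((continuous_const.mul Real.continuous_sinc).sub ph_cont).div_const 2

theorem P1c_eq {u : ℝ} (hu : u ≠ 0) : P1c u = P1 u := by
  unfold P1c P1 SSf
  rw [Real.sinc_of_ne_zero hu]

theorem chi_le {y : ℝ} (h0 : 0 < y) (h1 : y ≤ 16) : -P1 (√y) - aa * Ph y ≤ 8 / 1000 * y := by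
  have hmono : MonotoneOn (fun y => 8 / 1000 * y + P1c (√y) + aa * Ph y) (Set.Icc 0 16) := by
    refine monotoneOn_of_deriv_nonneg (convex_Icc 0 16) ?_ ?_ ?_
    · exact (((continuous_const.mul continuous_id).add (P1c_cont.comp Real.continuous_sqrt)).add
        (continuous_const.mul Ph_cont)).continuousOn
    all_goals rw [interior_Icc]
    · intro y hy
      have hd : HasDerivAt (fun y => 8 / 1000 * y + P1c (√y) + aa * Ph y)
          (8 / 1000 * 1 + P2 (√y) + aa * P1 (√y)) y := by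
        refine (((hasDerivAt_id y).const_mul (8 / 1000)).add ?_).add ((Ph_deriv hy.1).const_mul aa)
        refine (P1_deriv hy.1).congr_of_eventuallyEq ?_
        filter_upwards [lt_mem_nhds hy.1] with z hz
        exact P1c_eq (Real.sqrt_pos.2 hz).ne'
      exact hd.differentiableAt.differentiableWithinAt
    · intro y hy
      have hd : HasDerivAt (fun y => 8 / 1000 * y + P1c (√y) + aa * Ph y)
          (8 / 1000 * 1 + P2 (√y) + aa * P1 (√y)) y := by
        refine (((hasDerivAt_id y).const_mul (8 / 1000)).add ?_).add ((Ph_deriv hy.1).const_mul aa)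
        refine (P1_deriv hy.1).congr_of_eventuallyEq ?_
        filter_upwards [lt_mem_nhds hy.1] with z hz
        exact P1c_eq (Real.sqrt_pos.2 hz).ne'
      rw [hd.deriv]
      have hs : √y ≤ 4 := by
        rw [Real.sqrt_le_left (by norm_num)]; linarith [hy.2]
      have := chi_deriv (√y) (Real.sqrt_pos.2 hy.1) hs
      unfold aa
      linarith
  have h2 := hmono (Set.left_mem_Icc.2 (by norm_num)) (Set.mem_Icc.2 ⟨h0.le, h1⟩) h0.le
  simp only [mul_zero, Real.sqrt_zero, Ph_zero, mul_one, zero_add] at h2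
  rw [P1c_eq (Real.sqrt_pos.2 h0).ne'] at h2
  have h3 : P1c 0 = -aa := by
    unfold P1c aa; rw [Real.sinc_zero, ph_zero]; ring
  rw [h3] at h2
  linarith

theorem chi_int {u v : ℝ} (hu : 0 ≤ u) (hv : 0 ≤ v) (huv : u + v ≤ 16) :
    Ph u * exp (-aa * v) ≤ Ph (u + v) + 8 / 1000 * v * (u + v) := by
  have haa : 0 < aa := by linarith [aa_num.1]
  have hmono : MonotoneOn (fun ν => Ph (u + ν) * exp (aa * ν) + 8 / 1000 * (u + v) * exp (aa * v) * ν)
      (Set.Icc 0 v) := by
    refine monotoneOn_of_deriv_nonneg (convex_Icc 0 v) ?_ ?_ ?_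
    · exact (((Ph_cont.comp (by fun_prop)).mul (by fun_prop)).add (by fun_prop)).continuousOn
    all_goals rw [interior_Icc]
    · intro ν hν
      have hd : HasDerivAt (fun ν => Ph (u + ν) * exp (aa * ν) + 8 / 1000 * (u + v) * exp (aa * v) * ν)
          ((P1 (√(u + ν)) * exp (aa * ν) + Ph (u + ν) * (exp (aa * ν) * (aa * 1))) +
            8 / 1000 * (u + v) * exp (aa * v) * 1) ν := by
        have h1 : HasDerivAt (fun ν => Ph (u + ν)) (P1 (√(u + ν))) ν := by
          have := (Ph_deriv (y := u + ν) (by linarith [hν.1])).comp_const_add u ν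
          exact this
        exact (h1.mul ((hasDerivAt_id ν).const_mul aa).exp).add ((hasDerivAt_id ν).const_mul _)
      exact hd.differentiableAt.differentiableWithinAt
    · intro ν hν
      have hd : HasDerivAt (fun ν => Ph (u + ν) * exp (aa * ν) + 8 / 1000 * (u + v) * exp (aa * v) * ν)
          ((P1 (√(u + ν)) * exp (aa * ν) + Ph (u + ν) * (exp (aa * ν) * (aa * 1))) +
            8 / 1000 * (u + v) * exp (aa * v) * 1) ν := by
        have h1 : HasDerivAt (fun ν => Ph (u + ν)) (P1 (√(u + ν))) ν := by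
          have := (Ph_deriv (y := u + ν) (by linarith [hν.1])).comp_const_add u ν
          exact this
        exact (h1.mul ((hasDerivAt_id ν).const_mul aa).exp).add ((hasDerivAt_id ν).const_mul _)
      rw [hd.deriv]
      have hc := chi_le (y := u + ν) (by linarith [hν.1]) (by linarith [hν.2])
      have he1 : exp (aa * ν) ≤ exp (aa * v) := by
        rw [Real.exp_le_exp]; exact mul_le_mul_of_nonneg_left hν.2.le haa.le
      have he0 := exp_pos (aa * ν)
      have h5 : -(8 / 1000 * (u + ν)) * exp (aa * ν) ≤ (P1 (√(u + ν)) + aa * Ph (u + ν)) * exp (aa * ν) :=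
        mul_le_mul_of_nonneg_right (by linarith) he0.le
      have h6 : 8 / 1000 * (u + ν) * exp (aa * ν) ≤ 8 / 1000 * (u + v) * exp (aa * v) :=
        mul_le_mul (by linarith [hν.2]) he1 he0.le (by positivity)
      nlinarith only [h5, h6]
  have h2 := hmono (Set.left_mem_Icc.2 hv) (Set.right_mem_Icc.2 hv) hv
  simp only [add_zero, mul_zero, Real.exp_zero, mul_one] at h2
  have he : exp (-aa * v) * exp (aa * v) = 1 := by rw [← Real.exp_add]; norm_num
  have h3 := mul_le_mul_of_nonneg_right h2 (exp_pos (-aa * v)).le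
  calc Ph u * exp (-aa * v) ≤ _ := h3
    _ = Ph (u + v) * (exp (-aa * v) * exp (aa * v)) +
      8 / 1000 * (u + v) * v * (exp (-aa * v) * exp (aa * v)) := by ring
    _ = _ := by rw [he]; ring

/-- pointwise estimate for the product of all factors but one -/
theorem big_pointwise {ι : Type*} [DecidableEq ι] (S : Finset ι) (x : ι → ℝ) (hx : ∀ i, 0 ≤ x i) {i1 : ι} (h1 : i1 ∈ S)
    (m : ℝ) (hm : ∑ i ∈ S.erase i1, x i = m) (t : ℝ) :
    ∏ i ∈ S, ph (√(x i) * t) ≤ ph (√(x i1 + m) * t) + m * (8 / 1000 * (x i1 + m) * t ^ 4 +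
      2 * aa * (x i1 + m) ^ 5 / (34947 / 10000) ^ 10 * t ^ 12) := by
  have haa : 0 < aa := by linarith [aa_num.1]
  have hm0 : 0 ≤ m := by rw [← hm]; exact Finset.sum_nonneg fun i _ => hx i
  obtain ⟨y, hy⟩ : ∃ y, y = t ^ 2 := ⟨_, rfl⟩
  have hy0 : 0 ≤ y := by rw [hy]; positivity
  have hPh : ∀ r : ℝ, 0 ≤ r → ph (√r * t) = Ph (r * y) := by
    intro r hr
    rw [hy, ← Ph_sq, mul_pow, Real.sq_sqrt hr]
  have hxm : 0 ≤ x i1 + m := add_nonneg (hx i1) hm0
  rw [← Finset.mul_prod_erase S _ h1, hPh _ (hx i1), hPh _ hxm]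
  have ht4 : t ^ 4 = y ^ 2 := by rw [hy]; ring
  have ht12 : t ^ 12 = y ^ 6 := by rw [hy]; ring
  rw [ht4, ht12]
  have hA : 0 ≤ 2 * aa * (x i1 + m) ^ 5 / (34947 / 10000) ^ 10 * y ^ 6 := by positivity
  have hB : 0 ≤ 8 / 1000 * (x i1 + m) * y ^ 2 := by positivity
  rcases le_total ((x i1 + m) * y) (tau ^ 2) with hc | hc
  · have ht16 : tau ^ 2 ≤ 16 := by
      have := tau_ub
      have := tau_lb
      nlinarith
    have hall : ∀ i ∈ S.erase i1, x i * y ≤ tau ^ 2 := by
      intro i hi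
      refine le_trans (mul_le_mul_of_nonneg_right ?_ hy0) hc
      have : x i ≤ m := by
        rw [← hm]; exact Finset.single_le_sum (f := x) (fun j _ => hx j) hi
      linarith [hx i1]
    have hnn : ∀ z : ℝ, 0 ≤ z → z ≤ tau ^ 2 → 0 ≤ Ph z := by
      intro z hz0 hz1
      unfold Ph
      exact ph_nonneg (Real.sqrt_nonneg z) (by
        rw [Real.sqrt_le_left (by linarith [tau_lb])]; exact hz1)
    have h2 : ∏ i ∈ S.erase i1, ph (√(x i) * t) ≤ exp (-aa * (m * y)) := by
      have h3 : ∏ i ∈ S.erase i1, ph (√(x i) * t) ≤ ∏ i ∈ S.erase i1, exp (-aa * (x i * y)) := by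
        refine Finset.prod_le_prod (fun i hi => ?_) fun i hi => ?_
        · rw [hPh _ (hx i)]; exact hnn _ (mul_nonneg (hx i) hy0) (hall i hi)
        · rw [hPh _ (hx i)]; exact Ph_le_exp (mul_nonneg (hx i) hy0) (hall i hi)
      rw [← Real.exp_sum, ← Finset.mul_sum, ← Finset.sum_mul, hm] at h3
      exact h3
    have hp1 : 0 ≤ Ph (x i1 * y) := hnn _ (mul_nonneg (hx i1) hy0) (by nlinarith)
    have h4 := mul_le_mul_of_nonneg_left h2 hp1
    have h5 := chi_int (u := x i1 * y) (v := m * y) (mul_nonneg (hx i1) hy0) (mul_nonneg hm0 hy0) (by linarith)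
    have e : x i1 * y + m * y = (x i1 + m) * y := by ring
    rw [e] at h5
    have h6 : 0 ≤ m * (2 * aa * (x i1 + m) ^ 5 / (34947 / 10000) ^ 10 * y ^ 6) := mul_nonneg hm0 hA
    have h7 : 8 / 1000 * (m * y) * ((x i1 + m) * y) = m * (8 / 1000 * (x i1 + m) * y ^ 2) := by ring
    rw [h7] at h5
    linarith
  · have h2 : |1 - ∏ i ∈ S.erase i1, ph (√(x i) * t)| ≤ aa * (m * y) := by
      have key : ∀ T : Finset ι, |1 - ∏ i ∈ T, ph (√(x i) * t)| ≤ ∑ i ∈ T, aa * (x i * y) := by
        intro T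
        induction T using Finset.induction_on with
        | empty => simp
        | insert a T ha ih =>
          rw [Finset.prod_insert ha, Finset.sum_insert ha]
          have e1 : 1 - ph (√(x a) * t) * ∏ i ∈ T, ph (√(x i) * t) =
            (1 - ph (√(x a) * t)) + ph (√(x a) * t) * (1 - ∏ i ∈ T, ph (√(x i) * t)) := by ring
          rw [e1]
          refine (abs_add_le _ _).trans (add_le_add ?_ ?_)
          · have := ph_lip 0 (√(x a) * t)
            rw [ph_zero, mul_pow, Real.sq_sqrt (hx a), ← hy] at this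
            refine this.trans (le_of_eq ?_)
            rw [abs_sub_comm, zero_pow (by norm_num), sub_zero, abs_of_nonneg (mul_nonneg (hx a) hy0)]
          · rw [abs_mul]
            have := ph_abs_le (√(x a) * t)
            nlinarith [abs_nonneg (1 - ∏ i ∈ T, ph (√(x i) * t))]
      refine (key _).trans (le_of_eq ?_)
      rw [← Finset.mul_sum, ← Finset.sum_mul, hm]
    have h3 : |Ph (x i1 * y) - Ph ((x i1 + m) * y)| ≤ aa * (m * y) := by
      have := ph_lip (√(x i1) * t) (√(x i1 + m) * t)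
      rw [hPh _ (hx i1), hPh _ hxm, mul_pow, mul_pow, Real.sq_sqrt (hx i1), Real.sq_sqrt hxm, ← hy] at this
      refine this.trans (le_of_eq ?_)
      rw [abs_sub_comm, show (x i1 + m) * y - x i1 * y = m * y by ring, abs_of_nonneg (mul_nonneg hm0 hy0)]
    have h4 : Ph (x i1 * y) * ∏ i ∈ S.erase i1, ph (√(x i) * t) ≤ Ph (x i1 * y) + aa * (m * y) := by
      have h5 : |Ph (x i1 * y)| ≤ 1 := ph_abs_le _
      have h6 : Ph (x i1 * y) * ∏ i ∈ S.erase i1, ph (√(x i) * t) =
        Ph (x i1 * y) - Ph (x i1 * y) * (1 - ∏ i ∈ S.erase i1, ph (√(x i) * t)) := by ring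
      rw [h6]
      have h7 : |Ph (x i1 * y) * (1 - ∏ i ∈ S.erase i1, ph (√(x i) * t))| ≤ aa * (m * y) := by
        rw [abs_mul]
        refine (mul_le_mul h5 h2 (abs_nonneg _) (by norm_num)).trans (by rw [one_mul])
      have := (abs_le.1 h7).1
      linarith
    have h8 := (abs_le.1 h3).2
    -- the factor
    have h9 : 1 ≤ ((x i1 + m) * y / (34947 / 10000) ^ 2) ^ 5 := by
      refine one_le_pow₀ ?_
      rw [le_div_iff₀ (by positivity), one_mul]
      refine le_trans ?_ hc
      exact pow_le_pow_left₀ (by norm_num) tau_lb.le 2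
    have h10 : 2 * aa * (m * y) ≤ m * (2 * aa * (x i1 + m) ^ 5 / (34947 / 10000) ^ 10 * y ^ 6) := by
      have e : m * (2 * aa * (x i1 + m) ^ 5 / (34947 / 10000) ^ 10 * y ^ 6) =
        2 * aa * (m * y) * ((x i1 + m) * y / (34947 / 10000) ^ 2) ^ 5 := by
        rw [div_pow ((x i1 + m) * y), mul_pow]; ring
      rw [e]
      exact le_mul_of_one_le_right (by positivity) h9
    have h11 : 0 ≤ m * (8 / 1000 * (x i1 + m) * y ^ 2) := mul_nonneg hm0 hB
    linarith

end

end Agent238.GS
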