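import Pool.Agent.Helper238.GS.D1

/-!
# One big coordinate, II: integration
-/

open MeasureTheory Real Set Filter Pool.Agent.Helper238
open scoped ENNReal Topology Nat

namespace Agent238.GS

noncomputable section

/-- `E exp(-s X²/2)` -/
def Mf (s : ℝ) : ℝ := Zc⁻¹ * ∫ x in (-1 : ℝ)..1, exp (-(1 + s) * x ^ 2 / 2)

theorem gauss_ph {b c : ℝ} (hb : 0 < b) (hc : 0 ≤ c) :
    ∫ t, exp (-(b / 2) * t ^ 2) * ph (√c * t) = √(π / (b / 2)) * Mf (c / b) := by
  have hb2 : 0 < b / 2 := by linarith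
  have hg : Integrable (fun u : ℝ => exp (-(b / 2) * u ^ 2)) := integrable_exp_neg_mul_sq hb2
  have hZ := Zc_pos
  have h1 : ∀ t : ℝ, exp (-(b / 2) * t ^ 2) * ph (√c * t) =
      ∫ x, Zc⁻¹ * (f0 x * (exp (-(b / 2) * t ^ 2) * cos (t * (√c * x)))) := by
    intro t
    have h := f0_cos (√c * t)
    have h2 : ph (√c * t) = Zc⁻¹ * ∫ x, f0 x * cos (√c * t * x) := by
      rw [h, inv_mul_cancel_left₀ hZ.ne']
    rw [h2, ← integral_const_mul, ← integral_const_mul]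
    refine integral_congr_ae (Eventually.of_forall fun x => ?_)
    show exp (-(b / 2) * t ^ 2) * (Zc⁻¹ * (f0 x * cos (√c * t * x))) =
      Zc⁻¹ * (f0 x * (exp (-(b / 2) * t ^ 2) * cos (t * (√c * x))))
    rw [show √c * t * x = t * (√c * x) by ring]
    ring
  have hint : Integrable (fun p : ℝ × ℝ => Zc⁻¹ * (f0 p.2 * (exp (-(b / 2) * p.1 ^ 2) * cos (p.1 * (√c * p.2)))))
      (volume.prod volume) := by
    have h := hg.mul_prod f0_int
    have h2 := (h.mul_bdd (c := 1) (by fun_prop : Continuous fun p : ℝ × ℝ => cos (p.1 * (√c * p.2))).aestronglyMeasurable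
      (Eventually.of_forall fun p => by simpa using abs_cos_le_one (p.1 * (√c * p.2)))).const_mul Zc⁻¹
    refine h2.congr (Eventually.of_forall fun p => ?_)
    show Zc⁻¹ * (exp (-(b / 2) * p.1 ^ 2) * f0 p.2 * cos (p.1 * (√c * p.2))) =
      Zc⁻¹ * (f0 p.2 * (exp (-(b / 2) * p.1 ^ 2) * cos (p.1 * (√c * p.2))))
    ring
  simp_rw [h1]
  rw [integral_integral_swap hint]
  have h3 : ∀ x, ∫ t, Zc⁻¹ * (f0 x * (exp (-(b / 2) * t ^ 2) * cos (t * (√c * x)))) =
      f0 x * (Zc⁻¹ * (√(π / (b / 2)) * exp (-(c / b) * x ^ 2 / 2))) := by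
    intro x
    rw [integral_const_mul, integral_const_mul, gauss_cos hb2]
    have : exp (-(√c * x) ^ 2 / (4 * (b / 2))) = exp (-(c / b) * x ^ 2 / 2) := by
      congr 1
      rw [mul_pow, Real.sq_sqrt hc]
      field_simp; ring
    rw [this]; ring
  simp_rw [h3]
  rw [f0_integral]
  unfold Mf
  rw [← intervalIntegral.integral_const_mul, ← intervalIntegral.integral_const_mul]
  refine intervalIntegral.integral_congr fun x _ => ?_
  show exp (-x ^ 2 / 2) * (Zc⁻¹ * (√(π / (b / 2)) * exp (-(c / b) * x ^ 2 / 2))) =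
    √(π / (b / 2)) * (Zc⁻¹ * exp (-(1 + c / b) * x ^ 2 / 2))
  have : exp (-(1 + c / b) * x ^ 2 / 2) = exp (-x ^ 2 / 2) * exp (-(c / b) * x ^ 2 / 2) := by
    rw [← Real.exp_add]; congr 1; ring
  rw [this]; ring

theorem gm4 {b : ℝ} (hb : 0 < b) : ∫ t : ℝ, t ^ 4 * exp (-(b / 2) * t ^ 2) = 3 / b ^ 2 * √(π / (b / 2)) := by
  have h := gm_even 2 (b := b / 2) (by linarith)
  have e : ((2 * 2 - 1 : ℕ)‼ : ℝ) = 3 := by norm_num [Nat.doubleFactorial]
  rw [e, show 2 * (b / 2) = b by ring] at h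
  exact h

theorem gm12 {b : ℝ} (hb : 0 < b) : ∫ t : ℝ, t ^ 12 * exp (-(b / 2) * t ^ 2) = 10395 / b ^ 6 * √(π / (b / 2)) := by
  have h := gm_even 6 (b := b / 2) (by linarith)
  have e : ((2 * 6 - 1 : ℕ)‼ : ℝ) = 10395 := by norm_num [Nat.doubleFactorial]
  rw [e, show 2 * (b / 2) = b by ring] at h
  exact h

/-- integrated form -/
theorem big_int {n : ℕ} (x : Fin n → ℝ) (hx : ∀ i, 0 ≤ x i) {i0 i1 : Fin n} (hne : i1 ≠ i0)
    (hs : ∑ i, x i = 1) (h0 : 0 < x i0) :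
    ∫ t, exp (-(x i0 / 2) * t ^ 2) * ∏ i ∈ Finset.univ.erase i0, ph (√(x i) * t) ≤
      √(π / (x i0 / 2)) * (Mf ((1 - x i0) / x i0) + (1 - x i0 - x i1) / x i0 *
        (24 / 1000 * ((1 - x i0) / x i0) + 1115 / 100000 * ((1 - x i0) / x i0) ^ 5)) := by
  classical
  obtain ⟨b, hb⟩ : ∃ b, b = x i0 := ⟨_, rfl⟩
  rw [← hb] at h0
  have hsp := sum_split x hne
  rw [hs, ← hb] at hsp
  obtain ⟨m, hm⟩ : ∃ m, m = ∑ i ∈ (Finset.univ.erase i0).erase i1, x i := ⟨_, rfl⟩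
  have hm0 : 0 ≤ m := by rw [hm]; exact Finset.sum_nonneg fun i _ => hx i
  rw [← hm] at hsp
  have hm' : 1 - b - x i1 = m := by linarith
  have hc : x i1 + m = 1 - b := by linarith
  have hc0 : 0 ≤ 1 - b := by rw [← hc]; exact add_nonneg (hx i1) hm0
  rw [← hb, hm']
  have haa := aa_num
  have haa0 : 0 < aa := by linarith [haa.1]
  have hb2 : 0 < b / 2 := by linarith
  have hpt : ∀ t : ℝ, exp (-(b / 2) * t ^ 2) * ∏ i ∈ Finset.univ.erase i0, ph (√(x i) * t) ≤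
      exp (-(b / 2) * t ^ 2) * ph (√(1 - b) * t) + (m * (8 / 1000 * (1 - b)) * (t ^ 4 * exp (-(b / 2) * t ^ 2)) +
        m * (2 * aa * (1 - b) ^ 5 / (34947 / 10000) ^ 10) * (t ^ 12 * exp (-(b / 2) * t ^ 2))) := by
    intro t
    have h := big_pointwise (Finset.univ.erase i0) x hx (i1 := i1)
      (Finset.mem_erase.2 ⟨hne, Finset.mem_univ _⟩) m hm.symm t
    rw [hc] at h
    have h2 := mul_le_mul_of_nonneg_left h (exp_pos (-(b / 2) * t ^ 2)).le
    refine h2.trans (le_of_eq ?_)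
    ring
  have I1' : Integrable (fun t : ℝ => exp (-(b / 2) * t ^ 2) * ph (√(1 - b) * t)) := by
    refine (integrable_exp_neg_mul_sq hb2).mul_bdd (c := 1) (ph_sc_meas _).aestronglyMeasurable
      (Eventually.of_forall fun t => by simpa using ph_abs_le (√(1 - b) * t))
  have I2' := (gm_int 4 hb2).const_mul (m * (8 / 1000 * (1 - b)))
  have I3' := (gm_int 12 hb2).const_mul (m * (2 * aa * (1 - b) ^ 5 / (34947 / 10000) ^ 10))
  have I0' : Integrable (fun t : ℝ => exp (-(b / 2) * t ^ 2) * ∏ i ∈ Finset.univ.erase i0, ph (√(x i) * t)) := by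
    refine (integrable_exp_neg_mul_sq hb2).mul_bdd (c := 1)
      (continuous_finset_prod _ fun i _ => ph_sc_meas (x i)).aestronglyMeasurable
      (Eventually.of_forall fun t => ?_)
    rw [Real.norm_eq_abs, Finset.abs_prod]
    exact Finset.prod_le_one (fun _ _ => abs_nonneg _) fun _ _ => ph_abs_le _
  have I23 : Integrable (fun t : ℝ => m * (8 / 1000 * (1 - b)) * (t ^ 4 * exp (-(b / 2) * t ^ 2)) +
        m * (2 * aa * (1 - b) ^ 5 / (34947 / 10000) ^ 10) * (t ^ 12 * exp (-(b / 2) * t ^ 2))) := I2'.add I3'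
  refine (integral_mono I0' (I1'.add I23) hpt).trans ?_
  have e : ∫ t : ℝ, (exp (-(b / 2) * t ^ 2) * ph (√(1 - b) * t) + (m * (8 / 1000 * (1 - b)) * (t ^ 4 * exp (-(b / 2) * t ^ 2)) +
        m * (2 * aa * (1 - b) ^ 5 / (34947 / 10000) ^ 10) * (t ^ 12 * exp (-(b / 2) * t ^ 2)))) =
      √(π / (b / 2)) * Mf ((1 - b) / b) + (m * (8 / 1000 * (1 - b)) * (3 / b ^ 2 * √(π / (b / 2))) +
        m * (2 * aa * (1 - b) ^ 5 / (34947 / 10000) ^ 10) * (10395 / b ^ 6 * √(π / (b / 2)))) := by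
    rw [integral_add I1' I23, integral_add I2' I3', integral_const_mul, integral_const_mul,
      gauss_ph h0 hc0, gm4 h0, gm12 h0]
  refine (le_of_eq e).trans ?_
  have hk : 2 * aa / (34947 / 10000) ^ 10 * 10395 ≤ 1115 / 100000 := by
    have : 2 * aa / (34947 / 10000) ^ 10 * 10395 = aa * (2 / (34947 / 10000) ^ 10 * 10395) := by ring
    rw [this]
    refine (mul_le_mul_of_nonneg_right haa.2.le (by positivity)).trans ?_
    norm_num
  have hr : 0 ≤ √(π / (b / 2)) := Real.sqrt_nonneg _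
  have e1 : √(π / (b / 2)) * Mf ((1 - b) / b) + (m * (8 / 1000 * (1 - b)) * (3 / b ^ 2 * √(π / (b / 2))) +
        m * (2 * aa * (1 - b) ^ 5 / (34947 / 10000) ^ 10) * (10395 / b ^ 6 * √(π / (b / 2)))) =
      √(π / (b / 2)) * (Mf ((1 - b) / b) + m / b * (24 / 1000 * ((1 - b) / b) +
        (2 * aa / (34947 / 10000) ^ 10 * 10395) * ((1 - b) / b) ^ 5)) := by
    field_simp
    ring
  rw [e1]
  refine mul_le_mul_of_nonneg_left ?_ hr
  have h5 : 0 ≤ ((1 - b) / b) ^ 5 := by positivity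
  have h6 : 0 ≤ m / b := by positivity
  have h7 := mul_le_mul_of_nonneg_left (mul_le_mul_of_nonneg_right hk h5) h6
  linarith

end

end Agent238.GS
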