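import Pool.Agent.Helper238.GS.D2

/-!
# One big coordinate, III: the numerical inequality
-/

open MeasureTheory Real Set Filter Pool.Agent.Helper238
open scoped ENNReal Topology Nat

namespace Agent238.GS

noncomputable section

theorem Zc_num : Zc < 171125 / 100000 ∧ 171124 / 100000 < Zc := by
  have hK := Kc_num
  have h : Kc * Zc = 2 * exp (-1 / 2) := by
    unfold Kc; rw [mul_comm, ← mul_assoc, mul_inv_cancel₀ Zc_pos.ne', one_mul]
  have he : exp (-1 / 2) ^ 2 = exp (-1) := by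
    rw [← Real.exp_nat_mul]; congr 1; norm_num
  have he1 := Real.exp_neg_one_gt_d9
  have he2 := Real.exp_neg_one_lt_d9
  have he0 := exp_pos (-1 / 2)
  have hu : exp (-1 / 2) < 606531 / 1000000 := by
    by_contra hn
    push Not at hn
    have := pow_le_pow_left₀ (by norm_num) hn 2
    rw [he] at this
    norm_num at this
    linarith
  have hl : 606530 / 1000000 < exp (-1 / 2) := by
    by_contra hn
    push Not at hn
    have := pow_le_pow_left₀ he0.le hn 2
    rw [he] at this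
    norm_num at this
    linarith
  have hZ := Zc_pos
  constructor
  · by_contra hn
    push Not at hn
    nlinarith only [h, hn, hK.1, hu, hZ]
  · by_contra hn
    push Not at hn
    nlinarith only [h, hn, hK.2, hl, hZ, hK.1]

/-- tilted moments -/
theorem tilt2 : ∫ x in (-1 : ℝ)..1, x ^ 2 * exp (-x ^ 2) = (I1 - 2 * exp (-1)) / 2 := by
  have hd : ∀ x ∈ uIcc (-1 : ℝ) 1, HasDerivAt (fun x : ℝ => x * exp (-x ^ 2))
      (exp (-x ^ 2) - 2 * (x ^ 2 * exp (-x ^ 2))) x := by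
    intro x _
    have h1 : HasDerivAt (fun x : ℝ => -x ^ 2) (-(2 * x)) x := by
      have := (hasDerivAt_pow 2 x).neg
      refine this.congr_deriv ?_
      norm_num
    refine ((hasDerivAt_id x).mul h1.exp).congr_deriv ?_
    simp only [id]; ring
  have h := intervalIntegral.integral_eq_sub_of_hasDerivAt hd ((by fun_prop : Continuous fun x : ℝ =>
    exp (-x ^ 2) - 2 * (x ^ 2 * exp (-x ^ 2))).intervalIntegrable _ _)
  rw [intervalIntegral.integral_sub ((by fun_prop : Continuous fun x : ℝ => exp (-x ^ 2)).intervalIntegrable _ _)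
    ((by fun_prop : Continuous fun x : ℝ => 2 * (x ^ 2 * exp (-x ^ 2))).intervalIntegrable _ _),
    intervalIntegral.integral_const_mul] at h
  unfold I1
  norm_num at h ⊢
  linarith

theorem tilt4 : ∫ x in (-1 : ℝ)..1, x ^ 4 * exp (-x ^ 2) = (3 * ((I1 - 2 * exp (-1)) / 2) - 2 * exp (-1)) / 2 := by
  have hd : ∀ x ∈ uIcc (-1 : ℝ) 1, HasDerivAt (fun x : ℝ => x ^ 3 * exp (-x ^ 2))
      (3 * (x ^ 2 * exp (-x ^ 2)) - 2 * (x ^ 4 * exp (-x ^ 2))) x := by
    intro x _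
    have h1 : HasDerivAt (fun x : ℝ => -x ^ 2) (-(2 * x)) x := by
      have := (hasDerivAt_pow 2 x).neg
      refine this.congr_deriv ?_
      norm_num
    refine ((hasDerivAt_pow 3 x).mul h1.exp).congr_deriv ?_
    norm_num; ring
  have h := intervalIntegral.integral_eq_sub_of_hasDerivAt hd ((by fun_prop : Continuous fun x : ℝ =>
    3 * (x ^ 2 * exp (-x ^ 2)) - 2 * (x ^ 4 * exp (-x ^ 2))).intervalIntegrable _ _)
  rw [intervalIntegral.integral_sub ((by fun_prop : Continuous fun x : ℝ => 3 * (x ^ 2 * exp (-x ^ 2))).intervalIntegrable _ _)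
    ((by fun_prop : Continuous fun x : ℝ => 2 * (x ^ 4 * exp (-x ^ 2))).intervalIntegrable _ _),
    intervalIntegral.integral_const_mul, intervalIntegral.integral_const_mul, tilt2] at h
  norm_num at h ⊢
  linarith

theorem Mf_near {σ : ℝ} (h0 : 0 ≤ σ) (h1 : σ ≤ 1 / 4) :
    Zc * Mf (1 - σ) ≤ I1 + σ / 2 * (378946 / 1000000) + 1325 / 10000 * σ ^ 2 * (200539 / 1000000) := by
  have hZ := Zc_pos
  unfold Mf
  rw [mul_inv_cancel_left₀ hZ.ne']
  have hle : ∫ x in (-1 : ℝ)..1, exp (-(1 + (1 - σ)) * x ^ 2 / 2) ≤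
      ∫ x in (-1 : ℝ)..1, (exp (-x ^ 2) + (σ / 2 * (x ^ 2 * exp (-x ^ 2)) + 1325 / 10000 * σ ^ 2 * (x ^ 4 * exp (-x ^ 2)))) := by
    refine intervalIntegral.integral_mono_on (by norm_num) ?_ ?_ fun x hx => ?_
    · exact (by fun_prop : Continuous fun x : ℝ => exp (-(1 + (1 - σ)) * x ^ 2 / 2)).intervalIntegrable _ _
    · exact (by fun_prop : Continuous fun x : ℝ => (exp (-x ^ 2) + (σ / 2 * (x ^ 2 * exp (-x ^ 2)) +
        1325 / 10000 * σ ^ 2 * (x ^ 4 * exp (-x ^ 2))))).intervalIntegrable _ _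
    · have e1 : exp (-(1 + (1 - σ)) * x ^ 2 / 2) = exp (-x ^ 2) * exp (σ * x ^ 2 / 2) := by
        rw [← Real.exp_add]; congr 1; ring
      obtain ⟨y, hy⟩ : ∃ y, y = σ * x ^ 2 / 2 := ⟨_, rfl⟩
      have hx2 : x ^ 2 ≤ 1 := by nlinarith [hx.1, hx.2]
      have hy0 : 0 ≤ y := by rw [hy]; positivity
      have hy1 : y ≤ 1 / 8 := by rw [hy]; nlinarith [sq_nonneg x]
      have h := Real.exp_bound' hy0 (by linarith) (n := 3) (by norm_num)
      simp only [Finset.sum_range_succ, Finset.sum_range_zero, Nat.factorial] at h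
      norm_num at h
      have h2 : exp y ≤ 1 + y + 53 / 100 * y ^ 2 := by
        have : y ^ 3 ≤ 1 / 8 * y ^ 2 := by nlinarith [sq_nonneg y]
        have h9 := sq_nonneg y
        linarith
      rw [e1, ← hy]
      have h3 := mul_le_mul_of_nonneg_left h2 (exp_pos (-x ^ 2)).le
      refine h3.trans (le_of_eq ?_)
      rw [hy]; ring
  refine hle.trans ?_
  have c1 : IntervalIntegrable (fun x : ℝ => exp (-x ^ 2)) volume (-1) 1 :=
    (by fun_prop : Continuous fun x : ℝ => exp (-x ^ 2)).intervalIntegrable _ _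
  have c2 : IntervalIntegrable (fun x : ℝ => σ / 2 * (x ^ 2 * exp (-x ^ 2))) volume (-1) 1 :=
    (by fun_prop : Continuous fun x : ℝ => σ / 2 * (x ^ 2 * exp (-x ^ 2))).intervalIntegrable _ _
  have c3 : IntervalIntegrable (fun x : ℝ => 1325 / 10000 * σ ^ 2 * (x ^ 4 * exp (-x ^ 2))) volume (-1) 1 :=
    (by fun_prop : Continuous fun x : ℝ => 1325 / 10000 * σ ^ 2 * (x ^ 4 * exp (-x ^ 2))).intervalIntegrable _ _
  rw [intervalIntegral.integral_add c1 (c2.add c3), intervalIntegral.integral_add c2 c3,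
    intervalIntegral.integral_const_mul, intervalIntegral.integral_const_mul, tilt2, tilt4]
  have hI := I1_num
  have he1 := Real.exp_neg_one_gt_d9
  have b2 : (I1 - 2 * exp (-1)) / 2 ≤ 378946 / 1000000 := by linarith
  have b4 : (3 * ((I1 - 2 * exp (-1)) / 2) - 2 * exp (-1)) / 2 ≤ 200539 / 1000000 := by linarith
  have k1 : σ / 2 * ((I1 - 2 * exp (-1)) / 2) ≤ σ / 2 * (378946 / 1000000) :=
    mul_le_mul_of_nonneg_left b2 (by positivity)
  have k2 : 1325 / 10000 * σ ^ 2 * ((3 * ((I1 - 2 * exp (-1)) / 2) - 2 * exp (-1)) / 2) ≤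
      1325 / 10000 * σ ^ 2 * (200539 / 1000000) := mul_le_mul_of_nonneg_left b4 (by positivity)
  show I1 + _ ≤ _
  linarith

theorem Mf_far {s : ℝ} (h0 : 0 ≤ s) : Mf s ≤ 1 - s / 2 * (2911 / 10000) + s ^ 2 / 8 * (16451 / 100000) := by
  have hZ := Zc_pos
  have hle : ∫ x in (-1 : ℝ)..1, exp (-(1 + s) * x ^ 2 / 2) ≤
      ∫ x in (-1 : ℝ)..1, (exp (-x ^ 2 / 2) * x ^ (2 * 0) + (-(s / 2) * (exp (-x ^ 2 / 2) * x ^ (2 * 1)) +
        s ^ 2 / 8 * (exp (-x ^ 2 / 2) * x ^ (2 * 2)))) := by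
    refine intervalIntegral.integral_mono_on (by norm_num) ?_ ?_ fun x hx => ?_
    · exact (by fun_prop : Continuous fun x : ℝ => exp (-(1 + s) * x ^ 2 / 2)).intervalIntegrable _ _
    · exact (by fun_prop : Continuous fun x : ℝ => (exp (-x ^ 2 / 2) * x ^ (2 * 0) + (-(s / 2) * (exp (-x ^ 2 / 2) * x ^ (2 * 1)) +
        s ^ 2 / 8 * (exp (-x ^ 2 / 2) * x ^ (2 * 2))))).intervalIntegrable _ _
    · have e1 : exp (-(1 + s) * x ^ 2 / 2) = exp (-x ^ 2 / 2) * exp (-(s * x ^ 2 / 2)) := by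
        rw [← Real.exp_add]; congr 1; ring
      obtain ⟨y, hy⟩ : ∃ y, y = s * x ^ 2 / 2 := ⟨_, rfl⟩
      have hy0 : 0 ≤ y := by rw [hy]; positivity
      have h2 : exp (-y) ≤ 1 - y + y ^ 2 / 2 := by
        have h3 := Real.quadratic_le_exp_of_nonneg hy0
        rw [Real.exp_neg, inv_le_iff_one_le_mul₀ (exp_pos y)]
        have h4 : 0 < 1 - y + y ^ 2 / 2 := by nlinarith [sq_nonneg (y - 1)]
        have h5 := mul_le_mul_of_nonneg_left h3 h4.le
        nlinarith [sq_nonneg (y ^ 2)]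
      rw [e1, ← hy]
      have h3 := mul_le_mul_of_nonneg_left h2 (exp_pos (-x ^ 2 / 2)).le
      refine h3.trans (le_of_eq ?_)
      rw [hy]; ring
  unfold Mf
  have h2 := mul_le_mul_of_nonneg_left hle (inv_pos.2 hZ).le
  refine h2.trans ?_
  have c1 : IntervalIntegrable (fun x : ℝ => exp (-x ^ 2 / 2) * x ^ (2 * 0)) volume (-1) 1 :=
    (by fun_prop : Continuous fun x : ℝ => exp (-x ^ 2 / 2) * x ^ (2 * 0)).intervalIntegrable _ _
  have c2 : IntervalIntegrable (fun x : ℝ => -(s / 2) * (exp (-x ^ 2 / 2) * x ^ (2 * 1))) volume (-1) 1 :=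
    (by fun_prop : Continuous fun x : ℝ => -(s / 2) * (exp (-x ^ 2 / 2) * x ^ (2 * 1))).intervalIntegrable _ _
  have c3 : IntervalIntegrable (fun x : ℝ => s ^ 2 / 8 * (exp (-x ^ 2 / 2) * x ^ (2 * 2))) volume (-1) 1 :=
    (by fun_prop : Continuous fun x : ℝ => s ^ 2 / 8 * (exp (-x ^ 2 / 2) * x ^ (2 * 2))).intervalIntegrable _ _
  rw [intervalIntegral.integral_add c1 (c2.add c3), intervalIntegral.integral_add c2 c3,
    intervalIntegral.integral_const_mul, intervalIntegral.integral_const_mul]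
  have m0 := mo_zero
  have m1 := mo_one
  have m2 := mo_succ 1
  rw [m1] at m2
  unfold mo at m0 m1 m2
  have hK := Kc_num
  have e : Zc⁻¹ * ((∫ x in (-1 : ℝ)..1, exp (-x ^ 2 / 2) * x ^ (2 * 0)) + (-(s / 2) * (∫ x in (-1 : ℝ)..1, exp (-x ^ 2 / 2) * x ^ (2 * 1)) +
      s ^ 2 / 8 * (∫ x in (-1 : ℝ)..1, exp (-x ^ 2 / 2) * x ^ (2 * 2)))) =
      Zc⁻¹ * (∫ x in (-1 : ℝ)..1, exp (-x ^ 2 / 2) * x ^ (2 * 0)) - s / 2 * (Zc⁻¹ * (∫ x in (-1 : ℝ)..1, exp (-x ^ 2 / 2) * x ^ (2 * 1))) +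
      s ^ 2 / 8 * (Zc⁻¹ * (∫ x in (-1 : ℝ)..1, exp (-x ^ 2 / 2) * x ^ (2 * 2))) := by ring
  rw [e, m0, m1]
  rw [show (2 * (1 + 1)) = 2 * 2 by norm_num] at m2
  rw [m2]
  push_cast
  have k1 : s / 2 * (2911 / 10000) ≤ s / 2 * (1 - Kc) := mul_le_mul_of_nonneg_left (by linarith) (by positivity)
  have k2 : s ^ 2 / 8 * ((2 * 1 + 1) * (1 - Kc) - Kc) ≤ s ^ 2 / 8 * (16451 / 100000) :=
    mul_le_mul_of_nonneg_left (by linarith) (by positivity)
  linarith

/-- the one dimensional inequality -/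
theorem D_num {s μ : ℝ} (h0 : 0 ≤ s) (h1 : s ≤ 1) (hμ0 : 0 ≤ μ) (hμ1 : μ ≤ s) (hμ2 : μ ≤ 3 * (1 - s)) :
    √(1 + s) * (Mf s + μ * (24 / 1000 * s + 1115 / 100000 * s ^ 5)) ≤ √2 * (I1 / Zc) := by
  have hZ := Zc_pos
  have hZn := Zc_num
  have hI := I1_num
  have h2 : 0 < √(2 : ℝ) := by positivity
  have h22 : √(2 : ℝ) ^ 2 = 2 := Real.sq_sqrt (by norm_num)
  have hs0 : 0 ≤ √(1 + s) := Real.sqrt_nonneg _
  have hs2 : √(1 + s) ^ 2 = 1 + s := Real.sq_sqrt (by linarith)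
  rcases le_total (3 / 4) s with hc | hc
  · obtain ⟨σ, hσ⟩ : ∃ σ, s = 1 - σ := ⟨1 - s, by ring⟩
    have hσ0 : 0 ≤ σ := by linarith
    have hσ1 : σ ≤ 1 / 4 := by linarith
    have hM := Mf_near hσ0 hσ1
    rw [← hσ] at hM
    have hsq : √(1 + s) ≤ √2 * (1 - σ / 4) := by
      rw [Real.sqrt_le_left (by nlinarith), mul_pow, h22]
      nlinarith [sq_nonneg σ]
    have h5 : s ^ 5 ≤ s := by
      calc s ^ 5 ≤ s ^ 1 := pow_le_pow_of_le_one h0 h1 (by norm_num)
        _ = s := pow_one s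
    have hW : μ * (24 / 1000 * s + 1115 / 100000 * s ^ 5) ≤ 3 * σ * (3515 / 100000) := by
      have : 24 / 1000 * s + 1115 / 100000 * s ^ 5 ≤ 3515 / 100000 := by linarith
      exact mul_le_mul (by linarith) this (by positivity) (by positivity)
    have hA : Mf s + μ * (24 / 1000 * s + 1115 / 100000 * s ^ 5) ≤
        (I1 + σ / 2 * (378946 / 1000000) + 1325 / 10000 * σ ^ 2 * (200539 / 1000000) +
          Zc * (3 * σ * (3515 / 100000))) / Zc := by
      rw [le_div_iff₀ hZ]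
      nlinarith only [hM, mul_le_mul_of_nonneg_left hW hZ.le]
    have hMf0 : 0 ≤ Mf s := by
      unfold Mf
      exact mul_nonneg (inv_pos.2 hZ).le (intervalIntegral.integral_nonneg (by norm_num) fun x _ => (exp_pos _).le)
    have hA0 : 0 ≤ Mf s + μ * (24 / 1000 * s + 1115 / 100000 * s ^ 5) := by
      have : 0 ≤ μ * (24 / 1000 * s + 1115 / 100000 * s ^ 5) := by positivity
      linarith
    refine (mul_le_mul hsq hA hA0 (by nlinarith)).trans ?_
    rw [mul_assoc]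
    refine mul_le_mul_of_nonneg_left ?_ h2.le
    rw [← mul_div_assoc]
    refine div_le_div_of_nonneg_right ?_ hZ.le
    have hZs : Zc * (3 * σ * (3515 / 100000)) ≤ 171125 / 100000 * (3 * σ * (3515 / 100000)) :=
      mul_le_mul_of_nonneg_right hZn.1.le (by positivity)
    have h14 : 0 ≤ 1 - σ / 4 := by linarith
    have h6 : (1 - σ / 4) * (I1 + σ / 2 * (378946 / 1000000) + 1325 / 10000 * σ ^ 2 * (200539 / 1000000) +
        Zc * (3 * σ * (3515 / 100000))) ≤ (1 - σ / 4) * (I1 + σ / 2 * (378946 / 1000000) +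
        1325 / 10000 * σ ^ 2 * (200539 / 1000000) + 171125 / 100000 * (3 * σ * (3515 / 100000))) :=
      mul_le_mul_of_nonneg_left (by linarith) h14
    refine h6.trans ?_
    have h7 : (1 - σ / 4) * (I1 + σ / 2 * (378946 / 1000000) +
        1325 / 10000 * σ ^ 2 * (200539 / 1000000) + 171125 / 100000 * (3 * σ * (3515 / 100000))) =
        I1 - σ * (I1 / 4 - (378946 / 2000000 + 171125 / 100000 * (3 * (3515 / 100000)))) -
        σ ^ 2 * ((378946 / 2000000 + 171125 / 100000 * (3 * (3515 / 100000))) / 4 - 1325 / 10000 * (200539 / 1000000)) -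
        σ ^ 3 * (1325 / 10000 * (200539 / 1000000) / 4) := by ring
    rw [h7]
    have k1 : 0 ≤ σ * (I1 / 4 - (378946 / 2000000 + 171125 / 100000 * (3 * (3515 / 100000)))) :=
      mul_nonneg hσ0 (by linarith)
    have k2 : 0 ≤ σ ^ 2 * ((378946 / 2000000 + 171125 / 100000 * (3 * (3515 / 100000))) / 4 - 1325 / 10000 * (200539 / 1000000)) := by
      refine mul_nonneg (sq_nonneg _) (by norm_num)
    have k3 : 0 ≤ σ ^ 3 * (1325 / 10000 * (200539 / 1000000) / 4) := by positivity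
    linarith
  · have hM := Mf_far h0
    have hsq : √(1 + s) ≤ (275 / 100 + s) / (26457 / 10000) := by
      rw [Real.sqrt_le_left (by positivity), div_pow, le_div_iff₀ (by positivity)]
      nlinarith [sq_nonneg (s - 3 / 4)]
    have hs5 : s ^ 4 ≤ (3 / 4) ^ 4 := pow_le_pow_left₀ h0 hc 4
    have hW : μ * (24 / 1000 * s + 1115 / 100000 * s ^ 5) ≤ 276 / 10000 * s ^ 2 := by
      have : 24 / 1000 * s + 1115 / 100000 * s ^ 5 ≤ 276 / 10000 * s := by
        have : s ^ 5 = s * s ^ 4 := by ring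
        nlinarith
      refine (mul_le_mul hμ1 this (by positivity) h0).trans (le_of_eq ?_)
      ring
    have hA : Mf s + μ * (24 / 1000 * s + 1115 / 100000 * s ^ 5) ≤ 1 - s * (14555 / 100000) + s ^ 2 * (482 / 10000) := by
      have := sq_nonneg s
      linarith
    have hA1 : 0 ≤ 1 - s * (14555 / 100000) + s ^ 2 * (482 / 10000) := by nlinarith
    have h3 : √(1 + s) * (Mf s + μ * (24 / 1000 * s + 1115 / 100000 * s ^ 5)) ≤
        (275 / 100 + s) / (26457 / 10000) * (1 - s * (14555 / 100000) + s ^ 2 * (482 / 10000)) := by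
      refine (mul_le_mul_of_nonneg_left hA hs0).trans (mul_le_mul_of_nonneg_right hsq hA1)
    refine h3.trans ?_
    have h4 : (141421 / 100000 : ℝ) ≤ √2 := by
      rw [Real.le_sqrt (by norm_num) (by norm_num)]; norm_num
    have h5 : (8728 / 10000 : ℝ) ≤ I1 / Zc := by
      rw [le_div_iff₀ hZ]; linarith
    have h6 : (141421 / 100000 : ℝ) * (8728 / 10000) ≤ √2 * (I1 / Zc) := mul_le_mul h4 h5 (by norm_num) h2.le
    refine le_trans ?_ h6
    rw [div_mul_eq_mul_div, div_le_iff₀ (by norm_num)]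
    nlinarith [mul_nonneg h0 (sub_nonneg.2 hc), mul_nonneg (mul_nonneg h0 h0) (sub_nonneg.2 hc)]

end

end Agent238.GS
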