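import Pool.Agent.Helper238.GS.D3

/-!
# One big coordinate, IV; the value of the section function
-/

open MeasureTheory Real Set Filter Pool.Agent.Helper238
open scoped ENNReal Topology Nat

namespace Agent238.GS

noncomputable section

/-- the normalising factor -/
def Kn (n : ℕ) : ℝ := (√(2 * π))⁻¹ * ((√(2 * π))⁻¹ * Zc) ^ n

theorem Kn_pos (n : ℕ) : 0 < Kn n := by
  have := Zc_pos
  have : 0 < √(2 * π) := Real.sqrt_pos.2 (by positivity)
  unfold Kn; positivity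

theorem ph_sq_arg (a t : ℝ) : ph (√(a ^ 2) * t) = ph (a * t) := by
  rw [Real.sqrt_sq_eq_abs, ← ph_abs (|a| * t), abs_mul, abs_abs, ← abs_mul, ph_abs]

theorem sum_sq_one {n : ℕ} (θ : EuclideanSpace ℝ (Fin n)) (hθ : ‖θ‖ = 1) : ∑ i, θ i ^ 2 = 1 := by
  have h := EuclideanSpace.norm_sq_eq θ
  rw [hθ] at h
  simp only [Real.norm_eq_abs, sq_abs] at h
  linarith

theorem prod_int_two {n : ℕ} (x : Fin n → ℝ) {i0 i1 : Fin n} (hne : i1 ≠ i0)
    (h0 : 0 < x i0) (h1 : 0 < x i1) : Integrable (fun t => ∏ i, ph (√(x i) * t)) := by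
  have hI : Integrable (fun t => 1 / 2 * ph (√(x i0) * t) ^ 2 + 1 / 2 * ph (√(x i1) * t) ^ 2) :=
    ((ph_sc_sq_int h0).const_mul _).add ((ph_sc_sq_int h1).const_mul _)
  refine hI.mono' (prod_cont x).aestronglyMeasurable (Eventually.of_forall fun t => ?_)
  rw [Real.norm_eq_abs, prod_split _ hne, abs_mul, abs_mul, Finset.abs_prod]
  have h2 : ∏ i ∈ (Finset.univ.erase i0).erase i1, |ph (√(x i) * t)| ≤ 1 :=
    Finset.prod_le_one (fun _ _ => abs_nonneg _) fun _ _ => ph_abs_le _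
  have h3 : 0 ≤ |ph (√(x i1) * t)| := abs_nonneg _
  have h4 : 0 ≤ |ph (√(x i0) * t)| := abs_nonneg _
  have h5 : |ph (√(x i0) * t)| * (|ph (√(x i1) * t)| * ∏ i ∈ (Finset.univ.erase i0).erase i1, |ph (√(x i) * t)|) ≤
      |ph (√(x i0) * t)| * |ph (√(x i1) * t)| := by
    refine mul_le_mul_of_nonneg_left ?_ h4
    exact mul_le_of_le_one_right h3 h2
  refine h5.trans ?_
  rw [← sq_abs (ph (√(x i0) * t)), ← sq_abs (ph (√(x i1) * t))]
  nlinarith only [sq_nonneg (|ph (√(x i0) * t)| - |ph (√(x i1) * t)|)]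

/-- section measure as an integral -/
theorem secM_V {n : ℕ} (θ : EuclideanSpace ℝ (Fin n)) (hθ : ‖θ‖ = 1) {i0 i1 : Fin n} (hne : i1 ≠ i0)
    (h0 : θ i0 ≠ 0) (h1 : θ i1 ≠ 0) : secM θ = Kn n * ∫ t, ∏ i, ph (√(θ i ^ 2) * t) := by
  have h := prod_int_two (fun i => θ i ^ 2) hne (by positivity) (by positivity)
  have e : (fun t => ∏ i, ct cg (θ i * t)) = fun t => ((√(2 * π))⁻¹ * Zc) ^ n * ∏ i, ph (√(θ i ^ 2) * t) := by
    funext t
    have : ∀ i, ct cg (θ i * t) = (√(2 * π))⁻¹ * Zc * ph (√(θ i ^ 2) * t) := by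
      intro i; rw [ct_cg, ph_sq_arg]
    simp_rw [this]
    rw [Finset.prod_mul_distrib, Finset.prod_const, Finset.card_univ, Fintype.card_fin]
  rw [secM_formula θ hθ (by rw [e]; exact h.const_mul _), e, integral_const_mul]
  unfold Kn
  ring

/-- region D -/
theorem regionD {n : ℕ} (θ : EuclideanSpace ℝ (Fin n)) (hθ : ‖θ‖ = 1) {i0 i1 : Fin n} (hne : i1 ≠ i0)
    (hbig : 1 / 2 + (1 - θ i0 ^ 2 - θ i1 ^ 2) / 6 ≤ θ i0 ^ 2) :
    secM θ ≤ Kn n * (√2 * G0) := by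
  classical
  have hs := sum_sq_one θ hθ
  obtain ⟨x, hx⟩ : ∃ x : Fin n → ℝ, x = fun i => θ i ^ 2 := ⟨_, rfl⟩
  have hxn : ∀ i, 0 ≤ x i := fun i => by rw [hx]; exact sq_nonneg _
  have hsx : ∑ i, x i = 1 := by rw [hx]; exact hs
  have hsp := sum_split x hne
  rw [hsx] at hsp
  have hrest : 0 ≤ ∑ i ∈ (Finset.univ.erase i0).erase i1, x i := Finset.sum_nonneg fun i _ => hxn i
  have hbig' : 1 / 2 + (1 - x i0 - x i1) / 6 ≤ x i0 := by rw [hx]; exact hbig
  have h0 : 0 < x i0 := by linarith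
  have hZ := Zc_pos
  have hP : 0 < √(2 * π) := Real.sqrt_pos.2 (by positivity)
  obtain ⟨c, hc⟩ : ∃ c, c = (√(2 * π))⁻¹ * Zc := ⟨_, rfl⟩
  have hc0 : 0 < c := by rw [hc]; positivity
  have hn : 1 ≤ n := Nat.succ_le_of_lt (lt_of_le_of_lt (Nat.zero_le _) i0.2)
  have e : (fun t => ∏ i, ct (if i = i0 then gam else cg) (θ i * t)) =
      fun t => c ^ (n - 1) * (exp (-(x i0 / 2) * t ^ 2) * ∏ i ∈ Finset.univ.erase i0, ph (√(x i) * t)) := by
    funext t
    rw [← Finset.mul_prod_erase Finset.univ _ (Finset.mem_univ i0), if_pos rfl, ct_gam]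
    have h1 : ∏ i ∈ Finset.univ.erase i0, ct (if i = i0 then gam else cg) (θ i * t) =
        ∏ i ∈ Finset.univ.erase i0, (c * ph (√(x i) * t)) := by
      refine Finset.prod_congr rfl fun i hi => ?_
      rw [if_neg (Finset.ne_of_mem_erase hi), ct_cg, hx, ← hc, ph_sq_arg]
    rw [h1, Finset.prod_mul_distrib, Finset.prod_const, Finset.card_erase_of_mem (Finset.mem_univ _),
      Finset.card_univ, Fintype.card_fin]
    have h2 : exp (-(θ i0 * t) ^ 2 / 2) = exp (-(x i0 / 2) * t ^ 2) := by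
      congr 1; rw [hx]; ring
    rw [h2]; ring
  have hint : Integrable (fun t : ℝ => exp (-(x i0 / 2) * t ^ 2) * ∏ i ∈ Finset.univ.erase i0, ph (√(x i) * t)) := by
    refine (integrable_exp_neg_mul_sq (by linarith)).mul_bdd (c := 1)
      (continuous_finset_prod _ fun i _ => ph_sc_meas (x i)).aestronglyMeasurable
      (Eventually.of_forall fun t => ?_)
    rw [Real.norm_eq_abs, Finset.abs_prod]
    exact Finset.prod_le_one (fun _ _ => abs_nonneg _) fun _ _ => ph_abs_le _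
  have h1 := secM_le θ hθ i0 (by rw [e]; exact hint.const_mul _)
  rw [e, integral_const_mul] at h1
  refine h1.trans ?_
  have h2 := big_int x hxn hne hsx h0
  obtain ⟨s, hs'⟩ : ∃ s, s = (1 - x i0) / x i0 := ⟨_, rfl⟩
  obtain ⟨μ, hμ⟩ : ∃ μ, μ = (1 - x i0 - x i1) / x i0 := ⟨_, rfl⟩
  rw [← hs', ← hμ] at h2
  have hx1 : x i0 ≤ 1 := by linarith [hxn i1]
  have hs0 : 0 ≤ s := by rw [hs']; exact div_nonneg (by linarith) h0.le
  have hs1 : s ≤ 1 := by rw [hs', div_le_one h0]; linarith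
  have hμ0 : 0 ≤ μ := by rw [hμ]; exact div_nonneg (by linarith) h0.le
  have hμs : μ ≤ s := by rw [hμ, hs']; exact div_le_div_of_nonneg_right (by linarith [hxn i1]) h0.le
  have hμ3 : μ ≤ 3 * (1 - s) := by
    rw [hμ, hs', div_le_iff₀ h0, mul_assoc, sub_mul, div_mul_cancel₀ _ h0.ne']
    linarith
  have h3 := D_num hs0 hs1 hμ0 hμs hμ3
  have h4 : √(π / (x i0 / 2)) = √(2 * π) * √(1 + s) := by
    rw [← Real.sqrt_mul (by positivity)]
    congr 1
    rw [hs']; field_simp; ring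
  rw [h4, mul_assoc (√(2 * π))] at h2
  have h5 : ∫ t, exp (-(x i0 / 2) * t ^ 2) * ∏ i ∈ Finset.univ.erase i0, ph (√(x i) * t) ≤
      √(2 * π) * (√2 * (I1 / Zc)) := h2.trans (mul_le_mul_of_nonneg_left h3 hP.le)
  have h6 : (√(2 * π))⁻¹ * (c ^ (n - 1) * ∫ t, exp (-(x i0 / 2) * t ^ 2) * ∏ i ∈ Finset.univ.erase i0, ph (√(x i) * t)) ≤
      (√(2 * π))⁻¹ * (c ^ (n - 1) * (√(2 * π) * (√2 * (I1 / Zc)))) :=
    mul_le_mul_of_nonneg_left (mul_le_mul_of_nonneg_left h5 (by positivity)) (by positivity)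
  refine h6.trans (le_of_eq ?_)
  unfold Kn G0
  rw [← hc]
  obtain ⟨k, rfl⟩ : ∃ k, n = k + 1 := ⟨n - 1, by omega⟩
  have h7 : k + 1 - 1 = k := by omega
  rw [h7, pow_succ]
  have h8 : 2 * π = √(2 * π) ^ 2 := (Real.sq_sqrt (by positivity)).symm
  have h9 : 2 * π * I1 / Zc ^ 2 = √(2 * π) ^ 2 * I1 / Zc ^ 2 := by rw [← h8]
  rw [h9, hc]
  field_simp

end

end Agent238.GS
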