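import Pool.Agent.Helper238.GS.D

/-!
# Certified facts about `ph`
-/

set_option autoImplicit false

open Real MeasureTheory Set Pool.Agent.Helper238 intervalIntegral

namespace Agent238.GS

def tQ (W : TM) : TM :=
  TM.sub (TM.sub (TM.mul (tP1 W) (tP1 W)) (TM.mul (tPh W) (tP2 W)))
    (TM.mul (TM.add (TM.cst 74 10000) (TM.sc 6912 100000 (TM.mul W W))) (TM.mul (tPh W) (tPh W)))

theorem tQ_snd : Snd tQ (fun w => P1 (8 * w) * P1 (8 * w) - ph (8 * w) * P2 (8 * w) -
    (((74 : ℤ) : ℝ) / ((10000 : ℕ) : ℝ) + ((6912 : ℤ) : ℝ) / ((100000 : ℕ) : ℝ) * (w * w)) *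
      (ph (8 * w) * ph (8 * w))) (4 / 5) :=
  ((tP1_snd.mul tP1_snd).sub (tPh_snd.mul tP2_snd)).sub
    (((Snd.cst 74 10000 (by norm_num) _).add
      (((Snd.id _).mul (Snd.id _)).sc 6912 100000 (by norm_num))).mul (tPh_snd.mul tPh_snd))

theorem tQ_scan : scan tQ 62958737013312000 64 62958737013312000 = true := by decide +kernel

theorem logconc (u : ℝ) (h0 : 0 < u) (h1 : u ≤ 349481 / 100000) :
    (74 / 10000 + 108 / 100000 * u ^ 2) * ph u ^ 2 < P1 u ^ 2 - ph u * P2 u := by
  have := scan_sound tQ_snd 62958737013312000 64 _ tQ_scan (u / 8) (by linarith) (by linarith)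
    (by push_cast; linarith) (by push_cast; linarith) (by norm_num)
  have e : 8 * (u / 8) = u := by ring
  rw [e] at this
  push_cast at this
  nlinarith [this]

def tN1 (W : TM) : TM := TM.sc (-1) 1 (tP1 W)
theorem tN1_snd : Snd tN1 (fun w => ((-1 : ℤ) : ℝ) / ((1 : ℕ) : ℝ) * P1 (8 * w)) (4 / 5) :=
  tP1_snd.sc (-1) 1 (by norm_num)
theorem tN1_scan : scan tN1 72057594037927936 64 72057594037927936 = true := by decide +kernel

theorem P1_neg (u : ℝ) (h0 : 0 < u) (h1 : u ≤ 4) : P1 u < 0 := by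
  have := scan_sound tN1_snd 72057594037927936 64 _ tN1_scan (u / 8) (by linarith) (by linarith)
    (by push_cast; linarith) (by push_cast; linarith) (by norm_num)
  have e : 8 * (u / 8) = u := by ring
  rw [e] at this
  push_cast at this
  linarith

def tN0 (W : TM) : TM := TM.sc (-1) 1 (tPh W)
theorem tN0_snd : Snd tN0 (fun w => ((-1 : ℤ) : ℝ) / ((1 : ℕ) : ℝ) * ph (8 * w)) (4 / 5) :=
  tPh_snd.sc (-1) 1 (by norm_num)
-- w from 0.45 (=8301034833169298227) to 0.8
theorem tN0_scan : scan tN0 50440315826549557 64 8351475148995847782 = true := by decide +kernel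

theorem ph_neg (u : ℝ) (h0 : 36 / 10 ≤ u) (h1 : u ≤ 64 / 10) : ph u < 0 := by
  have := scan_sound tN0_snd 50440315826549557 64 _ tN0_scan (u / 8) (by linarith) (by linarith)
    (by push_cast; linarith) (by push_cast; linarith) (by norm_num)
  have e : 8 * (u / 8) = u := by ring
  rw [e] at this
  push_cast at this
  linarith

def tA (W : TM) : TM := TM.add (TM.cst 15 100) (tPh W)
theorem tA_snd : Snd tA (fun w => ((15 : ℤ) : ℝ) / ((100 : ℕ) : ℝ) + ph (8 * w)) (4 / 5) :=
  (Snd.cst 15 100 (by norm_num) _).add tPh_snd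
-- w from 0 to 0.8, 512 cells of half width 0.8/1024
theorem tA_scan : scan tA 14411518807585588 512 14411518807585588 = true := by decide +kernel

theorem ph_gt (u : ℝ) (h0 : 0 < u) (h1 : u ≤ 64 / 10) : -(15 / 100) < ph u := by
  have := scan_sound tA_snd 14411518807585588 512 _ tA_scan (u / 8) (by linarith) (by linarith)
    (by push_cast; linarith) (by push_cast; linarith) (by norm_num)
  have e : 8 * (u / 8) = u := by ring
  rw [e] at this
  push_cast at this
  linarith

def tX (W : TM) : TM := TM.add (TM.cst 8 1000)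
  (TM.add (tP2 W) (TM.mul (TM.sc 1 2 (TM.sub (TM.cst 1 1) tK)) (tP1 W)))
theorem tX_snd : Snd tX (fun w => ((8 : ℤ) : ℝ) / ((1000 : ℕ) : ℝ) + (P2 (8 * w) +
    ((1 : ℤ) : ℝ) / ((2 : ℕ) : ℝ) * (((1 : ℤ) : ℝ) / ((1 : ℕ) : ℝ) - Kc) * P1 (8 * w))) (4 / 5) :=
  (Snd.cst 8 1000 (by norm_num) _).add (tP2_snd.add
    ((((Snd.cst 1 1 (by norm_num) _).sub (tK_snd _)).sc 1 2 (by norm_num)).mul tP1_snd))
theorem tX_scan : scan tX 72057594037927936 64 72057594037927936 = true := by decide +kernel

theorem chi_deriv (u : ℝ) (h0 : 0 < u) (h1 : u ≤ 4) :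
    -(8 / 1000) < P2 u + (1 - Kc) / 2 * P1 u := by
  have := scan_sound tX_snd 72057594037927936 64 _ tX_scan (u / 8) (by linarith) (by linarith)
    (by push_cast; linarith) (by push_cast; linarith) (by norm_num)
  have e : 8 * (u / 8) = u := by ring
  rw [e] at this
  push_cast at this
  linarith

/-! ### second representation of the derivatives, asymptotics -/

/-- derivative of `ph` -/
noncomputable def pd (u : ℝ) : ℝ := Kc * sin u - u * ph u

/-- cosine transform with weight `x²` -/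
noncomputable def pc (t : ℝ) : ℝ := Zc⁻¹ * ∫ x in (-1 : ℝ)..1, exp (-x ^ 2 / 2) * (x ^ 2 * cos (t * x))

/-- sine transform with weight `x` -/
noncomputable def ps (t : ℝ) : ℝ := Zc⁻¹ * ∫ x in (-1 : ℝ)..1, exp (-x ^ 2 / 2) * (-sin (t * x) * x)

theorem ph_hasDeriv (u : ℝ) : HasDerivAt ph (pd u) u := ph_deriv u

theorem ph_deriv2 (u : ℝ) : HasDerivAt ph (ps u) u := by
  have h1 : HasDerivAt (fun t => ∫ x in (-1 : ℝ)..1, exp (-x ^ 2 / 2) * cos (t * x))
      (∫ x in (-1 : ℝ)..1, exp (-x ^ 2 / 2) * (-sin (u * x) * x)) u := by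
    refine (intervalIntegral.hasDerivAt_integral_of_dominated_loc_of_deriv_le
      (F := fun t x => exp (-x ^ 2 / 2) * cos (t * x))
      (F' := fun t x => exp (-x ^ 2 / 2) * (-sin (t * x) * x)) (x₀ := u)
      (s := Set.univ) (bound := fun _ => 1) Filter.univ_mem ?_ ?_ ?_ ?_ ?_ ?_).2
    · exact Filter.Eventually.of_forall fun t => (by fun_prop : Continuous fun x : ℝ =>
        exp (-x ^ 2 / 2) * cos (t * x)).aestronglyMeasurable
    · exact (by fun_prop : Continuous fun x : ℝ => exp (-x ^ 2 / 2) * cos (u * x)).intervalIntegrable _ _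
    · exact (by fun_prop : Continuous fun x : ℝ =>
        exp (-x ^ 2 / 2) * (-sin (u * x) * x)).aestronglyMeasurable
    · refine Filter.Eventually.of_forall fun x hx t _ => ?_
      rw [Set.uIoc_of_le (by norm_num)] at hx
      have hx1 : |x| ≤ 1 := abs_le.2 ⟨hx.1.le, hx.2⟩
      rw [Real.norm_eq_abs, abs_mul, abs_mul, abs_neg, abs_of_pos (exp_pos _)]
      have h1 : exp (-x ^ 2 / 2) ≤ 1 := Real.exp_le_one_iff.2 (by nlinarith [sq_nonneg x])
      have h2 := abs_sin_le_one (t * x)
      calc exp (-x ^ 2 / 2) * (|sin (t * x)| * |x|) ≤ 1 * (1 * 1) := by gcongr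
        _ = 1 := by norm_num
    · exact (continuous_const).intervalIntegrable _ _
    · refine Filter.Eventually.of_forall fun x _ t _ => ?_
      exact ((hasDerivAt_mul_const x (x := t)).cos).const_mul (exp (-x ^ 2 / 2))
  exact h1.const_mul Zc⁻¹

theorem pd_eq_ps (u : ℝ) : pd u = ps u := (ph_hasDeriv u).unique (ph_deriv2 u)

theorem ps_deriv (u : ℝ) : HasDerivAt ps (-pc u) u := by
  have h1 : HasDerivAt (fun t => ∫ x in (-1 : ℝ)..1, exp (-x ^ 2 / 2) * (-sin (t * x) * x))
      (∫ x in (-1 : ℝ)..1, exp (-x ^ 2 / 2) * (-(cos (u * x) * x) * x)) u := by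
    refine (intervalIntegral.hasDerivAt_integral_of_dominated_loc_of_deriv_le
      (F := fun t x => exp (-x ^ 2 / 2) * (-sin (t * x) * x))
      (F' := fun t x => exp (-x ^ 2 / 2) * (-(cos (t * x) * x) * x)) (x₀ := u)
      (s := Set.univ) (bound := fun _ => 1) Filter.univ_mem ?_ ?_ ?_ ?_ ?_ ?_).2
    · exact Filter.Eventually.of_forall fun t => (by fun_prop : Continuous fun x : ℝ =>
        exp (-x ^ 2 / 2) * (-sin (t * x) * x)).aestronglyMeasurable
    · exact (by fun_prop : Continuous fun x : ℝ => exp (-x ^ 2 / 2) * (-sin (u * x) * x)).intervalIntegrable _ _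
    · exact (by fun_prop : Continuous fun x : ℝ =>
        exp (-x ^ 2 / 2) * (-(cos (u * x) * x) * x)).aestronglyMeasurable
    · refine Filter.Eventually.of_forall fun x hx t _ => ?_
      rw [Set.uIoc_of_le (by norm_num)] at hx
      have hx1 : |x| ≤ 1 := abs_le.2 ⟨hx.1.le, hx.2⟩
      rw [Real.norm_eq_abs, abs_mul, abs_mul, abs_neg, abs_mul, abs_of_pos (exp_pos _)]
      have h1 : exp (-x ^ 2 / 2) ≤ 1 := Real.exp_le_one_iff.2 (by nlinarith [sq_nonneg x])
      have h2 := abs_cos_le_one (t * x)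
      calc exp (-x ^ 2 / 2) * (|cos (t * x)| * |x| * |x|) ≤ 1 * (1 * 1 * 1) := by gcongr
        _ = 1 := by norm_num
    · exact (continuous_const).intervalIntegrable _ _
    · refine Filter.Eventually.of_forall fun x _ t _ => ?_
      exact (((hasDerivAt_mul_const x (x := t)).sin.neg).mul_const x).const_mul (exp (-x ^ 2 / 2))
  refine (h1.const_mul Zc⁻¹).congr_deriv ?_
  unfold pc
  rw [← mul_neg, ← intervalIntegral.integral_neg]
  congr 1
  refine intervalIntegral.integral_congr fun x _ => ?_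
  ring

theorem pc_abs (u : ℝ) : |pc u| ≤ mo 1 := by
  unfold pc mo
  rw [abs_mul, abs_of_pos (inv_pos.2 Zc_pos)]
  refine mul_le_mul_of_nonneg_left ?_ (inv_pos.2 Zc_pos).le
  have hb : ∀ x ∈ Set.Ioc (-1 : ℝ) 1, ‖exp (-x ^ 2 / 2) * (x ^ 2 * cos (u * x))‖ ≤
      exp (-x ^ 2 / 2) * x ^ (2 * 1) := by
    intro x _
    rw [Real.norm_eq_abs, abs_mul, abs_mul, abs_of_pos (exp_pos _), abs_of_nonneg (sq_nonneg x)]
    refine mul_le_mul_of_nonneg_left ?_ (exp_pos _).le
    exact mul_le_of_le_one_right (sq_nonneg x) (abs_cos_le_one _)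
  exact intervalIntegral.norm_integral_le_of_norm_le (μ := volume) (a := (-1 : ℝ)) (b := 1)
    (by norm_num) (Filter.Eventually.of_forall fun x => hb x)
    ((by fun_prop : Continuous fun x : ℝ => exp (-x ^ 2 / 2) * x ^ (2 * 1)).intervalIntegrable _ _)

/-- the second derivative -/
theorem pd_deriv (u : ℝ) : HasDerivAt pd (-pc u) u := by
  have : pd = ps := funext pd_eq_ps
  rw [this]; exact ps_deriv u

theorem u_pd (u : ℝ) : u * pd u = Kc * cos u - ph u + pc u := by
  have h1 := pd_deriv u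
  have h2 : HasDerivAt pd (Kc * cos u - (1 * ph u + u * pd u)) u := by
    have := ((hasDerivAt_sin u).const_mul Kc).sub ((hasDerivAt_id u).mul (ph_hasDeriv u))
    exact this
  have := h1.unique h2
  linarith

theorem Kc_num : 70887490522 / 100000000000 < Kc ∧ Kc < 70887490523 / 100000000000 := by
  have h := Kc_bounds
  have h30 : cA 30 = 29215606371473169285018060091249259296875 := by decide +kernel
  have h30' : cB 30 = 41214050823408760878085909697213290529568 := by decide +kernel
  rw [h30, h30'] at h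
  push_cast at h
  constructor
  · refine lt_of_lt_of_le ?_ h.1; norm_num
  · refine lt_of_le_of_lt h.2 ?_; norm_num

theorem mo_one : mo 1 = 1 - Kc := by
  have := mo_succ 0
  rw [mo_zero] at this
  simpa using this

theorem pd_le (u : ℝ) (hu : 0 < u) : |pd u| ≤ (1 + |ph u|) / u := by
  have h := u_pd u
  have h2 : |u * pd u| ≤ Kc + |ph u| + mo 1 := by
    rw [h]
    have := Kc_num
    calc |Kc * cos u - ph u + pc u| ≤ |Kc * cos u - ph u| + |pc u| := abs_add_le _ _
      _ ≤ |Kc * cos u| + |ph u| + |pc u| := by gcongr; exact abs_sub _ _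
      _ ≤ Kc + |ph u| + mo 1 := by
        gcongr
        · rw [abs_mul, abs_of_pos (by linarith : 0 < Kc)]
          exact mul_le_of_le_one_right (by linarith) (abs_cos_le_one u)
        · exact pc_abs u
  rw [abs_mul, abs_of_pos hu, mo_one] at h2
  rw [le_div_iff₀ hu]; linarith

theorem u_ph_le (u : ℝ) (hu : 0 < u) : u * |ph u| ≤ Kc + |pd u| := by
  have h : u * ph u = Kc * sin u - pd u := by unfold pd; ring
  have hK := Kc_num
  have : |u * ph u| ≤ Kc + |pd u| := by
    rw [h]
    calc |Kc * sin u - pd u| ≤ |Kc * sin u| + |pd u| := abs_sub _ _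
      _ ≤ Kc + |pd u| := by
        gcongr
        rw [abs_mul, abs_of_pos (by linarith : 0 < Kc)]
        exact mul_le_of_le_one_right (by linarith) (abs_sin_le_one u)
  rwa [abs_mul, abs_of_pos hu] at this

theorem ph_far (u : ℝ) (hu : 64 / 10 ≤ u) : |ph u| ≤ 14 / 100 := by
  have hK := Kc_num
  have h0 : 0 < u := by linarith
  have h1 := pd_le u h0
  have h2 := u_ph_le u h0
  have h3 := ph_abs_le u
  have h4 : |pd u| ≤ 2 / (64 / 10) := by
    refine h1.trans ?_
    rw [div_le_div_iff₀ h0 (by norm_num)]; nlinarith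
  have h5 : |ph u| ≤ 17 / 100 := by
    have : u * |ph u| ≤ 103 / 100 := by linarith
    nlinarith [abs_nonneg (ph u)]
  have h6 : |pd u| ≤ (1 + 17 / 100) / (64 / 10) := by
    refine h1.trans ?_
    rw [div_le_div_iff₀ h0 (by norm_num)]; nlinarith
  have : u * |ph u| ≤ 896 / 1000 := by linarith
  nlinarith [abs_nonneg (ph u)]

theorem u_ph_far (u : ℝ) (hu : 64 / 10 ≤ u) : u * |ph u| ≤ 79 / 100 := by
  have hK := Kc_num
  have h0 : 0 < u := by linarith
  have h1 := ph_far u hu
  have h2 := pc_abs u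
  rw [mo_one] at h2
  have e : u * ph u = Kc * (sin u - cos u / u) + (ph u - pc u) / u := by
    have h := u_pd u
    have h' : pd u = (Kc * cos u - ph u + pc u) / u := by field_simp; linarith
    have h'' : u * ph u = Kc * sin u - pd u := by unfold pd; ring
    rw [h'', h']; ring
  have hsc : |sin u - cos u / u| ≤ 1013 / 1000 := by
    have h3 : (sin u - cos u / u) ^ 2 ≤ 1 + (1 / u) ^ 2 := by
      have := sin_sq_add_cos_sq u
      have e2 : 1 + (1 / u) ^ 2 - (sin u - cos u / u) ^ 2 = (cos u + sin u / u) ^ 2 := by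
        have e3 : cos u ^ 2 = 1 - sin u ^ 2 := by linarith
        field_simp
        ring_nf
        rw [show cos u ^ 2 = 1 - sin u ^ 2 by linarith]
        ring
      nlinarith [sq_nonneg (cos u + sin u / u)]
    have h4' : 1 / u ≤ 10 / 64 := by
      rw [div_le_div_iff₀ h0 (by norm_num)]; linarith
    have h4 : (1 / u) ^ 2 ≤ (10 / 64) ^ 2 := pow_le_pow_left₀ (by positivity) h4' 2
    rw [← abs_of_pos (by norm_num : (0:ℝ) < 1013 / 1000)]
    apply sq_le_sq.1
    linarith
  have h5 : |(ph u - pc u) / u| ≤ (14 / 100 + 2912 / 10000) / (64 / 10) := by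
    rw [abs_div, abs_of_pos h0]
    have : |ph u - pc u| ≤ 14 / 100 + 2912 / 10000 := by
      refine (abs_sub _ _).trans ?_
      linarith
    rw [div_le_div_iff₀ h0 (by norm_num)]
    nlinarith [abs_nonneg (ph u - pc u)]
  have h6 : |u * ph u| ≤ 79 / 100 := by
    rw [e]
    refine (abs_add_le _ _).trans ?_
    rw [abs_mul, abs_of_pos (by linarith : 0 < Kc)]
    have : Kc * |sin u - cos u / u| ≤ 70887490523 / 100000000000 * (1013 / 1000) := by gcongr; linarith
    have h7 : (14 / 100 + 2912 / 10000 : ℝ) / (64 / 10) ≤ 68 / 1000 := by norm_num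
    linarith
  rwa [abs_mul, abs_of_pos h0] at h6

end Agent238.GS
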