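import Pool.Agent.Helper238.GS.E

/-!
# Log-concavity of `Φ(y) = ph(√y)` on the first lobe
-/

set_option autoImplicit false

open Real Set Filter
open scoped Topology

namespace Agent238.GS

noncomputable section

def Ph (y : ℝ) : ℝ := ph (√y)

theorem Ph_sq (u : ℝ) : Ph (u ^ 2) = ph u := by
  unfold Ph; rw [Real.sqrt_sq_eq_abs, ph_abs]

theorem Ph_cont : Continuous Ph := ph_cont.comp Real.continuous_sqrt

theorem Ph_zero : Ph 0 = 1 := by unfold Ph; rw [Real.sqrt_zero, ph_zero]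

theorem Ph_deriv {y : ℝ} (hy : 0 < y) : HasDerivAt Ph (P1 (√y)) y := by
  have h1 := (ph_deriv (√y)).comp y (Real.hasDerivAt_sqrt hy.ne')
  refine h1.congr_deriv ?_
  have hs : 0 < √y := Real.sqrt_pos.2 hy
  unfold P1 SSf
  field_simp

theorem SS_deriv {y : ℝ} (hy : 0 < y) : HasDerivAt (fun y => SSf (√y)) (S1f (√y)) y := by
  have hs : 0 < √y := Real.sqrt_pos.2 hy
  have h0 : HasDerivAt (fun u => sin u / u) ((cos (√y) * √y - sin (√y) * 1) / (√y) ^ 2) (√y) :=
    (hasDerivAt_sin (√y)).div (hasDerivAt_id (√y)) hs.ne'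
  have h1 := h0.comp y (Real.hasDerivAt_sqrt hy.ne')
  refine h1.congr_deriv ?_
  unfold S1f
  field_simp

theorem P1_deriv {y : ℝ} (hy : 0 < y) : HasDerivAt (fun y => P1 (√y)) (P2 (√y)) y := by
  have h := (((SS_deriv hy).const_mul Kc).sub (Ph_deriv hy)).div_const 2
  exact h

theorem z1_scan : scan tPh 4 1 8058229564299096254 = true := by decide +kernel
theorem z2_scan : scan tN0 4 1 8058460148600017623 = true := by decide +kernel

theorem P1_eq (u : ℝ) (hu : 0 < u) : pd u = 2 * u * P1 u := by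
  unfold pd P1 SSf; field_simp

theorem ph_anti : StrictAntiOn ph (Set.Icc 0 4) := by
  refine strictAntiOn_of_deriv_neg (convex_Icc 0 4) ph_cont.continuousOn fun u hu => ?_
  rw [interior_Icc] at hu
  rw [(ph_hasDeriv u).deriv, P1_eq u hu.1]
  have := P1_neg u hu.1 hu.2.le
  nlinarith [hu.1]

/-- existence of the first zero -/
theorem exists_tau : ∃ τ : ℝ, 34947 / 10000 < τ ∧ τ < 34948 / 10000 ∧ ph τ = 0 := by
  have h1 : 0 < ph (34947 / 10000) := by
    have := scan_sound tPh_snd 4 1 _ z1_scan (34947 / 80000) (by norm_num) (by norm_num)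
      (by norm_num) (by norm_num) (by norm_num)
    have e : (8 : ℝ) * (34947 / 80000) = 34947 / 10000 := by norm_num
    rwa [e] at this
  have h2 : ph (34948 / 10000) < 0 := by
    have := scan_sound tN0_snd 4 1 _ z2_scan (34948 / 80000) (by norm_num) (by norm_num)
      (by norm_num) (by norm_num) (by norm_num)
    have e : (8 : ℝ) * (34948 / 80000) = 34948 / 10000 := by norm_num
    rw [e] at this
    push_cast at this
    linarith
  have := intermediate_value_Ioo' (f := ph) (a := 34947 / 10000) (b := 34948 / 10000) (by norm_num)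
    ph_cont.continuousOn
  obtain ⟨t, ht, ht2⟩ := this ⟨h2, h1⟩
  exact ⟨t, ht.1, ht.2, ht2⟩

/-- the first zero of `ph` -/
def tau : ℝ := Classical.choose exists_tau

theorem tau_lb : 34947 / 10000 < tau := (Classical.choose_spec exists_tau).1
theorem tau_ub : tau < 34948 / 10000 := (Classical.choose_spec exists_tau).2.1
theorem ph_tau : ph tau = 0 := (Classical.choose_spec exists_tau).2.2

theorem ph_pos {u : ℝ} (h0 : 0 ≤ u) (h1 : u < tau) : 0 < ph u := by
  have h2 := tau_ub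
  have := ph_anti ⟨h0, by linarith⟩ ⟨by linarith, by linarith⟩ h1
  rwa [ph_tau] at this

theorem ph_nonneg {u : ℝ} (h0 : 0 ≤ u) (h1 : u ≤ tau) : 0 ≤ ph u := by
  rcases h1.lt_or_eq with h | h
  · exact (ph_pos h0 h).le
  · rw [h, ph_tau]

theorem ph_nonpos {u : ℝ} (h0 : tau ≤ u) (h1 : u ≤ 64 / 10) : ph u ≤ 0 := by
  have h2 := tau_lb
  have h3 := tau_ub
  rcases le_total u 4 with h | h
  · rcases h0.lt_or_eq with h4 | h4
    · have := ph_anti ⟨by linarith, by linarith⟩ ⟨by linarith, h⟩ h4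
      rw [ph_tau] at this; exact this.le
    · rw [← h4, ph_tau]
  · exact (ph_neg u (by linarith) h1).le

theorem ph_abs_15 {u : ℝ} (h0 : tau ≤ u) : |ph u| ≤ 15 / 100 := by
  have h2 := tau_lb
  rcases le_total u (64 / 10) with h | h
  · have := ph_nonpos h0 h
    have h3 := ph_gt u (by linarith) h
    rw [abs_of_nonpos this]; linarith
  · have := ph_far u h; linarith

theorem Ph_pos {y : ℝ} (h0 : 0 ≤ y) (h1 : y < tau ^ 2) : 0 < Ph y := by
  have h2 := tau_lb
  refine ph_pos (Real.sqrt_nonneg _) ?_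
  rw [Real.sqrt_lt' (by linarith)]; exact h1

/-- corrected logarithm -/
def Lf (y : ℝ) : ℝ := log (Ph y) + 37 / 10000 * y ^ 2 + 18 / 100000 * y ^ 3

theorem Lf_concave : ConcaveOn ℝ (Set.Ico 0 (tau ^ 2)) Lf := by
  have ht := tau_lb
  have ht2 := tau_ub
  have hcont : ContinuousOn Lf (Set.Ico 0 (tau ^ 2)) := by
    unfold Lf
    refine ContinuousOn.add (ContinuousOn.add ?_ (by fun_prop)) (by fun_prop)
    exact ContinuousOn.log Ph_cont.continuousOn fun y hy => (Ph_pos hy.1 hy.2).ne'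
  have hd : ∀ y ∈ Set.Ioo 0 (tau ^ 2), HasDerivAt Lf
      (P1 (√y) / Ph y + 37 / 10000 * (2 * y) + 18 / 100000 * (3 * y ^ 2)) y := by
    intro y hy
    have h1 := (Ph_deriv hy.1).log (Ph_pos hy.1.le hy.2).ne'
    have h2 := (hasDerivAt_pow 2 y).const_mul (37 / 10000 : ℝ)
    have h3 := (hasDerivAt_pow 3 y).const_mul (18 / 100000 : ℝ)
    refine ((h1.add h2).add h3).congr_deriv ?_
    norm_num
  have hd2 : ∀ y ∈ Set.Ioo 0 (tau ^ 2), HasDerivAt (fun y =>
      P1 (√y) / Ph y + 37 / 10000 * (2 * y) + 18 / 100000 * (3 * y ^ 2))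
      ((P2 (√y) * Ph y - P1 (√y) * P1 (√y)) / Ph y ^ 2 + 37 / 10000 * 2 +
        18 / 100000 * (6 * y)) y := by
    intro y hy
    have h1 := (P1_deriv hy.1).div (Ph_deriv hy.1) (Ph_pos hy.1.le hy.2).ne'
    have h2 := ((hasDerivAt_id y).const_mul (2 : ℝ)).const_mul (37 / 10000 : ℝ)
    have h3 := ((hasDerivAt_pow 2 y).const_mul (3 : ℝ)).const_mul (18 / 100000 : ℝ)
    refine ((h1.add h2).add h3).congr_deriv ?_
    norm_num
    ring
  have hint : interior (Set.Ico 0 (tau ^ 2)) = Set.Ioo 0 (tau ^ 2) := interior_Ico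
  have hderiv : ∀ y ∈ Set.Ioo 0 (tau ^ 2), deriv Lf y =
      P1 (√y) / Ph y + 37 / 10000 * (2 * y) + 18 / 100000 * (3 * y ^ 2) :=
    fun y hy => (hd y hy).deriv
  have hev : ∀ y ∈ Set.Ioo 0 (tau ^ 2), deriv Lf =ᶠ[𝓝 y] fun y =>
      P1 (√y) / Ph y + 37 / 10000 * (2 * y) + 18 / 100000 * (3 * y ^ 2) := by
    intro y hy
    filter_upwards [isOpen_Ioo.mem_nhds hy] with z hz
    exact hderiv z hz
  refine concaveOn_of_deriv2_nonpos (convex_Ico 0 (tau ^ 2)) hcont ?_ ?_ ?_
  · rw [hint]; exact fun y hy => (hd y hy).differentiableAt.differentiableWithinAt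
  · rw [hint]
    intro y hy
    exact ((hd2 y hy).congr_of_eventuallyEq (hev y hy)).differentiableAt.differentiableWithinAt
  · rw [hint]
    intro y hy
    have e : deriv^[2] Lf y = deriv (deriv Lf) y := rfl
    rw [e, (((hd2 y hy).congr_of_eventuallyEq (hev y hy))).deriv]
    have hs : 0 < √y := Real.sqrt_pos.2 hy.1
    have hs2 : √y < tau := by rw [Real.sqrt_lt' (by linarith)]; exact hy.2
    have hl := logconc (√y) hs (by linarith)
    rw [Real.sq_sqrt hy.1.le] at hl
    have hp := Ph_pos hy.1.le hy.2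
    have hp2 : 0 < Ph y ^ 2 := by positivity
    have e2 : (P2 (√y) * Ph y - P1 (√y) * P1 (√y)) / Ph y ^ 2 + 37 / 10000 * 2 +
        18 / 100000 * (6 * y) = ((P2 (√y) * Ph y - P1 (√y) * P1 (√y)) +
        (74 / 10000 + 108 / 100000 * y) * Ph y ^ 2) / Ph y ^ 2 := by
      field_simp; ring
    rw [e2]
    refine div_nonpos_of_nonpos_of_nonneg ?_ hp2.le
    have : ph (√y) = Ph y := rfl
    rw [this] at hl
    nlinarith

theorem logPh_concave : ConcaveOn ℝ (Set.Ico 0 (tau ^ 2)) (fun y => log (Ph y)) := by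
  have h := Lf_concave
  refine ⟨h.1, fun x hx y hy a b ha hb hab => ?_⟩
  have h1 := h.2 hx hy ha hb hab
  simp only [smul_eq_mul] at h1 ⊢
  unfold Lf at h1
  have hx0 := hx.1
  have hy0 := hy.1
  have hb' : b = 1 - a := by linarith
  have ha1 : a ≤ 1 := by linarith
  subst hb'
  have c2 : (a * x + (1 - a) * y) ^ 2 ≤ a * x ^ 2 + (1 - a) * y ^ 2 := by
    nlinarith [mul_nonneg (mul_nonneg ha (by linarith : 0 ≤ 1 - a)) (sq_nonneg (x - y))]
  have c3 : (a * x + (1 - a) * y) ^ 3 ≤ a * x ^ 3 + (1 - a) * y ^ 3 := by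
    have e : a * x ^ 3 + (1 - a) * y ^ 3 - (a * x + (1 - a) * y) ^ 3 =
      a * (1 - a) * (x - y) ^ 2 * (x * (1 + a) + y * (2 - a)) := by ring
    have : 0 ≤ a * (1 - a) * (x - y) ^ 2 * (x * (1 + a) + y * (2 - a)) := by
      have h1 : 0 ≤ x * (1 + a) + y * (2 - a) := by
        have := mul_nonneg hx0 (by linarith : 0 ≤ 1 + a)
        have := mul_nonneg hy0 (by linarith : 0 ≤ 2 - a)
        linarith
      have h2 : 0 ≤ a * (1 - a) * (x - y) ^ 2 :=
        mul_nonneg (mul_nonneg ha (by linarith)) (sq_nonneg _)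
      exact mul_nonneg h2 h1
    linarith
  nlinarith

end

end Agent238.GS
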