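import Pool.Agent.Helper238.GS.F

/-!
# Inequalities for products of `ph`
-/

set_option autoImplicit false

open Real Set Filter
open scoped Topology

namespace Agent238.GS

noncomputable section

/-- `a = σ²/2` -/
def aa : ℝ := (1 - Kc) / 2

theorem aa_num : 14556254738 / 100000000000 < aa ∧ aa < 14556254740 / 100000000000 := by
  have := Kc_num
  unfold aa
  constructor <;> linarith

theorem Ph_le_quad {s : ℝ} (h0 : 0 ≤ s) (h1 : s ≤ 1) : Ph s ≤ 1 - aa * s + s ^ 2 / 12 := by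
  have hu : 0 ≤ √s := Real.sqrt_nonneg s
  have hu1 : √s ≤ 1 := Real.sqrt_le_iff.2 ⟨by norm_num, by linarith⟩
  have h := ph_taylor 2 (√s) (by
    rw [abs_of_nonneg hu]; push_cast; linarith)
  rw [Finset.sum_range_succ, Finset.sum_range_succ, Finset.sum_range_zero, mo_zero, mo_one,
    abs_of_nonneg hu] at h
  norm_num [Nat.factorial] at h
  rw [Real.sq_sqrt h0] at h
  have h4 : √s ^ 4 = s ^ 2 := by
    rw [show (4 : ℕ) = 2 * 2 by norm_num, pow_mul, Real.sq_sqrt h0]
  rw [h4] at h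
  have := (abs_le.1 h).2
  unfold Ph aa
  linarith

theorem log_Ph_le {y : ℝ} (h0 : 0 ≤ y) (h1 : y < tau ^ 2) : log (Ph y) ≤ -aa * y := by
  rcases h0.eq_or_lt with h | hy
  · rw [← h, Ph_zero]; simp
  · have key : ∀ s : ℝ, 0 < s → s < 1 → s ≤ y → log (Ph y) / y ≤ -aa + s / 12 := by
      intro s hs0 hs1 hsy
      have hp := Ph_pos hs0.le (lt_of_le_of_lt hsy h1)
      have hc := logPh_concave.2 (show (0 : ℝ) ∈ Set.Ico 0 (tau ^ 2) from ⟨le_rfl, by
        have := tau_lb; positivity⟩) (show y ∈ Set.Ico 0 (tau ^ 2) from ⟨h0, h1⟩)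
        (show (0 : ℝ) ≤ 1 - s / y by rw [sub_nonneg, div_le_one hy]; exact hsy)
        (show (0 : ℝ) ≤ s / y by positivity) (by ring)
      simp only [smul_eq_mul, mul_zero, zero_add, Ph_zero, log_one] at hc
      rw [div_mul_cancel₀ _ hy.ne'] at hc
      have h2 : log (Ph s) ≤ Ph s - 1 := Real.log_le_sub_one_of_pos hp
      have h3 := Ph_le_quad hs0.le hs1.le
      have h4 : s / y * log (Ph y) ≤ -aa * s + s ^ 2 / 12 := by linarith
      have h5 : log (Ph y) / y * s ≤ (-aa + s / 12) * s := by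
        calc log (Ph y) / y * s = s / y * log (Ph y) := by ring
          _ ≤ _ := h4
          _ = _ := by ring
      exact le_of_mul_le_mul_right h5 hs0
    have hlim : log (Ph y) / y ≤ -aa := by
      refine le_of_forall_pos_le_add fun ε hε => ?_
      obtain ⟨s, hs⟩ : ∃ s, s = min (min (1 / 2) y) (12 * ε) := ⟨_, rfl⟩
      have hs0 : 0 < s := by
        rw [hs]; refine lt_min (lt_min (by norm_num) hy) (by linarith)
      have a1 : s ≤ 12 * ε := by rw [hs]; exact min_le_right _ _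
      have a2 : s ≤ min (1 / 2) y := by rw [hs]; exact min_le_left _ _
      have a3 : s ≤ 1 / 2 := a2.trans (min_le_left _ _)
      have a4 : s ≤ y := a2.trans (min_le_right _ _)
      have := key s hs0 (by linarith) a4
      linarith
    rw [div_le_iff₀ hy] at hlim
    exact hlim

theorem Ph_le_exp {y : ℝ} (h0 : 0 ≤ y) (h1 : y ≤ tau ^ 2) : Ph y ≤ exp (-aa * y) := by
  rcases h1.lt_or_eq with h | h
  · rw [← Real.log_le_iff_le_exp (Ph_pos h0 h)]
    exact log_Ph_le h0 h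
  · have : Ph y = 0 := by rw [h, Ph_sq, ph_tau]
    rw [this]; exact (exp_pos _).le

theorem ph_le_exp {u : ℝ} (h1 : |u| ≤ tau) : |ph u| ≤ exp (-aa * u ^ 2) := by
  have h2 : u ^ 2 ≤ tau ^ 2 := by
    rw [← sq_abs u]; exact pow_le_pow_left₀ (abs_nonneg u) h1 2
  have h3 := Ph_le_exp (sq_nonneg u) h2
  rw [Ph_sq] at h3
  rw [← ph_abs, abs_of_nonneg (ph_nonneg (abs_nonneg u) h1), ph_abs]
  exact h3

theorem aa_tau : 177769 / 100000 < aa * tau ^ 2 := by
  have h1 := aa_num.1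
  have h2 := tau_lb
  have h3 : (34947 / 10000 : ℝ) ^ 2 < tau ^ 2 := pow_lt_pow_left₀ h2 (by norm_num) (by norm_num)
  nlinarith

/-- uniform bound with base `17/100` for all arguments `√r v`, `v ≥ τ`. -/
theorem ph_r17 {r v : ℝ} (hr0 : 0 ≤ r) (hr1 : r ≤ 1) (hv : tau ≤ v) :
    |ph (√r * v)| ≤ (17 / 100 : ℝ) ^ r := by
  have ht := tau_lb
  have hv0 : 0 < v := by linarith
  have hs : 0 ≤ √r * v := by positivity
  rcases le_total (√r * v) tau with h | h
  · refine (ph_le_exp (by rwa [abs_of_nonneg hs])).trans ?_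
    rw [mul_pow, Real.sq_sqrt hr0, Real.rpow_def_of_pos (by norm_num), Real.exp_le_exp]
    have hl : log (17 / 100 : ℝ) ≥ -(177769 / 100000) := by
      rw [ge_iff_le, Real.le_log_iff_exp_le (by norm_num)]
      have : exp (-(177769 / 100000 : ℝ)) = (exp 1)⁻¹ ^ 2 * exp (22231 / 100000) := by
        rw [← Real.exp_neg, ← Real.exp_nat_mul, ← Real.exp_add]; norm_num
      rw [this]
      have h1 := Real.exp_one_gt_d9
      have h2 : exp (22231 / 100000 : ℝ) ≤ 124977 / 100000 := by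
        have := Real.exp_bound' (x := 22231 / 100000) (by norm_num) (by norm_num) (n := 3) (by norm_num)
        norm_num [Finset.sum_range_succ, Nat.factorial] at this ⊢
        linarith
      have h3 : (exp 1)⁻¹ ≤ 1 / (27182818283 / 10000000000) := by
        rw [inv_eq_one_div]
        refine one_div_le_one_div_of_le (by norm_num) (by norm_num at h1 ⊢; linarith)
      have h4 : (exp 1)⁻¹ ^ 2 ≤ (1 / (27182818283 / 10000000000)) ^ 2 :=
        pow_le_pow_left₀ (by positivity) h3 2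
      calc (exp 1)⁻¹ ^ 2 * exp (22231 / 100000) ≤
          (1 / (27182818283 / 10000000000)) ^ 2 * (124977 / 100000) := by
            gcongr
        _ ≤ 17 / 100 := by norm_num
    have h5 : tau ^ 2 ≤ v ^ 2 := pow_le_pow_left₀ (by linarith) hv 2
    have h6 := aa_tau
    have h7 : 0 < aa := by have := aa_num.1; linarith
    nlinarith [mul_le_mul_of_nonneg_left h5 (mul_nonneg h7.le hr0), mul_nonneg hr0 (sub_nonneg.2 h6.le)]
  · refine (ph_abs_15 h).trans ?_
    calc (15 / 100 : ℝ) ≤ (17 / 100) ^ (1 : ℝ) := by rw [Real.rpow_one]; norm_num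
      _ ≤ (17 / 100) ^ r := Real.rpow_le_rpow_of_exponent_ge (by norm_num) (by norm_num) hr1

/-- with base `15/100` for `v ≥ 3.62`. -/
theorem ph_r15 {r v : ℝ} (hr0 : 0 ≤ r) (hr1 : r ≤ 1) (hv : 362 / 100 ≤ v) :
    |ph (√r * v)| ≤ (15 / 100 : ℝ) ^ r := by
  have ht := tau_lb
  have hv0 : 0 < v := by linarith
  have hs : 0 ≤ √r * v := by positivity
  rcases le_total (√r * v) tau with h | h
  · refine (ph_le_exp (by rwa [abs_of_nonneg hs])).trans ?_
    rw [mul_pow, Real.sq_sqrt hr0, Real.rpow_def_of_pos (by norm_num), Real.exp_le_exp]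
    have hl : log (15 / 100 : ℝ) ≥ -(1907 / 1000) := by
      rw [ge_iff_le, Real.le_log_iff_exp_le (by norm_num)]
      have : exp (-(1907 / 1000 : ℝ)) = (exp 1)⁻¹ ^ 2 * exp (93 / 1000) := by
        rw [← Real.exp_neg, ← Real.exp_nat_mul, ← Real.exp_add]; norm_num
      rw [this]
      have h1 := Real.exp_one_gt_d9
      have h2 : exp (93 / 1000 : ℝ) ≤ 1 + 93 / 1000 + (93 / 1000) ^ 2 := by
        have := Real.exp_bound' (x := 93 / 1000) (by norm_num) (by norm_num) (n := 3) (by norm_num)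
        norm_num [Finset.sum_range_succ, Nat.factorial] at this ⊢
        linarith
      have h3 : (exp 1)⁻¹ ≤ 1 / (27182818283 / 10000000000) := by
        rw [inv_eq_one_div]
        refine one_div_le_one_div_of_le (by norm_num) (by norm_num at h1 ⊢; linarith)
      have h4 : (exp 1)⁻¹ ^ 2 ≤ (1 / (27182818283 / 10000000000)) ^ 2 :=
        pow_le_pow_left₀ (by positivity) h3 2
      calc (exp 1)⁻¹ ^ 2 * exp (93 / 1000) ≤
          (1 / (27182818283 / 10000000000)) ^ 2 * (1 + 93 / 1000 + (93 / 1000) ^ 2) := by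
            gcongr
        _ ≤ 15 / 100 := by norm_num
    have h5 : (362 / 100 : ℝ) ^ 2 ≤ v ^ 2 := pow_le_pow_left₀ (by norm_num) hv 2
    have h6 := aa_num.1
    have h7 : 0 < aa := by linarith
    have h8 : 1907 / 1000 ≤ aa * v ^ 2 := by nlinarith
    nlinarith [mul_nonneg hr0 (sub_nonneg.2 h8)]
  · refine (ph_abs_15 h).trans ?_
    calc (15 / 100 : ℝ) = (15 / 100) ^ (1 : ℝ) := by rw [Real.rpow_one]
      _ ≤ (15 / 100) ^ r := Real.rpow_le_rpow_of_exponent_ge (by norm_num) (by norm_num) hr1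

/-- chord bound -/
theorem Ph_chord {r y : ℝ} (hr0 : 0 ≤ r) (hr1 : r ≤ 1) (h0 : 0 ≤ y) (h1 : y < tau ^ 2) :
    Ph y ^ r ≤ Ph (r * y) := by
  have hp := Ph_pos h0 h1
  have hry : r * y ≤ y := mul_le_of_le_one_left h0 hr1
  have hp2 := Ph_pos (mul_nonneg hr0 h0) (lt_of_le_of_lt hry h1)
  rw [Real.rpow_def_of_pos hp, ← Real.le_log_iff_exp_le hp2]
  have hc := logPh_concave.2 (show (0 : ℝ) ∈ Set.Ico 0 (tau ^ 2) from ⟨le_rfl, by
    have := tau_lb; positivity⟩) (show y ∈ Set.Ico 0 (tau ^ 2) from ⟨h0, h1⟩)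
    (show (0 : ℝ) ≤ 1 - r by linarith) hr0 (by ring)
  simp only [smul_eq_mul, mul_zero, zero_add, Ph_zero, log_one] at hc
  linarith

/-- **Jensen with gain.** -/
theorem jensen {n : ℕ} (hn : 0 < n) (x : Fin n → ℝ) (hx : ∀ i, 0 ≤ x i) (hs : ∑ i, x i = 1)
    {y : ℝ} (hy : 0 ≤ y) (hxy : ∀ i, x i * y < tau ^ 2) :
    ∏ i, Ph (x i * y) ≤ Ph (y / n) ^ n * exp (-(37 / 10000 * (∑ i, x i ^ 2 - 1 / n) * y ^ 2 +
      18 / 100000 * (∑ i, x i ^ 3 - 1 / n ^ 2) * y ^ 3)) := by
  have hn' : (0 : ℝ) < n := by exact_mod_cast hn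
  have hne : Nonempty (Fin n) := ⟨⟨0, hn⟩⟩
  have hj := Lf_concave.le_map_sum (t := Finset.univ) (w := fun _ : Fin n => (1 / n : ℝ))
    (p := fun i => x i * y) (fun i _ => by positivity) (by
      rw [Finset.sum_const, Finset.card_univ, Fintype.card_fin, nsmul_eq_mul]; field_simp)
    (fun i _ => ⟨mul_nonneg (hx i) hy, hxy i⟩)
  simp only [smul_eq_mul] at hj
  have e1 : ∑ i, (1 / n : ℝ) * (x i * y) = y / n := by
    rw [← Finset.mul_sum, ← Finset.sum_mul, hs]; ring
  rw [e1, ← Finset.mul_sum] at hj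
  have hyn : y / n < tau ^ 2 := by
    -- some x i ≥ 1/n
    obtain ⟨i, hi⟩ : ∃ i, 1 / (n : ℝ) ≤ x i := by
      by_contra hcon
      push Not at hcon
      have : ∑ i, x i < ∑ _i : Fin n, 1 / (n : ℝ) :=
        Finset.sum_lt_sum_of_nonempty Finset.univ_nonempty fun i _ => hcon i
      rw [Finset.sum_const, Finset.card_univ, Fintype.card_fin, nsmul_eq_mul, hs] at this
      have h2 : (n : ℝ) * (1 / n) = 1 := by field_simp
      linarith
    refine lt_of_le_of_lt ?_ (hxy i)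
    calc y / n = 1 / n * y := by ring
      _ ≤ x i * y := mul_le_mul_of_nonneg_right hi hy
  have hPn := Ph_pos (div_nonneg hy hn'.le) hyn
  have hPi : ∀ i, 0 < Ph (x i * y) := fun i => Ph_pos (mul_nonneg (hx i) hy) (hxy i)
  have e2 : ∑ i, Lf (x i * y) = log (∏ i, Ph (x i * y)) + 37 / 10000 * (∑ i, x i ^ 2) * y ^ 2 +
      18 / 100000 * (∑ i, x i ^ 3) * y ^ 3 := by
    unfold Lf
    rw [Finset.sum_add_distrib, Finset.sum_add_distrib, Real.log_prod fun i _ => (hPi i).ne']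
    congr 1
    · congr 1
      rw [Finset.mul_sum, Finset.sum_mul]
      exact Finset.sum_congr rfl fun i _ => by ring
    · rw [Finset.mul_sum, Finset.sum_mul]
      exact Finset.sum_congr rfl fun i _ => by ring
  rw [e2] at hj
  unfold Lf at hj
  have h3 : log (∏ i, Ph (x i * y)) ≤ n * log (Ph (y / n)) -
      (37 / 10000 * (∑ i, x i ^ 2 - 1 / n) * y ^ 2 +
      18 / 100000 * (∑ i, x i ^ 3 - 1 / n ^ 2) * y ^ 3) := by
    have h4 := mul_le_mul_of_nonneg_left hj hn'.le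
    have h5 : (n : ℝ) * (1 / n * (log (∏ i, Ph (x i * y)) + 37 / 10000 * (∑ i, x i ^ 2) * y ^ 2 +
      18 / 100000 * (∑ i, x i ^ 3) * y ^ 3)) = log (∏ i, Ph (x i * y)) +
        37 / 10000 * (∑ i, x i ^ 2) * y ^ 2 + 18 / 100000 * (∑ i, x i ^ 3) * y ^ 3 := by
      rw [← mul_assoc, mul_one_div_cancel hn'.ne', one_mul]
    rw [h5] at h4
    have h6 : (n : ℝ) * (log (Ph (y / n)) + 37 / 10000 * (y / n) ^ 2 + 18 / 100000 * (y / n) ^ 3) =
      n * log (Ph (y / n)) + 37 / 10000 * (1 / n) * y ^ 2 + 18 / 100000 * (1 / n ^ 2) * y ^ 3 := by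
      field_simp
    rw [h6] at h4
    nlinarith
  have h7 := (Real.log_le_iff_le_exp (Finset.prod_pos fun i _ => hPi i)).1 h3
  refine h7.trans (le_of_eq ?_)
  rw [sub_eq_add_neg, Real.exp_add, Real.exp_nat_mul, Real.exp_log hPn]

end

end Agent238.GS
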