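import Pool.Agent.Helper238.GS.GR

/-!
# Soundness of the tables and of the box checker
-/

set_option autoImplicit false

open Real

namespace Agent238.GS

def chkT (T : List (List Nat)) (a b : Nat) : Nat → Bool
  | 0 => true
  | k + 1 => Nat.ble (a ^ k * (10 ^ 8) ^ 64) (look T k ^ 64 * b ^ k) && chkT T a b k

def chkW : Nat → Bool
  | 0 => true
  | k + 1 => (Nat.ble (1438 * look T15 k + 34 * look T17 k) (10000 * look WT k) ||
      (Nat.blt k 64 && Nat.ble (534 * look T17 k + 1241 * 15000000) (10000 * look WT k) &&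
        Nat.ble (534 * look T17 k + 1241 * look T05 k) (10000 * look WT k))) && chkW k

theorem c15 : chkT T15 15 100 384 = true := by decide +kernel
theorem c17 : chkT T17 17 100 384 = true := by decide +kernel
theorem c05 : chkT T05 525 10000 64 = true := by decide +kernel
theorem cW : chkW 384 = true := by decide +kernel

theorem chkT_get {T : List (List Nat)} {a b : Nat} : ∀ {K : Nat}, chkT T a b K = true → ∀ k, k < K →
    a ^ k * (10 ^ 8) ^ 64 ≤ look T k ^ 64 * b ^ k := by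
  intro K
  induction K with
  | zero => intro _ k hk; omega
  | succ K ih =>
    intro h k hk
    rw [chkT, Bool.and_eq_true] at h
    rcases Nat.lt_succ_iff_lt_or_eq.1 hk with h1 | h1
    · exact ih h.2 k h1
    · subst h1; exact Nat.le_of_ble_eq_true h.1

theorem chkW_get : ∀ {K : Nat}, chkW K = true → ∀ k, k < K →
    (1438 * look T15 k + 34 * look T17 k ≤ 10000 * look WT k) ∨
      (k < 64 ∧ 534 * look T17 k + 1241 * 15000000 ≤ 10000 * look WT k ∧
        534 * look T17 k + 1241 * look T05 k ≤ 10000 * look WT k) := by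
  intro K
  induction K with
  | zero => intro _ k hk; omega
  | succ K ih =>
    intro h k hk
    rw [chkW, Bool.and_eq_true] at h
    rcases Nat.lt_succ_iff_lt_or_eq.1 hk with h1 | h1
    · exact ih h.2 k h1
    · subst h1
      have h2 := h.1
      rw [Bool.or_eq_true, Bool.and_eq_true, Bool.and_eq_true] at h2
      rcases h2 with h2 | h2
      · exact Or.inl (Nat.le_of_ble_eq_true h2)
      · exact Or.inr ⟨Nat.le_of_ble_eq_true h2.1.1, Nat.le_of_ble_eq_true h2.1.2, Nat.le_of_ble_eq_true h2.2⟩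

theorem tab_real {T : List (List Nat)} {a b : Nat} (hb : 0 < b) {K : Nat} (h : chkT T a b K = true)
    {k : Nat} (hk : k < K) : ((a : ℝ) / b) ^ ((k : ℝ) / 64) ≤ (look T k : ℝ) / 10 ^ 8 := by
  have h1 := chkT_get h k hk
  have h2 : (a : ℝ) ^ k * (10 ^ 8) ^ 64 ≤ (look T k : ℝ) ^ 64 * (b : ℝ) ^ k := by exact_mod_cast h1
  have hb' : (0 : ℝ) < b := by exact_mod_cast hb
  have h0 : (0 : ℝ) ≤ (a : ℝ) / b := by positivity
  have h3 : ((a : ℝ) / b) ^ k ≤ ((look T k : ℝ) / 10 ^ 8) ^ 64 := by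
    rw [div_pow, div_pow, div_le_div_iff₀ (by positivity) (by positivity)]
    exact h2
  have h4 : (((a : ℝ) / b) ^ ((k : ℝ) / 64)) ^ (64 : ℕ) = ((a : ℝ) / b) ^ k := by
    rw [← Real.rpow_natCast, ← Real.rpow_mul h0]
    norm_num
  have h5 : 0 ≤ ((a : ℝ) / b) ^ ((k : ℝ) / 64) := Real.rpow_nonneg h0 _
  have h6 : (0 : ℝ) ≤ (look T k : ℝ) / 10 ^ 8 := by positivity
  by_contra hn
  push Not at hn
  have h7 := pow_lt_pow_left₀ hn h6 (n := 64) (by norm_num)
  rw [h4] at h7
  linarith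

theorem W_real {k : Nat} (hk : k < 384) {l : ℝ} (hl : (k : ℝ) / 64 ≤ l) :
    (1438 / 10000 * (15 / 100 : ℝ) ^ l + 34 / 10000 * (17 / 100 : ℝ) ^ l ≤ (look WT k : ℝ) / 10 ^ 8) ∨
    (534 / 10000 * (17 / 100 : ℝ) ^ l + 1241 / 10000 * max (15 / 100) ((525 / 10000 : ℝ) ^ l) ≤
      (look WT k : ℝ) / 10 ^ 8) := by
  have a15 := tab_real (by norm_num) c15 hk
  have a17 := tab_real (by norm_num) c17 hk
  push_cast at a15 a17
  have m15 : (15 / 100 : ℝ) ^ l ≤ (15 / 100 : ℝ) ^ ((k : ℝ) / 64) :=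
    Real.rpow_le_rpow_of_exponent_ge (by norm_num) (by norm_num) hl
  have m17 : (17 / 100 : ℝ) ^ l ≤ (17 / 100 : ℝ) ^ ((k : ℝ) / 64) :=
    Real.rpow_le_rpow_of_exponent_ge (by norm_num) (by norm_num) hl
  rcases chkW_get cW k hk with h | ⟨h64, h1, h2⟩
  · left
    have h' : (1438 : ℝ) * look T15 k + 34 * look T17 k ≤ 10000 * look WT k := by exact_mod_cast h
    have e1 : (15 / 100 : ℝ) ^ l ≤ (look T15 k : ℝ) / 10 ^ 8 := m15.trans a15
    have e2 : (17 / 100 : ℝ) ^ l ≤ (look T17 k : ℝ) / 10 ^ 8 := m17.trans a17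
    rw [le_div_iff₀ (by norm_num)] at e1 e2 ⊢
    linarith
  · right
    have a05 := tab_real (by norm_num) c05 h64
    push_cast at a05
    have m05 : (525 / 10000 : ℝ) ^ l ≤ (525 / 10000 : ℝ) ^ ((k : ℝ) / 64) :=
      Real.rpow_le_rpow_of_exponent_ge (by norm_num) (by norm_num) hl
    have h1' : (534 : ℝ) * look T17 k + 1241 * 15000000 ≤ 10000 * look WT k := by exact_mod_cast h1
    have h2' : (534 : ℝ) * look T17 k + 1241 * look T05 k ≤ 10000 * look WT k := by exact_mod_cast h2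
    have e2 : (17 / 100 : ℝ) ^ l ≤ (look T17 k : ℝ) / 10 ^ 8 := m17.trans a17
    have e3 : (525 / 10000 : ℝ) ^ l ≤ (look T05 k : ℝ) / 10 ^ 8 := m05.trans a05
    rcases max_choice (15 / 100 : ℝ) ((525 / 10000 : ℝ) ^ l) with hm | hm
    · rw [hm]
      rw [le_div_iff₀ (by norm_num)] at e2 ⊢
      linarith
    · rw [hm]
      rw [le_div_iff₀ (by norm_num)] at e2 e3 ⊢
      linarith

theorem rowB_get {f : Nat → Nat → Bool} {i : Nat} : ∀ {n j0 : Nat}, rowB f i n j0 = true →
    ∀ j, j0 ≤ j → j < j0 + n → f i j = true := by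
  intro n
  induction n with
  | zero => intro j0 _ j h1 h2; omega
  | succ n ih =>
    intro j0 h j h1 h2
    rw [rowB, Bool.and_eq_true] at h
    rcases Nat.eq_or_lt_of_le h1 with h3 | h3
    · subst h3; exact h.1
    · exact ih h.2 j h3 (by omega)

theorem allB_get {f : Nat → Nat → Bool} : ∀ {n i0 : Nat}, allB f n i0 = true →
    ∀ i, i0 ≤ i → i < i0 + n → ∀ j, 20 ≤ j → j < 192 → f i j = true := by
  intro n
  induction n with
  | zero => intro i0 _ i h1 h2; omega
  | succ n ih =>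
    intro i0 h i h1 h2 j h3 h4
    rw [allB, Bool.and_eq_true] at h
    rcases Nat.eq_or_lt_of_le h1 with h5 | h5
    · subst h5; exact rowB_get h.1 j h3 (by omega)
    · exact ih h.2 i h5 (by omega) j h3 h4

end Agent238.GS
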