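import Pool.Agent.Helper238.GS.G

/-!
# Plancherel for `ph` and Gaussian-weighted integrals of `ph²`
-/

set_option autoImplicit false

open Real Set Filter MeasureTheory
open scoped Topology FourierTransform

namespace Agent238.GS

noncomputable section

/-- cut (unnormalised) Gaussian -/
def f0 (x : ℝ) : ℝ := Set.indicator (Set.Icc (-1) 1) (fun x => exp (-x ^ 2 / 2)) x

theorem f0_meas : Measurable f0 :=
  (by fun_prop : Measurable fun x : ℝ => exp (-x ^ 2 / 2)).indicator measurableSet_Icc

theorem f0_nonneg (x : ℝ) : 0 ≤ f0 x := Set.indicator_nonneg (fun y _ => (exp_pos _).le) x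

theorem f0_le_one (x : ℝ) : f0 x ≤ 1 := by
  unfold f0
  by_cases h : x ∈ Set.Icc (-1 : ℝ) 1
  · rw [Set.indicator_of_mem h]
    exact Real.exp_le_one_iff.2 (by nlinarith [sq_nonneg x])
  · rw [Set.indicator_of_notMem h]; norm_num

theorem f0_out {x : ℝ} (h : x ∉ Set.Icc (-1 : ℝ) 1) : f0 x = 0 := Set.indicator_of_notMem h _

theorem f0_even (x : ℝ) : f0 (-x) = f0 x := by
  by_cases h : x ∈ Set.Icc (-1 : ℝ) 1
  · have h' : -x ∈ Set.Icc (-1 : ℝ) 1 := ⟨by linarith [h.2], by linarith [h.1]⟩
    unfold f0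
    rw [Set.indicator_of_mem h, Set.indicator_of_mem h']; simp
  · have h' : -x ∉ Set.Icc (-1 : ℝ) 1 := fun hh => h ⟨by linarith [hh.2], by linarith [hh.1]⟩
    rw [f0_out h, f0_out h']

theorem f0_integral (g : ℝ → ℝ) : ∫ x, f0 x * g x = ∫ x in (-1 : ℝ)..1, exp (-x ^ 2 / 2) * g x := by
  have h1 : (fun x => f0 x * g x) = Set.indicator (Set.Icc (-1 : ℝ) 1)
      (fun x => exp (-x ^ 2 / 2) * g x) := by
    funext x
    unfold f0
    by_cases h : x ∈ Set.Icc (-1 : ℝ) 1
    · rw [Set.indicator_of_mem h, Set.indicator_of_mem h]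
    · rw [Set.indicator_of_notMem h, Set.indicator_of_notMem h, zero_mul]
  rw [h1, MeasureTheory.integral_indicator measurableSet_Icc, integral_Icc_eq_integral_Ioc,
    ← intervalIntegral.integral_of_le (by norm_num)]

theorem f0_cos (u : ℝ) : ∫ x, f0 x * cos (u * x) = Zc * ph u := by
  rw [f0_integral]
  unfold ph
  rw [mul_inv_cancel_left₀ Zc_pos.ne']

theorem f0_int : Integrable f0 := by
  unfold f0
  rw [integrable_indicator_iff measurableSet_Icc]
  exact (by fun_prop : Continuous fun x : ℝ => exp (-x ^ 2 / 2)).continuousOn.integrableOn_Icc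

theorem f0_int_mul {g : ℝ → ℝ} (hg : Continuous g) {C : ℝ} (hC : ∀ x, |g x| ≤ C) :
    Integrable (fun x => f0 x * g x) :=
  f0_int.mul_bdd hg.aestronglyMeasurable (Eventually.of_forall fun x => hC x)

theorem f0_sin (u : ℝ) : ∫ x, f0 x * sin (u * x) = 0 := by
  have h := integral_neg_eq_self (fun x => f0 x * sin (u * x)) volume
  have h2 : (fun x => f0 (-x) * sin (u * (-x))) = fun x => -(f0 x * sin (u * x)) := by
    funext x; rw [f0_even, mul_neg, sin_neg, mul_neg]
  rw [h2, integral_neg] at h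
  linarith

/-- autocorrelation -/
def qq (s : ℝ) : ℝ := ∫ x, f0 x * f0 (x + s)

theorem qq_prod_int : Integrable (fun p : ℝ × ℝ => f0 p.2 * f0 (p.2 + p.1)) (volume.prod volume) := by
  have hm : Measurable (fun p : ℝ × ℝ => f0 p.2 * f0 (p.2 + p.1)) :=
    (f0_meas.comp measurable_snd).mul (f0_meas.comp (measurable_snd.add measurable_fst))
  have hI : Integrable (Set.indicator (Set.Icc (-2 : ℝ) 2 ×ˢ Set.Icc (-1 : ℝ) 1) (fun _ => (1 : ℝ)))
      (volume.prod volume) := by
    rw [integrable_indicator_iff (measurableSet_Icc.prod measurableSet_Icc)]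
    refine integrableOn_const ?_ (by simp)
    rw [Measure.prod_prod]
    simp [ENNReal.mul_eq_top]
  refine hI.mono' hm.aestronglyMeasurable (Eventually.of_forall fun p => ?_)
  rw [Real.norm_eq_abs, abs_of_nonneg (mul_nonneg (f0_nonneg _) (f0_nonneg _))]
  by_cases h2 : p.2 ∈ Set.Icc (-1 : ℝ) 1
  · by_cases h3 : p.2 + p.1 ∈ Set.Icc (-1 : ℝ) 1
    · have hp : p ∈ Set.Icc (-2 : ℝ) 2 ×ˢ Set.Icc (-1 : ℝ) 1 :=
        ⟨⟨by linarith [h2.2, h3.1], by linarith [h2.1, h3.2]⟩, h2⟩
      rw [Set.indicator_of_mem hp]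
      exact mul_le_one₀ (f0_le_one _) (f0_nonneg _) (f0_le_one _)
    · rw [f0_out h3, mul_zero]; exact Set.indicator_nonneg (fun _ _ => zero_le_one) _
  · rw [f0_out h2, zero_mul]; exact Set.indicator_nonneg (fun _ _ => zero_le_one) _

theorem qq_int : Integrable qq := qq_prod_int.integral_prod_left

theorem qq_nonneg (s : ℝ) : 0 ≤ qq s :=
  integral_nonneg fun x => mul_nonneg (f0_nonneg _) (f0_nonneg _)

theorem qq_even (s : ℝ) : qq (-s) = qq s := by
  unfold qq
  have h := integral_add_right_eq_self (μ := volume) (fun x => f0 x * f0 (x + -s)) s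
  rw [← h]
  refine integral_congr_ae (Eventually.of_forall fun x => ?_)
  simp only [add_neg_cancel_right]
  ring

theorem qq_cos (u : ℝ) : ∫ s, qq s * cos (u * s) = (Zc * ph u) ^ 2 := by
  have h1 : ∀ s, qq s * cos (u * s) = ∫ x, f0 x * f0 (x + s) * cos (u * s) := by
    intro s; unfold qq; rw [integral_mul_const]
  simp_rw [h1]
  have hI : Integrable (Function.uncurry fun (s x : ℝ) => f0 x * f0 (x + s) * cos (u * s))
      (volume.prod volume) := by
    refine qq_prod_int.mul_bdd (c := 1)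
      ((by fun_prop : Continuous fun p : ℝ × ℝ => cos (u * p.1)).aestronglyMeasurable)
      (Eventually.of_forall fun p => by simpa using abs_cos_le_one (u * p.1))
  rw [integral_integral_swap hI]
  have h2 : ∀ x, ∫ s, f0 x * f0 (x + s) * cos (u * s) = f0 x * cos (u * x) * (Zc * ph u) := by
    intro x
    have h3 : ∫ s, f0 x * f0 (x + s) * cos (u * s) = f0 x * ∫ s, f0 (x + s) * cos (u * s) := by
      rw [← integral_const_mul]
      refine integral_congr_ae (Eventually.of_forall fun s => by simp only; ring)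
    have h4 : ∫ s, f0 (x + s) * cos (u * s) = ∫ y, f0 y * cos (u * (y - x)) := by
      have := integral_add_left_eq_self (μ := volume) (fun y => f0 y * cos (u * (y - x))) x
      rw [← this]
      refine integral_congr_ae (Eventually.of_forall fun s => ?_)
      simp only [add_sub_cancel_left]
    have h5 : ∫ y, f0 y * cos (u * (y - x)) = cos (u * x) * (Zc * ph u) := by
      have h6 : ∀ y, f0 y * cos (u * (y - x)) = cos (u * x) * (f0 y * cos (u * y)) +
          sin (u * x) * (f0 y * sin (u * y)) := by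
        intro y
        rw [show u * (y - x) = u * y - u * x by ring, cos_sub]; ring
      simp_rw [h6]
      rw [integral_add, integral_const_mul, integral_const_mul, f0_cos, f0_sin]
      · ring
      · exact (f0_int_mul (by fun_prop) (fun y => abs_cos_le_one _)).const_mul _
      · exact (f0_int_mul (by fun_prop) (fun y => abs_sin_le_one _)).const_mul _
    rw [h3, h4, h5]; ring
  simp_rw [h2]
  rw [integral_mul_const, f0_cos]; ring

/-- crude global decay -/
theorem ph_decay (u : ℝ) (hu : 0 < |u|) : |ph u| ≤ 3 / |u| := by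
  rw [← ph_abs]
  obtain ⟨v, hv⟩ : ∃ v, v = |u| := ⟨_, rfl⟩
  rw [← hv] at hu ⊢
  rw [le_div_iff₀ hu]
  have h1 := u_ph_le v hu
  have h2 := pd_le v hu
  have h3 := ph_abs_le v
  have hK := Kc_num
  rcases le_total v 3 with h | h
  · nlinarith [abs_nonneg (ph v)]
  · have : |pd v| ≤ 2 / 3 := by
      refine h2.trans ?_
      rw [div_le_div_iff₀ hu (by norm_num)]; nlinarith
    linarith

/-- a convenient majorant -/
theorem ph_major (u : ℝ) : |ph u| ≤ min 1 (3 / |u|) ∨ u = 0 := by
  rcases eq_or_ne u 0 with h | h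
  · exact Or.inr h
  · exact Or.inl (le_min (ph_abs_le u) (ph_decay u (abs_pos.2 h)))

theorem ph_sq_le (u : ℝ) : ph u ^ 2 ≤ 18 / (1 + u ^ 2) := by
  rw [le_div_iff₀ (by positivity)]
  have h1 := ph_abs_le u
  have h0 : ph u ^ 2 ≤ 1 := by rw [← sq_abs]; nlinarith [abs_nonneg (ph u)]
  rcases eq_or_ne u 0 with h | h
  · rw [h]; rw [h] at h0; nlinarith
  · have h2 := ph_decay u (abs_pos.2 h)
    rw [le_div_iff₀ (abs_pos.2 h)] at h2
    have h3 : ph u ^ 2 * u ^ 2 ≤ 9 := by
      have : (|ph u| * |u|) ^ 2 ≤ 3 ^ 2 := pow_le_pow_left₀ (by positivity) h2 2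
      rw [mul_pow, sq_abs, sq_abs] at this; linarith
    nlinarith

theorem ph_sq_int : Integrable (fun u => ph u ^ 2) := by
  refine (integrable_inv_one_add_sq.const_mul 18).mono' (ph_cont.pow 2).aestronglyMeasurable
    (Eventually.of_forall fun u => ?_)
  rw [Real.norm_eq_abs, abs_of_nonneg (sq_nonneg _)]
  have := ph_sq_le u
  rwa [div_eq_mul_inv] at this

/-- `I₁` -/
def I1 : ℝ := ∫ x in (-1 : ℝ)..1, exp (-x ^ 2)

/-- `G₀ = ∫ ph²` -/
def G0 : ℝ := 2 * π * I1 / Zc ^ 2

theorem qq_zero : qq 0 = I1 := by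
  unfold qq I1
  simp only [add_zero]
  rw [f0_integral]
  have h : ∫ x in (-1 : ℝ)..1, exp (-x ^ 2 / 2) * f0 x = ∫ x in (-1 : ℝ)..1, exp (-x ^ 2) := by
    refine intervalIntegral.integral_congr fun x hx => ?_
    rw [Set.uIcc_of_le (by norm_num)] at hx
    unfold f0
    rw [Set.indicator_of_mem hx, ← Real.exp_add]
    congr 1; ring
  exact h

theorem qq_cont : ContinuousAt (fun s => ((qq s : ℝ) : ℂ)) 0 := by
  refine Complex.continuous_ofReal.continuousAt.comp ?_
  unfold qq
  refine continuousAt_of_dominated (bound := f0) ?_ ?_ f0_int ?_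
  · exact Eventually.of_forall fun s => (f0_meas.mul (f0_meas.comp (by fun_prop))).aestronglyMeasurable
  · refine Eventually.of_forall fun s => Eventually.of_forall fun x => ?_
    rw [Real.norm_eq_abs, abs_of_nonneg (mul_nonneg (f0_nonneg _) (f0_nonneg _))]
    exact mul_le_of_le_one_right (f0_nonneg _) (f0_le_one _)
  · have h1 : ∀ᵐ x : ℝ, x ≠ 1 := by simp [ae_iff, measure_singleton]
    have h2 : ∀ᵐ x : ℝ, x ≠ -1 := by simp [ae_iff, measure_singleton]
    filter_upwards [h1, h2] with x hx1 hx2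
    have hc : ContinuousAt f0 (x + 0) := by
      rw [add_zero]
      by_cases h : x ∈ Set.Icc (-1 : ℝ) 1
      · have h' : x ∈ Set.Ioo (-1 : ℝ) 1 := ⟨lt_of_le_of_ne h.1 hx2.symm, lt_of_le_of_ne h.2 hx1⟩
        have : f0 =ᶠ[𝓝 x] fun x => exp (-x ^ 2 / 2) := by
          filter_upwards [Ioo_mem_nhds h'.1 h'.2] with y hy
          exact Set.indicator_of_mem (Ioo_subset_Icc_self hy) _
        exact ((by fun_prop : Continuous fun x : ℝ => exp (-x ^ 2 / 2)).continuousAt).congr this.symm
      · have : f0 =ᶠ[𝓝 x] fun _ => 0 := by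
          have : ∀ᶠ y in 𝓝 x, y ∉ Set.Icc (-1 : ℝ) 1 := isClosed_Icc.isOpen_compl.mem_nhds h
          filter_upwards [this] with y hy
          exact f0_out hy
        exact continuousAt_const.congr this.symm
    have h3 : ContinuousAt (fun s : ℝ => x + s) 0 := by fun_prop
    exact continuousAt_const.mul (ContinuousAt.comp (g := f0) (f := fun s : ℝ => x + s) hc h3)

theorem planch : ∫ u, ph u ^ 2 = G0 := by
  have hint : Integrable (fun s => ((qq s : ℝ) : ℂ)) := qq_int.ofReal
  have hsin : ∀ u, ∫ s, qq s * sin (u * s) = 0 := by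
    intro u
    have h := integral_neg_eq_self (fun x => qq x * sin (u * x)) volume
    have h2 : (fun x => qq (-x) * sin (u * (-x))) = fun x => -(qq x * sin (u * x)) := by
      funext x; rw [qq_even, mul_neg, sin_neg, mul_neg]
    rw [h2, integral_neg] at h
    linarith
  have hF : 𝓕 (fun s => ((qq s : ℝ) : ℂ)) = fun w => (((Zc * ph (2 * π * w)) ^ 2 : ℝ) : ℂ) := by
    funext w
    rw [Real.fourier_real_eq_integral_exp_smul, ← qq_cos]
    have h1 : ∀ x : ℝ, Complex.exp (((-2 * π * x * w : ℝ) : ℂ) * Complex.I) • ((qq x : ℝ) : ℂ) =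
      ((qq x * cos (2 * π * w * x) : ℝ) : ℂ) - ((qq x * sin (2 * π * w * x) : ℝ) : ℂ) * Complex.I := by
      intro x
      rw [smul_eq_mul, Complex.exp_mul_I, ← Complex.ofReal_cos, ← Complex.ofReal_sin,
        show -2 * π * x * w = -(2 * π * w * x) by ring, cos_neg, sin_neg]
      push_cast; ring
    simp_rw [h1]
    have hc : Integrable (fun x => qq x * cos (2 * π * w * x)) :=
      qq_int.mul_bdd (c := 1) (by fun_prop : Continuous fun x => cos (2 * π * w * x)).aestronglyMeasurable
        (Eventually.of_forall fun x => by simpa using abs_cos_le_one (2 * π * w * x))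
    have hs : Integrable (fun x => qq x * sin (2 * π * w * x)) :=
      qq_int.mul_bdd (c := 1) (by fun_prop : Continuous fun x => sin (2 * π * w * x)).aestronglyMeasurable
        (Eventually.of_forall fun x => by simpa using abs_sin_le_one (2 * π * w * x))
    rw [integral_sub hc.ofReal (hs.ofReal.mul_const _), integral_mul_const,
      integral_complex_ofReal, integral_complex_ofReal, hsin]
    simp
  have hFi : Integrable (𝓕 (fun s => ((qq s : ℝ) : ℂ))) := by
    rw [hF]
    refine Integrable.ofReal ?_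
    have := (ph_sq_int.const_mul (Zc ^ 2)).comp_mul_left' (by positivity : (2 * π) ≠ 0)
    refine this.congr (Eventually.of_forall fun w => ?_)
    show Zc ^ 2 * (ph (2 * π * w)) ^ 2 = (Zc * ph (2 * π * w)) ^ 2
    exact (mul_pow _ _ _).symm
  have h := hint.fourierInv_fourier_eq hFi qq_cont
  rw [Real.fourierInv_eq] at h
  have h1 : ∀ w : ℝ, 𝐞 (inner ℝ w (0 : ℝ)) • 𝓕 (fun s => ((qq s : ℝ) : ℂ)) w =
      (((Zc * ph (2 * π * w)) ^ 2 : ℝ) : ℂ) := by
    intro w
    rw [hF, inner_zero_right]
    simp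
  simp_rw [h1] at h
  rw [integral_complex_ofReal, qq_zero] at h
  have h3 := Complex.ofReal_injective h
  have h4 := Measure.integral_comp_mul_left (fun t => (Zc * ph t) ^ 2) (2 * π)
  rw [h4, abs_of_pos (by positivity)] at h3
  have h5 : ∫ t, (Zc * ph t) ^ 2 = Zc ^ 2 * ∫ t, ph t ^ 2 := by
    rw [← integral_const_mul]
    refine integral_congr_ae (Eventually.of_forall fun t => by simp only; ring)
  rw [h5, smul_eq_mul] at h3
  unfold G0
  have hZ := Zc_pos.ne'
  have hpi := Real.pi_ne_zero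
  rw [← h3]
  field_simp

end

end Agent238.GS
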