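import Pool.Agent.Helper238.GS.H

/-!
# Heat kernel average of `ph²`
-/

open MeasureTheory Real Set Filter intervalIntegral
open scoped ENNReal Topology FourierTransform

namespace Agent238.GS

noncomputable section

/-- antiderivative of the Taylor polynomial of `e^{-x²}` -/
def tI (x : ℝ) : ℝ := x - x ^ 3 / 3 + x ^ 5 / 10 - x ^ 7 / 42 + x ^ 9 / 216 - x ^ 11 / 1320 +
  x ^ 13 / 9360 - x ^ 15 / 75600 + x ^ 17 / 685440 - x ^ 19 / 6894720

theorem tI_deriv (x : ℝ) : HasDerivAt tI (∑ m ∈ Finset.range 10, (-x ^ 2) ^ m / (Nat.factorial m)) x := by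
  have h1 := (((((((((hasDerivAt_id x).sub ((hasDerivAt_pow 3 x).div_const 3)).add
    ((hasDerivAt_pow 5 x).div_const 10)).sub ((hasDerivAt_pow 7 x).div_const 42)).add
    ((hasDerivAt_pow 9 x).div_const 216)).sub ((hasDerivAt_pow 11 x).div_const 1320)).add
    ((hasDerivAt_pow 13 x).div_const 9360)).sub ((hasDerivAt_pow 15 x).div_const 75600)).add
    ((hasDerivAt_pow 17 x).div_const 685440)).sub ((hasDerivAt_pow 19 x).div_const 6894720)
  refine h1.congr_deriv ?_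
  simp only [Finset.sum_range_succ, Finset.sum_range_zero, Nat.factorial]
  norm_num
  ring

theorem I1_num : 14936482 / 10000000 < I1 ∧ I1 < 14936483 / 10000000 := by
  have hb : ∀ x ∈ Set.Icc (-1 : ℝ) 1, |exp (-x ^ 2) - ∑ m ∈ Finset.range 10, (-x ^ 2) ^ m / (Nat.factorial m)|
      ≤ x ^ 20 * (11 / 36288000) := by
    intro x hx
    have hx2 : |(-x ^ 2)| ≤ 1 := by
      rw [abs_neg, abs_of_nonneg (sq_nonneg _)]; nlinarith [hx.1, hx.2]
    have h := Real.exp_bound hx2 (n := 10) (by norm_num)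
    refine h.trans (le_of_eq ?_)
    rw [abs_neg, abs_of_nonneg (sq_nonneg _), ← pow_mul]
    norm_num [Nat.factorial]
  have hc1 : IntervalIntegrable (fun x : ℝ => exp (-x ^ 2)) volume (-1) 1 :=
    (by fun_prop : Continuous fun x : ℝ => exp (-x ^ 2)).intervalIntegrable _ _
  have hc2 : IntervalIntegrable (fun x : ℝ => ∑ m ∈ Finset.range 10, (-x ^ 2) ^ m / (Nat.factorial m)) volume (-1) 1 :=
    (by fun_prop : Continuous fun x : ℝ => ∑ m ∈ Finset.range 10, (-x ^ 2) ^ m / (Nat.factorial m : ℝ)).intervalIntegrable _ _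
  have hc3 : IntervalIntegrable (fun x : ℝ => x ^ 20 * (11 / 36288000)) volume (-1) 1 :=
    (by fun_prop : Continuous fun x : ℝ => x ^ 20 * ((11 : ℝ) / 36288000)).intervalIntegrable _ _
  have hS : ∫ x in (-1 : ℝ)..1, ∑ m ∈ Finset.range 10, (-x ^ 2) ^ m / (Nat.factorial m : ℝ) = tI 1 - tI (-1) :=
    integral_eq_sub_of_hasDerivAt (fun x _ => tI_deriv x) hc2
  have hE : ∫ x in (-1 : ℝ)..1, x ^ 20 * ((11 : ℝ) / 36288000) = 2 / 21 * (11 / 36288000) := by
    rw [intervalIntegral.integral_mul_const, integral_pow]; norm_num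
  have hup : I1 ≤ tI 1 - tI (-1) + 2 / 21 * (11 / 36288000) := by
    rw [← hS, ← hE, ← intervalIntegral.integral_add hc2 hc3]
    refine intervalIntegral.integral_mono_on (by norm_num) hc1 (hc2.add hc3) fun x hx => ?_
    have := (abs_le.1 (hb x hx)).2
    show _ ≤ _ + _
    linarith
  have hlo : tI 1 - tI (-1) - 2 / 21 * (11 / 36288000) ≤ I1 := by
    rw [← hS, ← hE, ← intervalIntegral.integral_sub hc2 hc3]
    refine intervalIntegral.integral_mono_on (by norm_num) (hc2.sub hc3) hc1 fun x hx => ?_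
    have := (abs_le.1 (hb x hx)).1
    show _ - _ ≤ _
    linarith
  unfold tI at hup hlo
  norm_num at hup hlo
  constructor <;> linarith

/-- support of the autocorrelation -/
theorem qq_far {s : ℝ} (h : 2 < s) : qq s = 0 := by
  unfold qq
  have : (fun x => f0 x * f0 (x + s)) = fun _ => 0 := by
    funext x
    by_cases hx : x ∈ Set.Icc (-1 : ℝ) 1
    · have : x + s ∉ Set.Icc (-1 : ℝ) 1 := fun h2 => by linarith [hx.1, h2.2]
      rw [f0_out this, mul_zero]
    · rw [f0_out hx, zero_mul]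
  rw [this, integral_zero]

theorem qq_near {s : ℝ} (h0 : 0 ≤ s) (h2 : s ≤ 2) :
    qq s = exp (-s ^ 2 / 4) * ∫ v in (-1 + s / 2)..(1 - s / 2), exp (-v ^ 2) := by
  unfold qq
  have h1 : (fun x => f0 x * f0 (x + s)) =
      Set.indicator (Set.Icc (-1) (1 - s)) (fun x => exp (-s ^ 2 / 4) * exp (-(x + s / 2) ^ 2)) := by
    funext x
    by_cases hx : x ∈ Set.Icc (-1 : ℝ) (1 - s)
    · rw [Set.indicator_of_mem hx]
      have ha : x ∈ Set.Icc (-1 : ℝ) 1 := ⟨hx.1, by linarith [hx.2]⟩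
      have hb : x + s ∈ Set.Icc (-1 : ℝ) 1 := ⟨by linarith [hx.1], by linarith [hx.2]⟩
      unfold f0
      rw [Set.indicator_of_mem ha, Set.indicator_of_mem hb, ← Real.exp_add, ← Real.exp_add]
      congr 1; ring
    · rw [Set.indicator_of_notMem hx]
      by_cases ha : x ∈ Set.Icc (-1 : ℝ) 1
      · have : x + s ∉ Set.Icc (-1 : ℝ) 1 := fun h3 => hx ⟨ha.1, by linarith [h3.2]⟩
        rw [f0_out this, mul_zero]
      · rw [f0_out ha, zero_mul]
  rw [h1, MeasureTheory.integral_indicator measurableSet_Icc, integral_Icc_eq_integral_Ioc,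
    ← intervalIntegral.integral_of_le (by linarith), intervalIntegral.integral_const_mul]
  congr 1
  have := intervalIntegral.integral_comp_add_right (f := fun v => exp (-v ^ 2)) (a := -1) (b := 1 - s) (s / 2)
  rw [this]
  congr 1; ring

theorem gauss_piece {h : ℝ} (h0 : 0 ≤ h) (h1 : h ≤ 1) :
    exp (-1) * (h + h ^ 2) ≤ ∫ v in (1 - h)..1, exp (-v ^ 2) := by
  have e1 : ∫ v in (1 - h)..1, exp (-v ^ 2) = exp (-1) * ∫ x in (0 : ℝ)..h, exp (2 * x - x ^ 2) := by
    have := intervalIntegral.integral_comp_sub_left (f := fun v => exp (-v ^ 2)) (a := 0) (b := h) 1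
    rw [sub_zero] at this
    rw [← this, ← intervalIntegral.integral_const_mul]
    refine intervalIntegral.integral_congr fun x _ => ?_
    show exp (-(1 - x) ^ 2) = exp (-1) * exp (2 * x - x ^ 2)
    rw [← Real.exp_add]; congr 1; ring
  rw [e1]
  refine mul_le_mul_of_nonneg_left ?_ (exp_pos _).le
  have e2 : ∫ x in (0 : ℝ)..h, (1 + 2 * x + x ^ 2 - 2 / 3 * x ^ 3 - 3 / 2 * x ^ 4 + x ^ 5 - x ^ 6 / 6) =
      h + h ^ 2 + h ^ 3 / 3 - h ^ 4 / 6 - 3 / 10 * h ^ 5 + h ^ 6 / 6 - h ^ 7 / 42 := by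
    have hd : ∀ x ∈ uIcc (0 : ℝ) h, HasDerivAt (fun x : ℝ => x + x ^ 2 + x ^ 3 / 3 - x ^ 4 / 6 -
        3 / 10 * x ^ 5 + x ^ 6 / 6 - x ^ 7 / 42)
        (1 + 2 * x + x ^ 2 - 2 / 3 * x ^ 3 - 3 / 2 * x ^ 4 + x ^ 5 - x ^ 6 / 6) x := by
      intro x _
      have h1 := ((((((hasDerivAt_id x).add (hasDerivAt_pow 2 x)).add ((hasDerivAt_pow 3 x).div_const 3)).sub
        ((hasDerivAt_pow 4 x).div_const 6)).sub ((hasDerivAt_pow 5 x).const_mul (3 / 10))).add
        ((hasDerivAt_pow 6 x).div_const 6)).sub ((hasDerivAt_pow 7 x).div_const 42)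
      refine h1.congr_deriv ?_
      norm_num; ring
    rw [integral_eq_sub_of_hasDerivAt hd ((by fun_prop : Continuous fun x : ℝ =>
      (1 + 2 * x + x ^ 2 - 2 / 3 * x ^ 3 - 3 / 2 * x ^ 4 + x ^ 5 - x ^ 6 / 6)).intervalIntegrable _ _)]
    ring
  have e3 : ∫ x in (0 : ℝ)..h, (1 + 2 * x + x ^ 2 - 2 / 3 * x ^ 3 - 3 / 2 * x ^ 4 + x ^ 5 - x ^ 6 / 6) ≤
      ∫ x in (0 : ℝ)..h, exp (2 * x - x ^ 2) := by
    refine intervalIntegral.integral_mono_on h0 ((by fun_prop : Continuous fun x : ℝ =>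
      (1 + 2 * x + x ^ 2 - 2 / 3 * x ^ 3 - 3 / 2 * x ^ 4 + x ^ 5 - x ^ 6 / 6)).intervalIntegrable _ _)
      ((by fun_prop : Continuous fun x : ℝ => exp (2 * x - x ^ 2)).intervalIntegrable _ _) fun x hx => ?_
    have hy : 0 ≤ 2 * x - x ^ 2 := by nlinarith [hx.1, hx.2]
    have := Real.sum_le_exp_of_nonneg hy 4
    simp only [Finset.sum_range_succ, Finset.sum_range_zero, Nat.factorial] at this
    refine le_trans (le_of_eq ?_) this
    push_cast; ring
  rw [e2] at e3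
  have e4 : 0 ≤ 1 / 3 - h / 6 - 3 / 10 * h ^ 2 + h ^ 3 / 6 - h ^ 4 / 42 := by
    obtain ⟨g, rfl⟩ : ∃ g, h = 1 - g := ⟨1 - h, by ring⟩
    have hg0 : 0 ≤ g := by linarith
    have hg1 : g ≤ 1 := by linarith
    nlinarith [mul_nonneg hg0 hg0, mul_nonneg (mul_nonneg hg0 hg0) hg0, mul_nonneg hg0 (sub_nonneg.2 hg1),
      mul_nonneg (mul_nonneg hg0 hg0) (sub_nonneg.2 hg1),
      mul_nonneg (mul_nonneg (mul_nonneg hg0 hg0) hg0) (sub_nonneg.2 hg1)]
  nlinarith [mul_nonneg (pow_nonneg h0 3) e4]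

theorem I1_split {h : ℝ} : I1 = (∫ v in (-1 + h)..(1 - h), exp (-v ^ 2)) +
    2 * ∫ v in (1 - h)..1, exp (-v ^ 2) := by
  have hc : ∀ a b, IntervalIntegrable (fun v : ℝ => exp (-v ^ 2)) volume a b := fun a b =>
    (by fun_prop : Continuous fun v : ℝ => exp (-v ^ 2)).intervalIntegrable _ _
  have h1 : ∫ v in (-1 : ℝ)..(-1 + h), exp (-v ^ 2) = ∫ v in (1 - h)..1, exp (-v ^ 2) := by
    have := intervalIntegral.integral_comp_neg (f := fun v => exp (-v ^ 2)) (a := -1) (b := -1 + h)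
    simp only [neg_sq, neg_neg] at this
    rw [this]
    congr 1; ring
  unfold I1
  rw [← intervalIntegral.integral_add_adjacent_intervals (hc (-1) (-1 + h)) (hc (-1 + h) 1),
    ← intervalIntegral.integral_add_adjacent_intervals (hc (-1 + h) (1 - h)) (hc (1 - h) 1), h1]
  ring

/-- upper bound of the autocorrelation -/
theorem qq_bound (s : ℝ) : qq s ≤ exp (-s ^ 2 / 4) *
    (I1 - (|s| + s ^ 2 / 2) * exp (-1) + 3 / 1000 * s ^ 6) := by
  obtain ⟨r, hr⟩ : ∃ r, r = |s| := ⟨_, rfl⟩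
  have hr0 : 0 ≤ r := by rw [hr]; exact abs_nonneg _
  have h1 : qq s = qq r := by
    rcases abs_choice s with h | h
    · rw [hr, h]
    · rw [hr, h, qq_even]
  have h2 : s ^ 2 = r ^ 2 := by rw [hr, sq_abs]
  have h6 : s ^ 6 = r ^ 6 := by
    have : s ^ 6 = (s ^ 2) ^ 3 := by ring
    rw [this, h2]; ring
  rw [h1, h2, h6, ← hr]
  rcases le_total r 2 with h | h
  · rw [qq_near hr0 h]
    refine mul_le_mul_of_nonneg_left ?_ (exp_pos _).le
    have h3 := I1_split (h := r / 2)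
    have h4 := gauss_piece (h := r / 2) (by linarith) (by linarith)
    have h5 : 0 ≤ 3 / 1000 * r ^ 6 := by positivity
    nlinarith [exp_pos (-1)]
  · rcases eq_or_lt_of_le h with h | h
    · rw [← h, qq_near (by norm_num) le_rfl]
      refine mul_le_mul_of_nonneg_left ?_ (exp_pos _).le
      have h3 := I1_split (h := 1)
      have h4 := gauss_piece (h := 1) (by linarith) (by linarith)
      norm_num at h3 h4 ⊢
      linarith
    · rw [qq_far h]
      refine mul_nonneg (exp_pos _).le ?_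
      have he := Real.exp_neg_one_lt_d9
      have hI := I1_num.1
      have h7 : 3 * 36 * r ^ 2 - 2 * 216 ≤ r ^ 6 := by nlinarith [mul_nonneg (sq_nonneg (r ^ 2 - 6)) (by positivity : 0 ≤ r ^ 2 + 12)]
      nlinarith

end

end Agent238.GS
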