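import Pool.Agent.Helper238.GS.I

/-!
# Gaussian moments and the heat kernel average of `ph²`
-/

open MeasureTheory Real Set Filter
open scoped ENNReal Topology FourierTransform Nat

namespace Agent238.GS

noncomputable section

theorem gm_int (k : ℕ) {b : ℝ} (hb : 0 < b) : Integrable (fun x : ℝ => x ^ k * exp (-b * x ^ 2)) := by
  have h := integrable_rpow_mul_exp_neg_mul_sq hb (s := (k : ℝ))
    (by have : (0 : ℝ) ≤ k := Nat.cast_nonneg k
        linarith)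
  simpa [Real.rpow_natCast] using h

theorem gm_gen (k : ℕ) {b : ℝ} (hb : 0 < b) :
    ∫ x : ℝ, |x| ^ k * exp (-b * x ^ 2) = b ^ (-((k : ℝ) + 1) / 2) * Gamma (((k : ℝ) + 1) / 2) := by
  have h1 : (fun x : ℝ => |x| ^ k * exp (-b * x ^ 2)) = fun x => (fun y => y ^ k * exp (-b * y ^ 2)) |x| := by
    funext x; simp only [sq_abs]
  rw [h1, integral_comp_abs (f := fun y => y ^ k * exp (-b * y ^ 2))]
  have h2 := integral_rpow_mul_exp_neg_mul_rpow (p := 2) (q := (k : ℝ)) (b := b) (by norm_num)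
    (by have : (0 : ℝ) ≤ k := Nat.cast_nonneg k
        linarith) hb
  have h3 : ∫ x in Ioi (0 : ℝ), x ^ k * exp (-b * x ^ 2) =
      ∫ x in Ioi (0 : ℝ), x ^ (k : ℝ) * exp (-b * x ^ (2 : ℝ)) := by
    refine setIntegral_congr_fun measurableSet_Ioi fun x _ => ?_
    simp only [Real.rpow_natCast]
    congr 2
    norm_num
  rw [h3, h2]; ring

theorem gm_abs {b : ℝ} (hb : 0 < b) : ∫ x : ℝ, |x| * exp (-b * x ^ 2) = 1 / b := by
  have h := gm_gen 1 hb
  simp only [pow_one, Nat.cast_one] at h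
  rw [h, show (-((1 : ℝ) + 1) / 2) = -1 by norm_num, show ((1 : ℝ) + 1) / 2 = 1 by norm_num,
    Real.Gamma_one, Real.rpow_neg_one, mul_one, one_div]

theorem gm_even (k : ℕ) {b : ℝ} (hb : 0 < b) :
    ∫ x : ℝ, x ^ (2 * k) * exp (-b * x ^ 2) = ((2 * k - 1 : ℕ)‼ : ℝ) / (2 * b) ^ k * √(π / b) := by
  have h := gm_gen (2 * k) hb
  have h1 : (fun x : ℝ => |x| ^ (2 * k) * exp (-b * x ^ 2)) = fun x => x ^ (2 * k) * exp (-b * x ^ 2) := by
    funext x; rw [pow_mul, sq_abs, ← pow_mul]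
  rw [h1] at h
  rw [h]
  push_cast
  rw [show ((2 * (k : ℝ) + 1) / 2) = k + 1 / 2 by ring, Real.Gamma_nat_add_half,
    show (-(2 * (k : ℝ) + 1) / 2) = -(k : ℝ) + -(1 / 2) by ring, Real.rpow_add hb,
    Real.rpow_neg hb.le, Real.rpow_natCast, Real.rpow_neg hb.le, ← Real.sqrt_eq_rpow,
    Real.sqrt_div' _ hb.le, mul_pow]
  field_simp

theorem gauss_cos {κ : ℝ} (hκ : 0 < κ) (s : ℝ) :
    ∫ u : ℝ, exp (-κ * u ^ 2) * cos (u * s) = √(π / κ) * exp (-s ^ 2 / (4 * κ)) := by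
  have h := ct_gam (s / √(2 * κ))
  unfold ct gam at h
  have hk : 0 < √(2 * κ) := Real.sqrt_pos.2 (by positivity)
  have hk2 : √(2 * κ) ^ 2 = 2 * κ := Real.sq_sqrt (by positivity)
  have h1 := Measure.integral_comp_mul_left (fun x => (√(2 * π))⁻¹ * exp (-x ^ 2 / 2) * cos (s / √(2 * κ) * x)) (√(2 * κ))
  rw [h, abs_of_pos (inv_pos.2 hk), smul_eq_mul] at h1
  have h2 : (fun x => (√(2 * π))⁻¹ * exp (-(√(2 * κ) * x) ^ 2 / 2) * cos (s / √(2 * κ) * (√(2 * κ) * x))) =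
      fun u => (√(2 * π))⁻¹ * (exp (-κ * u ^ 2) * cos (u * s)) := by
    funext u
    rw [mul_pow, hk2, show s / √(2 * κ) * (√(2 * κ) * u) = u * s by field_simp, mul_assoc]
    congr 3; ring
  rw [h2, integral_const_mul, div_pow, hk2] at h1
  have h3 : √(π / κ) = √(2 * π) * (√(2 * κ))⁻¹ := by
    rw [← Real.sqrt_inv, ← Real.sqrt_mul (by positivity)]
    congr 1; field_simp
  have h4 : 0 < √(2 * π) := Real.sqrt_pos.2 (by positivity)
  have h5 : exp (-s ^ 2 / (4 * κ)) = exp (-(s ^ 2 / (2 * κ)) / 2) := by congr 1; field_simp; ring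
  rw [h3, h5, mul_assoc, ← h1, mul_inv_cancel_left₀ h4.ne']

theorem heat_formula {κ : ℝ} (hκ : 0 < κ) :
    ∫ u : ℝ, ph u ^ 2 * exp (-κ * u ^ 2) =
      (Zc ^ 2)⁻¹ * (√(π / κ) * ∫ s, qq s * exp (-s ^ 2 / (4 * κ))) := by
  have hg : Integrable (fun u : ℝ => exp (-κ * u ^ 2)) := integrable_exp_neg_mul_sq hκ
  have h1 : ∀ u : ℝ, (Zc * ph u) ^ 2 * exp (-κ * u ^ 2) = ∫ s, qq s * (exp (-κ * u ^ 2) * cos (u * s)) := by
    intro u
    rw [← qq_cos, ← integral_mul_const]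
    refine integral_congr_ae (Eventually.of_forall fun s => ?_)
    show qq s * cos (u * s) * exp (-κ * u ^ 2) = qq s * (exp (-κ * u ^ 2) * cos (u * s))
    ring
  have hint : Integrable (fun p : ℝ × ℝ => qq p.2 * (exp (-κ * p.1 ^ 2) * cos (p.1 * p.2)))
      (volume.prod volume) := by
    have h := hg.mul_prod qq_int
    have h2 := h.mul_bdd (c := 1) (by fun_prop : Continuous fun p : ℝ × ℝ => cos (p.1 * p.2)).aestronglyMeasurable
      (Eventually.of_forall fun p => by simpa using abs_cos_le_one (p.1 * p.2))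
    refine h2.congr (Eventually.of_forall fun p => ?_)
    show exp (-κ * p.1 ^ 2) * qq p.2 * cos (p.1 * p.2) = qq p.2 * (exp (-κ * p.1 ^ 2) * cos (p.1 * p.2))
    ring
  have h2 : ∫ u : ℝ, (Zc * ph u) ^ 2 * exp (-κ * u ^ 2) = ∫ s, qq s * (√(π / κ) * exp (-s ^ 2 / (4 * κ))) := by
    simp_rw [h1]
    rw [integral_integral_swap hint]
    refine integral_congr_ae (Eventually.of_forall fun s => ?_)
    show ∫ u, qq s * (exp (-κ * u ^ 2) * cos (u * s)) = _
    rw [integral_const_mul, gauss_cos hκ]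
  have h3 : ∫ u : ℝ, (Zc * ph u) ^ 2 * exp (-κ * u ^ 2) = Zc ^ 2 * ∫ u : ℝ, ph u ^ 2 * exp (-κ * u ^ 2) := by
    rw [← integral_const_mul]
    refine integral_congr_ae (Eventually.of_forall fun u => ?_)
    show (Zc * ph u) ^ 2 * exp (-κ * u ^ 2) = Zc ^ 2 * (ph u ^ 2 * exp (-κ * u ^ 2))
    ring
  have h4 : ∫ s, qq s * (√(π / κ) * exp (-s ^ 2 / (4 * κ))) = √(π / κ) * ∫ s, qq s * exp (-s ^ 2 / (4 * κ)) := by
    rw [← integral_const_mul]
    refine integral_congr_ae (Eventually.of_forall fun u => ?_)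
    show _ = √(π / κ) * (_ * _)
    ring
  rw [← h4, ← h2, h3, inv_mul_cancel_left₀ (by have := Zc_pos; positivity)]

/-- the heat bound, raw form -/
theorem heat_raw {κ : ℝ} (hκ : 0 < κ) :
    ∫ u : ℝ, ph u ^ 2 * exp (-κ * u ^ 2) ≤
      G0 * (1 / √(1 + κ) - (2 * exp (-1) / (√π * I1)) * √κ / (1 + κ) - exp (-1) / I1 * κ / ((1 + κ) * √(1 + κ)) +
        36 / 100 / I1 * κ ^ 3) := by
  rw [heat_formula hκ]
  obtain ⟨b, hb⟩ : ∃ b : ℝ, b = (1 + κ) / (4 * κ) := ⟨_, rfl⟩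
  have hb0 : 0 < b := by rw [hb]; positivity
  have hI := I1_num
  have hI0 : 0 < I1 := by linarith [hI.1]
  have hZ := Zc_pos
  have e0 : ∀ s : ℝ, exp (-s ^ 2 / 4) * exp (-s ^ 2 / (4 * κ)) = exp (-b * s ^ 2) := by
    intro s; rw [← Real.exp_add, hb]; congr 1; field_simp; ring
  have i0 : Integrable (fun x : ℝ => exp (-b * x ^ 2)) := integrable_exp_neg_mul_sq hb0
  have i2 := gm_int 2 hb0
  have i6 := gm_int 6 hb0
  have i1 : Integrable (fun x : ℝ => |x| * exp (-b * x ^ 2)) := by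
    have := (gm_int 1 hb0).norm
    refine this.congr (Eventually.of_forall fun x => ?_)
    show ‖x ^ 1 * exp (-b * x ^ 2)‖ = _
    rw [norm_mul, Real.norm_eq_abs, Real.norm_eq_abs, pow_one, abs_of_pos (exp_pos _)]
  have key : ∫ s, qq s * exp (-s ^ 2 / (4 * κ)) ≤
      I1 * √(π / b) - exp (-1) * (1 / b) - exp (-1) / 2 * (1 / (2 * b) * √(π / b)) +
        3 / 1000 * (15 / (2 * b) ^ 3 * √(π / b)) := by
    have hle : ∫ s, qq s * exp (-s ^ 2 / (4 * κ)) ≤ ∫ s : ℝ, (I1 * exp (-b * s ^ 2) -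
        exp (-1) * (|s| * exp (-b * s ^ 2)) - exp (-1) / 2 * (s ^ 2 * exp (-b * s ^ 2)) +
        3 / 1000 * (s ^ 6 * exp (-b * s ^ 2))) := by
      refine integral_mono_of_nonneg (Eventually.of_forall fun s => mul_nonneg (qq_nonneg s) (exp_pos _).le)
        (((((i0.const_mul _).sub (i1.const_mul _)).sub (i2.const_mul _))).add (i6.const_mul _))
        (Eventually.of_forall fun s => ?_)
      have h := mul_le_mul_of_nonneg_right (qq_bound s) (exp_pos (-s ^ 2 / (4 * κ))).le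
      refine h.trans (le_of_eq ?_)
      rw [mul_right_comm, e0]; ring
    refine hle.trans (le_of_eq ?_)
    have m0 := integral_gaussian b
    have m1 := gm_abs hb0
    have a1 : Integrable (fun s : ℝ => I1 * exp (-b * s ^ 2) - exp (-1) * (|s| * exp (-b * s ^ 2))) :=
      (i0.const_mul _).sub (i1.const_mul _)
    have a2 : Integrable (fun s : ℝ => I1 * exp (-b * s ^ 2) - exp (-1) * (|s| * exp (-b * s ^ 2)) -
        exp (-1) / 2 * (s ^ 2 * exp (-b * s ^ 2))) := a1.sub (i2.const_mul _)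
    rw [integral_add a2 (i6.const_mul _), integral_sub a1 (i2.const_mul _),
      integral_sub (i0.const_mul _) (i1.const_mul _), integral_const_mul, integral_const_mul,
      integral_const_mul, integral_const_mul]
    have m2' : ∫ x : ℝ, x ^ 2 * exp (-b * x ^ 2) = 1 / (2 * b) * √(π / b) := by
      have m2 := gm_even 1 hb0
      have e : ((2 * 1 - 1 : ℕ)‼ : ℝ) = 1 := by norm_num [Nat.doubleFactorial]
      rw [e, pow_one, mul_one] at m2
      exact m2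
    have m6' : ∫ x : ℝ, x ^ 6 * exp (-b * x ^ 2) = 15 / (2 * b) ^ 3 * √(π / b) := by
      have m6 := gm_even 3 hb0
      have e : ((2 * 3 - 1 : ℕ)‼ : ℝ) = 15 := by norm_num [Nat.doubleFactorial]
      rw [e] at m6
      exact m6
    rw [m0, m1, m2', m6']
  have hs1 : √(π / b) = 2 * √π * √κ / √(1 + κ) := by
    rw [hb, show π / ((1 + κ) / (4 * κ)) = (4 * (π * κ)) / (1 + κ) by field_simp,
      Real.sqrt_div (by positivity), Real.sqrt_mul (by norm_num), Real.sqrt_mul (by positivity),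
      show √(4 : ℝ) = 2 by rw [show (4 : ℝ) = 2 ^ 2 by norm_num]; exact Real.sqrt_sq (by norm_num)]
    ring
  have hs2 : √(π / κ) = √π / √κ := Real.sqrt_div (by positivity) _
  obtain ⟨k, hk⟩ : ∃ k, k = √κ := ⟨_, rfl⟩
  have hk0 : 0 < k := by rw [hk]; exact Real.sqrt_pos.2 hκ
  have hkk : κ = k ^ 2 := by rw [hk, Real.sq_sqrt hκ.le]
  obtain ⟨q, hq⟩ : ∃ q, q = √(1 + κ) := ⟨_, rfl⟩
  have hq0 : 0 < q := by rw [hq]; exact Real.sqrt_pos.2 (by positivity)
  have hqq : 1 + κ = q ^ 2 := by rw [hq, Real.sq_sqrt (by positivity)]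
  have hq1 : 1 ≤ q ^ 7 := one_le_pow₀ (by nlinarith [sq_nonneg (q - 1)])
  obtain ⟨p, hp⟩ : ∃ p, p = √π := ⟨_, rfl⟩
  have hp0 : 0 < p := by rw [hp]; exact Real.sqrt_pos.2 Real.pi_pos
  have hpp : π = p ^ 2 := by rw [hp, Real.sq_sqrt Real.pi_pos.le]
  have hb' : b = q ^ 2 / (4 * k ^ 2) := by rw [hb, hqq, hkk]
  rw [hs1, ← hk, ← hp, ← hq, hb'] at key
  rw [hs2, ← hk, ← hp, ← hq, hqq]
  unfold G0
  rw [hpp]
  have hm := mul_le_mul_of_nonneg_left (mul_le_mul_of_nonneg_left key (by positivity : 0 ≤ p / k))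
    (by positivity : 0 ≤ (Zc ^ 2)⁻¹)
  refine hm.trans ?_
  have hx : 36 / 100 / I1 * κ ^ 3 ≥ 36 / 100 / I1 * (k ^ 6 / q ^ 7) := by
    refine mul_le_mul_of_nonneg_left ?_ (by positivity)
    rw [hkk, div_le_iff₀ (by positivity)]
    nlinarith [pow_pos hk0 6]
  have hfin : (Zc ^ 2)⁻¹ * (p / k * (I1 * (2 * p * k / q) - exp (-1) * (1 / (q ^ 2 / (4 * k ^ 2))) -
      exp (-1) / 2 * (1 / (2 * (q ^ 2 / (4 * k ^ 2))) * (2 * p * k / q)) +
      3 / 1000 * (15 / (2 * (q ^ 2 / (4 * k ^ 2))) ^ 3 * (2 * p * k / q)))) =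
      2 * p ^ 2 * I1 / Zc ^ 2 * (1 / q - 2 * exp (-1) / (p * I1) * k / q ^ 2 - exp (-1) / I1 * k ^ 2 / (q ^ 2 * q) +
        36 / 100 / I1 * (k ^ 6 / q ^ 7)) := by
    field_simp
    ring
  rw [hfin]
  refine mul_le_mul_of_nonneg_left ?_ (by positivity)
  rw [hkk] at hx
  rw [hkk]
  linarith

end

end Agent238.GS
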