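import Pool.Agent.Helper238.GS.N3

/-!
# Near the diagonal, I: bounds beyond 2.92
-/

open MeasureTheory Real Set Filter Pool.Agent.Helper238
open scoped ENNReal Topology Nat

namespace Agent238.GS

noncomputable section

def tB17 (W : TM) : TM := TM.sub (TM.cst 17 100) (tPh W)
theorem tB17_snd : Snd tB17 (fun w => ((17 : ℤ) : ℝ) / ((100 : ℕ) : ℝ) - ph (8 * w)) (4 / 5) :=
  (Snd.cst 17 100 (by norm_num) _).sub tPh_snd
def tB15 (W : TM) : TM := TM.sub (TM.cst 15 100) (tPh W)
theorem tB15_snd : Snd tB15 (fun w => ((15 : ℤ) : ℝ) / ((100 : ℕ) : ℝ) - ph (8 * w)) (4 / 5) :=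
  (Snd.cst 15 100 (by norm_num) _).sub tPh_snd

theorem tB17_scan : scan tB17 4 1 6741823790338998377 = true := by decide +kernel
theorem tB15_scan : scan tB15 4 1 6917529027641081856 = true := by decide +kernel

theorem ph_b17 : ph (29238 / 10000) < 17 / 100 := by
  have := scan_sound tB17_snd 4 1 _ tB17_scan (29238 / 80000) (by norm_num) (by norm_num)
    (by norm_num) (by norm_num) (by norm_num)
  have e : (8 : ℝ) * (29238 / 80000) = 29238 / 10000 := by norm_num
  rw [e] at this
  push_cast at this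
  linarith

theorem ph_b15 : ph 3 < 15 / 100 := by
  have := scan_sound tB15_snd 4 1 _ tB15_scan (3 / 8) (by norm_num) (by norm_num)
    (by norm_num) (by norm_num) (by norm_num)
  have e : (8 : ℝ) * (3 / 8) = 3 := by norm_num
  rw [e] at this
  push_cast at this
  linarith

theorem ph_abs_17' {u : ℝ} (h0 : 29238 / 10000 ≤ u) : |ph u| ≤ 17 / 100 := by
  have h2 := tau_ub
  rcases le_total u tau with h | h
  · rw [abs_of_nonneg (ph_nonneg (by linarith) h)]
    have := ph_anti.antitoneOn ⟨by norm_num, by norm_num⟩ ⟨by linarith, by linarith⟩ h0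
    linarith [ph_b17]
  · have := ph_abs_15 h; linarith

theorem ph_abs_15' {u : ℝ} (h0 : 3 ≤ u) : |ph u| ≤ 15 / 100 := by
  have h2 := tau_ub
  rcases le_total u tau with h | h
  · rw [abs_of_nonneg (ph_nonneg (by linarith) h)]
    have := ph_anti.antitoneOn ⟨by norm_num, by norm_num⟩ ⟨by linarith, by linarith⟩ h0
    linarith [ph_b15]
  · exact ph_abs_15 h

theorem P1_bd {u : ℝ} (h0 : 29238 / 10000 ≤ u) : |P1 u| ≤ 585 / 1000 / u ^ 2 := by
  have hu : 0 < u := by linarith
  have h1 := pd_le u hu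
  have h2 := ph_abs_17' h0
  have h3 : |pd u| ≤ 117 / 100 / u := by
    refine h1.trans (div_le_div_of_nonneg_right (by linarith) hu.le)
  have h4 : P1 u = pd u / (2 * u) := by rw [P1_eq u hu]; field_simp
  rw [h4, abs_div, abs_of_pos (by positivity : 0 < 2 * u), div_le_div_iff₀ (by positivity) (by positivity)]
  rw [le_div_iff₀ hu] at h3
  nlinarith [mul_le_mul_of_nonneg_right h3 hu.le]

theorem P2_eq {u : ℝ} (hu : 0 < u) : P2 u = -(pc u + pd u / u) / (4 * u ^ 2) := by
  have h1 := u_pd u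
  have h2 : Kc * sin u = pd u + u * ph u := by unfold pd; ring
  have h3 : Kc * cos u = u * pd u + ph u - pc u := by linarith
  have h4 : P2 u = (Kc * cos u - Kc * sin u / u) / (4 * u ^ 2) - P1 u / 2 := by
    unfold P2 S1f; field_simp; ring
  have h5 : P1 u = pd u / (2 * u) := by rw [P1_eq u hu]; field_simp
  rw [h4, h5, h2, h3]
  field_simp
  ring

theorem P2_bd {u : ℝ} (h0 : 29238 / 10000 ≤ u) : |P2 u| ≤ 1071 / 10000 / u ^ 2 := by
  have hu : 0 < u := by linarith
  have hK := Kc_num
  have h1 := pd_le u hu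
  have h2 := ph_abs_17' h0
  have h3 : |pd u| ≤ 117 / 100 / u := by
    refine h1.trans (div_le_div_of_nonneg_right (by linarith) hu.le)
  have h4 := pc_abs u
  rw [mo_one] at h4
  have h5 : |pd u / u| ≤ 1369 / 10000 := by
    rw [abs_div, abs_of_pos hu, div_le_iff₀ hu]
    refine h3.trans ?_
    rw [div_le_iff₀ hu]
    nlinarith
  have h6 : |pc u + pd u / u| ≤ 4284 / 10000 := (abs_add_le _ _).trans (by linarith)
  rw [P2_eq hu, abs_div, abs_neg, abs_of_pos (by positivity : 0 < 4 * u ^ 2), div_le_div_iff₀ (by positivity) (by positivity)]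
  nlinarith [mul_le_mul_of_nonneg_right h6 (by positivity : 0 ≤ u ^ 2)]

end

end Agent238.GS
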