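import Pool.Agent.Helper238.GS.K1

/-!
# Near the diagonal, II: the pointwise comparison of a pair with its mean
-/

open MeasureTheory Real Set Filter Pool.Agent.Helper238
open scoped ENNReal Topology Nat

namespace Agent238.GS

noncomputable section

/-- second difference of a product -/
theorem second_diff {y M h A B C : ℝ} (hy : 0 < y) (hh : 0 < h) (hM : h < M)
    (hA : ∀ z, (M - h) * y ≤ z → z ≤ (M + h) * y → |P2 (√z)| ≤ A)
    (hB : ∀ z, (M - h) * y ≤ z → z ≤ (M + h) * y → |Ph z| ≤ B)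
    (hC : ∀ z, (M - h) * y ≤ z → z ≤ (M + h) * y → |P1 (√z)| ≤ C) :
    |Ph ((M + h) * y) * Ph ((M - h) * y) - Ph (M * y) * Ph (M * y)| ≤ y ^ 2 * (A * B + C ^ 2) * h ^ 2 := by
  have hB0 : 0 ≤ B := (abs_nonneg _).trans (hB (M * y) (by nlinarith) (by nlinarith))
  have hA0 : 0 ≤ A := (abs_nonneg _).trans (hA (M * y) (by nlinarith) (by nlinarith))
  have hC0 : 0 ≤ C := (abs_nonneg _).trans (hC (M * y) (by nlinarith) (by nlinarith))
  have rp : ∀ s, 0 ≤ s → s ≤ h → (M - h) * y ≤ (M + s) * y ∧ (M + s) * y ≤ (M + h) * y ∧ 0 < (M + s) * y := fun s h0 h1 =>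
    ⟨mul_le_mul_of_nonneg_right (by linarith) hy.le, mul_le_mul_of_nonneg_right (by linarith) hy.le, mul_pos (by linarith) hy⟩
  have rm : ∀ s, 0 ≤ s → s ≤ h → (M - h) * y ≤ (M - s) * y ∧ (M - s) * y ≤ (M + h) * y ∧ 0 < (M - s) * y := fun s h0 h1 =>
    ⟨mul_le_mul_of_nonneg_right (by linarith) hy.le, mul_le_mul_of_nonneg_right (by linarith) hy.le, mul_pos (by linarith) hy⟩
  have dp : ∀ s, HasDerivAt (fun s : ℝ => (M + s) * y) y s := fun s => by
    have := ((hasDerivAt_id s).const_add M).mul_const y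
    simpa using this
  have dm : ∀ s, HasDerivAt (fun s : ℝ => (M - s) * y) (-y) s := fun s => by
    have := ((hasDerivAt_id s).const_sub M).mul_const y
    simpa using this
  have d1 : ∀ s, 0 ≤ s → s ≤ h → HasDerivAt (fun s : ℝ => Ph ((M + s) * y)) (P1 (√((M + s) * y)) * y) s := fun s h0 h1 =>
    HasDerivAt.comp (h₂ := Ph) (h := fun s : ℝ => (M + s) * y) s (Ph_deriv (rp s h0 h1).2.2) (dp s)
  have d2 : ∀ s, 0 ≤ s → s ≤ h → HasDerivAt (fun s : ℝ => Ph ((M - s) * y)) (P1 (√((M - s) * y)) * -y) s := fun s h0 h1 =>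
    HasDerivAt.comp (h₂ := Ph) (h := fun s : ℝ => (M - s) * y) s (Ph_deriv (rm s h0 h1).2.2) (dm s)
  have d3 : ∀ s, 0 ≤ s → s ≤ h → HasDerivAt (fun s : ℝ => P1 (√((M + s) * y))) (P2 (√((M + s) * y)) * y) s := fun s h0 h1 =>
    HasDerivAt.comp (h₂ := fun y => P1 (√y)) (h := fun s : ℝ => (M + s) * y) s (P1_deriv (rp s h0 h1).2.2) (dp s)
  have d4 : ∀ s, 0 ≤ s → s ≤ h → HasDerivAt (fun s : ℝ => P1 (√((M - s) * y))) (P2 (√((M - s) * y)) * -y) s := fun s h0 h1 =>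
    HasDerivAt.comp (h₂ := fun y => P1 (√y)) (h := fun s : ℝ => (M - s) * y) s (P1_deriv (rm s h0 h1).2.2) (dm s)
  obtain ⟨k, hk⟩ : ∃ k : ℝ → ℝ, k = fun s => P1 (√((M + s) * y)) * Ph ((M - s) * y) - Ph ((M + s) * y) * P1 (√((M - s) * y)) := ⟨_, rfl⟩
  obtain ⟨k', hk'⟩ : ∃ k' : ℝ → ℝ, k' = fun s => (P2 (√((M + s) * y)) * y * Ph ((M - s) * y) +
      P1 (√((M + s) * y)) * (P1 (√((M - s) * y)) * -y)) - (P1 (√((M + s) * y)) * y * P1 (√((M - s) * y)) +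
      Ph ((M + s) * y) * (P2 (√((M - s) * y)) * -y)) := ⟨_, rfl⟩
  have dk : ∀ s, 0 ≤ s → s ≤ h → HasDerivAt k (k' s) s := fun s h0 h1 => by
    rw [hk, hk']
    exact ((d3 s h0 h1).mul (d2 s h0 h1)).sub ((d1 s h0 h1).mul (d4 s h0 h1))
  have bk' : ∀ s, 0 ≤ s → s ≤ h → |k' s| ≤ 2 * y * (A * B + C ^ 2) := fun s h0 h1 => by
    have a1 := hA _ (rp s h0 h1).1 (rp s h0 h1).2.1
    have a2 := hA _ (rm s h0 h1).1 (rm s h0 h1).2.1
    have b1 := hB _ (rp s h0 h1).1 (rp s h0 h1).2.1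
    have b2 := hB _ (rm s h0 h1).1 (rm s h0 h1).2.1
    have c1 := hC _ (rp s h0 h1).1 (rp s h0 h1).2.1
    have c2 := hC _ (rm s h0 h1).1 (rm s h0 h1).2.1
    have e1 : |P2 (√((M + s) * y)) * Ph ((M - s) * y)| ≤ A * B := by
      rw [abs_mul]; exact mul_le_mul a1 b2 (abs_nonneg _) hA0
    have e2 : |Ph ((M + s) * y) * P2 (√((M - s) * y))| ≤ B * A := by
      rw [abs_mul]; exact mul_le_mul b1 a2 (abs_nonneg _) hB0
    have e3 : |P1 (√((M + s) * y)) * P1 (√((M - s) * y))| ≤ C * C := by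
      rw [abs_mul]; exact mul_le_mul c1 c2 (abs_nonneg _) hC0
    rw [hk']
    show |(P2 (√((M + s) * y)) * y * Ph ((M - s) * y) +
      P1 (√((M + s) * y)) * (P1 (√((M - s) * y)) * -y)) - (P1 (√((M + s) * y)) * y * P1 (√((M - s) * y)) +
      Ph ((M + s) * y) * (P2 (√((M - s) * y)) * -y))| ≤ _
    have e4 : (P2 (√((M + s) * y)) * y * Ph ((M - s) * y) +
      P1 (√((M + s) * y)) * (P1 (√((M - s) * y)) * -y)) - (P1 (√((M + s) * y)) * y * P1 (√((M - s) * y)) +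
      Ph ((M + s) * y) * (P2 (√((M - s) * y)) * -y)) = y * (P2 (√((M + s) * y)) * Ph ((M - s) * y) +
      Ph ((M + s) * y) * P2 (√((M - s) * y)) - 2 * (P1 (√((M + s) * y)) * P1 (√((M - s) * y)))) := by ring
    rw [e4, abs_mul, abs_of_pos hy]
    rw [abs_le] at e1 e2 e3
    have e5 : |P2 (√((M + s) * y)) * Ph ((M - s) * y) +
      Ph ((M + s) * y) * P2 (√((M - s) * y)) - 2 * (P1 (√((M + s) * y)) * P1 (√((M - s) * y)))| ≤ 2 * (A * B + C ^ 2) := by
      rw [abs_le]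
      constructor <;> nlinarith only [e1.1, e1.2, e2.1, e2.2, e3.1, e3.2]
    calc y * _ ≤ y * (2 * (A * B + C ^ 2)) := mul_le_mul_of_nonneg_left e5 hy.le
      _ = 2 * y * (A * B + C ^ 2) := by ring
  have k0 : k 0 = 0 := by rw [hk]; simp only [add_zero, sub_zero]; ring
  have bk : ∀ s, 0 ≤ s → s ≤ h → |k s| ≤ 2 * y * (A * B + C ^ 2) * s := fun s h0 h1 => by
    have h2 := image_norm_le_of_norm_deriv_right_le_deriv_boundary (f := k) (f' := k') (a := 0) (b := h)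
      (B := fun s => 2 * y * (A * B + C ^ 2) * s) (B' := fun _ => 2 * y * (A * B + C ^ 2))
      (fun s hs => (dk s hs.1 hs.2).continuousAt.continuousWithinAt)
      (fun s hs => (dk s hs.1 hs.2.le).hasDerivWithinAt)
      (by rw [k0]; simp)
      (fun s => by simpa using (hasDerivAt_id s).const_mul (2 * y * (A * B + C ^ 2)))
      (fun s hs => bk' s hs.1 hs.2.le)
    exact h2 ⟨h0, h1⟩
  have h3 := image_norm_le_of_norm_deriv_right_le_deriv_boundary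
    (f := fun s : ℝ => Ph ((M + s) * y) * Ph ((M - s) * y) - Ph (M * y) * Ph (M * y))
    (f' := fun s => y * k s) (a := 0) (b := h)
    (B := fun s => y ^ 2 * (A * B + C ^ 2) * s ^ 2) (B' := fun s => y ^ 2 * (A * B + C ^ 2) * (2 * s))
    (fun s hs => (((d1 s hs.1 hs.2).mul (d2 s hs.1 hs.2)).sub_const _).continuousAt.continuousWithinAt)
    (fun s hs => by
      refine ((((d1 s hs.1 hs.2.le).mul (d2 s hs.1 hs.2.le)).sub_const _).congr_deriv ?_).hasDerivWithinAt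
      rw [hk]; ring)
    (by simp)
    (fun s => by
      refine ((hasDerivAt_pow 2 s).const_mul (y ^ 2 * (A * B + C ^ 2))).congr_deriv ?_
      norm_num)
    (fun s hs => by
      rw [Real.norm_eq_abs, abs_mul, abs_of_pos hy]
      have := mul_le_mul_of_nonneg_left (bk s hs.1 hs.2.le) hy.le
      refine this.trans (le_of_eq ?_)
      ring)
  exact h3 ⟨hh.le, le_rfl⟩

/-- pointwise bound beyond the first zero -/
theorem pair_tail {t r B : ℝ} (ht : tau ≤ |t|) (hr : 7 / 10 ≤ r) (hr1 : r < 1)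
    (hB : ∀ v, 83666 / 100000 * |t| ≤ v → v ≤ |t| → |ph v| ≤ B) :
    |ph (√1 * t) * ph (√r * t) - ph (√((1 + r) / 2) * t) * ph (√((1 + r) / 2) * t)| ≤
      ((1 - r) / 2) ^ 2 * (153 / 1000 * B * t ^ 2 + 6986 / 10000) := by
  have htl := tau_lb
  have ht0 : 0 < |t| := by linarith
  have hy : 0 < t ^ 2 := by rw [← sq_abs]; positivity
  have conv : ∀ c : ℝ, 0 ≤ c → ph (√c * t) = Ph (c * t ^ 2) := by
    intro c hc
    rw [← Ph_sq, mul_pow, Real.sq_sqrt hc]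
  have hB0 : 0 ≤ B := (abs_nonneg _).trans (hB |t| (by linarith) le_rfl)
  have hlow : 7 / 10 * t ^ 2 ≤ r * t ^ 2 := mul_le_mul_of_nonneg_right hr hy.le
  have ht2 : (34947 / 10000) ^ 2 ≤ t ^ 2 := by
    rw [← sq_abs t]; exact pow_le_pow_left₀ (by norm_num) (by linarith) 2
  -- facts about z in the window
  have hw : ∀ z, ((1 + r) / 2 - (1 - r) / 2) * t ^ 2 ≤ z → z ≤ ((1 + r) / 2 + (1 - r) / 2) * t ^ 2 →
      7 / 10 * t ^ 2 ≤ z ∧ z ≤ t ^ 2 ∧ 29238 / 10000 ≤ √z := by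
    intro z h1 h2
    have e1 : (1 + r) / 2 - (1 - r) / 2 = r := by ring
    have e2 : (1 + r) / 2 + (1 - r) / 2 = 1 := by ring
    rw [e1] at h1
    rw [e2, one_mul] at h2
    have h3 : 7 / 10 * t ^ 2 ≤ z := hlow.trans h1
    refine ⟨h3, h2, ?_⟩
    refine Real.le_sqrt_of_sq_le ?_
    norm_num at ht2 ⊢
    linarith
  have h := second_diff (y := t ^ 2) (M := (1 + r) / 2) (h := (1 - r) / 2) (A := 153 / 1000 / t ^ 2) (B := B)
    (C := 8358 / 10000 / t ^ 2) hy (by linarith) (by linarith)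
    (fun z h1 h2 => by
      obtain ⟨h3, h4, h5⟩ := hw z h1 h2
      have hz : 0 < z := by nlinarith
      have h6 := P2_bd h5
      rw [Real.sq_sqrt hz.le] at h6
      refine h6.trans ?_
      rw [div_le_div_iff₀ hz hy]
      nlinarith)
    (fun z h1 h2 => by
      obtain ⟨h3, h4, h5⟩ := hw z h1 h2
      have hz : 0 < z := by nlinarith
      unfold Ph
      refine hB _ ?_ ?_
      · refine Real.le_sqrt_of_sq_le ?_
        rw [mul_pow, sq_abs]
        nlinarith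
      · rw [Real.sqrt_le_left ht0.le, sq_abs]
        exact h4)
    (fun z h1 h2 => by
      obtain ⟨h3, h4, h5⟩ := hw z h1 h2
      have hz : 0 < z := by nlinarith
      have h6 := P1_bd h5
      rw [Real.sq_sqrt hz.le] at h6
      refine h6.trans ?_
      rw [div_le_div_iff₀ hz hy]
      nlinarith)
  have e1 : (1 + r) / 2 - (1 - r) / 2 = r := by ring
  have e2 : (1 + r) / 2 + (1 - r) / 2 = 1 := by ring
  rw [e1, e2] at h
  rw [conv 1 (by norm_num), conv r (by linarith), conv ((1 + r) / 2) (by linarith)]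
  refine h.trans ?_
  have e3 : (t ^ 2) ^ 2 * (153 / 1000 / t ^ 2 * B + (8358 / 10000 / t ^ 2) ^ 2) * ((1 - r) / 2) ^ 2 =
      ((1 - r) / 2) ^ 2 * (153 / 1000 * B * t ^ 2 + (8358 / 10000) ^ 2) := by
    obtain ⟨Y, hY⟩ : ∃ Y, Y = t ^ 2 := ⟨_, rfl⟩
    rw [← hY] at hy ⊢
    field_simp
  rw [e3]
  refine mul_le_mul_of_nonneg_left ?_ (sq_nonneg _)
  norm_num

/-- pointwise gain before the first zero -/
theorem pair_main {t r : ℝ} (ht : |t| < tau) (hr : 7 / 10 ≤ r) (hr1 : r < 1) :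
    ph (√1 * t) * ph (√r * t) ≤
      ph (√((1 + r) / 2) * t) * ph (√((1 + r) / 2) * t) * exp (-(74 / 10000 * ((1 - r) / 2) ^ 2 * t ^ 4)) := by
  have htl := tau_lb
  have conv : ∀ c : ℝ, 0 ≤ c → ph (√c * t) = Ph (c * t ^ 2) := by
    intro c hc
    rw [← Ph_sq, mul_pow, Real.sq_sqrt hc]
  have ht2 : t ^ 2 < tau ^ 2 := by
    rw [← sq_abs]; exact pow_lt_pow_left₀ ht (abs_nonneg _) (by norm_num)
  have hy : 0 ≤ t ^ 2 := sq_nonneg t
  have m1 : 1 * t ^ 2 ∈ Set.Ico 0 (tau ^ 2) := ⟨by linarith, by linarith⟩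
  have m2 : r * t ^ 2 ∈ Set.Ico 0 (tau ^ 2) := ⟨by positivity, by nlinarith⟩
  have m3 : (1 + r) / 2 * t ^ 2 ∈ Set.Ico 0 (tau ^ 2) := ⟨by positivity, by nlinarith⟩
  have hL := Lf_concave.2 m1 m2 (by norm_num : (0 : ℝ) ≤ 1 / 2) (by norm_num : (0 : ℝ) ≤ 1 / 2) (by norm_num)
  simp only [smul_eq_mul] at hL
  have e : 1 / 2 * (1 * t ^ 2) + 1 / 2 * (r * t ^ 2) = (1 + r) / 2 * t ^ 2 := by ring
  rw [e] at hL
  unfold Lf at hL
  have p1 := Ph_pos m1.1 m1.2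
  have p2 := Ph_pos m2.1 m2.2
  have p3 := Ph_pos m3.1 m3.2
  rw [conv 1 (by norm_num), conv r (by linarith), conv ((1 + r) / 2) (by linarith)]
  rw [← Real.log_le_log_iff (mul_pos p1 p2) (by positivity), Real.log_mul p1.ne' p2.ne',
    Real.log_mul (by positivity) (exp_pos _).ne', Real.log_mul p3.ne' p3.ne', Real.log_exp]
  have h3 : ((1 + r) / 2 * t ^ 2) ^ 3 ≤ 1 / 2 * (1 * t ^ 2) ^ 3 + 1 / 2 * (r * t ^ 2) ^ 3 := by
    have h6 : 0 ≤ t ^ 6 := by positivity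
    have h7 : 0 ≤ 3 / 8 * (1 + r) * (1 - r) ^ 2 * t ^ 6 := by positivity
    nlinarith only [h7]
  have h2 : 1 / 2 * (1 * t ^ 2) ^ 2 + 1 / 2 * (r * t ^ 2) ^ 2 - ((1 + r) / 2 * t ^ 2) ^ 2 = ((1 - r) / 2) ^ 2 * t ^ 4 := by ring
  nlinarith only [hL, h3, h2]

end

end Agent238.GS
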