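import Pool.Agent.Helper238.GS.K2

/-!
# Near the diagonal, III: averaging a pair increases the integral
-/

open MeasureTheory Real Set Filter Pool.Agent.Helper238
open scoped ENNReal Topology Nat

namespace Agent238.GS

noncomputable section

def tC17 (W : TM) : TM := TM.sub (tPh W) (TM.cst 17 100)
theorem tC17_snd : Snd tC17 (fun w => ph (8 * w) - ((17 : ℤ) : ℝ) / ((100 : ℕ) : ℝ)) (4 / 5) :=
  tPh_snd.sub (Snd.cst 17 100 (by norm_num) _)
theorem tC17_scan : scan tC17 4 1 5188146770730811392 = true := by decide +kernel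

theorem ph_g17 : 17 / 100 < ph (225 / 100) := by
  have := scan_sound tC17_snd 4 1 _ tC17_scan (225 / 800) (by norm_num) (by norm_num)
    (by norm_num) (by norm_num) (by norm_num)
  have e : (8 : ℝ) * (225 / 800) = 225 / 100 := by norm_num
  rw [e] at this
  push_cast at this
  linarith

def f1 (s : ℝ) : ℝ := (153 / 1000 * (17 / 100) * s ^ 2 + 6986 / 10000) * (17 / 100) ^ 4
def f2 (s : ℝ) : ℝ := (153 / 1000 * (15 / 100) * s ^ 2 + 6986 / 10000) * (15 / 100) ^ 4
def f3 (s : ℝ) : ℝ := (9443 / 10000) ^ 4 * (153 / 1000 * (9443 / 10000) / s ^ 3 + 6986 / 10000 / s ^ 4)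
def g3 (s : ℝ) : ℝ := -((9443 / 10000) ^ 4 * (153 / 1000 * (9443 / 10000) / (2 * s ^ 2) + 6986 / 10000 / (3 * s ^ 3)))

/-- the tail majorant -/
def Wm (s : ℝ) : ℝ := Set.indicator (Set.Ico (34947 / 10000) (36 / 10)) f1 s +
  Set.indicator (Set.Ico (36 / 10) (765 / 100)) f2 s + Set.indicator (Set.Ici (765 / 100)) f3 s

theorem f1_cont : Continuous f1 := by unfold f1; fun_prop
theorem f2_cont : Continuous f2 := by unfold f2; fun_prop

theorem g3_deriv {s : ℝ} (hs : 0 < s) : HasDerivAt g3 (f3 s) s := by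
  have h1 : HasDerivAt (fun s : ℝ => (2 * s ^ 2)⁻¹) (-(2 * (2 * s)) / (2 * s ^ 2) ^ 2) s := by
    have := ((hasDerivAt_pow 2 s).const_mul 2).inv (by positivity : (2 : ℝ) * s ^ 2 ≠ 0)
    refine this.congr_deriv ?_
    norm_num
  have h2 : HasDerivAt (fun s : ℝ => (3 * s ^ 3)⁻¹) (-(3 * (3 * s ^ 2)) / (3 * s ^ 3) ^ 2) s := by
    have := ((hasDerivAt_pow 3 s).const_mul 3).inv (by positivity : (3 : ℝ) * s ^ 3 ≠ 0)
    refine this.congr_deriv ?_
    norm_num
  have h3 := (((h1.const_mul (153 / 1000 * (9443 / 10000))).add (h2.const_mul (6986 / 10000))).const_mul ((9443 / 10000) ^ 4)).neg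
  have h4 : g3 = fun s : ℝ => -((9443 / 10000) ^ 4 * (153 / 1000 * (9443 / 10000) * (2 * s ^ 2)⁻¹ + 6986 / 10000 * (3 * s ^ 3)⁻¹)) := by
    funext s; unfold g3; simp only [div_eq_mul_inv]
  rw [h4]
  refine h3.congr_deriv ?_
  unfold f3
  field_simp
  ring

theorem g3_lim : Tendsto g3 atTop (𝓝 0) := by
  have h1 : Tendsto (fun s : ℝ => (2 * s ^ 2)⁻¹) atTop (𝓝 0) :=
    tendsto_inv_atTop_zero.comp ((tendsto_pow_atTop (by norm_num)).const_mul_atTop (by norm_num))
  have h2 : Tendsto (fun s : ℝ => (3 * s ^ 3)⁻¹) atTop (𝓝 0) :=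
    tendsto_inv_atTop_zero.comp ((tendsto_pow_atTop (by norm_num)).const_mul_atTop (by norm_num))
  have h3 := (((h1.const_mul (153 / 1000 * (9443 / 10000 : ℝ))).add (h2.const_mul (6986 / 10000 : ℝ))).const_mul ((9443 / 10000 : ℝ) ^ 4)).neg
  have h4 : g3 = fun s : ℝ => -((9443 / 10000) ^ 4 * (153 / 1000 * (9443 / 10000) * (2 * s ^ 2)⁻¹ + 6986 / 10000 * (3 * s ^ 3)⁻¹)) := by
    funext s; unfold g3; simp only [div_eq_mul_inv]
  rw [h4]
  simpa using h3

theorem f3_nonneg {s : ℝ} (hs : 0 < s) : 0 ≤ f3 s := by unfold f3; positivity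

theorem Ico_piece {f : ℝ → ℝ} (hf : Continuous f) {a b : ℝ} (ha : 0 < a) (hab : a ≤ b) :
    IntegrableOn (Set.indicator (Set.Ico a b) f) (Set.Ioi 0) ∧
      ∫ s in Set.Ioi (0 : ℝ), Set.indicator (Set.Ico a b) f s = ∫ s in a..b, f s := by
  have h1 : IntegrableOn f (Set.Ico a b) := (hf.integrableOn_Icc (a := a) (b := b)).mono_set Set.Ico_subset_Icc_self
  constructor
  · exact ((integrable_indicator_iff measurableSet_Ico).2 h1).integrableOn
  · rw [setIntegral_indicator measurableSet_Ico, intervalIntegral.integral_of_le hab]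
    have h2 : Set.Ioi (0 : ℝ) ∩ Set.Ico a b = Set.Ico a b :=
      Set.inter_eq_right.2 fun y hy => lt_of_lt_of_le ha hy.1
    rw [h2, integral_Ico_eq_integral_Ioo, integral_Ioc_eq_integral_Ioo]

theorem f3_piece : IntegrableOn (Set.indicator (Set.Ici (765 / 100)) f3) (Set.Ioi 0) ∧
      ∫ s in Set.Ioi (0 : ℝ), Set.indicator (Set.Ici (765 / 100)) f3 s = 0 - g3 (765 / 100) := by
  have hd : ∀ x ∈ Set.Ici (765 / 100 : ℝ), HasDerivAt g3 (f3 x) x := fun x hx => g3_deriv (by
    have : (765 / 100 : ℝ) ≤ x := hx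
    linarith)
  have hp : ∀ x ∈ Set.Ioi (765 / 100 : ℝ), 0 ≤ f3 x := fun x hx => f3_nonneg (by
    have : (765 / 100 : ℝ) < x := hx
    linarith)
  have h1 := integrableOn_Ioi_deriv_of_nonneg' hd hp g3_lim
  have h2 := integral_Ioi_of_hasDerivAt_of_nonneg' hd hp g3_lim
  have h3 : IntegrableOn f3 (Set.Ici (765 / 100)) := (integrableOn_Ici_iff_integrableOn_Ioi).2 h1
  constructor
  · exact ((integrable_indicator_iff measurableSet_Ici).2 h3).integrableOn
  · rw [setIntegral_indicator measurableSet_Ici]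
    have h2' : Set.Ioi (0 : ℝ) ∩ Set.Ici (765 / 100) = Set.Ici (765 / 100) :=
      Set.inter_eq_right.2 fun y hy => lt_of_lt_of_le (by norm_num : (0 : ℝ) < 765 / 100) hy
    rw [h2', integral_Ici_eq_integral_Ioi, h2]

theorem Wm_int : IntegrableOn Wm (Set.Ioi 0) :=
  ((Ico_piece f1_cont (by norm_num) (by norm_num)).1.add (Ico_piece f2_cont (by norm_num) (by norm_num)).1).add f3_piece.1

theorem Wm_le : ∫ s in Set.Ioi (0 : ℝ), Wm s ≤ 4472 / 1000000 := by
  have a1 := Ico_piece f1_cont (a := 34947 / 10000) (b := 36 / 10) (by norm_num) (by norm_num)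
  have a2 := Ico_piece f2_cont (a := 36 / 10) (b := 765 / 100) (by norm_num) (by norm_num)
  have i12 : IntegrableOn (fun s => Set.indicator (Set.Ico (34947 / 10000) (36 / 10)) f1 s +
    Set.indicator (Set.Ico (36 / 10) (765 / 100)) f2 s) (Set.Ioi 0) := a1.1.add a2.1
  have e : ∫ s in Set.Ioi (0 : ℝ), Wm s = (∫ s in (34947 / 10000 : ℝ)..(36 / 10), f1 s) + (∫ s in (36 / 10 : ℝ)..(765 / 100), f2 s) +
      (0 - g3 (765 / 100)) := by
    unfold Wm
    rw [integral_add i12 f3_piece.1, integral_add a1.1 a2.1, a1.2, a2.2, f3_piece.2]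
  rw [e]
  have e1 : ∫ s in (34947 / 10000 : ℝ)..(36 / 10), f1 s =
      (153 / 1000 * (17 / 100) * (((36 / 10) ^ 3 - (34947 / 10000) ^ 3) / 3) + 6986 / 10000 * (36 / 10 - 34947 / 10000)) * (17 / 100) ^ 4 := by
    unfold f1
    rw [intervalIntegral.integral_mul_const, intervalIntegral.integral_add (Continuous.intervalIntegrable (by fun_prop) _ _)
      (by simp), intervalIntegral.integral_const_mul, integral_pow, intervalIntegral.integral_const, smul_eq_mul]
    norm_num
  have e2 : ∫ s in (36 / 10 : ℝ)..(765 / 100), f2 s =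
      (153 / 1000 * (15 / 100) * (((765 / 100) ^ 3 - (36 / 10) ^ 3) / 3) + 6986 / 10000 * (765 / 100 - 36 / 10)) * (15 / 100) ^ 4 := by
    unfold f2
    rw [intervalIntegral.integral_mul_const, intervalIntegral.integral_add (Continuous.intervalIntegrable (by fun_prop) _ _)
      (by simp), intervalIntegral.integral_const_mul, integral_pow, intervalIntegral.integral_const, smul_eq_mul]
    norm_num
  rw [e1, e2]
  unfold g3
  norm_num

end

end Agent238.GS
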