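import Pool.Agent.Helper238.GS.K3

/-!
# Near the diagonal, IV: the averaging inequality
-/

open MeasureTheory Real Set Filter Pool.Agent.Helper238
open scoped ENNReal Topology Nat

namespace Agent238.GS

noncomputable section

theorem prod_abs_le {ι : Type*} (S : Finset ι) (z : ι → ℝ) {t B : ℝ} (h : ∀ k ∈ S, |ph (√(z k) * t)| ≤ B) :
    |∏ k ∈ S, ph (√(z k) * t)| ≤ B ^ S.card := by
  rw [Finset.abs_prod]
  refine (Finset.prod_le_prod (fun k _ => abs_nonneg _) h).trans (le_of_eq ?_)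
  rw [Finset.prod_const]

theorem prod_ge {ι : Type*} (S : Finset ι) (z : ι → ℝ) {t b : ℝ} (hb : 0 ≤ b) (h : ∀ k ∈ S, b ≤ ph (√(z k) * t)) :
    b ^ S.card ≤ ∏ k ∈ S, ph (√(z k) * t) := by
  rw [← Finset.prod_const]
  exact Finset.prod_le_prod (fun k _ => hb) h

/-- the tail estimate -/
theorem pair_far {n : ℕ} (hn : 6 ≤ n) (z : Fin n → ℝ) (S : Finset (Fin n)) (hS : S.card = n - 2) {r t : ℝ} (ht : tau ≤ t)
    (hr : 7 / 10 ≤ r) (hr1 : r < 1) (hz : ∀ k, r ≤ z k ∧ z k ≤ 1) :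
    |(ph (√1 * t) * ph (√r * t) - ph (√((1 + r) / 2) * t) * ph (√((1 + r) / 2) * t)) * ∏ k ∈ S, ph (√(z k) * t)| ≤
      ((1 - r) / 2) ^ 2 * (17 / 100) ^ (n - 6) * Wm t := by
  have htl := tau_lb
  have ht0 : 0 < t := by linarith
  have hta : |t| = t := abs_of_pos ht0
  have hwin : ∀ k, 83666 / 100000 * t ≤ √(z k) * t ∧ √(z k) * t ≤ t := by
    intro k
    have h1 : 83666 / 100000 ≤ √(z k) := by
      refine Real.le_sqrt_of_sq_le ?_
      have := (hz k).1
      norm_num at hr ⊢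
      linarith
    have h2 : √(z k) ≤ 1 := by
      rw [Real.sqrt_le_one]; exact (hz k).2
    exact ⟨mul_le_mul_of_nonneg_right h1 ht0.le, mul_le_of_le_one_left ht0.le h2⟩
  have key : ∀ B : ℝ, 0 ≤ B → B ≤ 17 / 100 → (∀ v, 83666 / 100000 * t ≤ v → v ≤ t → |ph v| ≤ B) →
      |(ph (√1 * t) * ph (√r * t) - ph (√((1 + r) / 2) * t) * ph (√((1 + r) / 2) * t)) * ∏ k ∈ S, ph (√(z k) * t)| ≤
      ((1 - r) / 2) ^ 2 * (17 / 100) ^ (n - 6) * ((153 / 1000 * B * t ^ 2 + 6986 / 10000) * B ^ 4) := by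
    intro B hB0 hB1 hB
    have h1 := pair_tail (t := t) (r := r) (B := B) (by rw [hta]; exact ht) hr hr1 (by rw [hta]; exact hB)
    have h2 := prod_abs_le S z (t := t) (B := B) fun k _ => hB _ (hwin k).1 (hwin k).2
    have h3 : B ^ S.card ≤ (17 / 100) ^ (n - 6) * B ^ 4 := by
      have e : S.card = (n - 6) + 4 := by rw [hS]; omega
      rw [e, pow_add]
      exact mul_le_mul_of_nonneg_right (pow_le_pow_left₀ hB0 hB1 _) (by positivity)
    rw [abs_mul]
    have h4 := mul_le_mul h1 (h2.trans h3) (abs_nonneg _) (by positivity)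
    refine h4.trans (le_of_eq ?_)
    ring
  unfold Wm
  rcases lt_or_ge t (36 / 10) with h | h
  · have m1 : t ∈ Set.Ico (34947 / 10000 : ℝ) (36 / 10) := ⟨by linarith, h⟩
    have m2 : t ∉ Set.Ico (36 / 10 : ℝ) (765 / 100) := fun hm => by linarith [hm.1]
    have m3 : t ∉ Set.Ici (765 / 100 : ℝ) := fun hm => by
      have : (765 / 100 : ℝ) ≤ t := hm
      linarith
    rw [Set.indicator_of_mem m1, Set.indicator_of_notMem m2, Set.indicator_of_notMem m3, add_zero, add_zero]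
    exact key (17 / 100) (by norm_num) le_rfl fun v hv _ => ph_abs_17' (by linarith)
  · rcases lt_or_ge t (765 / 100) with h' | h'
    · have m1 : t ∉ Set.Ico (34947 / 10000 : ℝ) (36 / 10) := fun hm => by linarith [hm.2]
      have m2 : t ∈ Set.Ico (36 / 10 : ℝ) (765 / 100) := ⟨h, h'⟩
      have m3 : t ∉ Set.Ici (765 / 100 : ℝ) := fun hm => by
        have : (765 / 100 : ℝ) ≤ t := hm
        linarith
      rw [Set.indicator_of_notMem m1, Set.indicator_of_mem m2, Set.indicator_of_notMem m3, add_zero, zero_add]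
      exact key (15 / 100) (by norm_num) (by norm_num) fun v hv _ => ph_abs_15' (by linarith)
    · have m1 : t ∉ Set.Ico (34947 / 10000 : ℝ) (36 / 10) := fun hm => by linarith [hm.2]
      have m2 : t ∉ Set.Ico (36 / 10 : ℝ) (765 / 100) := fun hm => by linarith [hm.2]
      have m3 : t ∈ Set.Ici (765 / 100 : ℝ) := h'
      rw [Set.indicator_of_notMem m1, Set.indicator_of_notMem m2, Set.indicator_of_mem m3, zero_add, zero_add]
      have h5 := key (9443 / 10000 / t) (by positivity) (by rw [div_le_iff₀ ht0]; linarith) fun v hv _ => by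
        have h6 := u_ph_far v (by linarith)
        have hv0 : 0 < v := by linarith
        rw [le_div_iff₀ ht0]
        have h7 : 83666 / 100000 * t * |ph v| ≤ v * |ph v| := mul_le_mul_of_nonneg_right hv (abs_nonneg _)
        nlinarith [abs_nonneg (ph v)]
      refine h5.trans (le_of_eq ?_)
      unfold f3
      field_simp

/-- the gain -/
theorem pair_near {n : ℕ} (hn : 6 ≤ n) (z : Fin n → ℝ) (S : Finset (Fin n)) (hS : S.card = n - 2) {r t : ℝ} (ht0 : 0 < t)
    (ht : t < tau) (hr : 7 / 10 ≤ r) (hr1 : r < 1) (hz : ∀ k, r ≤ z k ∧ z k ≤ 1) :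
    0 ≤ (ph (√((1 + r) / 2) * t) * ph (√((1 + r) / 2) * t) - ph (√1 * t) * ph (√r * t)) * ∏ k ∈ S, ph (√(z k) * t) ∧
    (t < uu6a → ((1 - r) / 2) ^ 2 * (17 / 100) ^ (n - 6) * (737 / 100000 * (t ^ 4 * ph t ^ 6)) ≤
      (ph (√((1 + r) / 2) * t) * ph (√((1 + r) / 2) * t) - ph (√1 * t) * ph (√r * t)) * ∏ k ∈ S, ph (√(z k) * t)) := by
  have htu := tau_ub
  have hmon : ∀ c : ℝ, 0 ≤ c → c ≤ 1 → ph t ≤ ph (√c * t) := by
    intro c hc0 hc1
    have h1 : √c ≤ 1 := by rw [Real.sqrt_le_one]; exact hc1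
    have h2 : √c * t ≤ t := mul_le_of_le_one_left ht0.le h1
    have h3 : 0 ≤ √c * t := by positivity
    exact ph_anti.antitoneOn ⟨h3, by linarith⟩ ⟨ht0.le, by linarith⟩ h2
  have hp : 0 < ph t := ph_pos ht0.le ht
  have hR := prod_ge S z (t := t) hp.le fun k _ => hmon _ (by linarith [(hz k).1]) (hz k).2
  have hM := hmon ((1 + r) / 2) (by linarith) (by linarith)
  obtain ⟨H, hH⟩ : ∃ H, H = (1 - r) / 2 := ⟨_, rfl⟩
  obtain ⟨Z, hZ⟩ : ∃ Z, Z = 74 / 10000 * H ^ 2 * t ^ 4 := ⟨_, rfl⟩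
  have hmain := pair_main (t := t) (r := r) (by rw [abs_of_pos ht0]; exact ht) hr hr1
  rw [← hH, ← hZ] at hmain
  have hZ0 : 0 ≤ Z := by rw [hZ]; positivity
  obtain ⟨Q, hQ⟩ : ∃ Q, Q = ph (√((1 + r) / 2) * t) * ph (√((1 + r) / 2) * t) := ⟨_, rfl⟩
  rw [← hQ] at hmain ⊢
  obtain ⟨AB, hAB⟩ : ∃ AB, AB = ph (√1 * t) * ph (√r * t) := ⟨_, rfl⟩
  rw [← hAB] at hmain ⊢
  have hQ0 : ph t ^ 2 ≤ Q := by rw [hQ]; nlinarith
  have hexp : exp (-Z) ≤ 1 / (1 + Z) := by
    rw [Real.exp_neg, ← one_div]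
    refine div_le_div_of_nonneg_left (by norm_num) (by linarith) ?_
    linarith [Real.add_one_le_exp Z]
  have hp2 : 0 < ph t ^ 2 := by positivity
  have hRn : 0 < ph t ^ S.card := by positivity
  have hQn : 0 < Q := by linarith
  have hd : Q * (Z / (1 + Z)) ≤ Q - AB := by
    have h1 := mul_le_mul_of_nonneg_left hexp hQn.le
    have h2 : Q * (1 / (1 + Z)) = Q - Q * (Z / (1 + Z)) := by field_simp; ring
    rw [h2] at h1
    linarith
  have hd0 : 0 ≤ Q * (Z / (1 + Z)) := by positivity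
  refine ⟨mul_nonneg (by linarith) (by linarith), fun hu => ?_⟩
  have hu225 : uu6a ≤ 2202 / 1000 := by
    unfold uu6a; norm_num
  have h17 : 17 / 100 ≤ ph t := by
    have := ph_anti.antitoneOn (a := t) (b := 225 / 100) ⟨ht0.le, by linarith⟩ ⟨by norm_num, by norm_num⟩ (by linarith)
    linarith [ph_g17]
  have hZ4 : Z ≤ 4 / 1000 := by
    have h1 : t ^ 4 ≤ (2202 / 1000) ^ 4 := pow_le_pow_left₀ ht0.le (by linarith) 4
    have h2 : H ^ 2 ≤ (15 / 100) ^ 2 := pow_le_pow_left₀ (by rw [hH]; linarith) (by rw [hH]; linarith) 2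
    have h3 := mul_le_mul h2 h1 (by positivity) (by positivity)
    rw [hZ]
    norm_num at h3 ⊢
    linarith
  have hd2 : 996 / 1000 * Z ≤ Z / (1 + Z) := by
    rw [le_div_iff₀ (by linarith)]
    nlinarith
  have h5 : ph t ^ 2 * (996 / 1000 * Z) ≤ Q - AB :=
    (mul_le_mul hQ0 hd2 (by positivity) hQn.le).trans hd
  have h6 : (17 / 100) ^ (n - 6) * ph t ^ 4 ≤ ph t ^ S.card := by
    have e : S.card = (n - 6) + 4 := by rw [hS]; omega
    rw [e, pow_add]
    exact mul_le_mul_of_nonneg_right (pow_le_pow_left₀ (by norm_num) h17 _) (by positivity)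
  have h7 := mul_le_mul h5 (h6.trans hR) (by positivity) (by linarith)
  refine le_trans ?_ h7
  rw [← hH, hZ]
  have h8 : 0 ≤ (17 / 100 : ℝ) ^ (n - 6) * (H ^ 2 * (t ^ 4 * ph t ^ 6)) := by positivity
  have e1 : H ^ 2 * (17 / 100) ^ (n - 6) * (737 / 100000 * (t ^ 4 * ph t ^ 6)) =
    737 / 100000 * ((17 / 100 : ℝ) ^ (n - 6) * (H ^ 2 * (t ^ 4 * ph t ^ 6))) := by ring
  have e2 : ph t ^ 2 * (996 / 1000 * (74 / 10000 * H ^ 2 * t ^ 4)) * ((17 / 100) ^ (n - 6) * ph t ^ 4) =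
    (996 / 1000 * (74 / 10000)) * ((17 / 100 : ℝ) ^ (n - 6) * (H ^ 2 * (t ^ 4 * ph t ^ 6))) := by ring
  rw [e1, e2]
  norm_num
  nlinarith only [h8]

/-- averaging the extreme pair strictly increases the integral -/
theorem pair_lt {n : ℕ} (hn : 6 ≤ n) (z z' : Fin n → ℝ) {i0 i1 : Fin n} (hne : i1 ≠ i0) {r : ℝ}
    (hr : 7 / 10 ≤ r) (hr1 : r < 1) (h0 : z i0 = 1) (h1 : z i1 = r) (hz : ∀ k, r ≤ z k ∧ z k ≤ 1)
    (h0' : z' i0 = (1 + r) / 2) (h1' : z' i1 = (1 + r) / 2) (hk' : ∀ k, k ≠ i0 → k ≠ i1 → z' k = z k) :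
    ∫ t, ∏ i, ph (√(z i) * t) < ∫ t, ∏ i, ph (√(z' i) * t) := by
  have htl := tau_lb
  obtain ⟨S, hS⟩ : ∃ S, S = (Finset.univ.erase i0).erase i1 := ⟨_, rfl⟩
  have hcard : S.card = n - 2 := by rw [hS, card_rest hne]
  have hS' : ∀ t, ∏ k ∈ S, ph (√(z' k) * t) = ∏ k ∈ S, ph (√(z k) * t) := by
    intro t
    refine Finset.prod_congr rfl fun k hk => ?_
    rw [hS] at hk
    rw [hk' k (Finset.ne_of_mem_erase (Finset.mem_of_mem_erase hk)) (Finset.ne_of_mem_erase hk)]
  have i1 := prod_int_two z hne (by rw [h0]; norm_num) (by rw [h1]; linarith)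
  have i2 := prod_int_two z' hne (by rw [h0']; linarith) (by rw [h1']; linarith)
  obtain ⟨F, hF⟩ : ∃ F : ℝ → ℝ, F = fun t => (ph (√((1 + r) / 2) * t) * ph (√((1 + r) / 2) * t) - ph (√1 * t) * ph (√r * t)) *
      ∏ k ∈ S, ph (√(z k) * t) := ⟨_, rfl⟩
  have eF : ∀ t, ∏ i, ph (√(z' i) * t) - ∏ i, ph (√(z i) * t) = F t := by
    intro t
    rw [prod_split (fun i => ph (√(z i) * t)) hne, prod_split (fun i => ph (√(z' i) * t)) hne, ← hS, hS', hF, h0, h1, h0', h1']
    ring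
  have iF : Integrable F := by
    have := i2.sub i1
    refine this.congr (Eventually.of_forall fun t => eF t)
  have evF : ∀ t, F t = F |t| := by
    intro t
    have e : ∀ c : ℝ, ph (√c * |t|) = ph (√c * t) := by
      intro c
      rw [← ph_abs (√c * t), abs_mul, abs_of_nonneg (Real.sqrt_nonneg c)]
    rw [hF]
    simp only [e]
  have hI : ∫ t, F t = 2 * ∫ t in Set.Ioi (0 : ℝ), F t := by
    rw [← integral_comp_abs]
    exact integral_congr_ae (Eventually.of_forall evF)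
  -- the lower bound function
  obtain ⟨κ, hκ⟩ : ∃ κ, κ = ((1 - r) / 2) ^ 2 * (17 / 100 : ℝ) ^ (n - 6) := ⟨_, rfl⟩
  have hκ0 : 0 < κ := by
    rw [hκ]
    have : 0 < (1 - r) / 2 := by linarith
    positivity
  have hu0 : (0 : ℝ) < uu6a := by unfold uu6a; norm_num
  have hu1 : uu6a ≤ 2202 / 1000 := by unfold uu6a; norm_num
  obtain ⟨g, hg⟩ : ∃ g : ℝ → ℝ, g = fun t => 737 / 100000 * (t ^ 4 * ph t ^ 6) := ⟨_, rfl⟩
  have hgc : Continuous g := by rw [hg]; exact continuous_const.mul ((continuous_pow 4).mul (ph_cont.pow 6))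
  have hg0 : ∀ t, 0 ≤ g t := fun t => by rw [hg]; positivity
  have hW0 : ∀ t, 0 ≤ Wm t := by
    intro t
    unfold Wm
    refine add_nonneg (add_nonneg (Set.indicator_nonneg (fun s _ => ?_) t) (Set.indicator_nonneg (fun s _ => ?_) t))
      (Set.indicator_nonneg (fun s hs => ?_) t)
    · unfold f1; positivity
    · unfold f2; positivity
    · exact f3_nonneg (lt_of_lt_of_le (by norm_num : (0 : ℝ) < 765 / 100) hs)
  have iG : IntegrableOn (Set.indicator (Set.Iio uu6a) g) (Set.Ioi 0) := by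
    have h2 : IntegrableOn g (Set.Ioo 0 uu6a) := (hgc.integrableOn_Icc (a := 0) (b := uu6a)).mono_set Set.Ioo_subset_Icc_self
    unfold IntegrableOn
    rw [integrable_indicator_iff measurableSet_Iio]
    unfold IntegrableOn
    rw [Measure.restrict_restrict measurableSet_Iio]
    exact h2.mono_set fun y hy => ⟨hy.2, hy.1⟩
  have vG : ∫ t in Set.Ioi (0 : ℝ), Set.indicator (Set.Iio uu6a) g t = 737 / 100000 * JJ 4 6 uu6a := by
    rw [setIntegral_indicator measurableSet_Iio, Set.Ioi_inter_Iio, ← integral_Ioc_eq_integral_Ioo,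
      ← intervalIntegral.integral_of_le hu0.le, hg, intervalIntegral.integral_const_mul]
    rfl
  have hpt : ∀ t ∈ Set.Ioi (0 : ℝ), κ * (Set.indicator (Set.Iio uu6a) g t - Wm t) ≤ F t := by
    intro t ht0
    have ht0' : 0 < t := ht0
    rcases lt_or_ge t tau with ht | ht
    · have hN := pair_near hn z S hcard ht0' ht hr hr1 hz
      by_cases hu : t < uu6a
      · rw [Set.indicator_of_mem (show t ∈ Set.Iio uu6a from hu)]
        have h3 := hN.2 hu
        have h4 : 0 ≤ κ * Wm t := mul_nonneg hκ0.le (hW0 t)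
        have h5 : κ * g t ≤ F t := by
          rw [hκ, hg, hF]
          exact h3
        linarith
      · rw [Set.indicator_of_notMem (show t ∉ Set.Iio uu6a from hu)]
        have h4 : 0 ≤ κ * Wm t := mul_nonneg hκ0.le (hW0 t)
        have h5 : 0 ≤ F t := by rw [hF]; exact hN.1
        linarith
    · have h6 := pair_far hn z S hcard ht hr hr1 hz
      rw [← hκ] at h6
      rw [Set.indicator_of_notMem (show t ∉ Set.Iio uu6a from fun h => by
        have : t < uu6a := h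
        linarith)]
      have h7 : F t = -((ph (√1 * t) * ph (√r * t) - ph (√((1 + r) / 2) * t) * ph (√((1 + r) / 2) * t)) * ∏ k ∈ S, ph (√(z k) * t)) := by
        rw [hF]; ring
      rw [h7]
      have h8 := (abs_le.1 h6).2
      linarith
  have iH : IntegrableOn (fun t => κ * (Set.indicator (Set.Iio uu6a) g t - Wm t)) (Set.Ioi 0) := (iG.sub Wm_int).const_mul κ
  have hmono := setIntegral_mono_on iH iF.integrableOn measurableSet_Ioi hpt
  have vH : ∫ t in Set.Ioi (0 : ℝ), κ * (Set.indicator (Set.Iio uu6a) g t - Wm t) =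
      κ * (737 / 100000 * JJ 4 6 uu6a - ∫ t in Set.Ioi (0 : ℝ), Wm t) := by
    rw [integral_const_mul, integral_sub iG Wm_int, vG]
  rw [vH] at hmono
  have hJ := J6a4
  have hW := Wm_le
  have h9 : 0 < κ * (737 / 100000 * JJ 4 6 uu6a - ∫ t in Set.Ioi (0 : ℝ), Wm t) := by
    refine mul_pos hκ0 ?_
    norm_num at hJ hW ⊢
    linarith
  have h10 : ∫ t, F t = (∫ t, ∏ i, ph (√(z' i) * t)) - ∫ t, ∏ i, ph (√(z i) * t) := by
    rw [← integral_sub i2 i1]
    exact integral_congr_ae (Eventually.of_forall fun t => (eF t).symm)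
  linarith

end

end Agent238.GS
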