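import Pool.Agent.Helper238.GS.K4

/-!
# Near the diagonal, V: compactness
-/

open MeasureTheory Real Set Filter Pool.Agent.Helper238
open scoped ENNReal Topology Nat

namespace Agent238.GS

noncomputable section

theorem V_scale {n : ℕ} (x : Fin n → ℝ) {p : ℝ} (hp : 0 < p) :
    ∫ t, ∏ i, ph (√(x i) * t) = (√p)⁻¹ * ∫ t, ∏ i, ph (√(x i / p) * t) := by
  have hsp : 0 < √p := Real.sqrt_pos.2 hp
  have h1 : ∀ t, ∏ i, ph (√(x i) * t) = (fun s => ∏ i, ph (√(x i / p) * s)) (√p * t) := by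
    intro t
    refine Finset.prod_congr rfl fun i _ => ?_
    have : √(x i) = √(x i / p) * √p := by
      rw [← Real.sqrt_mul' _ hp.le, div_mul_cancel₀ _ hp.ne']
    rw [this, mul_assoc]
  rw [integral_congr_ae (Eventually.of_forall h1), Measure.integral_comp_mul_left (fun s => ∏ i, ph (√(x i / p) * s)) (√p),
    abs_of_pos (inv_pos.2 hsp), smul_eq_mul]

/-- the near-diagonal set -/
def KS (n : ℕ) : Set (Fin n → ℝ) := {x | (∀ i, 0 ≤ x i) ∧ (∀ i j, 7 / 10 * x j ≤ x i) ∧ ∑ i, x i = 1}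

theorem KS_compact (n : ℕ) : IsCompact (KS n) := by
  have hsub : KS n ⊆ Set.Icc (fun _ => (0 : ℝ)) (fun _ => 1) := by
    intro x hx
    refine ⟨fun i => hx.1 i, fun i => ?_⟩
    rw [← hx.2.2]
    exact Finset.single_le_sum (fun j _ => hx.1 j) (Finset.mem_univ i)
  refine isCompact_Icc.of_isClosed_subset ?_ hsub
  have e : KS n = (⋂ i, {x : Fin n → ℝ | 0 ≤ x i}) ∩ ((⋂ i, ⋂ j, {x : Fin n → ℝ | 7 / 10 * x j ≤ x i}) ∩
      {x : Fin n → ℝ | ∑ i, x i = 1}) := by
    ext x
    simp [KS]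
  rw [e]
  refine IsClosed.inter (isClosed_iInter fun i => ?_) (IsClosed.inter (isClosed_iInter fun i => isClosed_iInter fun j => ?_) ?_)
  · exact isClosed_le continuous_const (continuous_apply i)
  · exact isClosed_le (continuous_const.mul (continuous_apply j)) (continuous_apply i)
  · exact isClosed_eq (continuous_finset_sum _ fun i _ => continuous_apply i) continuous_const

theorem KS_low {n : ℕ} {x : Fin n → ℝ} (hx : x ∈ KS n) (hn : 0 < n) (i : Fin n) : 7 / 10 / (n : ℝ) ≤ x i := by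
  have hn' : (0 : ℝ) < n := by exact_mod_cast hn
  have h1 : ∑ j, 7 / 10 * x j ≤ ∑ _j : Fin n, x i := Finset.sum_le_sum fun j _ => hx.2.1 i j
  rw [← Finset.mul_sum, hx.2.2, Finset.sum_const, Finset.card_univ, Fintype.card_fin, nsmul_eq_mul] at h1
  rw [div_le_iff₀ hn']
  linarith

theorem V_contOn {n : ℕ} (hn : 2 ≤ n) : ContinuousOn (fun x : Fin n → ℝ => ∫ t, ∏ i, ph (√(x i) * t)) (KS n) := by
  have hn' : (0 : ℝ) < n := by exact_mod_cast (by omega : 0 < n)
  obtain ⟨c, hc⟩ : ∃ c, c = 7 / 10 / (n : ℝ) := ⟨_, rfl⟩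
  have hc0 : 0 < c := by rw [hc]; positivity
  have hb : Integrable (fun t : ℝ => 18 * (1 + (√c * t) ^ 2)⁻¹) :=
    (integrable_inv_one_add_sq.comp_mul_left' (Real.sqrt_pos.2 hc0).ne').const_mul 18
  refine continuousOn_of_dominated (bound := fun t : ℝ => 18 * (1 + (√c * t) ^ 2)⁻¹) (fun x _ => (prod_cont x).aestronglyMeasurable)
    (fun x hx => Eventually.of_forall fun t => ?_) hb (Eventually.of_forall fun t => ?_)
  · obtain ⟨i0, hi0⟩ : ∃ i0 : Fin n, i0 = ⟨0, by omega⟩ := ⟨_, rfl⟩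
    obtain ⟨i1, hi1⟩ : ∃ i1 : Fin n, i1 = ⟨1, by omega⟩ := ⟨_, rfl⟩
    have hne : i1 ≠ i0 := by rw [hi0, hi1]; intro h; simp at h
    have key : ∀ i, ph (√(x i) * t) ^ 2 ≤ 18 * (1 + (√c * t) ^ 2)⁻¹ := by
      intro i
      refine (ph_sq_le _).trans ?_
      rw [div_eq_mul_inv]
      refine mul_le_mul_of_nonneg_left ?_ (by norm_num)
      refine inv_anti₀ (by positivity) ?_
      have h1 : c ≤ x i := by rw [hc]; exact KS_low hx (by omega) i
      rw [mul_pow, mul_pow, Real.sq_sqrt hc0.le, Real.sq_sqrt (hx.1 i)]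
      have := mul_le_mul_of_nonneg_right h1 (sq_nonneg t)
      linarith
    rw [Real.norm_eq_abs, prod_split _ hne, abs_mul, abs_mul, Finset.abs_prod]
    have h2 : ∏ i ∈ (Finset.univ.erase i0).erase i1, |ph (√(x i) * t)| ≤ 1 :=
      Finset.prod_le_one (fun _ _ => abs_nonneg _) fun _ _ => ph_abs_le _
    have h3 : 0 ≤ |ph (√(x i1) * t)| := abs_nonneg _
    have h4 : 0 ≤ |ph (√(x i0) * t)| := abs_nonneg _
    have h5 : |ph (√(x i0) * t)| * (|ph (√(x i1) * t)| * ∏ i ∈ (Finset.univ.erase i0).erase i1, |ph (√(x i) * t)|) ≤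
        |ph (√(x i0) * t)| * |ph (√(x i1) * t)| := by
      refine mul_le_mul_of_nonneg_left ?_ h4
      exact mul_le_of_le_one_right h3 h2
    refine h5.trans ?_
    have k0 := key i0
    have k1 := key i1
    rw [← sq_abs] at k0 k1
    nlinarith only [sq_nonneg (|ph (√(x i0) * t)| - |ph (√(x i1) * t)|), k0, k1]
  · refine Continuous.continuousOn ?_
    refine continuous_finset_prod _ fun i _ => ph_cont.comp ?_
    exact (Real.continuous_sqrt.comp (continuous_apply i)).mul continuous_const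

/-- the near-diagonal region -/
theorem regionK {n : ℕ} (hn : 6 ≤ n) (x : Fin n → ℝ) (hx : x ∈ KS n) : ∫ t, ∏ i, ph (√(x i) * t) ≤ Vd n := by
  have hn' : (0 : ℝ) < n := by exact_mod_cast (by omega : 0 < n)
  obtain ⟨y, hy, hmax⟩ := (KS_compact n).exists_isMaxOn ⟨x, hx⟩ (V_contOn (by omega : 2 ≤ n))
  have hxy : ∫ t, ∏ i, ph (√(x i) * t) ≤ ∫ t, ∏ i, ph (√(y i) * t) := hmax hx
  refine hxy.trans ?_
  haveI : Nonempty (Fin n) := ⟨⟨0, by omega⟩⟩
  obtain ⟨i0, hi0⟩ := Finite.exists_max y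
  obtain ⟨i1, hi1⟩ := Finite.exists_min y
  rcases (hi1 i0).eq_or_lt with heq | hlt
  · have hall : ∀ i, y i = y i0 := fun i => le_antisymm (hi0 i) (by rw [← heq]; exact hi1 i)
    have h1 : y i0 = 1 / n := by
      have := hy.2.2
      rw [Finset.sum_congr rfl fun i _ => hall i, Finset.sum_const, Finset.card_univ, Fintype.card_fin, nsmul_eq_mul] at this
      field_simp
      linarith
    refine le_of_eq ?_
    unfold Vd
    refine integral_congr_ae (Eventually.of_forall fun t => ?_)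
    show ∏ i, ph (√(y i) * t) = ph (t / √n) ^ n
    rw [Finset.prod_congr rfl fun i _ => by rw [hall i, h1], Finset.prod_const, Finset.card_univ, Fintype.card_fin, ph_div_eq]
  · exfalso
    obtain ⟨p, hp⟩ : ∃ p, p = y i0 := ⟨_, rfl⟩
    obtain ⟨q, hq⟩ : ∃ q, q = y i1 := ⟨_, rfl⟩
    rw [← hp, ← hq] at hlt
    have hlow := KS_low hy (by omega)
    have hc0 : (0 : ℝ) < 7 / 10 / n := by positivity
    have hq0 : 0 < q := by rw [hq]; exact hc0.trans_le (hlow i1)
    have hp0 : 0 < p := by linarith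
    have hqp : 7 / 10 * p ≤ q := by rw [hp, hq]; exact hy.2.1 i1 i0
    have hne : i1 ≠ i0 := by
      rintro rfl
      rw [hp, hq] at hlt
      exact lt_irrefl _ hlt
    obtain ⟨w, hw⟩ : ∃ w : Fin n → ℝ, w = Function.update (Function.update y i0 ((p + q) / 2)) i1 ((p + q) / 2) := ⟨_, rfl⟩
    have w1 : w i1 = (p + q) / 2 := by rw [hw, Function.update_self]
    have w0 : w i0 = (p + q) / 2 := by rw [hw, Function.update_of_ne (Ne.symm hne), Function.update_self]
    have wk : ∀ k, k ≠ i0 → k ≠ i1 → w k = y k := fun k h0 h1 => by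
      rw [hw, Function.update_of_ne h1, Function.update_of_ne h0]
    have hyr : ∀ k, q ≤ y k ∧ y k ≤ p := fun k => ⟨by rw [hq]; exact hi1 k, by rw [hp]; exact hi0 k⟩
    have hwr : ∀ k, q ≤ w k ∧ w k ≤ p := by
      intro k
      by_cases h1 : k = i1
      · rw [h1, w1]; constructor <;> linarith
      · by_cases h0 : k = i0
        · rw [h0, w0]; constructor <;> linarith
        · rw [wk k h0 h1]; exact hyr k
    have hwK : w ∈ KS n := by
      refine ⟨fun k => by linarith [(hwr k).1], fun i j => ?_, ?_⟩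
      · have a := (hwr i).1
        have b := (hwr j).2
        linarith
      · have s1 := sum_split w hne
        have s2 := sum_split y hne
        rw [hy.2.2] at s2
        have s3 : ∑ k ∈ (Finset.univ.erase i0).erase i1, w k = ∑ k ∈ (Finset.univ.erase i0).erase i1, y k :=
          Finset.sum_congr rfl fun k hk => wk k (Finset.ne_of_mem_erase (Finset.mem_of_mem_erase hk)) (Finset.ne_of_mem_erase hk)
        rw [s1, s3, w0, w1]
        rw [← hp, ← hq] at s2
        linarith
    have hle : ∫ t, ∏ i, ph (√(w i) * t) ≤ ∫ t, ∏ i, ph (√(y i) * t) := hmax hwK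
    have hrr : q / p < 1 := by rw [div_lt_one hp0]; exact hlt
    have hrl : 7 / 10 ≤ q / p := by rw [le_div_iff₀ hp0]; exact hqp
    have hM : (p + q) / 2 / p = (1 + q / p) / 2 := by field_simp
    have hst := pair_lt hn (fun i => y i / p) (fun i => w i / p) hne hrl hrr (by show y i0 / p = 1; rw [← hp, div_self hp0.ne'])
      (by show y i1 / p = q / p; rw [← hq])
      (fun k => ⟨div_le_div_of_nonneg_right (hyr k).1 hp0.le, by
        show y k / p ≤ 1
        rw [div_le_one hp0]; exact (hyr k).2⟩)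
      (by show w i0 / p = _; rw [w0, hM]) (by show w i1 / p = _; rw [w1, hM])
      (fun k h0 h1 => by show w k / p = y k / p; rw [wk k h0 h1])
    rw [V_scale w hp0, V_scale y hp0] at hle
    have hsp : 0 < (√p)⁻¹ := inv_pos.2 (Real.sqrt_pos.2 hp0)
    have h4 := le_of_mul_le_mul_left hle hsp
    exact absurd hst (not_lt.2 h4)

end

end Agent238.GS
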