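import Pool.Agent.Helper238.GS.P7

/-!
# Dimensions at least six, I: the diagonal value
-/

open MeasureTheory Real Set Filter Pool.Agent.Helper238
open scoped ENNReal Topology Nat

namespace Agent238.GS

noncomputable section

/-- the diagonal integral -/
def Vd (n : ℕ) : ℝ := ∫ t, ph (t / √n) ^ n

theorem ph_div_eq {n : ℕ} (t : ℝ) : ph (t / √n) = ph (√(1 / (n : ℝ)) * t) := by
  rw [one_div, Real.sqrt_inv, div_eq_inv_mul]

theorem phn_sq_int {n : ℕ} (hn : 0 < n) : Integrable (fun t : ℝ => ph (t / √n) ^ 2) := by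
  have hn' : (0 : ℝ) < n := by exact_mod_cast hn
  have := ph_sc_sq_int (x := 1 / (n : ℝ)) (by positivity)
  refine this.congr (Eventually.of_forall fun t => ?_)
  show ph (√(1 / (n : ℝ)) * t) ^ 2 = ph (t / √n) ^ 2
  rw [ph_div_eq]

theorem phn_int {n : ℕ} (hn : 2 ≤ n) : Integrable (fun t : ℝ => ph (t / √n) ^ n) := by
  refine (phn_sq_int (by omega : 0 < n)).mono' (phn_cont n).aestronglyMeasurable (Eventually.of_forall fun t => ?_)
  rw [Real.norm_eq_abs, abs_pow, ← sq_abs (ph (t / √n))]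
  exact pow_le_pow_of_le_one (abs_nonneg _) (ph_abs_le _) hn

theorem Am_le_Vd {n : ℕ} (hn : 2 ≤ n) {c : ℝ} (hc0 : 0 ≤ c)
    (hc : ∀ u : ℝ, tau ≤ |u| → -(c * ph u ^ 2) ≤ ph u ^ n) : Am n ≤ Vd n + √n * c * (1438 / 10000) := by
  have hn' : (0 : ℝ) < n := by exact_mod_cast (by omega : 0 < n)
  have hs : 0 < √(n : ℝ) := Real.sqrt_pos.2 hn'
  have htl := tau_lb
  have e0 : ∀ t : ℝ, |√(1 / (n : ℝ)) * t| = |t / √n| := by
    intro t; congr 1; rw [one_div, Real.sqrt_inv, div_eq_inv_mul]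
  have hpt : ∀ t : ℝ, Set.indicator (Set.Ioo (-(√n * tau)) (√n * tau)) (fun t => ph (t / √n) ^ n) t -
      c * Set.indicator {t : ℝ | tau ≤ |√(1 / (n : ℝ)) * t|} (fun t => ph (√(1 / (n : ℝ)) * t) ^ 2) t ≤ ph (t / √n) ^ n := by
    intro t
    have hiff : t ∈ Set.Ioo (-(√n * tau)) (√n * tau) ↔ ¬ tau ≤ |√(1 / (n : ℝ)) * t| := by
      rw [e0, not_le, abs_div, abs_of_pos hs, div_lt_iff₀ hs, mul_comm tau]
      exact ⟨fun h => abs_lt.2 ⟨h.1, h.2⟩, fun h => ⟨(abs_lt.1 h).1, (abs_lt.1 h).2⟩⟩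
    by_cases h : tau ≤ |√(1 / (n : ℝ)) * t|
    · rw [Set.indicator_of_notMem (fun hm => (hiff.1 hm) h), Set.indicator_of_mem (show t ∈ {t : ℝ | tau ≤ |√(1 / (n : ℝ)) * t|} from h),
        ← ph_div_eq]
      have := hc (t / √n) (by rw [← e0]; exact h)
      linarith
    · rw [Set.indicator_of_mem (hiff.2 h), Set.indicator_of_notMem (show t ∉ {t : ℝ | tau ≤ |√(1 / (n : ℝ)) * t|} from h)]
      simp
  have hx : 0 < 1 / (n : ℝ) := by positivity
  have i1 : Integrable (Set.indicator (Set.Ioo (-(√n * tau)) (√n * tau)) (fun t : ℝ => ph (t / √n) ^ n)) :=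
    (Ioo_int (phn_cont n) _ _).integrable_indicator measurableSet_Ioo
  have i2 := Qf_scale_int hx tau
  have h := integral_mono (i1.sub (i2.const_mul c)) (phn_int hn) hpt
  have e1 : ∫ t, (Set.indicator (Set.Ioo (-(√n * tau)) (√n * tau)) (fun t : ℝ => ph (t / √n) ^ n) t -
      c * Set.indicator {t : ℝ | tau ≤ |√(1 / (n : ℝ)) * t|} (fun t => ph (√(1 / (n : ℝ)) * t) ^ 2) t) =
      Am n - c * ((√(1 / (n : ℝ)))⁻¹ * Qf tau) := by
    rw [integral_sub i1 (i2.const_mul c), integral_const_mul, Qf_scale hx, MeasureTheory.integral_indicator measurableSet_Ioo]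
    rfl
  have h' : Am n - c * ((√(1 / (n : ℝ)))⁻¹ * Qf tau) ≤ Vd n := by rw [← e1]; exact h
  rw [one_div, Real.sqrt_inv, inv_inv] at h'
  have h3 : c * (√n * Qf tau) ≤ c * (√n * (1438 / 10000)) :=
    mul_le_mul_of_nonneg_left (mul_le_mul_of_nonneg_left Qtau hs.le) hc0
  linarith

theorem J_num {n : ℕ} (hn : 7 ≤ n) : √(n : ℝ) * (15 / 100) ^ (n - 2) * (1438 / 10000) ≤ 142 / 100000 / (n : ℝ) ^ 2 := by
  have hn' : (0 : ℝ) < n := by exact_mod_cast (by omega : 0 < n)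
  rw [le_div_iff₀ (by positivity)]
  rcases Nat.eq_or_lt_of_le hn with h | h
  · rw [← h]
    have h7 : √((7 : ℕ) : ℝ) ≤ 264576 / 100000 := by
      rw [Real.sqrt_le_left (by norm_num)]; norm_num
    norm_num at h7 ⊢
    linarith
  · have h8 : 8 ≤ n := h
    have h8' : (8 : ℝ) ≤ n := by exact_mod_cast h8
    have hsq : √(n : ℝ) ≤ n / (28 / 10) := by
      rw [Real.sqrt_le_left (by positivity), div_pow, le_div_iff₀ (by positivity)]
      nlinarith
    have key : ∀ k : ℕ, ((k : ℝ) + 8) ^ 3 * (15 / 100) ^ (k + 6) ≤ 6 / 1000 := by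
      intro k
      induction k with
      | zero => norm_num
      | succ k ih =>
        have hk : (0 : ℝ) ≤ k := Nat.cast_nonneg k
        have h1 : (((k + 1 : ℕ) : ℝ) + 8) ^ 3 ≤ 2 * ((k : ℝ) + 8) ^ 3 := by
          push_cast
          nlinarith [mul_nonneg hk hk, mul_nonneg (mul_nonneg hk hk) hk]
        have h2 : (15 / 100 : ℝ) ^ (k + 1 + 6) = (15 / 100) ^ (k + 6) * (15 / 100) := by
          rw [show k + 1 + 6 = (k + 6) + 1 by ring, pow_succ]
        rw [h2]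
        have h3 : 0 ≤ (15 / 100 : ℝ) ^ (k + 6) * (15 / 100) := by positivity
        have h4 := mul_le_mul_of_nonneg_right h1 h3
        nlinarith
    obtain ⟨k, rfl⟩ : ∃ k, n = k + 8 := ⟨n - 8, by omega⟩
    have hk := key k
    have e : k + 8 - 2 = k + 6 := by omega
    rw [e]
    push_cast at hk hsq ⊢
    have hp : 0 ≤ (15 / 100 : ℝ) ^ (k + 6) := by positivity
    have h1 : √((k : ℝ) + 8) * (15 / 100) ^ (k + 6) * (1438 / 10000) * ((k : ℝ) + 8) ^ 2 ≤
        ((k : ℝ) + 8) / (28 / 10) * (15 / 100) ^ (k + 6) * (1438 / 10000) * ((k : ℝ) + 8) ^ 2 := by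
      gcongr
    refine h1.trans ?_
    have h2 : ((k : ℝ) + 8) / (28 / 10) * (15 / 100) ^ (k + 6) * (1438 / 10000) * ((k : ℝ) + 8) ^ 2 =
      (((k : ℝ) + 8) ^ 3 * (15 / 100) ^ (k + 6)) * (1438 / 10000 / (28 / 10)) := by ring
    rw [h2]
    nlinarith

/-- `Am n` is at most the diagonal value up to a tiny error -/
theorem Am_le {n : ℕ} (hn : 6 ≤ n) : Am n ≤ Vd n + 142 / 100000 / (n : ℝ) ^ 2 ∧ Am n ≤ Vd n + 3 / 100000 := by
  have hn' : (0 : ℝ) < n := by exact_mod_cast (by omega : 0 < n)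
  rcases Nat.even_or_odd n with he | ho
  · have h := Am_le_Vd (n := n) (by omega) le_rfl (fun u _ => by
      rw [zero_mul, neg_zero]; exact he.pow_nonneg _)
    rw [mul_zero, zero_mul, add_zero] at h
    constructor
    · have : 0 ≤ 142 / 100000 / (n : ℝ) ^ 2 := by positivity
      linarith
    · linarith
  · have hn7 : 7 ≤ n := by
      rcases Nat.eq_or_lt_of_le hn with h | h
      · rw [← h] at ho; exact absurd ho (by decide)
      · exact h
    have h := Am_le_Vd (n := n) (by omega) (c := (15 / 100) ^ (n - 2)) (by positivity) (fun u hu => by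
      have h1 : |ph u| ≤ 15 / 100 := by rw [← ph_abs]; exact ph_abs_15 hu
      have h2 : |ph u ^ n| ≤ (15 / 100) ^ (n - 2) * ph u ^ 2 := by
        rw [abs_pow, ← sq_abs (ph u)]
        have e : n = (n - 2) + 2 := by omega
        calc |ph u| ^ n = |ph u| ^ (n - 2) * |ph u| ^ 2 := by rw [← pow_add, ← e]
          _ ≤ (15 / 100) ^ (n - 2) * |ph u| ^ 2 :=
            mul_le_mul_of_nonneg_right (pow_le_pow_left₀ (abs_nonneg _) h1 _) (by positivity)
      exact (abs_le.1 h2).1)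
    have hJ := J_num hn7
    have h1 : Am n ≤ Vd n + 142 / 100000 / (n : ℝ) ^ 2 := by linarith
    refine ⟨h1, h1.trans ?_⟩
    have h7 : (7 : ℝ) ≤ n := by exact_mod_cast hn7
    have h2 : 142 / 100000 / (n : ℝ) ^ 2 ≤ 142 / 100000 / 49 := by
      refine div_le_div_of_nonneg_left (by norm_num) (by norm_num) ?_
      nlinarith
    norm_num at h2 ⊢
    linarith

theorem Am_mono {n : ℕ} (hn : 6 ≤ n) : Am 6 ≤ Am n := by
  have htl := tau_lb
  have h6 : √((6 : ℕ) : ℝ) ≤ √(n : ℝ) := Real.sqrt_le_sqrt (by exact_mod_cast hn)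
  have hsub : Set.Ioo (-(√((6 : ℕ) : ℝ) * tau)) (√((6 : ℕ) : ℝ) * tau) ⊆ Set.Ioo (-(√n * tau)) (√n * tau) := by
    have : √((6 : ℕ) : ℝ) * tau ≤ √n * tau := mul_le_mul_of_nonneg_right h6 (by linarith)
    exact Ioo_subset_Ioo (by linarith) this
  have hlt : ∀ (k : ℕ) (t : ℝ), t ∈ Set.Ioo (-(√(k : ℝ) * tau)) (√(k : ℝ) * tau) → t ^ 2 < k * tau ^ 2 := by
    intro k t ht
    have h5 : |t| < √k * tau := abs_lt.2 ⟨ht.1, ht.2⟩
    have h7 : t ^ 2 < (√k * tau) ^ 2 := by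
      rw [← sq_abs]; exact pow_lt_pow_left₀ h5 (abs_nonneg _) (by norm_num)
    rwa [mul_pow, Real.sq_sqrt (Nat.cast_nonneg k)] at h7
  have h1 : Am 6 ≤ ∫ t in Set.Ioo (-(√((6 : ℕ) : ℝ) * tau)) (√((6 : ℕ) : ℝ) * tau), ph (t / √n) ^ n := by
    unfold Am
    refine setIntegral_mono_on (Ioo_int (phn_cont 6) _ _) (Ioo_int (phn_cont n) _ _) measurableSet_Ioo fun t ht => ?_
    exact (diag_mono (by norm_num) hn (hlt 6 t ht)).2
  refine h1.trans ?_
  unfold Am
  refine setIntegral_mono_set (Ioo_int (phn_cont n) _ _) ?_ (Eventually.of_forall hsub)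
  refine (ae_restrict_iff' measurableSet_Ioo).2 (Eventually.of_forall fun t ht => ?_)
  exact pow_nonneg (diag_mono (by omega) le_rfl (hlt n t ht)).1 n

theorem Am6_ge : 454 / 100 ≤ Am 6 := by
  have htl := tau_lb
  have h1 := IK_eq 6 0 (by norm_num) (u := tau) (by linarith)
  have h2 : IK 6 (2 * 0) (√((6 : ℕ) : ℝ) * tau) = Am 6 := by
    unfold IK Am
    simp only [mul_zero, pow_zero, one_mul]
  rw [h2, pow_zero, mul_one] at h1
  rw [h1]
  have h3 : JJ 0 6 us_m6 ≤ JJ (2 * 0) 6 tau := by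
    rw [mul_zero]
    have hu : us_m6 ≤ tau := by
      refine le_trans ?_ htl.le
      unfold us_m6; norm_num
    unfold JJ
    have hc : ∀ a b, IntervalIntegrable (fun v : ℝ => v ^ 0 * ph v ^ 6) volume a b := fun a b =>
      ((continuous_pow 0).mul (ph_cont.pow 6)).intervalIntegrable a b
    rw [← intervalIntegral.integral_add_adjacent_intervals (hc 0 us_m6) (hc us_m6 tau)]
    have : 0 ≤ ∫ v in us_m6..tau, v ^ 0 * ph v ^ 6 :=
      intervalIntegral.integral_nonneg hu fun v _ => by positivity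
    linarith
  have h4 := Js_m6
  have h5 : (244948 / 100000 : ℝ) ≤ √((6 : ℕ) : ℝ) := by
    rw [Real.le_sqrt (by norm_num) (by norm_num)]; norm_num
  norm_num at h4
  have h6 : (244948 / 100000 : ℝ) * (926 / 1000) ≤ √((6 : ℕ) : ℝ) * JJ (2 * 0) 6 tau :=
    mul_le_mul h5 (by linarith) (by norm_num) (Real.sqrt_nonneg _)
  have h7 : (244948 / 100000 : ℝ) * JJ 0 6 us_m6 ≤ √((6 : ℕ) : ℝ) * JJ (2 * 0) 6 tau :=
    mul_le_mul h5 h3 (by linarith) (Real.sqrt_nonneg _)
  norm_num at h7 ⊢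
  linarith

/-- the pair value is below the diagonal value from dimension six on -/
theorem V2_le_Vd {n : ℕ} (hn : 6 ≤ n) : √2 * G0 ≤ Vd n := by
  have h1 := (Am_le hn).2
  have h2 := Am_mono hn
  have h3 := Am6_ge
  have h4 := V2_num.2
  norm_num at h3 h4
  linarith

end

end Agent238.GS
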