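import Pool.Agent.Helper238.GS.N1

/-!
# Dimensions at least six, II: the grid region
-/

open MeasureTheory Real Set Filter Pool.Agent.Helper238
open scoped ENNReal Topology Nat

namespace Agent238.GS

noncomputable section

theorem sq_low6 {n : ℕ} (hn : 6 ≤ n) {s m : ℝ} (hm : m = 1 - s) (hs : 1 / 3 ≤ s) (hm0 : 0 ≤ m) :
    3 / 4 * (s - 1 / 3) ^ 2 ≤ s ^ 2 / 2 + m ^ 2 / ((n - 2 : ℕ) : ℝ) - 1 / n := by
  have hn6 : (6 : ℝ) ≤ n := by exact_mod_cast hn
  have e : ((n - 2 : ℕ) : ℝ) = n - 2 := by rw [Nat.cast_sub (by omega)]; norm_num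
  rw [e]
  have h2 : (0 : ℝ) < n - 2 := by linarith
  have h0 : (0 : ℝ) < n := by linarith
  have hm23 : m ≤ 2 / 3 := by linarith
  have h4 : m ^ 2 * (1 / 4 - 1 / ((n : ℝ) - 2)) ≤ 4 / 9 * (1 / 4 - 1 / ((n : ℝ) - 2)) := by
    have h5 : 0 ≤ 1 / 4 - 1 / ((n : ℝ) - 2) := by
      rw [sub_nonneg]
      exact div_le_div_of_nonneg_left (by norm_num) (by norm_num) (by linarith)
    refine mul_le_mul_of_nonneg_right ?_ h5
    nlinarith
  have h6 : 4 / 9 * (1 / 4 - 1 / ((n : ℝ) - 2)) ≤ 1 / 6 - 1 / n := by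
    have : 1 / 6 - 1 / (n : ℝ) - 4 / 9 * (1 / 4 - 1 / ((n : ℝ) - 2)) = (n - 6) ^ 2 / (18 * n * (n - 2)) * (1 : ℝ) + 0 := by
      field_simp
      ring
    have h7 : 0 ≤ ((n : ℝ) - 6) ^ 2 / (18 * n * (n - 2)) * (1 : ℝ) + 0 := by positivity
    linarith
  have h8 : m ^ 2 / ((n : ℝ) - 2) = m ^ 2 / 4 - m ^ 2 * (1 / 4 - 1 / ((n : ℝ) - 2)) := by ring
  rw [h8, hm] at *
  nlinarith

theorem cube_low6 {n : ℕ} (hn : 6 ≤ n) {m : ℝ} (hm0 : 0 ≤ m) (hm : m ≤ 2 / 3) :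
    m ^ 3 / 16 - 1 / 36 ≤ m ^ 3 / ((n - 2 : ℕ) : ℝ) ^ 2 - 1 / (n : ℝ) ^ 2 := by
  have hn6 : (6 : ℝ) ≤ n := by exact_mod_cast hn
  have e : ((n - 2 : ℕ) : ℝ) = n - 2 := by rw [Nat.cast_sub (by omega)]; norm_num
  rw [e]
  have h2 : (0 : ℝ) < n - 2 := by linarith
  have h0 : (0 : ℝ) < n := by linarith
  have hm3 : m ^ 3 ≤ 8 / 27 := by
    have := pow_le_pow_left₀ hm0 hm 3
    norm_num at this ⊢
    exact this
  have h4 : m ^ 3 * (1 / 16 - 1 / ((n : ℝ) - 2) ^ 2) ≤ 8 / 27 * (1 / 16 - 1 / ((n : ℝ) - 2) ^ 2) := by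
    have h5 : 0 ≤ 1 / 16 - 1 / ((n : ℝ) - 2) ^ 2 := by
      rw [sub_nonneg]
      exact div_le_div_of_nonneg_left (by norm_num) (by norm_num) (by nlinarith)
    exact mul_le_mul_of_nonneg_right hm3 h5
  have h6 : 8 / 27 * (1 / 16 - 1 / ((n : ℝ) - 2) ^ 2) ≤ 1 / 36 - 1 / (n : ℝ) ^ 2 := by
    have h7 : 1 / 36 - 1 / (n : ℝ) ^ 2 - 8 / 27 * (1 / 16 - 1 / ((n : ℝ) - 2) ^ 2) =
        (n - 6) * ((n - 6) * (n ^ 2 + 8 * n - 12)) / (108 * n ^ 2 * (n - 2) ^ 2) := by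
      field_simp
      ring
    have h8 : 0 ≤ ((n : ℝ) - 6) * ((n - 6) * (n ^ 2 + 8 * n - 12)) / (108 * n ^ 2 * (n - 2) ^ 2) := by
      have h9 : (0 : ℝ) ≤ n - 6 := by linarith
      have h10 : (0 : ℝ) ≤ n ^ 2 + 8 * n - 12 := by nlinarith
      positivity
    linarith
  have h8 : m ^ 3 / ((n : ℝ) - 2) ^ 2 = m ^ 3 / 16 - m ^ 3 * (1 / 16 - 1 / ((n : ℝ) - 2) ^ 2) := by ring
  rw [h8]
  linarith

/-- the deviation coming from one small coordinate -/
theorem sq_dev {n : ℕ} (x : Fin n → ℝ) (hs : ∑ i, x i = 1) {i0 k : Fin n} (hne : k ≠ i0) (hn : 0 < n) :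
    (x i0 - x k) ^ 2 / 2 ≤ ∑ i, x i ^ 2 - 1 / n := by
  have hn' : (0 : ℝ) < n := by exact_mod_cast hn
  have h1 : ∑ i, (x i - 1 / n) ^ 2 = ∑ i, x i ^ 2 - 1 / n := by
    have : ∀ i, (x i - 1 / (n : ℝ)) ^ 2 = x i ^ 2 - 2 / n * x i + 1 / n ^ 2 := fun i => by ring
    rw [Finset.sum_congr rfl fun i _ => this i, Finset.sum_add_distrib, Finset.sum_sub_distrib, ← Finset.mul_sum, hs,
      Finset.sum_const, Finset.card_univ, Fintype.card_fin, nsmul_eq_mul]
    field_simp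
    ring
  rw [← h1]
  have h2 := sum_split (fun i => (x i - 1 / (n : ℝ)) ^ 2) hne
  have h3 : 0 ≤ ∑ i ∈ (Finset.univ.erase i0).erase k, (x i - 1 / (n : ℝ)) ^ 2 := Finset.sum_nonneg fun i _ => sq_nonneg _
  rw [h2]
  have h4 : (x i0 - x k) ^ 2 / 2 ≤ (x i0 - 1 / (n : ℝ)) ^ 2 + (x k - 1 / (n : ℝ)) ^ 2 := by
    have : 0 ≤ ((x i0 - 1 / (n : ℝ)) + (x k - 1 / (n : ℝ))) ^ 2 := sq_nonneg _
    nlinarith
  linarith

/-- the grid region in dimension at least six -/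
theorem regionP6 {n : ℕ} (hn : 6 ≤ n) (x : Fin n → ℝ) (hx : ∀ i, 0 ≤ x i) {i0 i1 : Fin n} (hne : i1 ≠ i0) (hs : ∑ i, x i = 1)
    (h01 : x i1 ≤ x i0) (hmax : ∀ i, i ≠ i0 → x i ≤ x i1) (hsum : 1 / 3 ≤ x i0 + x i1)
    (h0l : 18 / 100 ≤ x i0) (h1l : 4 / 100 ≤ x i1) (hK : ∃ k, x k < 7 / 10 * x i0)
    (hD : x i0 < 1 / 2 + (1 - x i0 - x i1) / 6)
    (hIII : ¬ (344 / 1000 ≤ x i1 ∧ 1 - x i0 - x i1 ≤ 66 / 100 * x i1 ∧ 1 - x i0 - x i1 ≤ 24 / 100)) :
    ∫ t, ∏ i, ph (√(x i) * t) ≤ Am n - 3 / 100000 := by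
  obtain ⟨S, hS⟩ : ∃ S, S = (Finset.univ.erase i0).erase i1 := ⟨_, rfl⟩
  have hsp := sum_split x hne
  have hsp2 := sum_split (fun i => x i ^ 2) hne
  have hsp3 := sum_split (fun i => x i ^ 3) hne
  rw [hs, ← hS] at hsp
  rw [← hS] at hsp2 hsp3
  have hcard : S.card = n - 2 := by rw [hS, card_rest hne]
  obtain ⟨m, hm⟩ : ∃ m, m = ∑ i ∈ S, x i := ⟨_, rfl⟩
  have hm0 : 0 ≤ m := by rw [hm]; exact Finset.sum_nonneg fun i _ => hx i
  have hr2 := sq_rest S x hcard (by omega)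
  have hr3 := cube_rest S x hx hcard
  rw [← hm] at hsp hr2 hr3
  have hm' : 1 - x i0 - x i1 = m := by linarith
  rw [hm'] at hD hIII
  have h0u : x i0 < 4 / 7 := by linarith [hx i1]
  have h1u : x i1 < 384 / 1000 := by
    by_contra hn
    push Not at hn
    exact hIII ⟨by linarith, by linarith, by linarith⟩
  obtain ⟨i, hi⟩ : ∃ i, i = ⌊500 * x i0⌋₊ := ⟨_, rfl⟩
  obtain ⟨j, hj⟩ : ∃ j, j = ⌊500 * x i1⌋₊ := ⟨_, rfl⟩
  have hi1 : (i : ℝ) ≤ 500 * x i0 := by rw [hi]; exact Nat.floor_le (by linarith)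
  have hi2 : 500 * x i0 < i + 1 := by rw [hi]; exact Nat.lt_floor_add_one _
  have hj1 : (j : ℝ) ≤ 500 * x i1 := by rw [hj]; exact Nat.floor_le (by linarith)
  have hj2 : 500 * x i1 < j + 1 := by rw [hj]; exact Nat.lt_floor_add_one _
  have a1 : 90 ≤ i := by rw [hi]; exact Nat.le_floor (by push_cast; linarith)
  have a2 : i ≤ 285 := by
    have : (i : ℝ) < 286 := by linarith
    have : i < 286 := by exact_mod_cast this
    omega
  have a3 : 20 ≤ j := by rw [hj]; exact Nat.le_floor (by push_cast; linarith)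
  have a4 : j < 192 := by
    have : (j : ℝ) < 192 := by linarith
    exact_mod_cast this
  have hji : j ≤ i := by
    rw [hi, hj]; exact Nat.floor_le_floor (by linarith)
  have hbox := allB_get grid6 i a1 (by omega) j a3 a4
  have hij : i + j ≤ 498 := by omega
  -- real inequalities for the sums
  have hδ : ((Nat.max (100 * ((3 * (i + j) - 500) * (3 * (i + j) - 500) + 6 * ((i - j - 1) * (i - j - 1)))) (54 * (i * i)) : ℕ) : ℝ) / 300000000 ≤
      ∑ i, x i ^ 2 - 1 / (n : ℝ) := by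
    rw [div_le_iff₀ (by norm_num)]
    have e0 : ((Nat.max (100 * ((3 * (i + j) - 500) * (3 * (i + j) - 500) + 6 * ((i - j - 1) * (i - j - 1)))) (54 * (i * i)) : ℕ) : ℝ) =
        max ((100 * ((3 * (i + j) - 500) * (3 * (i + j) - 500) + 6 * ((i - j - 1) * (i - j - 1))) : ℕ) : ℝ) ((54 * (i * i) : ℕ) : ℝ) := by
      rw [← Nat.cast_max]
    rw [e0]
    refine max_le ?_ ?_
    · have t1 := trunc_sq (A := 3 * (i + j)) (B := 500) (y := 1500 * (x i0 + x i1) - 500) (by push_cast; linarith)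
      have e1 : i - j - 1 = i - (j + 1) := by omega
      have t2 := trunc_sq (A := i) (B := j + 1) (y := 500 * (x i0 - x i1)) (by push_cast; linarith)
      rw [e1]
      have t3 : ((100 * ((3 * (i + j) - 500) * (3 * (i + j) - 500) + 6 * ((i - (j + 1)) * (i - (j + 1)))) : ℕ) : ℝ) =
        100 * (((3 * (i + j) - 500 : ℕ) : ℝ) * ((3 * (i + j) - 500 : ℕ) : ℝ) + 6 * (((i - (j + 1) : ℕ) : ℝ) * ((i - (j + 1) : ℕ) : ℝ))) := by
        simp only [Nat.cast_add, Nat.cast_mul, Nat.cast_ofNat]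
      rw [t3, hsp2]
      have h6 := sq_low6 hn (s := x i0 + x i1) (m := m) (by linarith) hsum hm0
      have h7 : 3 / 4 * (x i0 + x i1 - 1 / 3) ^ 2 + (x i0 - x i1) ^ 2 / 2 ≤
        (x i0 ^ 2 + x i1 ^ 2 + ∑ i ∈ S, x i ^ 2) - 1 / n := by
        have e : x i0 ^ 2 + x i1 ^ 2 = (x i0 + x i1) ^ 2 / 2 + (x i0 - x i1) ^ 2 / 2 := by ring
        linarith
      nlinarith only [t1, t2, h7]
    · obtain ⟨k, hk⟩ := hK
      have hk0 : k ≠ i0 := by
        rintro rfl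
        linarith
      have h6 := sq_dev x hs hk0 (by omega)
      have h7 : (3 / 10 * x i0) ^ 2 ≤ (x i0 - x k) ^ 2 := pow_le_pow_left₀ (by linarith) (by linarith) 2
      have h8 : (i : ℝ) ^ 2 ≤ (500 * x i0) ^ 2 := pow_le_pow_left₀ (by positivity) hi1 2
      push_cast
      nlinarith only [h6, h7, h8]
  have hδ3 : ((144 * i ^ 3 + 144 * j ^ 3 + 9 * (498 - i - j) ^ 3 - 500000000 : ℕ) : ℝ) / 18000000000 ≤
      ∑ i, x i ^ 3 - 1 / (n : ℝ) ^ 2 := by
    have hpos : 0 ≤ ∑ i, x i ^ 3 - 1 / (n : ℝ) ^ 2 := by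
      have := cube_rest (Finset.univ : Finset (Fin n)) x hx (c := n) (by simp)
      rw [hs] at this
      rw [one_pow] at this
      linarith
    rw [div_le_iff₀ (by norm_num)]
    refine trunc_le (by positivity) ?_
    have e1 : 498 - i - j = 498 - (i + j) := by omega
    rw [e1]
    push_cast [Nat.cast_sub hij]
    have b1 : (i : ℝ) ^ 3 ≤ (500 * x i0) ^ 3 := pow_le_pow_left₀ (by positivity) hi1 3
    have b2 : (j : ℝ) ^ 3 ≤ (500 * x i1) ^ 3 := pow_le_pow_left₀ (by positivity) hj1 3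
    have b3 : (498 - ((i : ℝ) + j)) ^ 3 ≤ (500 * m) ^ 3 := by
      refine pow_le_pow_left₀ ?_ (by linarith) 3
      have : ((i + j : ℕ) : ℝ) ≤ 498 := by exact_mod_cast hij
      push_cast at this
      linarith
    have b4 := cube_low6 hn hm0 (by linarith)
    rw [hsp3]
    nlinarith only [b1, b2, b3, hr3, b4]
  -- the box
  unfold box6 at hbox
  rw [Bool.or_eq_true, Bool.or_eq_true] at hbox
  rcases hbox with (hbox | hbox) | hbox
  · exfalso
    unfold skipB at hbox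
    rw [Bool.or_eq_true, Bool.or_eq_true, Bool.and_eq_true, Bool.and_eq_true] at hbox
    rcases hbox with (hb | hb) | hb
    · have := Nat.le_of_ble_eq_true hb
      omega
    · have h3 := Nat.le_of_ble_eq_true hb
      have h4 : 2000 ≤ 7 * i + j := by omega
      have h5 : (2000 : ℝ) ≤ 7 * i + j := by exact_mod_cast h4
      linarith
    · have h3 := Nat.le_of_ble_eq_true hb.1.1
      have h4 := Nat.le_of_ble_eq_true hb.1.2
      have h5 := Nat.le_of_ble_eq_true hb.2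
      have h6 : 50000 ≤ 100 * i + 166 * j := by omega
      have h7 : 380 ≤ i + j := by omega
      have h3' : (172 : ℝ) ≤ j := by exact_mod_cast h3
      have h6' : (50000 : ℝ) ≤ 100 * i + 166 * j := by exact_mod_cast h6
      have h7' : (380 : ℝ) ≤ i + j := by exact_mod_cast h7
      exact hIII ⟨by linarith, by linarith, by linarith⟩
  · exfalso
    have h3 : 3 * (i + j + 2) < 500 := by
      have := Nat.le_of_ble_eq_true hbox
      omega
    have h5 : (3 : ℝ) * (i + j + 2) < 500 := by exact_mod_cast h3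
    linarith
  · have hfin : ∫ t, ∏ i, ph (√(x i) * t) ≤ Am n + (((0 : ℕ) : ℝ) - ((30000000000000000000 : ℕ) : ℝ)) / 10 ^ 24 := by
      by_cases c1 : Nat.ble i 209 = true
      · rw [if_pos c1] at hbox
        have h : (i : ℝ) ≤ 209 := by exact_mod_cast Nat.le_of_ble_eq_true c1
        exact box_step (by norm_num) hn cert6a x hx hne hs h01 (by linarith) hmax (by linarith) hi1 hi2 hj1 hj2 a2 hij
          (by norm_num) (by norm_num) hδ hδ3 (by norm_num) (by norm_num) (by norm_num) (by norm_num) (by norm_num) hbox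
      · rw [if_neg c1] at hbox
        by_cases c2 : Nat.ble i 261 = true
        · rw [if_pos c2] at hbox
          have h : (i : ℝ) ≤ 261 := by exact_mod_cast Nat.le_of_ble_eq_true c2
          exact box_step (by norm_num) hn cert6b x hx hne hs h01 (by linarith) hmax (by linarith) hi1 hi2 hj1 hj2 a2 hij
            (by norm_num) (by norm_num) hδ hδ3 (by norm_num) (by norm_num) (by norm_num) (by norm_num) (by norm_num) hbox
        · rw [if_neg c2] at hbox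
          exact box_step (by norm_num) hn cert6c x hx hne hs h01 (by linarith) hmax (by linarith) hi1 hi2 hj1 hj2 a2 hij
            (by norm_num) (by norm_num) hδ hδ3 (by norm_num) (by norm_num) (by norm_num) (by norm_num) (by norm_num) hbox
    refine hfin.trans ?_
    push_cast
    norm_num

end

end Agent238.GS
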