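import Pool.Agent.Helper238.GS.N2

/-!
# Dimensions at least six, III: the far cases
-/

open MeasureTheory Real Set Filter Pool.Agent.Helper238
open scoped ENNReal Topology Nat

namespace Agent238.GS

noncomputable section

/-- a geometric decay lemma -/
theorem pow_decay {A s : ℝ} (hA0 : 0 < A) (hA : A ≤ exp (-3)) (hs : 1 ≤ s) : A ^ s ≤ A / s ^ 3 := by
  have hs0 : 0 < s := by linarith
  have h1 : A ^ s = A * A ^ (s - 1) := by
    rw [← Real.rpow_one_add' hA0.le (by linarith)]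
    congr 1; ring
  have h2 : A ^ (s - 1) ≤ exp (-3) ^ (s - 1) := Real.rpow_le_rpow hA0.le hA (by linarith)
  have h3 : exp (-3) ^ (s - 1) = exp (-(3 * (s - 1))) := by
    rw [← Real.exp_mul]; congr 1; ring
  have h4 : s ≤ exp (s - 1) := by
    have := Real.add_one_le_exp (s - 1)
    linarith
  have h5 : s ^ 3 ≤ exp (3 * (s - 1)) := by
    have : exp (3 * (s - 1)) = exp (s - 1) ^ 3 := by rw [← Real.exp_nat_mul]; norm_num
    rw [this]
    exact pow_le_pow_left₀ hs0.le h4 3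
  rw [h1, le_div_iff₀ (by positivity), mul_assoc]
  refine mul_le_of_le_one_right hA0.le ?_
  calc A ^ (s - 1) * s ^ 3 ≤ exp (-(3 * (s - 1))) * exp (3 * (s - 1)) :=
        mul_le_mul (h2.trans h3.le) h5 (by positivity) (exp_pos _).le
    _ = 1 := by rw [← Real.exp_add]; norm_num

theorem rpow_329 {b B : ℝ} (hb : 0 < b) (hB : 0 ≤ B) (h : b ^ 32 ≤ B ^ 9) : b ^ (32 / 9 : ℝ) ≤ B := by
  have h1 : (b ^ (32 / 9 : ℝ)) ^ 9 ≤ B ^ 9 := by
    refine le_trans (le_of_eq ?_) h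
    rw [← Real.rpow_natCast (b ^ (32 / 9 : ℝ)) 9, ← Real.rpow_mul hb.le, ← Real.rpow_natCast b 32]
    norm_num
  exact le_of_pow_le_pow_left₀ (by norm_num) hB h1

/-- the tail weight for large total mass -/
theorem w_far {z lam : ℝ} (hz0 : 0 < z) (hz : z ≤ 18 / 100) (hl : 64 / 100 / z ≤ lam) :
    1438 / 10000 * (15 / 100 : ℝ) ^ lam + 34 / 10000 * (17 / 100 : ℝ) ^ lam ≤ 353 / 10000 * z ^ 3 := by
  obtain ⟨s, hs⟩ : ∃ s, s = 18 / 100 / z := ⟨_, rfl⟩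
  have hs1 : 1 ≤ s := by rw [hs, one_le_div hz0]; exact hz
  have hls : 32 / 9 * s ≤ lam := by
    refine le_trans (le_of_eq ?_) hl
    rw [hs]; field_simp; norm_num
  have he3 : (0.04 : ℝ) ≤ exp (-3) := by
    have h := Real.exp_one_lt_d9
    have h1 : exp (-3) = (exp 1 ^ 3)⁻¹ := by rw [← Real.exp_nat_mul, ← Real.exp_neg]; norm_num
    rw [h1]
    have h2 : exp 1 ^ 3 ≤ (2.7182818286 : ℝ) ^ 3 := pow_le_pow_left₀ (exp_pos _).le h.le 3
    have h3 : ((2.7182818286 : ℝ) ^ 3)⁻¹ ≤ (exp 1 ^ 3)⁻¹ := inv_anti₀ (by positivity) h2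
    refine le_trans ?_ h3
    norm_num
  have key : ∀ b B : ℝ, 0 < b → b ≤ 1 → 0 < B → B ≤ 0.04 → b ^ 32 ≤ B ^ 9 → b ^ lam ≤ B / s ^ 3 := by
    intro b B hb hb1 hB0 hB1 hbB
    have h1 : b ^ lam ≤ b ^ (32 / 9 * s) := Real.rpow_le_rpow_of_exponent_ge hb hb1 hls
    have h2 : b ^ (32 / 9 * s) = (b ^ (32 / 9 : ℝ)) ^ s := Real.rpow_mul hb.le _ _
    have h3 : (b ^ (32 / 9 : ℝ)) ^ s ≤ B ^ s := Real.rpow_le_rpow (by positivity) (rpow_329 hb hB0.le hbB) (by linarith)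
    have h4 := pow_decay hB0 (hB1.trans he3) hs1
    rw [h2] at h1
    exact (h1.trans h3).trans h4
  have k1 := key (15 / 100) (118 / 100000) (by norm_num) (by norm_num) (by norm_num) (by norm_num) (by norm_num)
  have k2 := key (17 / 100) (184 / 100000) (by norm_num) (by norm_num) (by norm_num) (by norm_num) (by norm_num)
  have hs3 : 1 / s ^ 3 = z ^ 3 / (18 / 100) ^ 3 := by
    rw [hs]; field_simp
  have e1 : (118 / 100000 : ℝ) / s ^ 3 = 118 / 100000 * (z ^ 3 / (18 / 100) ^ 3) := by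
    rw [← hs3]; ring
  have e2 : (184 / 100000 : ℝ) / s ^ 3 = 184 / 100000 * (z ^ 3 / (18 / 100) ^ 3) := by
    rw [← hs3]; ring
  rw [e1] at k1
  rw [e2] at k2
  have hz3 : 0 < z ^ 3 := by positivity
  obtain ⟨A, hA⟩ : ∃ A, A = (15 / 100 : ℝ) ^ lam := ⟨_, rfl⟩
  obtain ⟨B, hB⟩ : ∃ B, B = (17 / 100 : ℝ) ^ lam := ⟨_, rfl⟩
  rw [← hA] at k1 ⊢
  rw [← hB] at k2 ⊢
  have e3 : z ^ 3 / (18 / 100) ^ 3 = 15625000 / 91125 * z ^ 3 := by norm_num; ring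
  rw [e3] at k1 k2
  nlinarith only [k1, k2, hz3]

theorem qinv_le {x0 x1 : ℝ} (h1 : 0 < x1) (h01 : x1 ≤ x0) : (√(√x0) * √(√x1))⁻¹ ≤ (√x1)⁻¹ := by
  have hs1 : 0 < √x1 := Real.sqrt_pos.2 h1
  refine inv_anti₀ hs1 ?_
  have h2 : √(√x1) ≤ √(√x0) := Real.sqrt_le_sqrt (Real.sqrt_le_sqrt h01)
  have h3 : √(√x1) * √(√x1) = √x1 := Real.mul_self_sqrt (Real.sqrt_nonneg _)
  have h4 := mul_le_mul_of_nonneg_right h2 (Real.sqrt_nonneg (√x1))
  linarith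

theorem Eb_small {x : ℝ} (hx0 : 0 < x) (hx : x ≤ 1 / 3) : Eb x ≤ 3 / 10000 * x ^ 2 := by
  have haa := aa_num.1
  have haa0 : 0 < aa := by linarith
  have h1x : 2 / 3 ≤ 1 - x := by linarith
  have hsx : 0 < √x := Real.sqrt_pos.2 hx0
  have hss : √x ≤ 58 / 100 := Real.sqrt_le_iff.2 ⟨by norm_num, by norm_num at hx ⊢; linarith⟩
  obtain ⟨y, hy⟩ : ∃ y, y = 39 / 10 / x := ⟨_, rfl⟩
  have hy0 : 0 < y := by rw [hy]; positivity
  have e1 : -(aa * (1 - x)) * (64 / 10 / √x) ^ 2 ≤ -y := by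
    rw [div_pow, Real.sq_sqrt hx0.le]
    have h2 : y ≤ aa * (1 - x) * ((64 / 10) ^ 2 / x) := by
      rw [hy, show aa * (1 - x) * ((64 / 10) ^ 2 / x) = (aa * (1 - x) * (64 / 10) ^ 2) / x by ring]
      refine div_le_div_of_nonneg_right ?_ hx0.le
      have h3 : (14556254738 / 100000000000 : ℝ) * (2 / 3) ≤ aa * (1 - x) :=
        mul_le_mul haa.le h1x (by norm_num) haa0.le
      norm_num at h3 ⊢
      linarith
    linarith
  have e2 : exp (-(aa * (1 - x)) * (64 / 10 / √x) ^ 2) ≤ exp (-y) := Real.exp_le_exp.2 e1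
  have e3 : exp (-y) ≤ 40320 / y ^ 8 := by
    have h := Real.pow_div_factorial_le_exp y hy0.le 8
    have h8 : ((8 ! : ℕ) : ℝ) = 40320 := by norm_num [Nat.factorial]
    rw [h8] at h
    rw [Real.exp_neg, inv_le_comm₀ (exp_pos _) (by positivity), inv_div]
    exact h
  have e4 : 40320 / y ^ 8 = 40320 / (39 / 10) ^ 8 * x ^ 8 := by
    rw [hy]; field_simp
  have hx8 : x ^ 8 ≤ x ^ 2 * (1 / 729) := by
    have : x ^ 6 ≤ (1 / 3) ^ 6 := pow_le_pow_left₀ hx0.le hx 6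
    calc x ^ 8 = x ^ 2 * x ^ 6 := by ring
      _ ≤ x ^ 2 * (1 / 3) ^ 6 := mul_le_mul_of_nonneg_left this (by positivity)
      _ = x ^ 2 * (1 / 729) := by norm_num
  unfold Eb
  have e5 : aa * (1 - x) * (64 / 10 / √x) = (aa * (1 - x) * (64 / 10)) / √x := by ring
  rw [e5, div_div_eq_mul_div, ← mul_div_assoc, div_le_iff₀ (by positivity)]
  have h4 : (14556254738 / 100000000000 : ℝ) * (2 / 3) * (64 / 10) ≤ aa * (1 - x) * (64 / 10) := by
    have h3 : (14556254738 / 100000000000 : ℝ) * (2 / 3) ≤ aa * (1 - x) :=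
      mul_le_mul haa.le h1x (by norm_num) haa0.le
    linarith
  have h6 := mul_le_mul_of_nonneg_left h4 (by positivity : 0 ≤ 3 / 10000 * x ^ 2)
  have h7 : 14 / 100 * (exp (-(aa * (1 - x)) * (64 / 10 / √x) ^ 2) * √x) ≤
      14 / 100 * ((40320 / (39 / 10) ^ 8 * (x ^ 2 * (1 / 729))) * (58 / 100)) := by
    have h8 : exp (-(aa * (1 - x)) * (64 / 10 / √x) ^ 2) ≤ 40320 / (39 / 10) ^ 8 * (x ^ 2 * (1 / 729)) := by
      refine (e2.trans (e3.trans e4.le)).trans ?_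
      exact mul_le_mul_of_nonneg_left hx8 (by norm_num)
    have h9 : exp (-(aa * (1 - x)) * (64 / 10 / √x) ^ 2) * √x ≤ 40320 / (39 / 10) ^ 8 * (x ^ 2 * (1 / 729)) * (58 / 100) :=
      mul_le_mul h8 hss hsx.le (by positivity)
    linarith
  refine h7.trans (le_trans ?_ h6)
  have hx2 : 0 < x ^ 2 := by positivity
  nlinarith only [hx2]

theorem one_div_le_max {n : ℕ} (x : Fin n → ℝ) (hs : ∑ i, x i = 1) {i0 : Fin n} (hmax : ∀ i, x i ≤ x i0) :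
    1 / (n : ℝ) ≤ x i0 := by
  by_contra hcon
  push Not at hcon
  have hne' : Nonempty (Fin n) := ⟨i0⟩
  have : ∑ i, x i < ∑ _i : Fin n, 1 / (n : ℝ) :=
    Finset.sum_lt_sum_of_nonempty Finset.univ_nonempty fun i _ => lt_of_le_of_lt (hmax i) hcon
  rw [Finset.sum_const, Finset.card_univ, Fintype.card_fin, nsmul_eq_mul, hs] at this
  have hn0 : (0 : ℝ) < n := by exact_mod_cast Fin.pos i0
  have h3 : (n : ℝ) * (1 / n) = 1 := by field_simp
  linarith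

/-- far cases (i), (ii) -/
theorem regionFar1 {n : ℕ} (hn : 6 ≤ n) (x : Fin n → ℝ) (hx : ∀ i, 0 ≤ x i) {i0 i1 : Fin n} (hne : i1 ≠ i0) (hs : ∑ i, x i = 1)
    (h01 : x i1 ≤ x i0) (h1 : 0 < x i1) (hmax : ∀ i, i ≠ i0 → x i ≤ x i1) (h0 : x i0 ≤ 1 / 3) (h1u : x i1 ≤ 18 / 100)
    (hm : 64 / 100 ≤ 1 - x i0 - x i1) (hK : ∃ k, x k < 7 / 10 * x i0) :
    ∫ t, ∏ i, ph (√(x i) * t) ≤ Vd n := by
  have h0p : 0 < x i0 := h1.trans_le h01
  have hlam : 64 / 100 / x i1 ≤ (1 - x i0 - x i1) / x i1 := div_le_div_of_nonneg_right hm h1.le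
  have hw := w_far h1 h1u hlam
  have hδ : 45 / 1000 * x i0 ^ 2 ≤ ∑ i, x i ^ 2 - 1 / (n : ℝ) := by
    obtain ⟨k, hk⟩ := hK
    have hk0 : k ≠ i0 := by
      rintro rfl
      linarith
    have h6 := sq_dev x hs hk0 (by omega)
    have h7 : (3 / 10 * x i0) ^ 2 ≤ (x i0 - x k) ^ 2 := pow_le_pow_left₀ (by linarith) (by linarith) 2
    nlinarith only [h6, h7]
  have hδ3 : 0 ≤ ∑ i, x i ^ 3 - 1 / (n : ℝ) ^ 2 := by
    have := cube_rest (Finset.univ : Finset (Fin n)) x hx (c := n) (by simp)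
    rw [hs, one_pow] at this
    linarith
  have hC := cert6a
  have huT : ((6 : ℕ) : ℝ) * uu6a ^ 2 * x i0 ≤ tau ^ 2 := by
    refine le_trans ?_ hC.uT
    exact mul_le_mul_of_nonneg_left (by linarith) (by positivity)
  have hP := P_upper (by norm_num : 0 < 6) hn x hx hne hs h01 h1 hmax (by linarith) (Or.inl hw)
    (by positivity : 0 ≤ 3 / 10000 * x i0 ^ 2) (Or.inr (Eb_small h0p h0))
    (by positivity : 0 ≤ 45 / 1000 * x i0 ^ 2) le_rfl hδ hδ3 hC.u0 hC.ut huT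
  have hg := gp_mono (δ := 45 / 1000 * x i0 ^ 2) (δ3 := 0) (by positivity) le_rfl hC.h4 hC.h6 hC.h8 hC.h10 hC.h12
  have hA := (Am_le hn).1
  have hn0 : (0 : ℝ) < n := by exact_mod_cast (by omega : 0 < n)
  have hinv : 1 / (n : ℝ) ≤ x i0 := one_div_le_max x hs (fun i => by
    by_cases h : i = i0
    · rw [h]
    · exact (hmax i h).trans h01)
  have hJ : 142 / 100000 / (n : ℝ) ^ 2 ≤ 142 / 100000 * x i0 ^ 2 := by
    have : (1 / (n : ℝ)) ^ 2 ≤ x i0 ^ 2 := pow_le_pow_left₀ (by positivity) hinv 2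
    rw [one_div, inv_pow] at this
    rw [div_eq_mul_inv]
    exact mul_le_mul_of_nonneg_left this (by norm_num)
  -- tail
  have hT : (√(√(x i0)) * √(√(x i1)))⁻¹ * (353 / 10000 * x i1 ^ 3) ≤ 151 / 10000 * x i0 ^ 2 := by
    have hq := qinv_le h1 h01
    have hs1 : 0 < √(x i1) := Real.sqrt_pos.2 h1
    have h3 : (√(√(x i0)) * √(√(x i1)))⁻¹ * (353 / 10000 * x i1 ^ 3) ≤ (√(x i1))⁻¹ * (353 / 10000 * x i1 ^ 3) :=
      mul_le_mul_of_nonneg_right hq (by positivity)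
    have h4 : (√(x i1))⁻¹ * (353 / 10000 * x i1 ^ 3) = 353 / 10000 * x i1 ^ 2 * √(x i1) := by
      have h5 : √(x i1) * √(x i1) = x i1 := Real.mul_self_sqrt h1.le
      field_simp
      rw [Real.sq_sqrt h1.le]
    have h5 : √(x i1) ≤ 4243 / 10000 := Real.sqrt_le_iff.2 ⟨by norm_num, by norm_num at h1u ⊢; linarith⟩
    have h6 : x i1 ^ 2 ≤ x i0 ^ 2 := pow_le_pow_left₀ h1.le h01 2
    have h7 : 353 / 10000 * x i1 ^ 2 * √(x i1) ≤ 353 / 10000 * x i0 ^ 2 * (4243 / 10000) :=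
      mul_le_mul (by linarith) h5 hs1.le (by positivity)
    have hx2 : 0 < x i0 ^ 2 := by positivity
    rw [h4] at h3
    nlinarith only [h3, h7, hx2]
  have hx2 : 0 < x i0 ^ 2 := by positivity
  have hx4 : x i0 ^ 2 * x i0 ^ 2 ≤ 1 / 9 * x i0 ^ 2 := by
    have : x i0 ^ 2 ≤ 1 / 9 := by nlinarith
    exact mul_le_mul_of_nonneg_right this hx2.le
  have hgv : 199 / 10000 * x i0 ^ 2 ≤ gp (119973 / 1000) (154819 / 100) (127211 / 5) 478653 9901360 (45 / 1000 * x i0 ^ 2) 0 := by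
    unfold gp
    nlinarith only [hx4, hx2]
  have hg2 := hgv.trans hg
  unfold gp at hg2
  nlinarith only [hP, hg2, hA, hJ, hT, hx2]

/-- far case (iii) -/
theorem regionFar2 {n : ℕ} (hn : 6 ≤ n) (x : Fin n → ℝ) (hx : ∀ i, 0 ≤ x i) {i0 i1 : Fin n} (hne : i1 ≠ i0) (hs : ∑ i, x i = 1)
    (h1 : 0 < x i1) (hmax : ∀ i, i ≠ i0 → x i ≤ x i1) (hsum : 1 / 3 ≤ x i0 + x i1)
    (h1u : x i1 < 4 / 100) (hD : x i0 < 1 / 2 + (1 - x i0 - x i1) / 6) :
    ∫ t, ∏ i, ph (√(x i) * t) ≤ Vd n := by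
  have h0l : 293 / 1000 < x i0 := by linarith
  have h0u : x i0 < 572 / 1000 := by linarith
  have h0p : 0 < x i0 := by linarith
  have h01 : x i1 ≤ x i0 := by linarith
  have hz0 : 0 < 165 / 100 * x i1 := by linarith
  have hlam : 64 / 100 / (165 / 100 * x i1) ≤ (1 - x i0 - x i1) / x i1 := by
    rw [div_le_div_iff₀ hz0 h1]
    nlinarith
  have hw := w_far hz0 (by linarith) hlam
  have hδ : 1 / 4 * x i0 ^ 2 ≤ ∑ i, x i ^ 2 - 1 / (n : ℝ) := by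
    have h6 := sq_dev x hs hne (by omega)
    have h7 : (86 / 100 * x i0) ^ 2 ≤ (x i0 - x i1) ^ 2 := pow_le_pow_left₀ (by linarith) (by linarith) 2
    nlinarith only [h6, h7]
  have hδ3 : 0 ≤ ∑ i, x i ^ 3 - 1 / (n : ℝ) ^ 2 := by
    have := cube_rest (Finset.univ : Finset (Fin n)) x hx (c := n) (by simp)
    rw [hs, one_pow] at this
    linarith
  have hC := cert6c
  have huT : ((6 : ℕ) : ℝ) * uu6c ^ 2 * x i0 ≤ tau ^ 2 := by
    refine le_trans ?_ hC.uT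
    exact mul_le_mul_of_nonneg_left (by linarith) (by positivity)
  have hP := P_upper (by norm_num : 0 < 6) hn x hx hne hs h01 h1 hmax (by linarith) (Or.inl hw)
    (by norm_num : (0 : ℝ) ≤ 5 / 1000) (Or.inr (Eb_572 h0p h0u.le))
    (by positivity : 0 ≤ 1 / 4 * x i0 ^ 2) le_rfl hδ hδ3 hC.u0 hC.ut huT
  have hg := gp_mono (δ := 1 / 4 * x i0 ^ 2) (δ3 := 0) (by positivity) le_rfl hC.h4 hC.h6 hC.h8 hC.h10 hC.h12
  have hA := (Am_le hn).2
  have hT : (√(√(x i0)) * √(√(x i1)))⁻¹ * (353 / 10000 * (165 / 100 * x i1) ^ 3) ≤ 1 / 1000 := by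
    have hq := qinv_le h1 h01
    have hs1 : 0 < √(x i1) := Real.sqrt_pos.2 h1
    have h3 : (√(√(x i0)) * √(√(x i1)))⁻¹ * (353 / 10000 * (165 / 100 * x i1) ^ 3) ≤
        (√(x i1))⁻¹ * (353 / 10000 * (165 / 100 * x i1) ^ 3) :=
      mul_le_mul_of_nonneg_right hq (by positivity)
    have h4 : (√(x i1))⁻¹ * (353 / 10000 * (165 / 100 * x i1) ^ 3) = 353 / 10000 * (165 / 100) ^ 3 * x i1 ^ 2 * √(x i1) := by
      have h5 : √(x i1) * √(x i1) = x i1 := Real.mul_self_sqrt h1.le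
      field_simp
      rw [Real.sq_sqrt h1.le]
    have h5 : √(x i1) ≤ 2 / 10 := Real.sqrt_le_iff.2 ⟨by norm_num, by norm_num at h1u ⊢; linarith⟩
    have h6 : x i1 ^ 2 ≤ (4 / 100) ^ 2 := pow_le_pow_left₀ h1.le h1u.le 2
    have h7 : 353 / 10000 * (165 / 100) ^ 3 * x i1 ^ 2 * √(x i1) ≤ 353 / 10000 * (165 / 100) ^ 3 * (4 / 100) ^ 2 * (2 / 10) :=
      mul_le_mul (by linarith) h5 hs1.le (by positivity)
    rw [h4] at h3
    norm_num at h3 h7 ⊢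
    linarith
  have hx2 : (293 / 1000) ^ 2 ≤ x i0 ^ 2 := pow_le_pow_left₀ (by norm_num) h0l.le 2
  have hx2' : x i0 ^ 2 ≤ (572 / 1000) ^ 2 := pow_le_pow_left₀ h0p.le h0u.le 2
  have hx4 : x i0 ^ 2 * x i0 ^ 2 ≤ (572 / 1000) ^ 2 * x i0 ^ 2 := mul_le_mul_of_nonneg_right hx2' (by positivity)
  have hgv : 9 / 100 * x i0 ^ 2 ≤ gp (104673 / 1000) (29302 / 25) (79882 / 5) 242203 3946920 (1 / 4 * x i0 ^ 2) 0 := by
    unfold gp
    norm_num at hx4
    nlinarith only [hx4, hx2]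
  have hg2 := hgv.trans hg
  unfold gp at hg2
  norm_num at hx2
  nlinarith only [hP, hg2, hA, hT, hx2]

end

end Agent238.GS
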