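import Pool.Agent.Helper238.GS.D4
import Pool.Agent.Helper238.GS.CE0

/-!
# The pair region, I: tails
-/

open MeasureTheory Real Set Filter Pool.Agent.Helper238
open scoped ENNReal Topology Nat

namespace Agent238.GS

noncomputable section

theorem ph_rescale {b y t : ℝ} (hb : 0 < b) (hy : 0 ≤ y) : |ph (√y * t)| = |ph (√(y / b) * |√b * t|)| := by
  have h : |√y * t| = √(y / b) * |√b * t| := by
    rw [abs_mul, abs_mul, abs_of_nonneg (Real.sqrt_nonneg y), abs_of_nonneg (Real.sqrt_nonneg b),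
      Real.sqrt_div hy]
    have : √b ≠ 0 := (Real.sqrt_pos.2 hb).ne'
    field_simp
  rw [← h, ph_abs]

theorem others_pow {ι : Type*} (S : Finset ι) (x : ι → ℝ) (hx : ∀ i, 0 ≤ x i) {b : ℝ} (hb : 0 < b)
    (hxb : ∀ i ∈ S, x i ≤ b) {c t : ℝ} (hc : 0 < c)
    (h : ∀ r : ℝ, 0 ≤ r → r ≤ 1 → |ph (√r * |√b * t|)| ≤ c ^ r) :
    ∏ i ∈ S, |ph (√(x i) * t)| ≤ c ^ ((∑ i ∈ S, x i) / b) := by
  rw [Finset.sum_div, Real.rpow_sum_of_pos hc]
  refine Finset.prod_le_prod (fun _ _ => abs_nonneg _) fun i hi => ?_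
  rw [ph_rescale hb (hx i)]
  exact h _ (div_nonneg (hx i) hb.le) ((div_le_one hb).2 (hxb i hi))

theorem others_17 {ι : Type*} (S : Finset ι) (x : ι → ℝ) (hx : ∀ i, 0 ≤ x i) {b : ℝ} (hb : 0 < b)
    (hxb : ∀ i ∈ S, x i ≤ b) {t : ℝ} (ht : tau ≤ |√b * t|) :
    ∏ i ∈ S, |ph (√(x i) * t)| ≤ (17 / 100 : ℝ) ^ ((∑ i ∈ S, x i) / b) :=
  others_pow S x hx hb hxb (by norm_num) fun _ h0 h1 => ph_r17 h0 h1 ht

theorem others_15 {ι : Type*} (S : Finset ι) (x : ι → ℝ) (hx : ∀ i, 0 ≤ x i) {b : ℝ} (hb : 0 < b)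
    (hxb : ∀ i ∈ S, x i ≤ b) {t : ℝ} (ht : 362 / 100 ≤ |√b * t|) :
    ∏ i ∈ S, |ph (√(x i) * t)| ≤ (15 / 100 : ℝ) ^ ((∑ i ∈ S, x i) / b) :=
  others_pow S x hx hb hxb (by norm_num) fun _ h0 h1 => ph_r15 h0 h1 ht

theorem others_05 {ι : Type*} (S : Finset ι) (x : ι → ℝ) (hx : ∀ i, 0 ≤ x i) {b : ℝ} (hb : 0 < b)
    {t : ℝ} (ht : 45 / 10 ≤ |√b * t|) :
    ∏ i ∈ S, |ph (√(x i) * t)| ≤ max (15 / 100) ((525 / 10000 : ℝ) ^ ((∑ i ∈ S, x i) / b)) := by
  by_cases h : ∀ i ∈ S, |√(x i) * t| ≤ tau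
  · refine le_trans ?_ (le_max_right _ _)
    have h1 : ∏ i ∈ S, |ph (√(x i) * t)| ≤ ∏ i ∈ S, exp (-aa * (x i * t ^ 2)) := by
      refine Finset.prod_le_prod (fun i _ => abs_nonneg _) fun i hi => ?_
      refine (ph_le_exp (h i hi)).trans (le_of_eq ?_)
      rw [mul_pow, Real.sq_sqrt (hx i)]
    rw [← Real.exp_sum, ← Finset.mul_sum, ← Finset.sum_mul] at h1
    refine h1.trans ?_
    obtain ⟨m, hm⟩ : ∃ m, m = ∑ i ∈ S, x i := ⟨_, rfl⟩
    have hm0 : 0 ≤ m := by rw [hm]; exact Finset.sum_nonneg fun i _ => hx i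
    rw [← hm]
    have hbt : (45 / 10) ^ 2 ≤ b * t ^ 2 := by
      have := pow_le_pow_left₀ (by norm_num) ht 2
      rw [sq_abs, mul_pow, Real.sq_sqrt hb.le] at this
      exact this
    have haa := aa_num.1
    have h2 : exp (-(aa * (2025 / 100))) ≤ 525 / 10000 := by
      have e : -(aa * (2025 / 100)) ≤ -(2947 / 1000) := by linarith
      refine (Real.exp_le_exp.2 e).trans ?_
      have he := Real.exp_neg_one_lt_d9
      have h3 : exp (-(2947 / 1000)) = exp (-1) ^ 3 * exp (53 / 1000) := by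
        rw [← Real.exp_nat_mul, ← Real.exp_add]; congr 1; norm_num
      have h4 : exp (53 / 1000) ≤ 105444 / 100000 := by
        have := Real.exp_bound' (by norm_num : (0 : ℝ) ≤ 53 / 1000) (by norm_num) (n := 3) (by norm_num)
        simp only [Finset.sum_range_succ, Finset.sum_range_zero, Nat.factorial] at this
        norm_num at this
        linarith
      rw [h3]
      have h5 : exp (-1) ^ 3 ≤ (0.3678794412 : ℝ) ^ 3 := pow_le_pow_left₀ (exp_pos _).le he.le 3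
      have h6 : exp (-1) ^ 3 * exp (53 / 1000) ≤ (0.3678794412 : ℝ) ^ 3 * (105444 / 100000) :=
        mul_le_mul h5 h4 (exp_pos _).le (by positivity)
      refine h6.trans ?_
      norm_num
    have h3 : -aa * (m * t ^ 2) ≤ -(aa * (2025 / 100)) * (m / b) := by
      have h4 : m * t ^ 2 = m / b * (b * t ^ 2) := by field_simp
      have h5 : 0 ≤ m / b := by positivity
      have h6 : m / b * (45 / 10) ^ 2 ≤ m / b * (b * t ^ 2) := mul_le_mul_of_nonneg_left hbt h5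
      rw [h4]
      have h7 : 0 < aa := by linarith
      have h8 := mul_le_mul_of_nonneg_left h6 h7.le
      nlinarith only [h8]
    refine (Real.exp_le_exp.2 h3).trans ?_
    rw [Real.exp_mul]
    exact Real.rpow_le_rpow (exp_pos _).le h2 (by positivity)
  · refine le_trans ?_ (le_max_left _ _)
    push Not at h
    obtain ⟨i, hi, hi2⟩ := h
    classical
    rw [← Finset.mul_prod_erase S _ hi]
    have h2 : |ph (√(x i) * t)| ≤ 15 / 100 := by
      rw [← ph_abs]; exact ph_abs_15 hi2.le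
    have h3 : ∏ j ∈ S.erase i, |ph (√(x j) * t)| ≤ 1 :=
      Finset.prod_le_one (fun _ _ => abs_nonneg _) fun _ _ => ph_abs_le _
    have h4 : 0 ≤ ∏ j ∈ S.erase i, |ph (√(x j) * t)| := Finset.prod_nonneg fun _ _ => abs_nonneg _
    nlinarith [abs_nonneg (ph (√(x i) * t))]

/-- mass beyond `u` -/
def Qf (u : ℝ) : ℝ := ∫ v, Set.indicator {v : ℝ | u ≤ |v|} (fun v => ph v ^ 2) v

theorem meas_set (x u : ℝ) : MeasurableSet {t : ℝ | u ≤ |x * t|} :=
  measurableSet_le measurable_const (by fun_prop)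

theorem meas_set' (u : ℝ) : MeasurableSet {t : ℝ | u ≤ |t|} :=
  measurableSet_le measurable_const (by fun_prop)

theorem Qf_int (u : ℝ) : Integrable (Set.indicator {v : ℝ | u ≤ |v|} (fun v => ph v ^ 2)) :=
  ph_sq_int.indicator (meas_set' u)

theorem Qf_nonneg (u : ℝ) : 0 ≤ Qf u :=
  integral_nonneg fun v => Set.indicator_nonneg (fun _ _ => sq_nonneg _) v

theorem Qf_anti {u u' : ℝ} (h : u ≤ u') : Qf u' ≤ Qf u := by
  refine integral_mono (Qf_int u') (Qf_int u) fun v => ?_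
  refine Set.indicator_le_indicator_of_subset (fun w hw => ?_) (fun _ => sq_nonneg _) v
  exact h.trans hw

theorem Qf_scale {x : ℝ} (hx : 0 < x) (u : ℝ) :
    ∫ t, Set.indicator {t : ℝ | u ≤ |√x * t|} (fun t => ph (√x * t) ^ 2) t = (√x)⁻¹ * Qf u := by
  have hs : 0 < √x := Real.sqrt_pos.2 hx
  have h := Measure.integral_comp_mul_left (Set.indicator {v : ℝ | u ≤ |v|} (fun v => ph v ^ 2)) (√x)
  rw [abs_of_pos (inv_pos.2 hs), smul_eq_mul] at h
  unfold Qf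
  rw [← h]
  rfl

theorem Qf_scale_int {x : ℝ} (hx : 0 < x) (u : ℝ) :
    Integrable (Set.indicator {t : ℝ | u ≤ |√x * t|} (fun t => ph (√x * t) ^ 2)) :=
  (ph_sc_sq_int hx).indicator (meas_set _ u)

theorem Qf_eq {u : ℝ} (hu : 0 ≤ u) : Qf u = G0 - 2 * JJ 0 2 u := by
  have h1 : (fun v => ph v ^ 2) = fun v => Set.indicator {v : ℝ | u ≤ |v|} (fun v => ph v ^ 2) v +
      Set.indicator (Set.Ioo (-u) u) (fun v => ph v ^ 2) v := by
    funext v
    by_cases h : u ≤ |v|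
    · have h2 : v ∉ Set.Ioo (-u) u := fun h3 => absurd (abs_lt.2 ⟨h3.1, h3.2⟩) (not_lt.2 h)
      rw [Set.indicator_of_mem (show v ∈ {v : ℝ | u ≤ |v|} from h), Set.indicator_of_notMem h2, add_zero]
    · have h2 : v ∈ Set.Ioo (-u) u := by
        have := abs_lt.1 (not_le.1 h)
        exact ⟨this.1, this.2⟩
      rw [Set.indicator_of_notMem (show v ∉ {v : ℝ | u ≤ |v|} from h), Set.indicator_of_mem h2, zero_add]
  have h2 : ∫ v, ph v ^ 2 = Qf u + ∫ v in Set.Ioo (-u) u, ph v ^ 2 := by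
    rw [h1, integral_add (Qf_int u) (ph_sq_int.indicator measurableSet_Ioo)]
    rw [MeasureTheory.integral_indicator measurableSet_Ioo]
    unfold Qf
    congr 1
    rw [← h1]
  have hc : ∀ a b, IntervalIntegrable (fun v : ℝ => ph v ^ 2) volume a b := fun a b =>
    (ph_cont.pow 2).intervalIntegrable a b
  have h3 : ∫ v in Set.Ioo (-u) u, ph v ^ 2 = 2 * JJ 0 2 u := by
    rw [← integral_Ioc_eq_integral_Ioo, ← intervalIntegral.integral_of_le (by linarith),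
      ← intervalIntegral.integral_add_adjacent_intervals (hc (-u) 0) (hc 0 u)]
    have h4 := intervalIntegral.integral_comp_neg (f := fun v => ph v ^ 2) (a := -u) (b := 0)
    simp only [neg_neg, neg_zero, ph_even] at h4
    rw [h4]
    unfold JJ
    simp only [pow_zero, one_mul]
    ring
  rw [planch, h3] at h2
  linarith

/-- the tail of the product, pointwise -/
theorem tail_pt {n : ℕ} (x : Fin n → ℝ) (hx : ∀ i, 0 ≤ x i) {i0 i1 : Fin n} (hne : i1 ≠ i0)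
    (h01 : x i1 ≤ x i0) (h1 : 0 < x i1) {vs c w1 w2 q0 q1 : ℝ} (hvs : tau ≤ vs) (hc : 0 < c)
    (hq0 : 0 < q0) (hq1 : 0 < q1)
    (hw1 : ∀ t, tau ≤ |√(x i1) * t| → ∏ i ∈ (Finset.univ.erase i0).erase i1, |ph (√(x i) * t)| ≤ w1)
    (hw2 : ∀ t, vs ≤ |√(x i1) * t| → ∏ i ∈ (Finset.univ.erase i0).erase i1, |ph (√(x i) * t)| ≤ w2)
    (hw10 : 0 ≤ w1) (hw20 : 0 ≤ w2) (t : ℝ) :
    Set.indicator {t : ℝ | tau ≤ |√(x i1) * t|} (fun t => |∏ i, ph (√(x i) * t)|) t ≤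
      (q0 / q1 * c / 2 * w1) * Set.indicator {t : ℝ | tau ≤ |√(x i0) * t|} (fun t => ph (√(x i0) * t) ^ 2) t +
      (q1 / (q0 * c) / 2 * w1) * (Set.indicator {t : ℝ | tau ≤ |√(x i1) * t|} (fun t => ph (√(x i1) * t) ^ 2) t -
        Set.indicator {t : ℝ | vs ≤ |√(x i1) * t|} (fun t => ph (√(x i1) * t) ^ 2) t) +
      ((q0 / q1 / 2 * w2) * Set.indicator {t : ℝ | vs ≤ |√(x i0) * t|} (fun t => ph (√(x i0) * t) ^ 2) t +
      (q1 / q0 / 2 * w2) * Set.indicator {t : ℝ | vs ≤ |√(x i1) * t|} (fun t => ph (√(x i1) * t) ^ 2) t) := by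
  have hmono : |√(x i1) * t| ≤ |√(x i0) * t| := by
    rw [abs_mul, abs_mul, abs_of_nonneg (Real.sqrt_nonneg _), abs_of_nonneg (Real.sqrt_nonneg _)]
    exact mul_le_mul_of_nonneg_right (Real.sqrt_le_sqrt h01) (abs_nonneg t)
  by_cases ha : tau ≤ |√(x i1) * t|
  · rw [Set.indicator_of_mem (show t ∈ {t : ℝ | tau ≤ |√(x i1) * t|} from ha),
      Set.indicator_of_mem (show t ∈ {t : ℝ | tau ≤ |√(x i0) * t|} from ha.trans hmono),
      Set.indicator_of_mem (show t ∈ {t : ℝ | tau ≤ |√(x i1) * t|} from ha)]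
    rw [prod_split _ hne, abs_mul, abs_mul, Finset.abs_prod]
    obtain ⟨f, hf⟩ : ∃ f, f = |ph (√(x i0) * t)| := ⟨_, rfl⟩
    obtain ⟨g, hg⟩ : ∃ f, f = |ph (√(x i1) * t)| := ⟨_, rfl⟩
    have f0 : 0 ≤ f := by rw [hf]; exact abs_nonneg _
    have g0 : 0 ≤ g := by rw [hg]; exact abs_nonneg _
    rw [← sq_abs (ph (√(x i0) * t)), ← hf, ← hg]
    have am : ∀ β : ℝ, 0 < β → f * g ≤ β / 2 * f ^ 2 + 1 / β / 2 * g ^ 2 := by
      intro β hβ
      have e : β / 2 * f ^ 2 + 1 / β / 2 * g ^ 2 - f * g = (β * f - g) ^ 2 / (2 * β) := by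
        field_simp; ring
      have h5 : 0 ≤ (β * f - g) ^ 2 / (2 * β) := by positivity
      linarith
    by_cases hb : vs ≤ |√(x i1) * t|
    · rw [Set.indicator_of_mem (show t ∈ {t : ℝ | vs ≤ |√(x i1) * t|} from hb),
        Set.indicator_of_mem (show t ∈ {t : ℝ | vs ≤ |√(x i0) * t|} from hb.trans hmono)]
      rw [← sq_abs (ph (√(x i0) * t)), ← sq_abs (ph (√(x i1) * t)), ← hf, ← hg]
      have h2 := hw2 t hb
      have h3 : f * (g * ∏ i ∈ (Finset.univ.erase i0).erase i1, |ph (√(x i) * t)|) ≤ f * g * w2 := by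
        rw [← mul_assoc]; exact mul_le_mul_of_nonneg_left h2 (by positivity)
      have h4 := mul_le_mul_of_nonneg_right (am (q0 / q1) (by positivity)) hw20
      have h5 : 1 / (q0 / q1) = q1 / q0 := by field_simp
      rw [h5] at h4
      have h6 : 0 ≤ q0 / q1 * c / 2 * w1 * f ^ 2 := by positivity
      rw [sub_self, mul_zero, add_zero]
      linarith
    · rw [Set.indicator_of_notMem (show t ∉ {t : ℝ | vs ≤ |√(x i1) * t|} from hb), sub_zero, mul_zero, add_zero]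
      rw [← sq_abs (ph (√(x i1) * t)), ← hg]
      have h2 := hw1 t ha
      have h3 : f * (g * ∏ i ∈ (Finset.univ.erase i0).erase i1, |ph (√(x i) * t)|) ≤ f * g * w1 := by
        rw [← mul_assoc]; exact mul_le_mul_of_nonneg_left h2 (by positivity)
      have h4 := mul_le_mul_of_nonneg_right (am (q0 / q1 * c) (by positivity)) hw10
      have h5 : 1 / (q0 / q1 * c) = q1 / (q0 * c) := by field_simp
      rw [h5] at h4
      have h6 : 0 ≤ q0 / q1 / 2 * w2 * Set.indicator {t : ℝ | vs ≤ |√(x i0) * t|} (fun t => ph (√(x i0) * t) ^ 2) t :=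
        mul_nonneg (by positivity) (Set.indicator_nonneg (fun _ _ => sq_nonneg _) t)
      linarith
  · rw [Set.indicator_of_notMem (show t ∉ {t : ℝ | tau ≤ |√(x i1) * t|} from ha)]
    have hb : ¬ vs ≤ |√(x i1) * t| := fun h => ha (hvs.trans h)
    rw [Set.indicator_of_notMem (show t ∉ {t : ℝ | tau ≤ |√(x i1) * t|} from ha),
      Set.indicator_of_notMem (show t ∉ {t : ℝ | vs ≤ |√(x i1) * t|} from hb), sub_zero, mul_zero, mul_zero, add_zero, add_zero]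
    have e1 : 0 ≤ Set.indicator {t : ℝ | tau ≤ |√(x i0) * t|} (fun t => ph (√(x i0) * t) ^ 2) t :=
      Set.indicator_nonneg (fun _ _ => sq_nonneg _) t
    have e2 : 0 ≤ Set.indicator {t : ℝ | vs ≤ |√(x i0) * t|} (fun t => ph (√(x i0) * t) ^ 2) t :=
      Set.indicator_nonneg (fun _ _ => sq_nonneg _) t
    positivity

/-- the integral of the tail -/
theorem tail_int {n : ℕ} (x : Fin n → ℝ) (hx : ∀ i, 0 ≤ x i) {i0 i1 : Fin n} (hne : i1 ≠ i0)
    (h01 : x i1 ≤ x i0) (h1 : 0 < x i1) {vs c w1 w2 : ℝ} (hvs : tau ≤ vs) (hc : 0 < c)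
    (hw1 : ∀ t, tau ≤ |√(x i1) * t| → ∏ i ∈ (Finset.univ.erase i0).erase i1, |ph (√(x i) * t)| ≤ w1)
    (hw2 : ∀ t, vs ≤ |√(x i1) * t| → ∏ i ∈ (Finset.univ.erase i0).erase i1, |ph (√(x i) * t)| ≤ w2)
    (hw10 : 0 ≤ w1) (hw20 : 0 ≤ w2) :
    ∫ t, Set.indicator {t : ℝ | tau ≤ |√(x i1) * t|} (fun t => |∏ i, ph (√(x i) * t)|) t ≤
      (√(√(x i0)) * √(√(x i1)))⁻¹ * (w1 * ((c * Qf tau + (Qf tau - Qf vs) / c) / 2) + w2 * Qf vs) := by
  have h0 : 0 < x i0 := h1.trans_le h01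
  obtain ⟨q0, hq0⟩ : ∃ q, q = √(√(x i0)) := ⟨_, rfl⟩
  obtain ⟨q1, hq1⟩ : ∃ q, q = √(√(x i1)) := ⟨_, rfl⟩
  have hq0p : 0 < q0 := by rw [hq0]; exact Real.sqrt_pos.2 (Real.sqrt_pos.2 h0)
  have hq1p : 0 < q1 := by rw [hq1]; exact Real.sqrt_pos.2 (Real.sqrt_pos.2 h1)
  have hq02 : √(x i0) = q0 ^ 2 := by rw [hq0, Real.sq_sqrt (Real.sqrt_nonneg _)]
  have hq12 : √(x i1) = q1 ^ 2 := by rw [hq1, Real.sq_sqrt (Real.sqrt_nonneg _)]
  rw [← hq0, ← hq1]
  have A0 := Qf_scale_int h0 tau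
  have A1 := Qf_scale_int h1 tau
  have A2 := Qf_scale_int h1 vs
  have A3 := Qf_scale_int h0 vs
  have J1 : Integrable (fun t => (q0 / q1 * c / 2 * w1) * Set.indicator {t : ℝ | tau ≤ |√(x i0) * t|} (fun t => ph (√(x i0) * t) ^ 2) t +
      (q1 / (q0 * c) / 2 * w1) * (Set.indicator {t : ℝ | tau ≤ |√(x i1) * t|} (fun t => ph (√(x i1) * t) ^ 2) t -
        Set.indicator {t : ℝ | vs ≤ |√(x i1) * t|} (fun t => ph (√(x i1) * t) ^ 2) t)) :=
    (A0.const_mul _).add ((A1.sub A2).const_mul _)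
  have J2 : Integrable (fun t => (q0 / q1 / 2 * w2) * Set.indicator {t : ℝ | vs ≤ |√(x i0) * t|} (fun t => ph (√(x i0) * t) ^ 2) t +
      (q1 / q0 / 2 * w2) * Set.indicator {t : ℝ | vs ≤ |√(x i1) * t|} (fun t => ph (√(x i1) * t) ^ 2) t) :=
    (A3.const_mul _).add (A2.const_mul _)
  have hint := (prod_int_two x hne h0 h1).abs.indicator (meas_set (√(x i1)) tau)
  refine (integral_mono hint (J1.add J2) (tail_pt x hx hne h01 h1 hvs hc hq0p hq1p hw1 hw2 hw10 hw20)).trans ?_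
  show ∫ t, ((q0 / q1 * c / 2 * w1) * Set.indicator {t : ℝ | tau ≤ |√(x i0) * t|} (fun t => ph (√(x i0) * t) ^ 2) t +
      (q1 / (q0 * c) / 2 * w1) * (Set.indicator {t : ℝ | tau ≤ |√(x i1) * t|} (fun t => ph (√(x i1) * t) ^ 2) t -
        Set.indicator {t : ℝ | vs ≤ |√(x i1) * t|} (fun t => ph (√(x i1) * t) ^ 2) t) +
      ((q0 / q1 / 2 * w2) * Set.indicator {t : ℝ | vs ≤ |√(x i0) * t|} (fun t => ph (√(x i0) * t) ^ 2) t +
      (q1 / q0 / 2 * w2) * Set.indicator {t : ℝ | vs ≤ |√(x i1) * t|} (fun t => ph (√(x i1) * t) ^ 2) t)) ≤ _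
  have A12 : Integrable (fun t => Set.indicator {t : ℝ | tau ≤ |√(x i1) * t|} (fun t => ph (√(x i1) * t) ^ 2) t -
        Set.indicator {t : ℝ | vs ≤ |√(x i1) * t|} (fun t => ph (√(x i1) * t) ^ 2) t) := A1.sub A2
  rw [integral_add J1 J2, integral_add (A0.const_mul _) (A12.const_mul _),
    integral_add (A3.const_mul _) (A2.const_mul _), integral_const_mul, integral_const_mul,
    integral_const_mul, integral_const_mul]
  have e : ∫ t, (Set.indicator {t : ℝ | tau ≤ |√(x i1) * t|} (fun t => ph (√(x i1) * t) ^ 2) -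
        Set.indicator {t : ℝ | vs ≤ |√(x i1) * t|} (fun t => ph (√(x i1) * t) ^ 2)) t =
      (√(x i1))⁻¹ * Qf tau - (√(x i1))⁻¹ * Qf vs := by
    rw [← Qf_scale h1, ← Qf_scale h1, ← integral_sub A1 A2]
    rfl
  have e' : ∫ t, (Set.indicator {t : ℝ | tau ≤ |√(x i1) * t|} (fun t => ph (√(x i1) * t) ^ 2) t -
        Set.indicator {t : ℝ | vs ≤ |√(x i1) * t|} (fun t => ph (√(x i1) * t) ^ 2) t) =
      (√(x i1))⁻¹ * Qf tau - (√(x i1))⁻¹ * Qf vs := e
  rw [e', Qf_scale h0, Qf_scale h0, Qf_scale h1, hq02, hq12]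
  refine le_of_eq ?_
  field_simp
  ring

end

end Agent238.GS
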