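import Pool.Agent.Helper238.GS.CN
import Pool.Agent.Helper238.GS.GT

/-!
# The pair region, II: numerical constants of the tail
-/

open MeasureTheory Real Set Filter Pool.Agent.Helper238
open scoped ENNReal Topology Nat

namespace Agent238.GS

noncomputable section

theorem G0_num : 3204806 / 1000000 < G0 ∧ G0 < 32048085 / 10000000 := by
  have hK := Kc_num
  have hI := I1_num
  have hZ := Zc_pos
  have h : Kc * Zc = 2 * exp (-1 / 2) := by
    unfold Kc; rw [mul_comm, ← mul_assoc, mul_inv_cancel₀ hZ.ne', one_mul]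
  have he : exp (-1 / 2) ^ 2 = exp (-1) := by
    rw [← Real.exp_nat_mul]; congr 1; norm_num
  have he1 := Real.exp_neg_one_gt_d9
  have he2 := Real.exp_neg_one_lt_d9
  have hp1 := Real.pi_gt_d6
  have hp2 := Real.pi_lt_d6
  have hK0 : 0 < Kc := by linarith [hK.1]
  have hI0 : 0 < I1 := by linarith [hI.1]
  have hE : 0 < exp (-1) := exp_pos _
  have hG : G0 * (2 * exp (-1)) = π * I1 * Kc ^ 2 := by
    have h2 : Kc ^ 2 * Zc ^ 2 = 4 * exp (-1) := by
      rw [← mul_pow, h, mul_pow, he]; norm_num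
    unfold G0
    field_simp
    linear_combination (-1) * h2
  have hpi : 0 < π := Real.pi_pos
  have k1 : (70887490522 / 100000000000 : ℝ) ^ 2 < Kc ^ 2 := pow_lt_pow_left₀ hK.1 (by norm_num) (by norm_num)
  have k2 : Kc ^ 2 < (70887490523 / 100000000000 : ℝ) ^ 2 := pow_lt_pow_left₀ hK.2 hK0.le (by norm_num)
  have l1 : (3.141592 : ℝ) * (14936482 / 10000000) * (70887490522 / 100000000000) ^ 2 < π * I1 * Kc ^ 2 := by
    refine mul_lt_mul'' (mul_lt_mul'' hp1 hI.1 (by norm_num) (by norm_num)) k1 (by positivity) (by positivity)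
  have l2 : π * I1 * Kc ^ 2 < (3.141593 : ℝ) * (14936483 / 10000000) * (70887490523 / 100000000000) ^ 2 := by
    refine mul_lt_mul'' (mul_lt_mul'' hp2 hI.2 hpi.le hI0.le) k2 (by positivity) (by positivity)
  rw [← hG] at l1 l2
  have hG0 := G0_pos
  constructor
  · by_contra hn
    push Not at hn
    have : G0 * (2 * exp (-1)) ≤ 3204806 / 1000000 * (2 * 0.3678794412) :=
      mul_le_mul hn (by linarith) (by positivity) (by norm_num)
    norm_num at l1 this
    linarith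
  · by_contra hn
    push Not at hn
    have : (32048085 / 10000000 : ℝ) * (2 * 0.36787944116) ≤ G0 * (2 * exp (-1)) :=
      mul_le_mul hn (by linarith) (by norm_num) hG0.le
    norm_num at l2 this
    linarith

theorem JJ_mono {k : ℕ} {u u' : ℝ} (h0 : 0 ≤ u) (h : u ≤ u') : JJ k 2 u ≤ JJ k 2 u' := by
  unfold JJ
  have hc : ∀ a b, IntervalIntegrable (fun v : ℝ => v ^ k * ph v ^ 2) volume a b := fun a b =>
    ((continuous_pow k).mul (ph_cont.pow 2)).intervalIntegrable a b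
  rw [← intervalIntegral.integral_add_adjacent_intervals (hc 0 u) (hc u u')]
  have : 0 ≤ ∫ v in u..u', v ^ k * ph v ^ 2 :=
    intervalIntegral.integral_nonneg h fun v hv => mul_nonneg (pow_nonneg (h0.trans hv.1) _) (sq_nonneg _)
  linarith

theorem Qtau : Qf tau ≤ 1438 / 10000 := by
  have ht := tau_lb
  rw [Qf_eq (by linarith)]
  have h1 : us_tau2 ≤ tau := by
    refine le_trans ?_ ht.le
    unfold us_tau2
    norm_num
  have h2 : JJ 0 2 us_tau2 ≤ JJ 0 2 tau := JJ_mono (by unfold us_tau2; positivity) h1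
  have h3 := Js_tau2
  have h4 := G0_num.2
  norm_num at h3
  linarith

theorem Q45 : Qf (45 / 10) ≤ 1241 / 10000 := by
  rw [Qf_eq (by norm_num)]
  have h1 : us_s45 ≤ 45 / 10 := by
    unfold us_s45
    norm_num
  have h2 : JJ 0 2 us_s45 ≤ JJ 0 2 (45 / 10) := JJ_mono (by unfold us_s45; positivity) h1
  have h3 := Js_s45
  have h4 := G0_num.2
  norm_num at h3
  linarith

theorem Q_diff {vs : ℝ} (hvs : tau ≤ vs) {h n : ℕ} {c A : ℤ} {v : ℝ} (hh : 0 < h)
    (hq : qup (tJ 0 2) h n c ≤ A) (h0 : (0 : ℝ) ≤ c - h)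
    (hb : ((c : ℝ) + (2 * n - 1) * h) / 18446744073709551616 ≤ 4 / 5)
    (h1 : ((c : ℝ) - h) / 18446744073709551616 ≤ 34947 / 10000 / 8)
    (h2 : vs / 8 ≤ ((c : ℝ) + (2 * n - 1) * h) / 18446744073709551616)
    (hv : 16 * ((2 * h : ℝ) / 18446744073709551616 * ((A : ℝ) / 18446744073709551616)) ≤ v) :
    Qf tau - Qf vs ≤ v := by
  have ht := tau_lb
  rw [Qf_eq (by linarith), Qf_eq (by linarith)]
  have hc : Continuous (fun w : ℝ => w ^ 0 * ph (8 * w) ^ 2) :=
    (continuous_pow 0).mul ((ph_cont.comp (by fun_prop)).pow 2)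
  have hqs := (quad_sound (tJ_snd 0 2) hc h hh n c h0 hb).2
  obtain ⟨a, ha⟩ : ∃ a, a = ((c : ℝ) - h) / 18446744073709551616 := ⟨_, rfl⟩
  obtain ⟨b, hb'⟩ : ∃ b, b = ((c : ℝ) + (2 * n - 1) * h) / 18446744073709551616 := ⟨_, rfl⟩
  rw [← ha, ← hb'] at hqs
  rw [← ha] at h1
  rw [← hb'] at h2
  have hi : ∀ a b, IntervalIntegrable (fun w : ℝ => w ^ 0 * ph (8 * w) ^ 2) volume a b := fun a b =>
    hc.intervalIntegrable a b
  have e1 : JJ 0 2 tau = 8 * ∫ w in (0 : ℝ)..(tau / 8), w ^ 0 * ph (8 * w) ^ 2 := by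
    have := JJ_scale 0 2 (tau / 8)
    rw [show 8 * (tau / 8) = tau by ring] at this
    rw [this]; norm_num
  have e2 : JJ 0 2 vs = 8 * ∫ w in (0 : ℝ)..(vs / 8), w ^ 0 * ph (8 * w) ^ 2 := by
    have := JJ_scale 0 2 (vs / 8)
    rw [show 8 * (vs / 8) = vs by ring] at this
    rw [this]; norm_num
  rw [e1, e2]
  have e3 := intervalIntegral.integral_add_adjacent_intervals (hi 0 (tau / 8)) (hi (tau / 8) (vs / 8))
  have e4 : ∫ w in (tau / 8)..(vs / 8), w ^ 0 * ph (8 * w) ^ 2 ≤ ∫ w in a..b, w ^ 0 * ph (8 * w) ^ 2 := by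
    have s1 := intervalIntegral.integral_add_adjacent_intervals (hi a (tau / 8)) (hi (tau / 8) (vs / 8))
    have s2 := intervalIntegral.integral_add_adjacent_intervals (hi a (vs / 8)) (hi (vs / 8) b)
    have p1 : 0 ≤ ∫ w in a..(tau / 8), w ^ 0 * ph (8 * w) ^ 2 :=
      intervalIntegral.integral_nonneg (by linarith) fun w _ => by simp only [pow_zero, one_mul]; positivity
    have p2 : 0 ≤ ∫ w in (vs / 8)..b, w ^ 0 * ph (8 * w) ^ 2 :=
      intervalIntegral.integral_nonneg h2 fun w _ => by simp only [pow_zero, one_mul]; positivity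
    linarith
  have hA : (qup (tJ 0 2) h n c : ℝ) ≤ (A : ℝ) := by exact_mod_cast hq
  have e5 : (2 * h : ℝ) / 18446744073709551616 * ((qup (tJ 0 2) h n c : ℤ) / 18446744073709551616) ≤
      (2 * h : ℝ) / 18446744073709551616 * ((A : ℝ) / 18446744073709551616) := by gcongr
  linarith

theorem Qd45 : Qf tau - Qf (45 / 10) ≤ 198 / 10000 := by
  refine Q_diff (by have := tau_ub; linarith) (by norm_num) qs_q45 ?_ ?_ ?_ ?_ ?_ <;> norm_num

theorem Qd362 : Qf tau - Qf (362 / 100) ≤ 8 / 100000 := by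
  refine Q_diff (by have := tau_ub; linarith) (by norm_num) qs_q362 ?_ ?_ ?_ ?_ ?_ <;> norm_num

/-- the two tail bounds -/
theorem tail_W {n : ℕ} (x : Fin n → ℝ) (hx : ∀ i, 0 ≤ x i) {i0 i1 : Fin n} (hne : i1 ≠ i0)
    (hs : ∑ i, x i = 1) (h01 : x i1 ≤ x i0) (h1 : 0 < x i1) (hmax : ∀ i, i ≠ i0 → x i ≤ x i1) {w : ℝ}
    (hw : (1438 / 10000 * (15 / 100 : ℝ) ^ ((1 - x i0 - x i1) / x i1) +
        34 / 10000 * (17 / 100 : ℝ) ^ ((1 - x i0 - x i1) / x i1) ≤ w) ∨
      (534 / 10000 * (17 / 100 : ℝ) ^ ((1 - x i0 - x i1) / x i1) + 1241 / 10000 *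
        max (15 / 100) ((525 / 10000 : ℝ) ^ ((1 - x i0 - x i1) / x i1)) ≤ w)) :
    ∫ t, Set.indicator {t : ℝ | tau ≤ |√(x i1) * t|} (fun t => |∏ i, ph (√(x i) * t)|) t ≤
      (√(√(x i0)) * √(√(x i1)))⁻¹ * w := by
  have hsp := sum_split x hne
  rw [hs] at hsp
  obtain ⟨S, hS⟩ : ∃ S, S = (Finset.univ.erase i0).erase i1 := ⟨_, rfl⟩
  have hm : ∑ i ∈ S, x i = 1 - x i0 - x i1 := by rw [hS]; linarith
  have hxb : ∀ i ∈ S, x i ≤ x i1 := by
    intro i hi
    rw [hS] at hi
    exact hmax i (Finset.ne_of_mem_erase (Finset.mem_of_mem_erase hi))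
  have ht := tau_ub
  have hq : 0 ≤ (√(√(x i0)) * √(√(x i1)))⁻¹ := by positivity
  have hQt := Qtau
  have hQn := Qf_nonneg
  rcases hw with hw | hw
  · have h := tail_int x hx hne h01 h1 (vs := 362 / 100) (c := 236 / 10000)
      (w1 := (17 / 100 : ℝ) ^ ((1 - x i0 - x i1) / x i1)) (w2 := (15 / 100 : ℝ) ^ ((1 - x i0 - x i1) / x i1))
      (by linarith) (by norm_num)
      (fun t htt => by rw [← hm, ← hS]; exact others_17 S x hx h1 hxb htt)
      (fun t htt => by rw [← hm, ← hS]; exact others_15 S x hx h1 hxb htt)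
      (by positivity) (by positivity)
    refine h.trans (mul_le_mul_of_nonneg_left (le_trans ?_ hw) hq)
    have e1 : (236 / 10000 * Qf tau + (Qf tau - Qf (362 / 100)) / (236 / 10000)) / 2 ≤ 34 / 10000 := by
      have := Qd362
      linarith
    have e2 : Qf (362 / 100) ≤ 1438 / 10000 := (Qf_anti (by linarith)).trans hQt
    have f1 : 0 ≤ (17 / 100 : ℝ) ^ ((1 - x i0 - x i1) / x i1) := by positivity
    have f2 : 0 ≤ (15 / 100 : ℝ) ^ ((1 - x i0 - x i1) / x i1) := by positivity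
    have g1 := mul_le_mul_of_nonneg_left e1 f1
    have g2 := mul_le_mul_of_nonneg_left e2 f2
    linarith
  · have h := tail_int x hx hne h01 h1 (vs := 45 / 10) (c := 3711 / 10000)
      (w1 := (17 / 100 : ℝ) ^ ((1 - x i0 - x i1) / x i1))
      (w2 := max (15 / 100) ((525 / 10000 : ℝ) ^ ((1 - x i0 - x i1) / x i1)))
      (by linarith) (by norm_num)
      (fun t htt => by rw [← hm, ← hS]; exact others_17 S x hx h1 hxb htt)
      (fun t htt => by rw [← hm, ← hS]; exact others_05 S x hx h1 htt)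
      (by positivity) (le_trans (by norm_num) (le_max_left _ _))
    refine h.trans (mul_le_mul_of_nonneg_left (le_trans ?_ hw) hq)
    have e1 : (3711 / 10000 * Qf tau + (Qf tau - Qf (45 / 10)) / (3711 / 10000)) / 2 ≤ 534 / 10000 := by
      have := Qd45
      linarith
    have e2 : Qf (45 / 10) ≤ 1241 / 10000 := Q45
    have f1 : 0 ≤ (17 / 100 : ℝ) ^ ((1 - x i0 - x i1) / x i1) := by positivity
    have f2 : 0 ≤ max (15 / 100) ((525 / 10000 : ℝ) ^ ((1 - x i0 - x i1) / x i1)) := le_trans (by norm_num) (le_max_left _ _)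
    have g1 := mul_le_mul_of_nonneg_left e1 f1
    have g2 := mul_le_mul_of_nonneg_left e2 f2
    linarith

end

end Agent238.GS
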