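import Pool.Agent.Helper238.GS.P1

/-!
# The pair region, III: the main part
-/

open MeasureTheory Real Set Filter Pool.Agent.Helper238
open scoped ENNReal Topology Nat

namespace Agent238.GS

noncomputable section

/-- central part of the diagonal integral -/
def Am (n : ℕ) : ℝ := ∫ t in Set.Ioo (-(√n * tau)) (√n * tau), ph (t / √n) ^ n

theorem phn_cont (n : ℕ) : Continuous (fun t : ℝ => ph (t / √n) ^ n) :=
  (ph_cont.comp (by fun_prop)).pow n

theorem Ioo_int {f : ℝ → ℝ} (hf : Continuous f) (a b : ℝ) : IntegrableOn f (Set.Ioo a b) :=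
  (hf.continuousOn.integrableOn_Icc (a := a) (b := b)).mono_set Ioo_subset_Icc_self

/-- Jensen in terms of `t` -/
theorem main_pt {n : ℕ} (hn : 0 < n) (x : Fin n → ℝ) (hx : ∀ i, 0 ≤ x i) (hs : ∑ i, x i = 1)
    {i0 : Fin n} (hmax : ∀ i, x i ≤ x i0) {δ δ3 : ℝ} (hδ : δ ≤ ∑ i, x i ^ 2 - 1 / n)
    (hδ3 : δ3 ≤ ∑ i, x i ^ 3 - 1 / n ^ 2) {t : ℝ} (ht : |√(x i0) * t| < tau) :
    ∏ i, ph (√(x i) * t) ≤ ph (t / √n) ^ n * exp (-(37 / 10000 * δ * t ^ 4 + 18 / 100000 * δ3 * t ^ 6)) := by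
  have h0 : ∀ i, x i * t ^ 2 < tau ^ 2 := by
    intro i
    have h1 : x i0 * t ^ 2 < tau ^ 2 := by
      have := pow_lt_pow_left₀ ht (abs_nonneg _) (n := 2) (by norm_num)
      rw [sq_abs, mul_pow, Real.sq_sqrt (hx i0)] at this
      exact this
    exact lt_of_le_of_lt (mul_le_mul_of_nonneg_right (hmax i) (sq_nonneg t)) h1
  have hj := jensen hn x hx hs (sq_nonneg t) h0
  have e1 : ∀ i, Ph (x i * t ^ 2) = ph (√(x i) * t) := by
    intro i
    rw [← Ph_sq, mul_pow, Real.sq_sqrt (hx i)]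
  have e2 : Ph (t ^ 2 / n) = ph (t / √n) := by
    rw [← Ph_sq, div_pow, Real.sq_sqrt (Nat.cast_nonneg n)]
  simp_rw [e1] at hj
  rw [e2] at hj
  refine hj.trans ?_
  have hn' : (0 : ℝ) < n := by exact_mod_cast hn
  have hne : Nonempty (Fin n) := ⟨⟨0, hn⟩⟩
  have hpos : 0 ≤ ph (t / √n) ^ n := by
    refine pow_nonneg ?_ n
    rw [← e2]
    refine (Ph_pos (by positivity) ?_).le
    obtain ⟨i, hi⟩ : ∃ i, 1 / (n : ℝ) ≤ x i := by
      by_contra hcon
      push Not at hcon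
      have : ∑ i, x i < ∑ _i : Fin n, 1 / (n : ℝ) :=
        Finset.sum_lt_sum_of_nonempty Finset.univ_nonempty fun i _ => hcon i
      rw [Finset.sum_const, Finset.card_univ, Fintype.card_fin, nsmul_eq_mul, hs] at this
      have h2 : (n : ℝ) * (1 / n) = 1 := by field_simp
      linarith
    refine lt_of_le_of_lt ?_ (h0 i)
    rw [div_eq_mul_one_div, mul_comm]
    exact mul_le_mul_of_nonneg_right hi (sq_nonneg t)
  refine mul_le_mul_of_nonneg_left (Real.exp_le_exp.2 ?_) hpos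
  have h4 : 0 ≤ t ^ 4 := by positivity
  have h6 : 0 ≤ t ^ 6 := by positivity
  have k1 := mul_le_mul_of_nonneg_right hδ h4
  have k2 := mul_le_mul_of_nonneg_right hδ3 h6
  have e4 : (t ^ 2) ^ 2 = t ^ 4 := by ring
  have e6 : (t ^ 2) ^ 3 = t ^ 6 := by ring
  rw [e4, e6]
  linarith

/-- comparison of diagonal integrands -/
theorem diag_mono {N n : ℕ} (hN : 0 < N) (hNn : N ≤ n) {t : ℝ} (ht : t ^ 2 < N * tau ^ 2) :
    0 ≤ ph (t / √N) ∧ ph (t / √N) ^ N ≤ ph (t / √n) ^ n := by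
  have hn : 0 < n := lt_of_lt_of_le hN hNn
  have hN' : (0 : ℝ) < N := by exact_mod_cast hN
  have hn' : (0 : ℝ) < n := by exact_mod_cast hn
  have e2 : ∀ k : ℕ, Ph (t ^ 2 / k) = ph (t / √k) := by
    intro k
    rw [← Ph_sq, div_pow, Real.sq_sqrt (Nat.cast_nonneg k)]
  rw [← e2, ← e2]
  have h1 : t ^ 2 / N < tau ^ 2 := by rw [div_lt_iff₀ hN']; linarith
  have hp := Ph_pos (by positivity : 0 ≤ t ^ 2 / N) h1
  refine ⟨hp.le, ?_⟩
  have hNn' : (N : ℝ) ≤ n := by exact_mod_cast hNn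
  have hc := Ph_chord (r := (N : ℝ) / n) (by positivity) ((div_le_one hn').2 hNn')
    (by positivity : 0 ≤ t ^ 2 / N) h1
  have e3 : (N : ℝ) / n * (t ^ 2 / N) = t ^ 2 / n := by field_simp
  rw [e3] at hc
  have h4 := pow_le_pow_left₀ (Real.rpow_nonneg hp.le _) hc n
  have e4 : (Ph (t ^ 2 / N) ^ ((N : ℝ) / n)) ^ n = Ph (t ^ 2 / N) ^ N := by
    rw [← Real.rpow_natCast, ← Real.rpow_mul hp.le, div_mul_cancel₀ _ hn'.ne', Real.rpow_natCast]
  rw [e4] at h4
  exact h4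

/-- moments of the diagonal integrand -/
def IK (N k : ℕ) (T : ℝ) : ℝ := ∫ t in Set.Ioo (-T) T, t ^ k * ph (t / √N) ^ N

theorem IK_eq (N l : ℕ) (hN : 0 < N) {u : ℝ} (hu : 0 ≤ u) :
    IK N (2 * l) (√N * u) = 2 * √N * N ^ l * JJ (2 * l) N u := by
  have hN' : (0 : ℝ) < N := by exact_mod_cast hN
  have hs : 0 < √(N : ℝ) := Real.sqrt_pos.2 hN'
  unfold IK
  have hf : Continuous (fun t : ℝ => t ^ (2 * l) * ph (t / √N) ^ N) := (continuous_pow _).mul (phn_cont N)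
  have hc : ∀ a b, IntervalIntegrable (fun t : ℝ => t ^ (2 * l) * ph (t / √N) ^ N) volume a b := fun a b =>
    hf.intervalIntegrable a b
  have hsu : 0 ≤ √(N : ℝ) * u := by positivity
  rw [← integral_Ioc_eq_integral_Ioo, ← intervalIntegral.integral_of_le (by linarith),
    ← intervalIntegral.integral_add_adjacent_intervals (hc (-(√N * u)) 0) (hc 0 (√N * u))]
  have h4 := intervalIntegral.integral_comp_neg (f := fun t : ℝ => t ^ (2 * l) * ph (t / √N) ^ N)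
    (a := -(√N * u)) (b := 0)
  have e0 : ∀ t : ℝ, (-t) ^ (2 * l) * ph (-t / √N) ^ N = t ^ (2 * l) * ph (t / √N) ^ N := by
    intro t
    rw [neg_div, ph_even, pow_mul, neg_sq, ← pow_mul]
  simp only [e0, neg_neg, neg_zero] at h4
  rw [h4]
  have h5 := intervalIntegral.mul_integral_comp_mul_left (f := fun t : ℝ => t ^ (2 * l) * ph (t / √N) ^ N)
    (a := 0) (b := u) (√N)
  rw [mul_zero] at h5
  rw [← h5]
  have h6 : ∫ v in (0 : ℝ)..u, (√N * v) ^ (2 * l) * ph (√N * v / √N) ^ N = N ^ l * JJ (2 * l) N u := by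
    unfold JJ
    rw [← intervalIntegral.integral_const_mul]
    refine intervalIntegral.integral_congr fun v _ => ?_
    show (√N * v) ^ (2 * l) * ph (√N * v / √N) ^ N = N ^ l * (v ^ (2 * l) * ph v ^ N)
    rw [mul_div_cancel_left₀ _ hs.ne', mul_pow, pow_mul (√(N : ℝ)), Real.sq_sqrt hN'.le]
    ring
  rw [h6]; ring

/-- the gain -/
theorem main_gain {N n : ℕ} (hN : 0 < N) (hNn : N ≤ n) {T u δ δ3 : ℝ} (hδ : 0 ≤ δ) (hδ3 : 0 ≤ δ3)
    (hT : T ≤ √n * tau) (hu0 : 0 ≤ u) (huT : √N * u ≤ T) (hut : u ≤ tau) :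
    ∫ t in Set.Ioo (-T) T, ph (t / √n) ^ n * exp (-(37 / 10000 * δ * t ^ 4 + 18 / 100000 * δ3 * t ^ 6)) ≤
      Am n - (37 / 10000 * δ * IK N 4 (√N * u) + 18 / 100000 * δ3 * IK N 6 (√N * u) -
        1 / 2 * ((37 / 10000 * δ) ^ 2 * IK N 8 (√N * u) + 2 * (37 / 10000 * δ) * (18 / 100000 * δ3) * IK N 10 (√N * u) +
          (18 / 100000 * δ3) ^ 2 * IK N 12 (√N * u))) := by
  have hn : 0 < n := lt_of_lt_of_le hN hNn
  have hN' : (0 : ℝ) < N := by exact_mod_cast hN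
  have hn' : (0 : ℝ) < n := by exact_mod_cast hn
  have hsn : 0 < √(n : ℝ) := Real.sqrt_pos.2 hn'
  have hsN : 0 < √(N : ℝ) := Real.sqrt_pos.2 hN'
  obtain ⟨S, hS⟩ : ∃ S, S = √(N : ℝ) * u := ⟨_, rfl⟩
  rw [← hS] at huT ⊢
  have hS0 : 0 ≤ S := by rw [hS]; positivity
  obtain ⟨g, hg⟩ : ∃ g : ℝ → ℝ, g = fun t => 37 / 10000 * δ * t ^ 4 + 18 / 100000 * δ3 * t ^ 6 := ⟨_, rfl⟩
  have hgc : Continuous g := by rw [hg]; fun_prop
  have hg0 : ∀ t, 0 ≤ g t := by intro t; rw [hg]; positivity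
  have cN := phn_cont N
  have cn := phn_cont n
  -- nonnegativity of the diagonal integrand on the big interval
  have hnn : ∀ t ∈ Set.Ioo (-(√n * tau)) (√n * tau), 0 ≤ ph (t / √n) ^ n := by
    intro t ht
    refine pow_nonneg ?_ n
    rw [← ph_abs]
    refine ph_nonneg (abs_nonneg _) ?_
    rw [abs_div, abs_of_pos hsn, div_le_iff₀ hsn, mul_comm]
    exact (abs_lt.2 ⟨ht.1, ht.2⟩).le
  have hsub : Set.Ioo (-T) T ⊆ Set.Ioo (-(√n * tau)) (√n * tau) := Ioo_subset_Ioo (by linarith) hT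
  -- step 1
  have h1 : ∫ t in Set.Ioo (-T) T, ph (t / √n) ^ n ≤ Am n :=
    setIntegral_mono_set (Ioo_int cn _ _) ((ae_restrict_iff' measurableSet_Ioo).2 (Eventually.of_forall hnn))
      (Eventually.of_forall hsub)
  -- step 2
  have i1 : IntegrableOn (fun t => ph (t / √n) ^ n * exp (-g t)) (Set.Ioo (-T) T) :=
    Ioo_int (cn.mul (by fun_prop)) _ _
  have i2 : IntegrableOn (fun t => ph (t / √n) ^ n) (Set.Ioo (-T) T) := Ioo_int cn _ _
  have i3 : Integrable (Set.indicator (Set.Ioo (-S) S) (fun t => ph (t / √N) ^ N * (g t - g t ^ 2 / 2))) :=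
    (Ioo_int (cN.mul (by fun_prop)) _ _).integrable_indicator measurableSet_Ioo
  have hpt : ∀ t ∈ Set.Ioo (-T) T, ph (t / √n) ^ n * exp (-g t) ≤
      ph (t / √n) ^ n - Set.indicator (Set.Ioo (-S) S) (fun t => ph (t / √N) ^ N * (g t - g t ^ 2 / 2)) t := by
    intro t ht
    have hp := hnn t (hsub ht)
    have he : exp (-g t) ≤ 1 := by rw [Real.exp_le_one_iff]; linarith [hg0 t]
    by_cases hm : t ∈ Set.Ioo (-S) S
    · rw [Set.indicator_of_mem hm]
      have hlt : t ^ 2 < N * tau ^ 2 := by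
        have h5 : |t| < S := abs_lt.2 ⟨hm.1, hm.2⟩
        have h6 : t ^ 2 < S ^ 2 := by
          rw [← sq_abs]; exact pow_lt_pow_left₀ h5 (abs_nonneg _) (by norm_num)
        have h7 : S ^ 2 ≤ N * tau ^ 2 := by
          rw [hS, mul_pow, Real.sq_sqrt hN'.le]
          exact mul_le_mul_of_nonneg_left (pow_le_pow_left₀ hu0 hut 2) hN'.le
        linarith
      obtain ⟨d1, d2⟩ := diag_mono hN hNn hlt
      have d3 : 0 ≤ ph (t / √N) ^ N := pow_nonneg d1 N
      have hq : exp (-g t) ≤ 1 - g t + g t ^ 2 / 2 := by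
        have h3 := Real.quadratic_le_exp_of_nonneg (hg0 t)
        rw [Real.exp_neg, inv_le_iff_one_le_mul₀ (exp_pos _)]
        have h4 : 0 < 1 - g t + g t ^ 2 / 2 := by nlinarith [sq_nonneg (g t - 1)]
        have h5 := mul_le_mul_of_nonneg_left h3 h4.le
        nlinarith [sq_nonneg (g t ^ 2)]
      have h8 : ph (t / √N) ^ N * (g t - g t ^ 2 / 2) ≤ ph (t / √N) ^ N * (1 - exp (-g t)) :=
        mul_le_mul_of_nonneg_left (by linarith) d3
      have h9 : ph (t / √N) ^ N * (1 - exp (-g t)) ≤ ph (t / √n) ^ n * (1 - exp (-g t)) :=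
        mul_le_mul_of_nonneg_right d2 (by linarith)
      linarith
    · rw [Set.indicator_of_notMem hm, sub_zero]
      exact mul_le_of_le_one_right hp he
  have h2 : ∫ t in Set.Ioo (-T) T, ph (t / √n) ^ n * exp (-g t) ≤
      ∫ t in Set.Ioo (-T) T, (ph (t / √n) ^ n - Set.indicator (Set.Ioo (-S) S) (fun t => ph (t / √N) ^ N * (g t - g t ^ 2 / 2)) t) :=
    setIntegral_mono_on i1 (i2.sub i3.integrableOn) measurableSet_Ioo hpt
  rw [integral_sub i2 i3.integrableOn] at h2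
  have h3 : ∫ t in Set.Ioo (-T) T, Set.indicator (Set.Ioo (-S) S) (fun t => ph (t / √N) ^ N * (g t - g t ^ 2 / 2)) t =
      ∫ t in Set.Ioo (-S) S, ph (t / √N) ^ N * (g t - g t ^ 2 / 2) := by
    rw [setIntegral_indicator measurableSet_Ioo]
    congr 1
    rw [Set.inter_eq_right.2 (Ioo_subset_Ioo (by linarith) huT)]
  rw [h3] at h2
  have h4 : ∫ t in Set.Ioo (-S) S, ph (t / √N) ^ N * (g t - g t ^ 2 / 2) =
      37 / 10000 * δ * IK N 4 S + 18 / 100000 * δ3 * IK N 6 S -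
        1 / 2 * ((37 / 10000 * δ) ^ 2 * IK N 8 S + 2 * (37 / 10000 * δ) * (18 / 100000 * δ3) * IK N 10 S +
          (18 / 100000 * δ3) ^ 2 * IK N 12 S) := by
    have ik : ∀ k, IntegrableOn (fun t : ℝ => t ^ k * ph (t / √N) ^ N) (Set.Ioo (-S) S) := fun k =>
      Ioo_int ((continuous_pow k).mul cN) _ _
    have j1 : IntegrableOn (fun t : ℝ => 37 / 10000 * δ * (t ^ 4 * ph (t / √N) ^ N) +
        18 / 100000 * δ3 * (t ^ 6 * ph (t / √N) ^ N)) (Set.Ioo (-S) S) := ((ik 4).const_mul _).add ((ik 6).const_mul _)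
    have j2 : IntegrableOn (fun t : ℝ => (37 / 10000 * δ) ^ 2 * (t ^ 8 * ph (t / √N) ^ N) +
        2 * (37 / 10000 * δ) * (18 / 100000 * δ3) * (t ^ 10 * ph (t / √N) ^ N)) (Set.Ioo (-S) S) :=
      ((ik 8).const_mul _).add ((ik 10).const_mul _)
    have j3 : IntegrableOn (fun t : ℝ => (37 / 10000 * δ) ^ 2 * (t ^ 8 * ph (t / √N) ^ N) +
        2 * (37 / 10000 * δ) * (18 / 100000 * δ3) * (t ^ 10 * ph (t / √N) ^ N) +
        (18 / 100000 * δ3) ^ 2 * (t ^ 12 * ph (t / √N) ^ N)) (Set.Ioo (-S) S) :=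
      j2.add ((ik 12).const_mul _)
    have e : ∀ t : ℝ, ph (t / √N) ^ N * (g t - g t ^ 2 / 2) =
        (37 / 10000 * δ * (t ^ 4 * ph (t / √N) ^ N) + 18 / 100000 * δ3 * (t ^ 6 * ph (t / √N) ^ N)) -
        1 / 2 * ((37 / 10000 * δ) ^ 2 * (t ^ 8 * ph (t / √N) ^ N) +
        2 * (37 / 10000 * δ) * (18 / 100000 * δ3) * (t ^ 10 * ph (t / √N) ^ N) +
        (18 / 100000 * δ3) ^ 2 * (t ^ 12 * ph (t / √N) ^ N)) := by
      intro t; rw [hg]; ring
    simp_rw [e]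
    rw [integral_sub j1 (j3.const_mul _), integral_add ((ik 4).const_mul _) ((ik 6).const_mul _),
      integral_const_mul, integral_const_mul, integral_const_mul, integral_add j2 ((ik 12).const_mul _),
      integral_add ((ik 8).const_mul _) ((ik 10).const_mul _), integral_const_mul, integral_const_mul,
      integral_const_mul]
    rfl
  rw [h4] at h2
  have e5 : (fun t => ph (t / √n) ^ n * exp (-(37 / 10000 * δ * t ^ 4 + 18 / 100000 * δ3 * t ^ 6))) =
      fun t => ph (t / √n) ^ n * exp (-g t) := by rw [hg]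
  rw [e5]
  linarith

end

end Agent238.GS
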