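import Pool.Agent.Helper238.GS.P2
import Pool.Agent.Helper238.GS.P3

/-!
# The pair region, IV: the upper bound
-/

open MeasureTheory Real Set Filter Pool.Agent.Helper238
open scoped ENNReal Topology Nat

namespace Agent238.GS

noncomputable section

theorem etail {c t0 : ℝ} (hc : 0 < c) (ht0 : 0 < t0) :
    ∫ t, Set.indicator {t : ℝ | t0 ≤ |t|} (fun t => exp (-c * t ^ 2)) t ≤ exp (-c * t0 ^ 2) / (c * t0) := by
  have hg : Integrable (fun t : ℝ => exp (-c * t ^ 2)) := integrable_exp_neg_mul_sq hc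
  have hI := hg.indicator (meas_set' t0)
  have h1 : (fun t : ℝ => Set.indicator {t : ℝ | t0 ≤ |t|} (fun t => exp (-c * t ^ 2)) t) =
      fun t => (Set.indicator (Set.Ici t0) (fun s => exp (-c * s ^ 2))) |t| := by
    funext t
    by_cases h : t0 ≤ |t|
    · rw [Set.indicator_of_mem (show t ∈ {t : ℝ | t0 ≤ |t|} from h), Set.indicator_of_mem (show |t| ∈ Set.Ici t0 from h), sq_abs]
    · rw [Set.indicator_of_notMem (show t ∉ {t : ℝ | t0 ≤ |t|} from h), Set.indicator_of_notMem (show |t| ∉ Set.Ici t0 from h)]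
  rw [h1, integral_comp_abs (f := Set.indicator (Set.Ici t0) (fun s => exp (-c * s ^ 2)))]
  rw [setIntegral_indicator measurableSet_Ici]
  have h2 : Set.Ioi (0 : ℝ) ∩ Set.Ici t0 = Set.Ici t0 :=
    Set.inter_eq_right.2 fun y hy => lt_of_lt_of_le ht0 hy
  rw [h2, integral_Ici_eq_integral_Ioi]
  have hd : ∀ t ∈ Set.Ici t0, HasDerivAt (fun t : ℝ => -(exp (-c * t ^ 2)) / (2 * c * t0)) (t / t0 * exp (-c * t ^ 2)) t := by
    intro t _
    have e1 : HasDerivAt (fun t : ℝ => -c * t ^ 2) (-c * (2 * t)) t := by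
      refine ((hasDerivAt_pow 2 t).const_mul (-c)).congr_deriv ?_
      norm_num
    refine (e1.exp.neg.div_const (2 * c * t0)).congr_deriv ?_
    field_simp
  have hI2 : IntegrableOn (fun t : ℝ => t / t0 * exp (-c * t ^ 2)) (Set.Ioi t0) := by
    have := ((gm_int 1 hc).const_mul (1 / t0)).integrableOn (s := Set.Ioi t0)
    refine this.congr_fun (fun t _ => ?_) measurableSet_Ioi
    show 1 / t0 * (t ^ 1 * exp (-c * t ^ 2)) = t / t0 * exp (-c * t ^ 2)
    ring
  have hlim : Tendsto (fun t : ℝ => -(exp (-c * t ^ 2)) / (2 * c * t0)) atTop (𝓝 0) := by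
    have h3 : Tendsto (fun t : ℝ => exp (-c * t ^ 2)) atTop (𝓝 0) := by
      refine Real.tendsto_exp_atBot.comp ?_
      have : Tendsto (fun t : ℝ => c * t ^ 2) atTop atTop :=
        (tendsto_pow_atTop (by norm_num)).const_mul_atTop hc
      refine (tendsto_neg_atTop_atBot.comp this).congr fun t => ?_
      simp only [Function.comp]; ring
    have h4 := (h3.neg).div_const (2 * c * t0)
    simpa using h4
  have h3 := integral_Ioi_of_hasDerivAt_of_tendsto' hd hI2 hlim
  have h4 : ∫ t in Set.Ioi t0, exp (-c * t ^ 2) ≤ ∫ t in Set.Ioi t0, t / t0 * exp (-c * t ^ 2) := by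
    refine setIntegral_mono_on hg.integrableOn hI2 measurableSet_Ioi fun t ht => ?_
    refine le_mul_of_one_le_left (exp_pos _).le ?_
    rw [one_le_div ht0]
    exact (le_of_lt ht)
  rw [h3] at h4
  have e : exp (-c * t0 ^ 2) / (c * t0) = 2 * (0 - -exp (-c * t0 ^ 2) / (2 * c * t0)) := by
    field_simp; ring
  rw [e]
  linarith

/-- the extra term -/
def Eb (x : ℝ) : ℝ := 14 / 100 * (exp (-(aa * (1 - x)) * (64 / 10 / √x) ^ 2) / (aa * (1 - x) * (64 / 10 / √x)))

/-- the upper bound -/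
theorem P_upper {N n : ℕ} (hN : 0 < N) (hNn : N ≤ n) (x : Fin n → ℝ) (hx : ∀ i, 0 ≤ x i)
    {i0 i1 : Fin n} (hne : i1 ≠ i0) (hs : ∑ i, x i = 1) (h01 : x i1 ≤ x i0) (h1 : 0 < x i1)
    (hmax : ∀ i, i ≠ i0 → x i ≤ x i1) (hx1 : x i0 < 1) {w Ec δ δ3 u : ℝ}
    (hw : (1438 / 10000 * (15 / 100 : ℝ) ^ ((1 - x i0 - x i1) / x i1) +
        34 / 10000 * (17 / 100 : ℝ) ^ ((1 - x i0 - x i1) / x i1) ≤ w) ∨
      (534 / 10000 * (17 / 100 : ℝ) ^ ((1 - x i0 - x i1) / x i1) + 1241 / 10000 *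
        max (15 / 100) ((525 / 10000 : ℝ) ^ ((1 - x i0 - x i1) / x i1)) ≤ w))
    (hE0 : 0 ≤ Ec) (hE : x i0 ≤ 335 / 100 * x i1 ∨ Eb (x i0) ≤ Ec)
    (hδ0 : 0 ≤ δ) (hδ30 : 0 ≤ δ3) (hδ : δ ≤ ∑ i, x i ^ 2 - 1 / n) (hδ3 : δ3 ≤ ∑ i, x i ^ 3 - 1 / n ^ 2)
    (hu0 : 0 ≤ u) (hut : u ≤ tau) (huT : N * u ^ 2 * x i0 ≤ tau ^ 2) :
    ∫ t, ∏ i, ph (√(x i) * t) ≤ Am n -
      (37 / 10000 * δ * IK N 4 (√N * u) + 18 / 100000 * δ3 * IK N 6 (√N * u) -
        1 / 2 * ((37 / 10000 * δ) ^ 2 * IK N 8 (√N * u) + 2 * (37 / 10000 * δ) * (18 / 100000 * δ3) * IK N 10 (√N * u) +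
          (18 / 100000 * δ3) ^ 2 * IK N 12 (√N * u))) + Ec + (√(√(x i0)) * √(√(x i1)))⁻¹ * w := by
  have hn : 0 < n := lt_of_lt_of_le hN hNn
  have hn' : (0 : ℝ) < n := by exact_mod_cast hn
  have h0 : 0 < x i0 := h1.trans_le h01
  have hmax' : ∀ i, x i ≤ x i0 := by
    intro i
    by_cases h : i = i0
    · rw [h]
    · exact (hmax i h).trans h01
  have hs0 : 0 < √(x i0) := Real.sqrt_pos.2 h0
  have hs1 : 0 < √(x i1) := Real.sqrt_pos.2 h1
  have htl := tau_lb
  have htu := tau_ub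
  have ht0 : 0 < tau := by linarith
  obtain ⟨T, hT⟩ : ∃ T, T = tau / √(x i0) := ⟨_, rfl⟩
  have hT0 : 0 < T := by rw [hT]; positivity
  -- `T ≤ √n τ`
  have hTn : T ≤ √n * tau := by
    have h2 : 1 / (n : ℝ) ≤ x i0 := by
      by_contra hcon
      push Not at hcon
      have hne' : Nonempty (Fin n) := ⟨i0⟩
      have : ∑ i, x i < ∑ _i : Fin n, 1 / (n : ℝ) :=
        Finset.sum_lt_sum_of_nonempty Finset.univ_nonempty fun i _ => lt_of_le_of_lt (hmax' i) hcon
      rw [Finset.sum_const, Finset.card_univ, Fintype.card_fin, nsmul_eq_mul, hs] at this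
      have h3 : (n : ℝ) * (1 / n) = 1 := by field_simp
      linarith
    rw [hT, div_le_iff₀ hs0]
    have h3 : 1 ≤ √(n : ℝ) * √(x i0) := by
      rw [← Real.sqrt_mul hn'.le, Real.one_le_sqrt]
      have := mul_le_mul_of_nonneg_left h2 hn'.le
      rw [mul_one_div_cancel hn'.ne'] at this
      exact this
    nlinarith
  have hTu : √N * u ≤ T := by
    rw [hT, le_div_iff₀ hs0]
    have h3 : (√N * u * √(x i0)) ^ 2 ≤ tau ^ 2 := by
      rw [mul_pow, mul_pow, Real.sq_sqrt (Nat.cast_nonneg N), Real.sq_sqrt h0.le]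
      exact huT
    exact le_of_sq_le_sq h3 ht0.le
  have hG := main_gain hN hNn hδ0 hδ30 hTn hu0 hTu hut
  have hTail := tail_W x hx hne hs h01 h1 hmax hw
  -- the extra term
  obtain ⟨E, hE1, hE2, hE3, hE4⟩ : ∃ E : ℝ → ℝ, Integrable E ∧ (∀ t, 0 ≤ E t) ∧
      (∀ t, |√(x i1) * t| < tau → 64 / 10 ≤ |√(x i0) * t| → 14 / 100 * exp (-(aa * (1 - x i0)) * t ^ 2) ≤ E t) ∧
      ∫ t, E t ≤ Ec := by
    rcases hE with hE | hE
    · refine ⟨fun _ => 0, integrable_zero _ _ _, fun _ => le_rfl, fun t ht1 ht2 => ?_, by simpa using hE0⟩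
      exfalso
      rw [abs_mul, abs_of_pos hs1] at ht1
      rw [abs_mul, abs_of_pos hs0] at ht2
      have h3 : (64 / 10) ^ 2 ≤ (√(x i0) * |t|) ^ 2 := pow_le_pow_left₀ (by norm_num) ht2 2
      have h4 : (√(x i1) * |t|) ^ 2 < tau ^ 2 := pow_lt_pow_left₀ ht1 (by positivity) (by norm_num)
      rw [mul_pow, Real.sq_sqrt h0.le, sq_abs] at h3
      rw [mul_pow, Real.sq_sqrt h1.le, sq_abs] at h4
      have h5 : x i0 * t ^ 2 ≤ 335 / 100 * x i1 * t ^ 2 := mul_le_mul_of_nonneg_right hE (sq_nonneg t)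
      have h6 : tau ^ 2 < (34948 / 10000) ^ 2 := pow_lt_pow_left₀ htu ht0.le (by norm_num)
      norm_num at h3 h6
      nlinarith
    · have haa := aa_num.1
      have hc : 0 < aa * (1 - x i0) := mul_pos (by linarith) (by linarith)
      have ht00 : 0 < 64 / 10 / √(x i0) := by positivity
      have hset : ∀ t : ℝ, 64 / 10 ≤ |√(x i0) * t| ↔ 64 / 10 / √(x i0) ≤ |t| := by
        intro t
        rw [abs_mul, abs_of_pos hs0, div_le_iff₀ hs0, mul_comm]
      have hg : Integrable (fun t : ℝ => exp (-(aa * (1 - x i0)) * t ^ 2)) := integrable_exp_neg_mul_sq hc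
      refine ⟨fun t => 14 / 100 * Set.indicator {t : ℝ | 64 / 10 / √(x i0) ≤ |t|} (fun t => exp (-(aa * (1 - x i0)) * t ^ 2)) t,
        (hg.indicator (meas_set' _)).const_mul _, fun t => ?_, fun t _ ht2 => ?_, ?_⟩
      · exact mul_nonneg (by norm_num) (Set.indicator_nonneg (fun _ _ => (exp_pos _).le) t)
      · beta_reduce
        rw [Set.indicator_of_mem (show t ∈ {t : ℝ | 64 / 10 / √(x i0) ≤ |t|} from (hset t).1 ht2)]
      · rw [integral_const_mul]
        refine le_trans ?_ hE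
        unfold Eb
        exact mul_le_mul_of_nonneg_left (etail hc ht00) (by norm_num)
  -- pointwise
  obtain ⟨Jf, hJf⟩ : ∃ Jf : ℝ → ℝ, Jf = fun t => ph (t / √n) ^ n * exp (-(37 / 10000 * δ * t ^ 4 + 18 / 100000 * δ3 * t ^ 6)) := ⟨_, rfl⟩
  have hJc : Continuous Jf := by rw [hJf]; exact (phn_cont n).mul (by fun_prop)
  have hpt : ∀ t, ∏ i, ph (√(x i) * t) ≤ Set.indicator (Set.Ioo (-T) T) Jf t + E t +
      Set.indicator {t : ℝ | tau ≤ |√(x i1) * t|} (fun t => |∏ i, ph (√(x i) * t)|) t := by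
    intro t
    by_cases hA : t ∈ Set.Ioo (-T) T
    · have h5 : |√(x i0) * t| < tau := by
        have h6 : |t| < T := abs_lt.2 ⟨hA.1, hA.2⟩
        rw [hT, lt_div_iff₀ hs0] at h6
        rw [abs_mul, abs_of_pos hs0]; linarith
      have h7 := main_pt hn x hx hs hmax' hδ hδ3 h5
      rw [Set.indicator_of_mem hA]
      have h8 : 0 ≤ Set.indicator {t : ℝ | tau ≤ |√(x i1) * t|} (fun t => |∏ i, ph (√(x i) * t)|) t :=
        Set.indicator_nonneg (fun _ _ => abs_nonneg _) t
      have h9 := hE2 t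
      have h10 : Jf t = ph (t / √n) ^ n * exp (-(37 / 10000 * δ * t ^ 4 + 18 / 100000 * δ3 * t ^ 6)) := by rw [hJf]
      rw [h10]; linarith
    · rw [Set.indicator_of_notMem hA, zero_add]
      have h5 : tau ≤ |√(x i0) * t| := by
        by_contra hcon
        push Not at hcon
        apply hA
        rw [abs_mul, abs_of_pos hs0] at hcon
        have h6 : |t| < T := by rw [hT, lt_div_iff₀ hs0]; linarith
        exact ⟨(abs_lt.1 h6).1, (abs_lt.1 h6).2⟩
      by_cases hB : tau ≤ |√(x i1) * t|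
      · rw [Set.indicator_of_mem (show t ∈ {t : ℝ | tau ≤ |√(x i1) * t|} from hB)]
        have := hE2 t
        linarith [le_abs_self (∏ i, ph (√(x i) * t))]
      · rw [Set.indicator_of_notMem (show t ∉ {t : ℝ | tau ≤ |√(x i1) * t|} from hB), add_zero]
        push Not at hB
        rw [← Finset.mul_prod_erase Finset.univ _ (Finset.mem_univ i0)]
        have hsm : ∀ i ∈ Finset.univ.erase i0, |√(x i) * t| ≤ tau := by
          intro i hi
          refine le_trans ?_ hB.le
          rw [abs_mul, abs_mul, abs_of_nonneg (Real.sqrt_nonneg _), abs_of_nonneg (Real.sqrt_nonneg _)]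
          exact mul_le_mul_of_nonneg_right (Real.sqrt_le_sqrt (hmax i (Finset.ne_of_mem_erase hi))) (abs_nonneg t)
        have hnn : 0 ≤ ∏ i ∈ Finset.univ.erase i0, ph (√(x i) * t) := by
          refine Finset.prod_nonneg fun i hi => ?_
          rw [← ph_abs]
          exact ph_nonneg (abs_nonneg _) (hsm i hi)
        by_cases hC : 64 / 10 ≤ |√(x i0) * t|
        · have h6 : |ph (√(x i0) * t)| ≤ 14 / 100 := by rw [← ph_abs]; exact ph_far _ hC
          have h7 : ∏ i ∈ Finset.univ.erase i0, ph (√(x i) * t) ≤ exp (-(aa * (1 - x i0)) * t ^ 2) := by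
            have h8 : ∏ i ∈ Finset.univ.erase i0, ph (√(x i) * t) ≤ ∏ i ∈ Finset.univ.erase i0, exp (-aa * (x i * t ^ 2)) := by
              refine Finset.prod_le_prod (fun i hi => ?_) fun i hi => ?_
              · rw [← ph_abs]; exact ph_nonneg (abs_nonneg _) (hsm i hi)
              · refine (le_abs_self _).trans ((ph_le_exp (hsm i hi)).trans (le_of_eq ?_))
                rw [mul_pow, Real.sq_sqrt (hx i)]
            rw [← Real.exp_sum, ← Finset.mul_sum, ← Finset.sum_mul] at h8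
            have h9 : ∑ i ∈ Finset.univ.erase i0, x i = 1 - x i0 := by
              have := Finset.add_sum_erase Finset.univ x (Finset.mem_univ i0)
              linarith
            rw [h9] at h8
            refine h8.trans (le_of_eq ?_)
            congr 1; ring
          have h10 := hE3 t hB hC
          refine le_trans ?_ h10
          refine (le_abs_self _).trans ?_
          rw [abs_mul, abs_of_nonneg hnn]
          exact mul_le_mul h6 h7 hnn (by norm_num)
        · push Not at hC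
          have h6 : ph (√(x i0) * t) ≤ 0 := by
            rw [← ph_abs]; exact ph_nonpos h5 hC.le
          have h7 := mul_nonpos_of_nonpos_of_nonneg h6 hnn
          exact h7.trans (hE2 t)
  have iJ : Integrable (Set.indicator (Set.Ioo (-T) T) Jf) := (Ioo_int hJc _ _).integrable_indicator measurableSet_Ioo
  have iT := (prod_int_two x hne h0 h1).abs.indicator (meas_set (√(x i1)) tau)
  have i12 : Integrable (fun t => Set.indicator (Set.Ioo (-T) T) Jf t + E t) := iJ.add hE1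
  have hfin := integral_mono (prod_int_two x hne h0 h1) (i12.add iT) hpt
  refine hfin.trans ?_
  show ∫ t, (Set.indicator (Set.Ioo (-T) T) Jf t + E t + Set.indicator {t : ℝ | tau ≤ |√(x i1) * t|} (fun t => |∏ i, ph (√(x i) * t)|) t) ≤ _
  rw [integral_add i12 iT, integral_add iJ hE1, MeasureTheory.integral_indicator measurableSet_Ioo]
  rw [← hJf] at hG
  linarith

end

end Agent238.GS
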