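import Pool.Agent.Helper238.GS.P4

/-!
# The pair region, V: numerical gains
-/

open MeasureTheory Real Set Filter Pool.Agent.Helper238
open scoped ENNReal Topology Nat

namespace Agent238.GS

noncomputable section

/-- the gain polynomial -/
def gp (i4 i6 i8 i10 i12 δ δ3 : ℝ) : ℝ :=
  37 / 10000 * δ * i4 + 18 / 100000 * δ3 * i6 -
    1 / 2 * ((37 / 10000 * δ) ^ 2 * i8 + 2 * (37 / 10000 * δ) * (18 / 100000 * δ3) * i10 +
      (18 / 100000 * δ3) ^ 2 * i12)

theorem gp_mono {i4 i6 i8 i10 i12 j4 j6 j8 j10 j12 δ δ3 : ℝ} (hδ : 0 ≤ δ) (hδ3 : 0 ≤ δ3)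
    (h4 : i4 ≤ j4) (h6 : i6 ≤ j6) (h8 : j8 ≤ i8) (h10 : j10 ≤ i10) (h12 : j12 ≤ i12) :
    gp i4 i6 i8 i10 i12 δ δ3 ≤ gp j4 j6 j8 j10 j12 δ δ3 := by
  unfold gp
  have a4 := mul_le_mul_of_nonneg_left h4 (by positivity : 0 ≤ 37 / 10000 * δ)
  have a6 := mul_le_mul_of_nonneg_left h6 (by positivity : 0 ≤ 18 / 100000 * δ3)
  have a8 := mul_le_mul_of_nonneg_left h8 (by positivity : 0 ≤ (37 / 10000 * δ) ^ 2)
  have a10 := mul_le_mul_of_nonneg_left h10 (by positivity : 0 ≤ 2 * (37 / 10000 * δ) * (18 / 100000 * δ3))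
  have a12 := mul_le_mul_of_nonneg_left h12 (by positivity : 0 ≤ (18 / 100000 * δ3) ^ 2)
  linarith

/-- a certificate for the five moments -/
structure Cert (N : ℕ) (u xl i4 i6 i8 i10 i12 : ℝ) : Prop where
  u0 : 0 ≤ u
  ut : u ≤ tau
  uT : N * u ^ 2 * xl ≤ tau ^ 2
  h4 : i4 ≤ IK N 4 (√N * u)
  h6 : i6 ≤ IK N 6 (√N * u)
  h8 : IK N 8 (√N * u) ≤ i8
  h10 : IK N 10 (√N * u) ≤ i10
  h12 : IK N 12 (√N * u) ≤ i12

theorem ik_lo {N l : ℕ} (hN : 0 < N) {u s j v : ℝ} (hu : 0 ≤ u) (hs : 0 ≤ s) (hsN : s ^ 2 ≤ N) (hj0 : 0 ≤ j)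
    (hj : j ≤ JJ (2 * l) N u) (hv : v ≤ 2 * s * (N : ℝ) ^ l * j) : v ≤ IK N (2 * l) (√N * u) := by
  rw [IK_eq N l hN hu]
  refine hv.trans ?_
  have h1 : s ≤ √N := Real.le_sqrt_of_sq_le hsN
  have h2 : 0 ≤ (N : ℝ) ^ l := by positivity
  gcongr

theorem ik_up {N l : ℕ} (hN : 0 < N) {u s j v : ℝ} (hu : 0 ≤ u) (hs : 0 ≤ s) (hsN : (N : ℝ) ≤ s ^ 2)
    (hj : JJ (2 * l) N u ≤ j) (hj0 : 0 ≤ j) (hv : 2 * s * (N : ℝ) ^ l * j ≤ v) : IK N (2 * l) (√N * u) ≤ v := by
  rw [IK_eq N l hN hu]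
  refine le_trans ?_ hv
  have h1 : √N ≤ s := Real.sqrt_le_iff.2 ⟨hs, hsN⟩
  have h2 : 0 ≤ (N : ℝ) ^ l := by positivity
  have h3 : 0 ≤ √(N : ℝ) := Real.sqrt_nonneg _
  have h4 : 2 * √(N : ℝ) * (N : ℝ) ^ l * JJ (2 * l) N u ≤ 2 * √(N : ℝ) * (N : ℝ) ^ l * j :=
    mul_le_mul_of_nonneg_left hj (by positivity)
  refine h4.trans ?_
  gcongr

theorem cert5a : Cert 5 uu5a (42 / 100) (28837 / 250) (145801 / 100) (117601 / 5) (435292) (8880740) := by
  have ht := tau_lb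
  have e : uu5a = 8 * ((2 * 64 * 43443021027102744) / 18446744073709551616) := by unfold uu5a; norm_num
  have u0 : 0 ≤ uu5a := by rw [e]; norm_num
  have ht2 : (34947 / 10000 : ℝ) ^ 2 ≤ tau ^ 2 := pow_le_pow_left₀ (by norm_num) ht.le 2
  refine ⟨u0, ?_, ?_, ?_, ?_, ?_, ?_, ?_⟩
  · refine le_trans ?_ ht.le; rw [e]; norm_num
  · refine le_trans ?_ ht2; rw [e]; norm_num
  · exact ik_lo (l := 2) (s := 223606 / 100000) (by norm_num) u0 (by norm_num) (by norm_num) (by norm_num) J5a4 (by norm_num)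
  · exact ik_lo (l := 3) (s := 223606 / 100000) (by norm_num) u0 (by norm_num) (by norm_num) (by norm_num) J5a6 (by norm_num)
  · exact ik_up (l := 4) (s := 223607 / 100000) (by norm_num) u0 (by norm_num) (by norm_num) J5a8 (by norm_num) (by norm_num)
  · exact ik_up (l := 5) (s := 223607 / 100000) (by norm_num) u0 (by norm_num) (by norm_num) J5a10 (by norm_num) (by norm_num)
  · exact ik_up (l := 6) (s := 223607 / 100000) (by norm_num) u0 (by norm_num) (by norm_num) J5a12 (by norm_num) (by norm_num)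

theorem cert5b : Cert 5 uu5b (524 / 1000) (13359 / 125) (123937 / 100) (88743 / 5) (285237) (4962160) := by
  have ht := tau_lb
  have e : uu5b = 8 * ((2 * 64 * 38893678519983040) / 18446744073709551616) := by unfold uu5b; norm_num
  have u0 : 0 ≤ uu5b := by rw [e]; norm_num
  have ht2 : (34947 / 10000 : ℝ) ^ 2 ≤ tau ^ 2 := pow_le_pow_left₀ (by norm_num) ht.le 2
  refine ⟨u0, ?_, ?_, ?_, ?_, ?_, ?_, ?_⟩
  · refine le_trans ?_ ht.le; rw [e]; norm_num
  · refine le_trans ?_ ht2; rw [e]; norm_num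
  · exact ik_lo (l := 2) (s := 223606 / 100000) (by norm_num) u0 (by norm_num) (by norm_num) (by norm_num) J5b4 (by norm_num)
  · exact ik_lo (l := 3) (s := 223606 / 100000) (by norm_num) u0 (by norm_num) (by norm_num) (by norm_num) J5b6 (by norm_num)
  · exact ik_up (l := 4) (s := 223607 / 100000) (by norm_num) u0 (by norm_num) (by norm_num) J5b8 (by norm_num) (by norm_num)
  · exact ik_up (l := 5) (s := 223607 / 100000) (by norm_num) u0 (by norm_num) (by norm_num) J5b10 (by norm_num) (by norm_num)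
  · exact ik_up (l := 6) (s := 223607 / 100000) (by norm_num) u0 (by norm_num) (by norm_num) J5b12 (by norm_num) (by norm_num)

theorem cert5c : Cert 5 uu5c (572 / 1000) (10199 / 100) (28264 / 25) (30577 / 2) (230287) (3733620) := by
  have ht := tau_lb
  have e : uu5c = 8 * ((2 * 64 * 37226023679435624) / 18446744073709551616) := by unfold uu5c; norm_num
  have u0 : 0 ≤ uu5c := by rw [e]; norm_num
  have ht2 : (34947 / 10000 : ℝ) ^ 2 ≤ tau ^ 2 := pow_le_pow_left₀ (by norm_num) ht.le 2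
  refine ⟨u0, ?_, ?_, ?_, ?_, ?_, ?_, ?_⟩
  · refine le_trans ?_ ht.le; rw [e]; norm_num
  · refine le_trans ?_ ht2; rw [e]; norm_num
  · exact ik_lo (l := 2) (s := 223606 / 100000) (by norm_num) u0 (by norm_num) (by norm_num) (by norm_num) J5c4 (by norm_num)
  · exact ik_lo (l := 3) (s := 223606 / 100000) (by norm_num) u0 (by norm_num) (by norm_num) (by norm_num) J5c6 (by norm_num)
  · exact ik_up (l := 4) (s := 223607 / 100000) (by norm_num) u0 (by norm_num) (by norm_num) J5c8 (by norm_num) (by norm_num)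
  · exact ik_up (l := 5) (s := 223607 / 100000) (by norm_num) u0 (by norm_num) (by norm_num) J5c10 (by norm_num) (by norm_num)
  · exact ik_up (l := 6) (s := 223607 / 100000) (by norm_num) u0 (by norm_num) (by norm_num) J5c12 (by norm_num) (by norm_num)

theorem cert6a : Cert 6 uu6a (42 / 100) (119973 / 1000) (154819 / 100) (127211 / 5) (478653) (9901360) := by
  have ht := tau_lb
  have e : uu6a = 8 * ((2 * 64 * 39657870971105240) / 18446744073709551616) := by unfold uu6a; norm_num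
  have u0 : 0 ≤ uu6a := by rw [e]; norm_num
  have ht2 : (34947 / 10000 : ℝ) ^ 2 ≤ tau ^ 2 := pow_le_pow_left₀ (by norm_num) ht.le 2
  refine ⟨u0, ?_, ?_, ?_, ?_, ?_, ?_, ?_⟩
  · refine le_trans ?_ ht.le; rw [e]; norm_num
  · refine le_trans ?_ ht2; rw [e]; norm_num
  · exact ik_lo (l := 2) (s := 244948 / 100000) (by norm_num) u0 (by norm_num) (by norm_num) (by norm_num) J6a4 (by norm_num)
  · exact ik_lo (l := 3) (s := 244948 / 100000) (by norm_num) u0 (by norm_num) (by norm_num) (by norm_num) J6a6 (by norm_num)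
  · exact ik_up (l := 4) (s := 244949 / 100000) (by norm_num) u0 (by norm_num) (by norm_num) J6a8 (by norm_num) (by norm_num)
  · exact ik_up (l := 5) (s := 244949 / 100000) (by norm_num) u0 (by norm_num) (by norm_num) J6a10 (by norm_num) (by norm_num)
  · exact ik_up (l := 6) (s := 244949 / 100000) (by norm_num) u0 (by norm_num) (by norm_num) J6a12 (by norm_num) (by norm_num)

theorem cert6b : Cert 6 uu6b (524 / 1000) (110083 / 1000) (32317 / 25) (93503 / 5) (303065) (5307870) := by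
  have ht := tau_lb
  have e : uu6b = 8 * ((2 * 64 * 35504908449494292) / 18446744073709551616) := by unfold uu6b; norm_num
  have u0 : 0 ≤ uu6b := by rw [e]; norm_num
  have ht2 : (34947 / 10000 : ℝ) ^ 2 ≤ tau ^ 2 := pow_le_pow_left₀ (by norm_num) ht.le 2
  refine ⟨u0, ?_, ?_, ?_, ?_, ?_, ?_, ?_⟩
  · refine le_trans ?_ ht.le; rw [e]; norm_num
  · refine le_trans ?_ ht2; rw [e]; norm_num
  · exact ik_lo (l := 2) (s := 244948 / 100000) (by norm_num) u0 (by norm_num) (by norm_num) (by norm_num) J6b4 (by norm_num)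
  · exact ik_lo (l := 3) (s := 244948 / 100000) (by norm_num) u0 (by norm_num) (by norm_num) (by norm_num) J6b6 (by norm_num)
  · exact ik_up (l := 4) (s := 244949 / 100000) (by norm_num) u0 (by norm_num) (by norm_num) J6b8 (by norm_num) (by norm_num)
  · exact ik_up (l := 5) (s := 244949 / 100000) (by norm_num) u0 (by norm_num) (by norm_num) J6b10 (by norm_num) (by norm_num)
  · exact ik_up (l := 6) (s := 244949 / 100000) (by norm_num) u0 (by norm_num) (by norm_num) J6b12 (by norm_num) (by norm_num)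

theorem cert6c : Cert 6 uu6c (572 / 1000) (104673 / 1000) (29302 / 25) (79882 / 5) (242203) (3946920) := by
  have ht := tau_lb
  have e : uu6c = 8 * ((2 * 64 * 33982554825660128) / 18446744073709551616) := by unfold uu6c; norm_num
  have u0 : 0 ≤ uu6c := by rw [e]; norm_num
  have ht2 : (34947 / 10000 : ℝ) ^ 2 ≤ tau ^ 2 := pow_le_pow_left₀ (by norm_num) ht.le 2
  refine ⟨u0, ?_, ?_, ?_, ?_, ?_, ?_, ?_⟩
  · refine le_trans ?_ ht.le; rw [e]; norm_num
  · refine le_trans ?_ ht2; rw [e]; norm_num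
  · exact ik_lo (l := 2) (s := 244948 / 100000) (by norm_num) u0 (by norm_num) (by norm_num) (by norm_num) J6c4 (by norm_num)
  · exact ik_lo (l := 3) (s := 244948 / 100000) (by norm_num) u0 (by norm_num) (by norm_num) (by norm_num) J6c6 (by norm_num)
  · exact ik_up (l := 4) (s := 244949 / 100000) (by norm_num) u0 (by norm_num) (by norm_num) J6c8 (by norm_num) (by norm_num)
  · exact ik_up (l := 5) (s := 244949 / 100000) (by norm_num) u0 (by norm_num) (by norm_num) J6c10 (by norm_num) (by norm_num)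
  · exact ik_up (l := 6) (s := 244949 / 100000) (by norm_num) u0 (by norm_num) (by norm_num) J6c12 (by norm_num) (by norm_num)

/-- soundness of the comparison -/
theorem cmp_sound {c4 c6 c8 c10 c12 sl ex a e w i j : ℕ} (h : cmp c4 c6 c8 c10 c12 sl ex a e w i j = true)
    {q : ℝ} (hq : 0 < q) (hX : (i : ℝ) * j / 250000 ≤ q ^ 4) :
    q⁻¹ * ((w : ℝ) / 10 ^ 8) ≤
      ((c4 : ℝ) * a + c6 * e + sl - (c8 * (a * a) + c10 * (a * e) + c12 * (e * e) + ex)) / 10 ^ 24 := by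
  unfold cmp at h
  rw [Bool.and_eq_true] at h
  have hw := Nat.le_of_ble_eq_true h.1
  have h2 := Nat.le_of_ble_eq_true h.2
  obtain ⟨P, hP⟩ : ∃ P, P = c4 * a + c6 * e + sl := ⟨_, rfl⟩
  obtain ⟨M, hM⟩ : ∃ M, M = c8 * (a * a) + c10 * (a * e) + c12 * (e * e) + ex := ⟨_, rfl⟩
  rw [← hP, ← hM] at h2
  have hMP : M ≤ P := by
    by_contra hn
    push Not at hn
    have h3 : P - M = 0 := by omega
    rw [h3] at h2
    have h4 : 0 < w ^ 4 * (10 ^ 64 * 250000) := by positivity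
    simp at h2
    omega
  have h3 : (w : ℝ) ^ 4 * (10 ^ 64 * 250000) ≤ ((P : ℝ) - M) ^ 4 * (i * j) := by
    have : ((w ^ 4 * (10 ^ 64 * 250000) : ℕ) : ℝ) ≤ (((P - M) ^ 4 * (i * j) : ℕ) : ℝ) := by exact_mod_cast h2
    push_cast [Nat.cast_sub hMP] at this
    norm_num at this ⊢
    exact this
  have hPM : (0 : ℝ) ≤ (P : ℝ) - M := by
    have : (M : ℝ) ≤ P := by exact_mod_cast hMP
    linarith
  have e1 : ((c4 : ℝ) * a + c6 * e + sl - (c8 * (a * a) + c10 * (a * e) + c12 * (e * e) + ex)) = (P : ℝ) - M := by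
    rw [hP, hM]; push_cast; ring
  rw [e1]
  have h4 : (w : ℝ) / 10 ^ 8 ≤ ((P : ℝ) - M) / 10 ^ 24 * q := by
    by_contra hn
    push Not at hn
    have h5 := pow_lt_pow_left₀ hn (by positivity) (n := 4) (by norm_num)
    rw [mul_pow, div_pow, div_pow] at h5
    have h6 : ((P : ℝ) - M) ^ 4 / (10 ^ 24) ^ 4 * ((i : ℝ) * j / 250000) ≤ ((P : ℝ) - M) ^ 4 / (10 ^ 24) ^ 4 * q ^ 4 :=
      mul_le_mul_of_nonneg_left hX (by positivity)
    have h7 : ((P : ℝ) - M) ^ 4 / (10 ^ 24) ^ 4 * ((i : ℝ) * j / 250000) < (w : ℝ) ^ 4 / (10 ^ 8) ^ 4 := lt_of_le_of_lt h6 h5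
    have h8 : ((P : ℝ) - M) ^ 4 / (10 ^ 24) ^ 4 * ((i : ℝ) * j / 250000) =
      (((P : ℝ) - M) ^ 4 * (i * j)) / (10 ^ 96 * 250000) := by
      field_simp
    rw [h8, div_lt_div_iff₀ (by positivity) (by positivity)] at h7
    have h9 : (w : ℝ) ^ 4 * (10 ^ 96 * 250000) = (w : ℝ) ^ 4 * (10 ^ 64 * 250000) * (10 ^ 8) ^ 4 := by ring
    rw [h9] at h7
    have h10 := mul_le_mul_of_nonneg_right h3 (by positivity : (0 : ℝ) ≤ (10 ^ 8) ^ 4)
    linarith
  rw [inv_mul_le_iff₀ hq, mul_comm]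
  exact h4

/-- bounds for the extra term -/
theorem Eb_le {x X s Y B : ℝ} (hx0 : 0 < x) (hxX : x ≤ X) (hX1 : X < 1) (hs : 0 ≤ s) (hsX : X ≤ s ^ 2)
    (hY : Y * X ≤ 40.96 * (14556254738 / 100000000000) * (1 - X)) (hB0 : 0 ≤ B)
    (hB : 14 / 100 * (exp (-Y) * s) ≤ B * (6.4 * (14556254738 / 100000000000) * (1 - X))) : Eb x ≤ B := by
  have haa := aa_num.1
  have hX0 : 0 < X := by linarith
  have h1x : 0 < 1 - x := by linarith
  have h1X : 0 < 1 - X := by linarith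
  have haa0 : 0 < aa := by linarith
  have hsx : 0 < √x := Real.sqrt_pos.2 hx0
  have hss : √x ≤ s := Real.sqrt_le_iff.2 ⟨hs, by linarith⟩
  unfold Eb
  have e1 : -(aa * (1 - x)) * (64 / 10 / √x) ^ 2 ≤ -Y := by
    rw [div_pow, Real.sq_sqrt hx0.le]
    have h2 : Y ≤ aa * (1 - x) * ((64 / 10) ^ 2 / x) := by
      have h3 : Y ≤ 40.96 * (14556254738 / 100000000000) * (1 - X) / X := by rw [le_div_iff₀ hX0]; exact hY
      refine h3.trans ?_
      rw [show aa * (1 - x) * ((64 / 10) ^ 2 / x) = (aa * (1 - x) * (64 / 10) ^ 2) / x by ring,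
        div_le_div_iff₀ hX0 hx0]
      have h4 : 40.96 * (14556254738 / 100000000000) ≤ aa * (64 / 10) ^ 2 := by norm_num at haa ⊢; linarith
      have h5 : (1 - X) * x ≤ (1 - x) * X := by nlinarith
      have h6 : 0 ≤ (1 - X) * x := by positivity
      have h7 := mul_le_mul h4 h5 h6 (by positivity)
      linarith
    linarith
  have e2 : exp (-(aa * (1 - x)) * (64 / 10 / √x) ^ 2) ≤ exp (-Y) := Real.exp_le_exp.2 e1
  have e3 : aa * (1 - x) * (64 / 10 / √x) = (aa * (1 - x) * (64 / 10)) / √x := by ring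
  rw [e3, div_div_eq_mul_div, ← mul_div_assoc, div_le_iff₀ (by positivity)]
  have h4 : 6.4 * (14556254738 / 100000000000) * (1 - X) ≤ aa * (1 - x) * (64 / 10) := by
    have h5 : (14556254738 / 100000000000 : ℝ) * (1 - X) ≤ aa * (1 - x) :=
      mul_le_mul haa.le (by linarith) h1X.le haa0.le
    norm_num at h5 ⊢
    linarith
  have h6 := mul_le_mul_of_nonneg_left h4 hB0
  have h7 : 14 / 100 * (exp (-(aa * (1 - x)) * (64 / 10 / √x) ^ 2) * √x) ≤ 14 / 100 * (exp (-Y) * s) := by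
    gcongr
  linarith

theorem Eb_572 {x : ℝ} (hx0 : 0 < x) (hx : x ≤ 572 / 1000) : Eb x ≤ 5 / 1000 := by
  refine Eb_le (X := 572 / 1000) (s := 7564 / 10000) (Y := 4) hx0 hx (by norm_num) (by norm_num) (by norm_num)
    (by norm_num) (by norm_num) ?_
  have he := Real.exp_neg_one_lt_d9
  have h1 : exp (-4) = exp (-1) ^ 4 := by rw [← Real.exp_nat_mul]; congr 1; norm_num
  have h2 : exp (-1) ^ 4 ≤ (0.3678794412 : ℝ) ^ 4 := pow_le_pow_left₀ (exp_pos _).le he.le 4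
  rw [h1]
  norm_num at h2 ⊢
  linarith

theorem Eb_524 {x : ℝ} (hx0 : 0 < x) (hx : x ≤ 524 / 1000) : Eb x ≤ 16 / 10000 := by
  refine Eb_le (X := 524 / 1000) (s := 7239 / 10000) (Y := 5) hx0 hx (by norm_num) (by norm_num) (by norm_num)
    (by norm_num) (by norm_num) ?_
  have he := Real.exp_neg_one_lt_d9
  have h1 : exp (-5) = exp (-1) ^ 5 := by rw [← Real.exp_nat_mul]; congr 1; norm_num
  have h2 : exp (-1) ^ 5 ≤ (0.3678794412 : ℝ) ^ 5 := pow_le_pow_left₀ (exp_pos _).le he.le 5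
  rw [h1]
  norm_num at h2 ⊢
  linarith

theorem Eb_300 {x : ℝ} (hx0 : 0 < x) (hx : x ≤ 3 / 10) : Eb x ≤ 2 / 100000 := by
  refine Eb_le (X := 3 / 10) (s := 5478 / 10000) (Y := 9) hx0 hx (by norm_num) (by norm_num) (by norm_num)
    (by norm_num) (by norm_num) ?_
  have he := Real.exp_neg_one_lt_d9
  have h1 : exp (-9) = exp (-1) ^ 9 := by rw [← Real.exp_nat_mul]; congr 1; norm_num
  have h2 : exp (-1) ^ 9 ≤ (0.3678794412 : ℝ) ^ 9 := pow_le_pow_left₀ (exp_pos _).le he.le 9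
  rw [h1]
  norm_num at h2 ⊢
  linarith

end

end Agent238.GS
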