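import Pool.Agent.Helper238.GS.P5

/-!
# The pair region, VI: from boxes to real inequalities
-/

open MeasureTheory Real Set Filter Pool.Agent.Helper238
open scoped ENNReal Topology Nat

namespace Agent238.GS

noncomputable section

theorem trunc_sq {A B : ℕ} {y : ℝ} (h : (A : ℝ) - B ≤ y) : ((A - B : ℕ) : ℝ) * ((A - B : ℕ) : ℝ) ≤ y ^ 2 := by
  rcases le_total B A with h1 | h1
  · rw [Nat.cast_sub h1]
    have : (B : ℝ) ≤ A := by exact_mod_cast h1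
    nlinarith
  · rw [Nat.sub_eq_zero_of_le h1]
    simp only [Nat.cast_zero, mul_zero]
    positivity

theorem trunc_le {A B : ℕ} {y : ℝ} (hy : 0 ≤ y) (h : (A : ℝ) - B ≤ y) : ((A - B : ℕ) : ℝ) ≤ y := by
  rcases le_total B A with h1 | h1
  · rw [Nat.cast_sub h1]; exact h
  · rw [Nat.sub_eq_zero_of_le h1]; simpa using hy

theorem sq_rest {ι : Type*} (S : Finset ι) (x : ι → ℝ) {c : ℕ} (hc : S.card = c) (hc0 : 0 < c) :
    (∑ i ∈ S, x i) ^ 2 / c ≤ ∑ i ∈ S, x i ^ 2 := by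
  have h := sq_sum_le_card_mul_sum_sq (s := S) (f := x)
  have hc' : (0 : ℝ) < c := by exact_mod_cast hc0
  rw [div_le_iff₀ hc']
  rw [hc] at h
  linarith

theorem cube_rest {ι : Type*} (S : Finset ι) (x : ι → ℝ) (hx : ∀ i, 0 ≤ x i) {c : ℕ} (hc : S.card = c) :
    (∑ i ∈ S, x i) ^ 3 / (c : ℝ) ^ 2 ≤ ∑ i ∈ S, x i ^ 3 := by
  have h := pow_sum_div_card_le_sum_pow (s := S) (f := x) (fun i _ => hx i) 2
  rw [hc] at h
  exact h

theorem card_rest {n : ℕ} {i0 i1 : Fin n} (hne : i1 ≠ i0) : ((Finset.univ.erase i0).erase i1).card = n - 2 := by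
  rw [Finset.card_erase_of_mem (Finset.mem_erase.2 ⟨hne, Finset.mem_univ _⟩),
    Finset.card_erase_of_mem (Finset.mem_univ _), Finset.card_univ, Fintype.card_fin]
  omega

theorem wB_ok {i j : ℕ} {x0 x1 : ℝ} (h1 : 0 < x1) (hx1 : x0 + x1 ≤ 1) (hi : 500 * x0 < i + 1) (hj : 500 * x1 < j + 1)
    (hij : i + j ≤ 498) :
    (1438 / 10000 * (15 / 100 : ℝ) ^ ((1 - x0 - x1) / x1) +
        34 / 10000 * (17 / 100 : ℝ) ^ ((1 - x0 - x1) / x1) ≤ (wB i j : ℝ) / 10 ^ 8) ∨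
      (534 / 10000 * (17 / 100 : ℝ) ^ ((1 - x0 - x1) / x1) + 1241 / 10000 *
        max (15 / 100) ((525 / 10000 : ℝ) ^ ((1 - x0 - x1) / x1)) ≤ (wB i j : ℝ) / 10 ^ 8) := by
  unfold wB
  refine W_real (lt_of_le_of_lt (Nat.min_le_right _ _) (by norm_num)) ?_
  have h2 : ((Nat.min (64 * (498 - i - j) / (j + 1)) 383 : ℕ) : ℝ) ≤ ((64 * (498 - i - j) / (j + 1) : ℕ) : ℝ) := by
    exact_mod_cast Nat.min_le_left _ _
  have h3 : ((64 * (498 - i - j) / (j + 1) : ℕ) : ℝ) ≤ ((64 * (498 - i - j) : ℕ) : ℝ) / ((j + 1 : ℕ) : ℝ) := Nat.cast_div_le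
  have h4 : ((64 * (498 - i - j) : ℕ) : ℝ) = 64 * (498 - i - j) := by
    have e : 498 - i - j = 498 - (i + j) := by omega
    rw [e, Nat.cast_mul, Nat.cast_sub hij]; push_cast; ring
  rw [h4] at h3
  push_cast at h3
  have h5 : (64 * (498 - (i : ℝ) - j)) / ((j : ℝ) + 1) / 64 ≤ (1 - x0 - x1) / x1 := by
    have hj1 : 0 < (j : ℝ) + 1 := by positivity
    rw [div_div, div_le_div_iff₀ (by positivity) h1]
    have h6 : 498 - (i : ℝ) - j ≤ 500 * (1 - x0 - x1) := by linarith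
    have h7 : 0 ≤ 1 - x0 - x1 := by linarith
    have h8 : (498 - (i : ℝ) - j) * x1 ≤ 500 * (1 - x0 - x1) * x1 := mul_le_mul_of_nonneg_right h6 h1.le
    have h9 : (1 - x0 - x1) * (500 * x1) ≤ (1 - x0 - x1) * (j + 1) := mul_le_mul_of_nonneg_left hj.le h7
    nlinarith only [h8, h9]
  have h10 : ((Nat.min (64 * (498 - i - j) / (j + 1)) 383 : ℕ) : ℝ) / 64 ≤ (64 * (498 - (i : ℝ) - j)) / ((j : ℝ) + 1) / 64 :=
    div_le_div_of_nonneg_right (h2.trans h3) (by norm_num)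
  exact h10.trans h5

theorem exB_ok {i j : ℕ} {x0 x1 : ℝ} (h0 : 0 < x0) (hi : 500 * x0 < i + 1) (hj : (j : ℝ) ≤ 500 * x1) (hi2 : i ≤ 285) :
    x0 ≤ 335 / 100 * x1 ∨ Eb x0 ≤ (exB i j : ℝ) / 10 ^ 24 := by
  unfold exB
  by_cases c1 : Nat.ble (100 * (i + 1)) (335 * j) = true
  · left
    have h := Nat.le_of_ble_eq_true c1
    have h' : (100 : ℝ) * (i + 1) ≤ 335 * j := by exact_mod_cast h
    linarith
  · right
    rw [if_neg c1]
    by_cases c2 : Nat.ble i 149 = true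
    · rw [if_pos c2]
      have h : (i : ℝ) ≤ 149 := by exact_mod_cast Nat.le_of_ble_eq_true c2
      refine (Eb_300 h0 (by linarith)).trans ?_
      norm_num
    · rw [if_neg c2]
      by_cases c3 : Nat.ble i 261 = true
      · rw [if_pos c3]
        have h : (i : ℝ) ≤ 261 := by exact_mod_cast Nat.le_of_ble_eq_true c3
        refine (Eb_524 h0 (by linarith)).trans ?_
        norm_num
      · rw [if_neg c3]
        have h : (i : ℝ) ≤ 285 := by exact_mod_cast hi2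
        refine (Eb_572 h0 (by linarith)).trans ?_
        norm_num

/-- one box -/
theorem box_step {N n : ℕ} (hN : 0 < N) (hNn : N ≤ n) {u xl i4 i6 i8 i10 i12 : ℝ} (hC : Cert N u xl i4 i6 i8 i10 i12)
    (x : Fin n → ℝ) (hx : ∀ i, 0 ≤ x i)
    {i0 i1 : Fin n} (hne : i1 ≠ i0) (hs : ∑ i, x i = 1) (h01 : x i1 ≤ x i0) (h1 : 0 < x i1)
    (hmax : ∀ i, i ≠ i0 → x i ≤ x i1) (hxl : x i0 ≤ xl) {i j a e sl J c4 c6 c8 c10 c12 : ℕ} {Da De : ℝ}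
    (hi : (i : ℝ) ≤ 500 * x i0) (hi' : 500 * x i0 < i + 1) (hj : (j : ℝ) ≤ 500 * x i1) (hj' : 500 * x i1 < j + 1)
    (hi2 : i ≤ 285) (hij : i + j ≤ 498) (hDa : 0 < Da) (hDe : 0 < De)
    (hδ : (a : ℝ) / Da ≤ ∑ i, x i ^ 2 - 1 / n) (hδ3 : (e : ℝ) / De ≤ ∑ i, x i ^ 3 - 1 / n ^ 2)
    (hc4 : (c4 : ℝ) / 10 ^ 24 ≤ 37 / 10000 * i4 / Da) (hc6 : (c6 : ℝ) / 10 ^ 24 ≤ 18 / 100000 * i6 / De)
    (hc8 : 1 / 2 * (37 / 10000 / Da) ^ 2 * i8 ≤ (c8 : ℝ) / 10 ^ 24)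
    (hc10 : (37 / 10000 / Da) * (18 / 100000 / De) * i10 ≤ (c10 : ℝ) / 10 ^ 24)
    (hc12 : 1 / 2 * (18 / 100000 / De) ^ 2 * i12 ≤ (c12 : ℝ) / 10 ^ 24)
    (hcmp : cmp c4 c6 c8 c10 c12 sl (exB i j + J) a e (wB i j) i j = true) :
    ∫ t, ∏ i, ph (√(x i) * t) ≤ Am n + ((sl : ℝ) - J) / 10 ^ 24 := by
  have h0 : 0 < x i0 := h1.trans_le h01
  have hsp := sum_split x hne
  rw [hs] at hsp
  have hrest : 0 ≤ ∑ i ∈ (Finset.univ.erase i0).erase i1, x i := Finset.sum_nonneg fun i _ => hx i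
  have hx01 : x i0 + x i1 ≤ 1 := by linarith
  have huT : N * u ^ 2 * x i0 ≤ tau ^ 2 := by
    refine le_trans ?_ hC.uT
    exact mul_le_mul_of_nonneg_left hxl (by positivity)
  have hP := P_upper hN hNn x hx hne hs h01 h1 hmax (by linarith) (wB_ok h1 hx01 hi' hj' hij)
    (by positivity : (0 : ℝ) ≤ (exB i j : ℝ) / 10 ^ 24) (exB_ok h0 hi' hj hi2)
    (by positivity : (0 : ℝ) ≤ (a : ℝ) / Da) (by positivity : (0 : ℝ) ≤ (e : ℝ) / De) hδ hδ3 hC.u0 hC.ut huT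
  obtain ⟨q, hq⟩ : ∃ q, q = √(√(x i0)) * √(√(x i1)) := ⟨_, rfl⟩
  have hqp : 0 < q := by
    rw [hq]
    exact mul_pos (Real.sqrt_pos.2 (Real.sqrt_pos.2 h0)) (Real.sqrt_pos.2 (Real.sqrt_pos.2 h1))
  have hq4 : q ^ 4 = x i0 * x i1 := by
    rw [hq, mul_pow]
    have e : ∀ y : ℝ, 0 ≤ y → √(√y) ^ 4 = y := by
      intro y hy
      have : √(√y) ^ 4 = (√(√y) ^ 2) ^ 2 := by ring
      rw [this, Real.sq_sqrt (Real.sqrt_nonneg _), Real.sq_sqrt hy]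
    rw [e _ h0.le, e _ h1.le]
  rw [← hq] at hP
  have hX : (i : ℝ) * j / 250000 ≤ q ^ 4 := by
    rw [hq4, div_le_iff₀ (by norm_num)]
    have := mul_le_mul hi hj (Nat.cast_nonneg j) (by positivity)
    nlinarith only [this]
  have hc := cmp_sound hcmp hqp hX
  have hg := gp_mono (by positivity : (0 : ℝ) ≤ (a : ℝ) / Da) (by positivity : (0 : ℝ) ≤ (e : ℝ) / De)
    hC.h4 hC.h6 hC.h8 hC.h10 hC.h12
  have hg2 : ((c4 : ℝ) * a + c6 * e - (c8 * (a * a) + c10 * (a * e) + c12 * (e * e))) / 10 ^ 24 ≤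
      gp i4 i6 i8 i10 i12 ((a : ℝ) / Da) ((e : ℝ) / De) := by
    have k4 := mul_le_mul_of_nonneg_right hc4 (Nat.cast_nonneg (α := ℝ) a)
    have k6 := mul_le_mul_of_nonneg_right hc6 (Nat.cast_nonneg (α := ℝ) e)
    have k8 := mul_le_mul_of_nonneg_right hc8 (by positivity : (0 : ℝ) ≤ (a : ℝ) * a)
    have k10 := mul_le_mul_of_nonneg_right hc10 (by positivity : (0 : ℝ) ≤ (a : ℝ) * e)
    have k12 := mul_le_mul_of_nonneg_right hc12 (by positivity : (0 : ℝ) ≤ (e : ℝ) * e)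
    have e1 : gp i4 i6 i8 i10 i12 ((a : ℝ) / Da) ((e : ℝ) / De) = 37 / 10000 * i4 / Da * a + 18 / 100000 * i6 / De * e -
        (1 / 2 * (37 / 10000 / Da) ^ 2 * i8 * (a * a) + (37 / 10000 / Da) * (18 / 100000 / De) * i10 * (a * e) +
          1 / 2 * (18 / 100000 / De) ^ 2 * i12 * (e * e)) := by
      unfold gp
      field_simp
    have e2 : ((c4 : ℝ) * a + c6 * e - (c8 * (a * a) + c10 * (a * e) + c12 * (e * e))) / 10 ^ 24 =
        (c4 : ℝ) / 10 ^ 24 * a + (c6 : ℝ) / 10 ^ 24 * e - ((c8 : ℝ) / 10 ^ 24 * (a * a) + (c10 : ℝ) / 10 ^ 24 * (a * e) +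
          (c12 : ℝ) / 10 ^ 24 * (e * e)) := by ring
    rw [e1, e2]
    linarith
  unfold gp at hg
  push_cast at hc
  have e3 : ((c4 : ℝ) * a + c6 * e + sl - (c8 * (a * a) + c10 * (a * e) + c12 * (e * e) + ((exB i j : ℝ) + J))) / 10 ^ 24 =
      ((c4 : ℝ) * a + c6 * e - (c8 * (a * a) + c10 * (a * e) + c12 * (e * e))) / 10 ^ 24 + ((sl : ℝ) - J) / 10 ^ 24 -
      (exB i j : ℝ) / 10 ^ 24 := by ring
  rw [e3] at hc
  unfold gp at hg2
  linarith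

end

end Agent238.GS
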