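import Pool.Agent.Helper238.GS.P6

/-!
# The pair region, VII: dimension five
-/

open MeasureTheory Real Set Filter Pool.Agent.Helper238
open scoped ENNReal Topology Nat

namespace Agent238.GS

noncomputable section

theorem Am5_le : Am 5 ≤ 452081 / 100000 := by
  have htl := tau_lb
  have htu := tau_ub
  have h1 := IK_eq 5 0 (by norm_num) (u := tau) (by linarith)
  have h2 : IK 5 (2 * 0) (√((5 : ℕ) : ℝ) * tau) = Am 5 := by
    unfold IK Am
    simp only [mul_zero, pow_zero, one_mul]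
  rw [h2, pow_zero, mul_one] at h1
  rw [h1]
  have h3 : JJ (2 * 0) 5 tau ≤ 10108823 / 10000000 := by
    have hu : us_m5 ≤ 34949 / 10000 := by unfold us_m5; norm_num
    have hu2 : 34948 / 10000 ≤ us_m5 := by unfold us_m5; norm_num
    have h4 := Js_m5
    have hc : ∀ a b, IntervalIntegrable (fun v : ℝ => v ^ 0 * ph v ^ 5) volume a b := fun a b =>
      ((continuous_pow 0).mul (ph_cont.pow 5)).intervalIntegrable a b
    have h5 : JJ 0 5 us_m5 = JJ 0 5 tau + ∫ v in tau..us_m5, v ^ 0 * ph v ^ 5 := by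
      unfold JJ
      rw [intervalIntegral.integral_add_adjacent_intervals (hc 0 tau) (hc tau us_m5)]
    have h6 : ∫ v in tau..us_m5, (-(1 / 10000) : ℝ) ≤ ∫ v in tau..us_m5, v ^ 0 * ph v ^ 5 := by
      refine intervalIntegral.integral_mono_on (by linarith) (by simp) (hc _ _) fun v hv => ?_
      have h7 := ph_abs_15 hv.1
      have h8 : |ph v ^ 5| ≤ (15 / 100) ^ 5 := by
        rw [abs_pow]; exact pow_le_pow_left₀ (abs_nonneg _) h7 5
      have h9 := (abs_le.1 h8).1
      rw [pow_zero, one_mul]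
      norm_num at h9 ⊢
      linarith
    rw [intervalIntegral.integral_const, smul_eq_mul] at h6
    have h10 : JJ (2 * 0) 5 tau = JJ 0 5 tau := by rw [mul_zero]
    rw [h10]
    norm_num at h4
    nlinarith
  have h7 : √((5 : ℕ) : ℝ) ≤ 223607 / 100000 := by
    rw [Real.sqrt_le_left (by norm_num)]; norm_num
  have h8 : 0 ≤ √((5 : ℕ) : ℝ) := Real.sqrt_nonneg _
  have h9 : 2 * √((5 : ℕ) : ℝ) * JJ (2 * 0) 5 tau ≤ 2 * √((5 : ℕ) : ℝ) * (10108823 / 10000000) :=
    mul_le_mul_of_nonneg_left h3 (by positivity)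
  refine h9.trans ?_
  have h10 : 2 * √((5 : ℕ) : ℝ) * (10108823 / 10000000) ≤ 2 * (223607 / 100000) * (10108823 / 10000000) := by gcongr
  refine h10.trans ?_
  norm_num

theorem V2_num : 453227 / 100000 < √2 * G0 ∧ √2 * G0 < 45323 / 10000 := by
  have h := G0_num
  have h1 : (1414213 / 1000000 : ℝ) ≤ √2 := by
    rw [Real.le_sqrt (by norm_num) (by norm_num)]; norm_num
  have h2 : √2 ≤ (1414214 / 1000000 : ℝ) := by
    rw [Real.sqrt_le_left (by norm_num)]; norm_num
  have hG := G0_pos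
  constructor
  · have : (1414213 / 1000000 : ℝ) * (3204806 / 1000000) ≤ √2 * G0 :=
      mul_le_mul h1 h.1.le (by norm_num) (by positivity)
    norm_num at this ⊢
    linarith
  · have : √2 * G0 ≤ (1414214 / 1000000 : ℝ) * (32048085 / 10000000) :=
      mul_le_mul h2 h.2.le hG.le (by norm_num)
    norm_num at this ⊢
    linarith

/-- the pair region in dimension five -/
theorem regionP5 (x : Fin 5 → ℝ) (hx : ∀ i, 0 ≤ x i) {i0 i1 : Fin 5} (hne : i1 ≠ i0) (hs : ∑ i, x i = 1)
    (h01 : x i1 ≤ x i0) (hmax : ∀ i, i ≠ i0 → x i ≤ x i1)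
    (hD : x i0 < 1 / 2 + (1 - x i0 - x i1) / 6)
    (hIII : ¬ (344 / 1000 ≤ x i1 ∧ 1 - x i0 - x i1 ≤ 66 / 100 * x i1 ∧ 1 - x i0 - x i1 ≤ 24 / 100)) :
    ∫ t, ∏ i, ph (√(x i) * t) ≤ √2 * G0 := by
  obtain ⟨S, hS⟩ : ∃ S, S = (Finset.univ.erase i0).erase i1 := ⟨_, rfl⟩
  have hsp := sum_split x hne
  have hsp2 := sum_split (fun i => x i ^ 2) hne
  have hsp3 := sum_split (fun i => x i ^ 3) hne
  rw [hs, ← hS] at hsp
  rw [← hS] at hsp2 hsp3
  have hcard : S.card = 3 := by rw [hS, card_rest hne]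
  obtain ⟨m, hm⟩ : ∃ m, m = ∑ i ∈ S, x i := ⟨_, rfl⟩
  have hm0 : 0 ≤ m := by rw [hm]; exact Finset.sum_nonneg fun i _ => hx i
  have hr2 := sq_rest S x hcard (by norm_num)
  have hr3 := cube_rest S x hx hcard
  rw [← hm] at hsp hr2 hr3
  have hmS : m ≤ 3 * x i1 := by
    have : ∑ i ∈ S, x i ≤ ∑ _i ∈ S, x i1 := by
      refine Finset.sum_le_sum fun i hi => ?_
      rw [hS] at hi
      exact hmax i (Finset.ne_of_mem_erase (Finset.mem_of_mem_erase hi))
    rw [Finset.sum_const, hcard, nsmul_eq_mul, ← hm] at this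
    push_cast at this
    exact this
  have hm' : 1 - x i0 - x i1 = m := by linarith
  rw [hm'] at hD hIII
  have h0u : x i0 < 4 / 7 := by linarith [hx i1]
  have h0l : 1 / 5 ≤ x i0 := by linarith
  have h1l : 1 / 10 ≤ x i1 := by linarith
  have h1u : x i1 < 384 / 1000 := by
    by_contra hn
    push Not at hn
    exact hIII ⟨by linarith, by linarith, by linarith⟩
  obtain ⟨i, hi⟩ : ∃ i, i = ⌊500 * x i0⌋₊ := ⟨_, rfl⟩
  obtain ⟨j, hj⟩ : ∃ j, j = ⌊500 * x i1⌋₊ := ⟨_, rfl⟩
  have hi1 : (i : ℝ) ≤ 500 * x i0 := by rw [hi]; exact Nat.floor_le (by linarith)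
  have hi2 : 500 * x i0 < i + 1 := by rw [hi]; exact Nat.lt_floor_add_one _
  have hj1 : (j : ℝ) ≤ 500 * x i1 := by rw [hj]; exact Nat.floor_le (by linarith)
  have hj2 : 500 * x i1 < j + 1 := by rw [hj]; exact Nat.lt_floor_add_one _
  have a1 : 100 ≤ i := by rw [hi]; exact Nat.le_floor (by push_cast; linarith)
  have a2 : i ≤ 285 := by
    have : (i : ℝ) < 286 := by linarith
    have : i < 286 := by exact_mod_cast this
    omega
  have a3 : 20 ≤ j := by rw [hj]; exact Nat.le_floor (by push_cast; linarith)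
  have a4 : j < 192 := by
    have : (j : ℝ) < 192 := by linarith
    exact_mod_cast this
  have hji : j ≤ i := by
    rw [hi, hj]; exact Nat.floor_le_floor (by linarith)
  have hbox := allB_get grid5 i a1 (by omega) j a3 a4
  have hij : i + j ≤ 498 := by omega
  -- real inequalities for the sums
  have hδ : ((5 * ((i + j - 200) * (i + j - 200)) + 3 * ((i - j - 1) * (i - j - 1)) : ℕ) : ℝ) / 1500000 ≤
      ∑ i, x i ^ 2 - 1 / ((5 : ℕ) : ℝ) := by
    have t1 := trunc_sq (A := i + j) (B := 200) (y := 500 * (x i0 + x i1) - 200) (by push_cast; linarith)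
    have e1 : i - j - 1 = i - (j + 1) := by omega
    have t2 := trunc_sq (A := i) (B := j + 1) (y := 500 * (x i0 - x i1)) (by push_cast; linarith)
    rw [e1]
    have t3 : ((5 * ((i + j - 200) * (i + j - 200)) + 3 * ((i - (j + 1)) * (i - (j + 1))) : ℕ) : ℝ) =
      5 * (((i + j - 200 : ℕ) : ℝ) * ((i + j - 200 : ℕ) : ℝ)) + 3 * (((i - (j + 1) : ℕ) : ℝ) * ((i - (j + 1) : ℕ) : ℝ)) := by
      simp only [Nat.cast_add, Nat.cast_mul, Nat.cast_ofNat]
    rw [t3, hsp2, div_le_iff₀ (by norm_num)]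
    have hmm : m = 1 - x i0 - x i1 := by linarith
    rw [hmm] at hr2
    push_cast at hr2 ⊢
    nlinarith only [t1, t2, hr2]
  have hδ3 : ((9 * i ^ 3 + 9 * j ^ 3 + (498 - i - j) ^ 3 - 45000000 : ℕ) : ℝ) / 1125000000 ≤
      ∑ i, x i ^ 3 - 1 / ((5 : ℕ) : ℝ) ^ 2 := by
    have hpos : 0 ≤ ∑ i, x i ^ 3 - 1 / ((5 : ℕ) : ℝ) ^ 2 := by
      have := cube_rest (Finset.univ : Finset (Fin 5)) x hx (c := 5) (by simp)
      rw [hs] at this
      push_cast at this ⊢
      linarith
    rw [div_le_iff₀ (by norm_num)]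
    refine trunc_le (by positivity) ?_
    have e1 : 498 - i - j = 498 - (i + j) := by omega
    rw [e1]
    push_cast [Nat.cast_sub hij]
    have b1 : (i : ℝ) ^ 3 ≤ (500 * x i0) ^ 3 := pow_le_pow_left₀ (by positivity) hi1 3
    have b2 : (j : ℝ) ^ 3 ≤ (500 * x i1) ^ 3 := pow_le_pow_left₀ (by positivity) hj1 3
    have b3 : (498 - ((i : ℝ) + j)) ^ 3 ≤ (500 * m) ^ 3 := by
      refine pow_le_pow_left₀ ?_ (by linarith) 3
      have : ((i + j : ℕ) : ℝ) ≤ 498 := by exact_mod_cast hij
      push_cast at this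
      linarith
    rw [hsp3]
    push_cast at hr3
    nlinarith only [b1, b2, b3, hr3]
  -- the box
  unfold box5 at hbox
  rw [Bool.or_eq_true, Bool.or_eq_true] at hbox
  rcases hbox with (hbox | hbox) | hbox
  · exfalso
    unfold skipB at hbox
    rw [Bool.or_eq_true, Bool.or_eq_true, Bool.and_eq_true, Bool.and_eq_true] at hbox
    rcases hbox with (hb | hb) | hb
    · have := Nat.le_of_ble_eq_true hb
      omega
    · have h3 := Nat.le_of_ble_eq_true hb
      have h4 : 2000 ≤ 7 * i + j := by omega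
      have h5 : (2000 : ℝ) ≤ 7 * i + j := by exact_mod_cast h4
      linarith
    · have h3 := Nat.le_of_ble_eq_true hb.1.1
      have h4 := Nat.le_of_ble_eq_true hb.1.2
      have h5 := Nat.le_of_ble_eq_true hb.2
      have h6 : 50000 ≤ 100 * i + 166 * j := by omega
      have h7 : 380 ≤ i + j := by omega
      have h3' : (172 : ℝ) ≤ j := by exact_mod_cast h3
      have h6' : (50000 : ℝ) ≤ 100 * i + 166 * j := by exact_mod_cast h6
      have h7' : (380 : ℝ) ≤ i + j := by exact_mod_cast h7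
      exact hIII ⟨by linarith, by linarith, by linarith⟩
  · exfalso
    have h3 : 3 * (j + 1) < 498 - i - j := by
      have := Nat.le_of_ble_eq_true hbox
      omega
    have h4 : 4 * j + 3 + i < 498 := by omega
    have h5 : (4 : ℝ) * j + 3 + i < 498 := by exact_mod_cast h4
    linarith
  · have hfin : ∫ t, ∏ i, ph (√(x i) * t) ≤ Am 5 + (((11400000000000000000000 : ℕ) : ℝ) - ((0 : ℕ) : ℝ)) / 10 ^ 24 := by
      by_cases c1 : Nat.ble i 209 = true
      · rw [if_pos c1] at hbox
        have h : (i : ℝ) ≤ 209 := by exact_mod_cast Nat.le_of_ble_eq_true c1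
        exact box_step (by norm_num) le_rfl cert5a x hx hne hs h01 (by linarith) hmax (by linarith) hi1 hi2 hj1 hj2 a2 hij
          (by norm_num) (by norm_num) hδ hδ3 (by norm_num) (by norm_num) (by norm_num) (by norm_num) (by norm_num) hbox
      · rw [if_neg c1] at hbox
        by_cases c2 : Nat.ble i 261 = true
        · rw [if_pos c2] at hbox
          have h : (i : ℝ) ≤ 261 := by exact_mod_cast Nat.le_of_ble_eq_true c2
          exact box_step (by norm_num) le_rfl cert5b x hx hne hs h01 (by linarith) hmax (by linarith) hi1 hi2 hj1 hj2 a2 hij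
            (by norm_num) (by norm_num) hδ hδ3 (by norm_num) (by norm_num) (by norm_num) (by norm_num) (by norm_num) hbox
        · rw [if_neg c2] at hbox
          exact box_step (by norm_num) le_rfl cert5c x hx hne hs h01 (by linarith) hmax (by linarith) hi1 hi2 hj1 hj2 a2 hij
            (by norm_num) (by norm_num) hδ hδ3 (by norm_num) (by norm_num) (by norm_num) (by norm_num) (by norm_num) hbox
    refine hfin.trans ?_
    have h8 := Am5_le
    have h9 := V2_num.1
    push_cast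
    norm_num at h8 h9 ⊢
    linarith

end

end Agent238.GS
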