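import Pool.Agent.Helper238.GS.R4

/-!
# The region around `(1,1)/√2`, III
-/

open MeasureTheory Real Set Filter Pool.Agent.Helper238
open scoped ENNReal Topology

namespace Agent238.GS

def tYY (W : TM) : TM := TM.add (TM.cst 977 10000) (TM.sc 84 1000 W)
def tOm (W : TM) : TM := TM.sub (TM.cst 1 1) (TM.mul W (tYY W))
def tPP (W : TM) : TM := TM.mul (TM.mul (tOm W) (tOm W)) (TM.add (TM.cst 2 1) (TM.mul W W))
def tG1 (W : TM) : TM :=
  TM.sub (TM.mul (TM.add (TM.cst 2 1) (tPP W))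
    (TM.sub (TM.sub (TM.sc 4 1 (tYY W)) (TM.sc 2 1 (TM.mul (TM.mul W (tYY W)) (tYY W))))
      (TM.mul W (TM.mul (tOm W) (tOm W))))) (TM.sc 16 9 (TM.mul W (TM.mul W W)))
def tF2 (W : TM) : TM :=
  TM.sub (TM.sub (TM.cst 4 1) (TM.mul (TM.sub (TM.cst 624 1000) (TM.sc 688 1000 (TM.mul W W)))
    (TM.sub (TM.cst 624 1000) (TM.sc 688 1000 (TM.mul W W))))) (TM.mul (tPP W) (tPP W))

noncomputable def fYY (w : ℝ) : ℝ := ((977 : ℤ) : ℝ) / ((10000 : ℕ) : ℝ) + ((84 : ℤ) : ℝ) / ((1000 : ℕ) : ℝ) * w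
noncomputable def fOm (w : ℝ) : ℝ := ((1 : ℤ) : ℝ) / ((1 : ℕ) : ℝ) - w * fYY w
noncomputable def fPP (w : ℝ) : ℝ := fOm w * fOm w * (((2 : ℤ) : ℝ) / ((1 : ℕ) : ℝ) + w * w)

theorem tYY_snd (b : ℝ) : Snd tYY fYY b :=
  (Snd.cst 977 10000 (by norm_num) b).add ((Snd.id b).sc 84 1000 (by norm_num))
theorem tOm_snd (b : ℝ) : Snd tOm fOm b :=
  (Snd.cst 1 1 (by norm_num) b).sub ((Snd.id b).mul (tYY_snd b))
theorem tPP_snd (b : ℝ) : Snd tPP fPP b :=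
  ((tOm_snd b).mul (tOm_snd b)).mul ((Snd.cst 2 1 (by norm_num) b).add ((Snd.id b).mul (Snd.id b)))

theorem tG1_snd (b : ℝ) : Snd tG1 (fun w => (((2 : ℤ) : ℝ) / ((1 : ℕ) : ℝ) + fPP w) *
    (((4 : ℤ) : ℝ) / ((1 : ℕ) : ℝ) * fYY w - ((2 : ℤ) : ℝ) / ((1 : ℕ) : ℝ) * (w * fYY w * fYY w) -
      w * (fOm w * fOm w)) - ((16 : ℤ) : ℝ) / ((9 : ℕ) : ℝ) * (w * (w * w))) b :=
  (((Snd.cst 2 1 (by norm_num) b).add (tPP_snd b)).mul
    ((((tYY_snd b).sc 4 1 (by norm_num)).sub ((((Snd.id b).mul (tYY_snd b)).mul (tYY_snd b)).sc 2 1 (by norm_num))).sub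
      ((Snd.id b).mul ((tOm_snd b).mul (tOm_snd b))))).sub
    (((Snd.id b).mul ((Snd.id b).mul (Snd.id b))).sc 16 9 (by norm_num))

theorem tF2_snd (b : ℝ) : Snd tF2 (fun w => ((4 : ℤ) : ℝ) / ((1 : ℕ) : ℝ) -
    (((624 : ℤ) : ℝ) / ((1000 : ℕ) : ℝ) - ((688 : ℤ) : ℝ) / ((1000 : ℕ) : ℝ) * (w * w)) *
    (((624 : ℤ) : ℝ) / ((1000 : ℕ) : ℝ) - ((688 : ℤ) : ℝ) / ((1000 : ℕ) : ℝ) * (w * w)) - fPP w * fPP w) b :=
  ((Snd.cst 4 1 (by norm_num) b).sub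
    (((Snd.cst 624 1000 (by norm_num) b).sub (((Snd.id b).mul (Snd.id b)).sc 688 1000 (by norm_num))).mul
    ((Snd.cst 624 1000 (by norm_num) b).sub (((Snd.id b).mul (Snd.id b)).sc 688 1000 (by norm_num))))).sub
    ((tPP_snd b).mul (tPP_snd b))

theorem tG1_scan : scan tG1 79263353441720738 64 79263353441720738 = true := by decide +kernel
theorem tF2_scan : scan tF2 37800000000000000 64 9961241799803158528 = true := by decide +kernel

/-- the two polynomial inequalities -/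
theorem poly_one {z : ℝ} (h0 : 0 ≤ z) (h1 : z ≤ 55 / 100) :
    (2 + z ^ 2) ^ 2 * (1 - 977 / 10000 * z - 84 / 1000 * z ^ 2) ^ 4 ≤ 4 - 16 * z ^ 4 / 9 := by
  rcases eq_or_lt_of_le h0 with h0 | h0
  · rw [← h0]; norm_num
  have := scan_sound (tG1_snd (55 / 100)) 79263353441720738 64 _ tG1_scan z h0 h1
    (by push_cast; linarith) (by push_cast; linarith) (by norm_num)
  have h2 := mul_pos h0 this
  unfold fPP fOm fYY at h2
  push_cast at h2
  nlinarith only [h2]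

theorem poly_two {z : ℝ} (h0 : 54 / 100 ≤ z) (h1 : z ≤ 8 / 10) :
    (2 + z ^ 2) ^ 2 * (1 - 977 / 10000 * z - 84 / 1000 * z ^ 2) ^ 4 ≤ 4 - (624 / 1000 - 688 / 1000 * z ^ 2) ^ 2 := by
  have := scan_sound (tF2_snd (8 / 10)) 37800000000000000 64 _ tF2_scan z (by linarith) h1
    (by push_cast; linarith) (by push_cast; linarith) (by norm_num)
  unfold fPP fOm fYY at this
  push_cast at this
  nlinarith only [this]

noncomputable section

theorem III_num {a b m : ℝ} (h0 : 0 < a) (h1 : 0 < b) (h01 : b ≤ a) (h35 : 344 / 1000 ≤ b) (hm0 : 0 ≤ m)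
    (hab : a + b = 1 - m) (hm24 : m ≤ 24 / 100) (hD : a - b ≤ 4 / 3 * m) :
    (√(√a) * √(√b))⁻¹ * (G0 * (1 - 977 / 10000 * ((√(m / a) + √(m / b)) / 2) -
        84 / 1000 * ((m / a + m / b) / 2))) ≤ √2 * G0 := by
  obtain ⟨z, hz⟩ : ∃ z, z = √(2 * m / (1 - m)) := ⟨_, rfl⟩
  have hz0 : 0 ≤ z := by rw [hz]; exact Real.sqrt_nonneg _
  have hm1 : 0 < 1 - m := by linarith
  have hzz : z ^ 2 * (1 - m) = 2 * m := by
    rw [hz, Real.sq_sqrt (by positivity)]; field_simp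
  obtain ⟨z0, hz0'⟩ : ∃ z, z = √(m / a) := ⟨_, rfl⟩
  obtain ⟨z1, hz1'⟩ : ∃ z, z = √(m / b) := ⟨_, rfl⟩
  have z00 : 0 ≤ z0 := by rw [hz0']; exact Real.sqrt_nonneg _
  have z10 : 0 ≤ z1 := by rw [hz1']; exact Real.sqrt_nonneg _
  have z0s : z0 ^ 2 = m / a := by rw [hz0', Real.sq_sqrt (by positivity)]
  have z1s : z1 ^ 2 = m / b := by rw [hz1', Real.sq_sqrt (by positivity)]
  rw [← hz0', ← hz1', ← z0s, ← z1s]
  have e0 : z0 ^ 2 * a = m := by rw [z0s]; field_simp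
  have e1 : z1 ^ 2 * b = m := by rw [z1s]; field_simp
  -- mean inequalities
  have A2 : z ^ 2 ≤ (z0 ^ 2 + z1 ^ 2) / 2 := by
    have h3 : z ^ 2 = 2 * m / (1 - m) := by rw [hz, Real.sq_sqrt (by positivity)]
    rw [h3, z0s, z1s, ← hab]
    rw [div_add_div _ _ h0.ne' h1.ne', div_div, div_le_div_iff₀ (by positivity) (by positivity)]
    nlinarith only [mul_nonneg hm0 (sq_nonneg (a - b)), hm0]
  have A1 : z ≤ (z0 + z1) / 2 := by
    have h3 : z ^ 2 * (z0 ^ 2 + z1 ^ 2) = 2 * (z0 ^ 2 * z1 ^ 2) := by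
      have h4 : z ^ 2 = 2 * m / (1 - m) := by rw [hz, Real.sq_sqrt (by positivity)]
      rw [h4, z0s, z1s, ← hab]
      field_simp
      ring
    by_contra hn
    push Not at hn
    have h5 : ((z0 + z1) / 2) ^ 2 < z ^ 2 := pow_lt_pow_left₀ hn (by positivity) (by norm_num)
    have h6 : 0 < z0 ^ 2 + z1 ^ 2 := by
      by_contra hc
      have h7 : z0 ^ 2 + z1 ^ 2 = 0 := le_antisymm (not_lt.1 hc) (by positivity)
      have : z ^ 2 ≤ 0 := by linarith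
      nlinarith [sq_nonneg ((z0 + z1) / 2)]
    have h7 : ((z0 + z1) / 2) ^ 2 * (z0 ^ 2 + z1 ^ 2) < z ^ 2 * (z0 ^ 2 + z1 ^ 2) :=
      mul_lt_mul_of_pos_right h5 h6
    rw [h3] at h7
    nlinarith only [h7, sq_nonneg (z0 - z1), sq_nonneg (z0 ^ 2 - z1 ^ 2), mul_nonneg z00 z10,
      mul_nonneg (mul_nonneg z00 z10) (sq_nonneg (z0 - z1)), sq_nonneg ((z0 - z1) * (z0 + z1)), sq_nonneg ((z0 - z1) * (z0 - z1))]
  have hz8 : z ≤ 8 / 10 := by
    by_contra hn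
    push Not at hn
    have h5 : (8 / 10 : ℝ) ^ 2 < z ^ 2 := pow_lt_pow_left₀ hn (by norm_num) (by norm_num)
    nlinarith only [h5, hzz, hm24, hm0, hm1]
  obtain ⟨B, hB⟩ : ∃ B, B = 1 - 977 / 10000 * z - 84 / 1000 * z ^ 2 := ⟨_, rfl⟩
  have hB0 : 0 < B := by rw [hB]; nlinarith only [hz0, hz8]
  have hBle : 1 - 977 / 10000 * ((z0 + z1) / 2) - 84 / 1000 * ((z0 ^ 2 + z1 ^ 2) / 2) ≤ B := by
    rw [hB]; linarith
  have hB4 : B ^ 4 ≤ 4 * a * b := by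
    have h4ab : 4 * a * b = (1 - m) ^ 2 - (a - b) ^ 2 := by rw [← hab]; ring
    have hmz : (1 - m) * (2 + z ^ 2) = 2 := by linarith
    have hw : 0 < 2 + z ^ 2 := by positivity
    have hd0 : 0 ≤ a - b := by linarith
    have key : (2 + z ^ 2) ^ 2 * B ^ 4 ≤ (2 + z ^ 2) ^ 2 * (4 * a * b) := by
      have h7 : (2 + z ^ 2) ^ 2 * (4 * a * b) = 4 - ((a - b) * (2 + z ^ 2)) ^ 2 := by
        rw [h4ab]
        have : (2 + z ^ 2) ^ 2 * ((1 - m) ^ 2 - (a - b) ^ 2) =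
          ((1 - m) * (2 + z ^ 2)) ^ 2 - ((a - b) * (2 + z ^ 2)) ^ 2 := by ring
        rw [this, hmz]; norm_num
      rw [h7, hB]
      rcases le_total z (55 / 100) with hc | hc
      · have h8 := poly_one hz0 hc
        have h9 : (a - b) * (2 + z ^ 2) ≤ 4 / 3 * z ^ 2 := by
          have : (a - b) * (2 + z ^ 2) ≤ 4 / 3 * m * (2 + z ^ 2) := mul_le_mul_of_nonneg_right hD hw.le
          have h10 : m * (2 + z ^ 2) = z ^ 2 := by linarith
          linarith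
        have h11 : ((a - b) * (2 + z ^ 2)) ^ 2 ≤ (4 / 3 * z ^ 2) ^ 2 :=
          pow_le_pow_left₀ (by positivity) h9 2
        have h12 : (4 / 3 * z ^ 2) ^ 2 = 16 * z ^ 4 / 9 := by ring
        linarith
      · have h8 := poly_two (by linarith) hz8
        have h9 : (a - b) * (2 + z ^ 2) ≤ 624 / 1000 - 688 / 1000 * z ^ 2 := by
          have hd : a - b ≤ 312 / 1000 - m := by linarith
          have : (a - b) * (2 + z ^ 2) ≤ (312 / 1000 - m) * (2 + z ^ 2) := mul_le_mul_of_nonneg_right hd hw.le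
          have h10 : m * (2 + z ^ 2) = z ^ 2 := by linarith
          linarith
        have h11 : ((a - b) * (2 + z ^ 2)) ^ 2 ≤ (624 / 1000 - 688 / 1000 * z ^ 2) ^ 2 :=
          pow_le_pow_left₀ (by positivity) h9 2
        linarith
    exact le_of_mul_le_mul_left key (by positivity)
  -- conclusion
  obtain ⟨q, hq⟩ : ∃ q, q = √(√a) * √(√b) := ⟨_, rfl⟩
  have hqp : 0 < q := by
    rw [hq]
    exact mul_pos (Real.sqrt_pos.2 (Real.sqrt_pos.2 h0)) (Real.sqrt_pos.2 (Real.sqrt_pos.2 h1))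
  have hq4 : q ^ 4 = a * b := by
    rw [hq, mul_pow]
    have e : ∀ y : ℝ, 0 ≤ y → √(√y) ^ 4 = y := by
      intro y hy
      have : √(√y) ^ 4 = (√(√y) ^ 2) ^ 2 := by ring
      rw [this, Real.sq_sqrt (Real.sqrt_nonneg _), Real.sq_sqrt hy]
    rw [e a h0.le, e b h1.le]
  have hBq : B ≤ √2 * q := by
    by_contra hn
    push Not at hn
    have h5 : (√2 * q) ^ 4 < B ^ 4 := pow_lt_pow_left₀ hn (by positivity) (by norm_num)
    have h6 : (√2 * q) ^ 4 = 4 * (a * b) := by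
      rw [mul_pow, hq4]
      have : √(2 : ℝ) ^ 4 = 4 := by
        have : √(2 : ℝ) ^ 4 = (√2 ^ 2) ^ 2 := by ring
        rw [this, Real.sq_sqrt (by norm_num)]; norm_num
      rw [this]
    linarith
  rw [← hq]
  have hG := G0_pos
  calc q⁻¹ * (G0 * (1 - 977 / 10000 * ((z0 + z1) / 2) - 84 / 1000 * ((z0 ^ 2 + z1 ^ 2) / 2)))
      ≤ q⁻¹ * (G0 * (√2 * q)) := by
        refine mul_le_mul_of_nonneg_left (mul_le_mul_of_nonneg_left (hBle.trans hBq) hG.le) (by positivity)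
    _ = √2 * G0 := by field_simp

/-- region III -/
theorem regionIII {n : ℕ} (x : Fin n → ℝ) (hx : ∀ i, 0 ≤ x i) {i0 i1 : Fin n} (hne : i1 ≠ i0)
    (hs : ∑ i, x i = 1) (h01 : x i1 ≤ x i0) (h35 : 344 / 1000 ≤ x i1)
    (hmx : 1 - x i0 - x i1 ≤ 66 / 100 * x i1) (hm24 : 1 - x i0 - x i1 ≤ 24 / 100)
    (hD : x i0 - x i1 ≤ 4 / 3 * (1 - x i0 - x i1)) :
    ∫ t, ∏ i, ph (√(x i) * t) ≤ √2 * G0 := by
  have h1 : 0 < x i1 := by linarith
  have h0 : 0 < x i0 := by linarith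
  refine (V_le_III x hx hne hs h1 h01 hmx).trans ?_
  have hm0 : 0 ≤ 1 - x i0 - x i1 := by
    have := sum_split x hne
    rw [hs] at this
    have h2 : 0 ≤ ∑ i ∈ (Finset.univ.erase i0).erase i1, x i := Finset.sum_nonneg fun i _ => hx i
    linarith
  exact III_num h0 h1 h01 h35 hm0 (by ring) hm24 hD

end

end Agent238.GS
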