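import Pool.Agent.Helper238.GS.P7
import Pool.Agent.Helper238.GS.R5

/-!
# Dimensions at most five
-/

open MeasureTheory Real Set Filter Pool.Agent.Helper238
open scoped ENNReal Topology Nat

namespace Agent238.GS

noncomputable section

theorem regionP5' {N : ℕ} (hN : N = 5) (x : Fin N → ℝ) (hx : ∀ i, 0 ≤ x i) {i0 i1 : Fin N} (hne : i1 ≠ i0) (hs : ∑ i, x i = 1)
    (h01 : x i1 ≤ x i0) (hmax : ∀ i, i ≠ i0 → x i ≤ x i1)
    (hD : x i0 < 1 / 2 + (1 - x i0 - x i1) / 6)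
    (hIII : ¬ (344 / 1000 ≤ x i1 ∧ 1 - x i0 - x i1 ≤ 66 / 100 * x i1 ∧ 1 - x i0 - x i1 ≤ 24 / 100)) :
    ∫ t, ∏ i, ph (√(x i) * t) ≤ √2 * G0 := by
  subst hN
  exact regionP5 x hx hne hs h01 hmax hD hIII

/-- the pair region in dimension at most five -/
theorem regionP_le5 {n : ℕ} (hn : n ≤ 5) (x : Fin n → ℝ) (hx : ∀ i, 0 ≤ x i) {i0 i1 : Fin n} (hne : i1 ≠ i0)
    (hs : ∑ i, x i = 1) (h01 : x i1 ≤ x i0) (hmax : ∀ i, i ≠ i0 → x i ≤ x i1)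
    (hD : x i0 < 1 / 2 + (1 - x i0 - x i1) / 6)
    (hIII : ¬ (344 / 1000 ≤ x i1 ∧ 1 - x i0 - x i1 ≤ 66 / 100 * x i1 ∧ 1 - x i0 - x i1 ≤ 24 / 100)) :
    ∫ t, ∏ i, ph (√(x i) * t) ≤ √2 * G0 := by
  obtain ⟨k, hk⟩ : ∃ k, n + k = 5 := ⟨5 - n, by omega⟩
  obtain ⟨y, hy⟩ : ∃ y : Fin (n + k) → ℝ, y = Fin.append x (fun _ : Fin k => (0 : ℝ)) := ⟨_, rfl⟩
  have yl : ∀ i, y (Fin.castAdd k i) = x i := fun i => by rw [hy, Fin.append_left]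
  have yr : ∀ i, y (Fin.natAdd n i) = 0 := fun i => by rw [hy, Fin.append_right]
  have e1 : ∀ t, ∏ i, ph (√(y i) * t) = ∏ i, ph (√(x i) * t) := by
    intro t
    rw [Fin.prod_univ_add]
    simp only [yl, yr, Real.sqrt_zero, zero_mul, ph_zero, Finset.prod_const_one, mul_one]
  have h := regionP5' hk y (fun i => by
      refine Fin.addCases (fun a => ?_) (fun a => ?_) i
      · rw [yl]; exact hx a
      · rw [yr]) (i0 := Fin.castAdd k i0) (i1 := Fin.castAdd k i1)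
    (fun h => hne (Fin.castAdd_injective n k h))
    (by rw [Fin.sum_univ_add]; simp only [yl, yr, Finset.sum_const_zero, add_zero]; exact hs)
    (by rw [yl, yl]; exact h01)
    (fun i => by
      refine Fin.addCases (fun a => ?_) (fun a => ?_) i
      · intro h; rw [yl, yl]; exact hmax a fun h2 => h (by rw [h2])
      · intro _; rw [yr, yl]; exact hx i1)
    (by rw [yl, yl]; exact hD) (by rw [yl, yl]; exact hIII)
  simp_rw [e1] at h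
  exact h

/-- the two largest coordinates -/
theorem exists_top {n : ℕ} (hn : 2 ≤ n) (x : Fin n → ℝ) :
    ∃ i0 i1 : Fin n, i1 ≠ i0 ∧ x i1 ≤ x i0 ∧ ∀ i, i ≠ i0 → x i ≤ x i1 := by
  have hne : (Finset.univ : Finset (Fin n)).Nonempty := ⟨⟨0, by omega⟩, Finset.mem_univ _⟩
  obtain ⟨i0, _, h0⟩ := Finset.exists_max_image Finset.univ x hne
  have hne2 : ((Finset.univ : Finset (Fin n)).erase i0).Nonempty := by
    rw [← Finset.card_pos, Finset.card_erase_of_mem (Finset.mem_univ _), Finset.card_univ, Fintype.card_fin]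
    omega
  obtain ⟨i1, h1m, h1⟩ := Finset.exists_max_image _ x hne2
  exact ⟨i0, i1, Finset.ne_of_mem_erase h1m, h0 i1 (Finset.mem_univ _), fun i hi => h1 i (Finset.mem_erase.2 ⟨hi, Finset.mem_univ _⟩)⟩

/-- the general reduction -/
theorem secM_cases {n : ℕ} (hn : 2 ≤ n) (θ : EuclideanSpace ℝ (Fin n)) (hθ : ‖θ‖ = 1) :
    secM θ ≤ Kn n * (√2 * G0) ∨ ∃ i0 i1 : Fin n, i1 ≠ i0 ∧ θ i1 ^ 2 ≤ θ i0 ^ 2 ∧ (∀ i, i ≠ i0 → θ i ^ 2 ≤ θ i1 ^ 2) ∧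
      θ i0 ^ 2 < 1 / 2 + (1 - θ i0 ^ 2 - θ i1 ^ 2) / 6 ∧
      ¬ (344 / 1000 ≤ θ i1 ^ 2 ∧ 1 - θ i0 ^ 2 - θ i1 ^ 2 ≤ 66 / 100 * θ i1 ^ 2 ∧ 1 - θ i0 ^ 2 - θ i1 ^ 2 ≤ 24 / 100) ∧
      0 < θ i1 ^ 2 ∧ secM θ = Kn n * ∫ t, ∏ i, ph (√(θ i ^ 2) * t) := by
  have hs := sum_sq_one θ hθ
  obtain ⟨i0, i1, hne, h01, hmax⟩ := exists_top hn (fun i => θ i ^ 2)
  have h01' : θ i1 ^ 2 ≤ θ i0 ^ 2 := h01
  have hmax' : ∀ i, i ≠ i0 → θ i ^ 2 ≤ θ i1 ^ 2 := hmax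
  have hsp := sum_split (fun i => θ i ^ 2) hne
  rw [hs] at hsp
  have hrest : 0 ≤ ∑ i ∈ (Finset.univ.erase i0).erase i1, θ i ^ 2 := Finset.sum_nonneg fun i _ => sq_nonneg _
  by_cases hD : 1 / 2 + (1 - θ i0 ^ 2 - θ i1 ^ 2) / 6 ≤ θ i0 ^ 2
  · exact Or.inl (regionD θ hθ hne hD)
  push Not at hD
  have h1 : 0 < θ i1 ^ 2 := by
    rcases (sq_nonneg (θ i1)).lt_or_eq with h | h
    · exact h
    · exfalso
      have hz : ∑ i ∈ (Finset.univ.erase i0).erase i1, θ i ^ 2 = 0 := by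
        refine Finset.sum_eq_zero fun i hi => ?_
        have := hmax' i (Finset.ne_of_mem_erase (Finset.mem_of_mem_erase hi))
        rw [← h] at this
        exact le_antisymm this (sq_nonneg _)
      have hz' : 1 = θ i0 ^ 2 + (θ i1 ^ 2 + 0) := by rw [← hz]; exact hsp
      rw [← h] at hz' hD
      linarith
  have h0 : 0 < θ i0 ^ 2 := h1.trans_le h01'
  have hsec := secM_V θ hθ hne (fun h => by rw [h] at h0; norm_num at h0) (fun h => by rw [h] at h1; norm_num at h1)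
  by_cases hIII : 344 / 1000 ≤ θ i1 ^ 2 ∧ 1 - θ i0 ^ 2 - θ i1 ^ 2 ≤ 66 / 100 * θ i1 ^ 2 ∧ 1 - θ i0 ^ 2 - θ i1 ^ 2 ≤ 24 / 100
  · left
    rw [hsec]
    refine mul_le_mul_of_nonneg_left ?_ (Kn_pos n).le
    exact regionIII (fun i => θ i ^ 2) (fun i => sq_nonneg _) hne hs h01' hIII.1 hIII.2.1 hIII.2.2 (by linarith)
  · exact Or.inr ⟨i0, i1, hne, h01', hmax', hD, hIII, h1, hsec⟩

theorem upper_le5 {n : ℕ} (hn : 2 ≤ n) (hn5 : n ≤ 5) (θ : EuclideanSpace ℝ (Fin n)) (hθ : ‖θ‖ = 1) :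
    secM θ ≤ Kn n * (√2 * G0) := by
  rcases secM_cases hn θ hθ with h | ⟨i0, i1, hne, h01, hmax, hD, hIII, h1, hsec⟩
  · exact h
  · rw [hsec]
    refine mul_le_mul_of_nonneg_left ?_ (Kn_pos n).le
    exact regionP_le5 hn5 (fun i => θ i ^ 2) (fun i => sq_nonneg _) hne (sum_sq_one θ hθ) h01 hmax hD hIII

/-- closed form -/
theorem Kn_V2 (n : ℕ) : Kn (n + 2) * (√2 * G0) = (∫ x in (-1 : ℝ)..1, exp (-x ^ 2)) / √π *
    ((∫ x in (-1 : ℝ)..1, exp (-x ^ 2 / 2)) / √(2 * π)) ^ n := by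
  have hZ := Zc_pos
  have h2 : √(2 * π) = √2 * √π := Real.sqrt_mul (by norm_num) _
  have h3 : √(2 : ℝ) ^ 2 = 2 := Real.sq_sqrt (by norm_num)
  have h4 : √π ^ 2 = π := Real.sq_sqrt Real.pi_pos.le
  have hp : 0 < √π := Real.sqrt_pos.2 Real.pi_pos
  have h5 : 0 < √(2 : ℝ) := by positivity
  change (√(2 * π))⁻¹ * ((√(2 * π))⁻¹ * Zc) ^ (n + 2) * (√2 * (2 * π * I1 / Zc ^ 2)) = I1 / √π * (Zc / √(2 * π)) ^ n
  rw [pow_add, h2]
  have h6 : 2 * π = √2 ^ 2 * √π ^ 2 := by rw [h3, h4]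
  rw [show 2 * π * I1 / Zc ^ 2 = (√2 ^ 2 * √π ^ 2) * I1 / Zc ^ 2 by rw [← h6]]
  rw [div_pow, mul_pow, inv_pow]
  field_simp

end

end Agent238.GS
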