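import Pool.Agent.Helper238.GS.Q1

/-!
# Values of the section function
-/

open MeasureTheory Real Set Filter Pool.Agent.Helper238
open scoped ENNReal Topology Nat

namespace Agent238.GS

noncomputable section

theorem secM_integral {n : ℕ} (θ : EuclideanSpace ℝ (Fin n)) :
    secM θ = ∫ x in {x : Hyp θ | (x : EuclideanSpace ℝ (Fin n)) ∈ {x : EuclideanSpace ℝ (Fin n) | ∀ i, |x i| ≤ 1}},
      (2 * π) ^ (-(Module.finrank ℝ (Hyp θ) : ℝ) / 2) * exp (-‖x‖ ^ 2 / 2) := by
  unfold secM stdGauss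
  have hm : MeasurableSet {x : Hyp θ | (x : EuclideanSpace ℝ (Fin n)) ∈ cube n} :=
    measurable_subtype_coe (cube_closed n).measurableSet
  rw [withDensity_apply _ hm]
  rw [integral_eq_lintegral_of_nonneg_ae]
  · rfl
  · exact Eventually.of_forall fun x => by positivity
  · exact (by fun_prop : Continuous fun x : Hyp θ =>
      (2 * π) ^ (-(Module.finrank ℝ (Hyp θ) : ℝ) / 2) * exp (-‖x‖ ^ 2 / 2)).aestronglyMeasurable

/-- the vector `(1,1,0,…,0)/√2` -/
def pairV (n : ℕ) : EuclideanSpace ℝ (Fin n) := WithLp.toLp 2 fun i => if i.1 < 2 then 1 / √2 else 0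

theorem pairV_apply {n : ℕ} (i : Fin n) : pairV n i = if i.1 < 2 then 1 / √2 else 0 := rfl

theorem pairV_sq {n : ℕ} (i : Fin (n + 2)) : pairV (n + 2) i ^ 2 = if i.1 < 2 then 1 / 2 else 0 := by
  rw [pairV_apply]
  split_ifs
  · rw [div_pow, Real.sq_sqrt (by norm_num)]; norm_num
  · norm_num

theorem sum_two {n : ℕ} (f : ℕ → ℝ) (hf : ∀ k, 2 ≤ k → f k = 0) : ∑ i : Fin (n + 2), f i.1 = f 0 + f 1 := by
  rw [Fin.sum_univ_succ, Fin.sum_univ_succ]
  have : ∑ i : Fin n, f (Fin.succ (Fin.succ i)).1 = 0 := by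
    refine Finset.sum_eq_zero fun i _ => hf _ ?_
    simp
  rw [this]
  simp

theorem prod_two {n : ℕ} (f : ℕ → ℝ) (hf : ∀ k, 2 ≤ k → f k = 1) : ∏ i : Fin (n + 2), f i.1 = f 0 * f 1 := by
  rw [Fin.prod_univ_succ, Fin.prod_univ_succ]
  have : ∏ i : Fin n, f (Fin.succ (Fin.succ i)).1 = 1 := by
    refine Finset.prod_eq_one fun i _ => hf _ ?_
    simp
  rw [this]
  simp

theorem pairV_norm (n : ℕ) : ‖pairV (n + 2)‖ = 1 := by
  have h := EuclideanSpace.norm_sq_eq (pairV (n + 2))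
  simp only [Real.norm_eq_abs, sq_abs] at h
  simp_rw [pairV_sq] at h
  have h2 := sum_two (n := n) (fun k => if k < 2 then (1 / 2 : ℝ) else 0) (fun k hk => by
    simp only [not_lt.2 hk, if_false])
  beta_reduce at h2
  rw [h2] at h
  norm_num at h
  rcases h with h | h
  · exact h
  · have := norm_nonneg (pairV (n + 2))
    linarith

theorem V2_int : ∫ t, ph (√(1 / 2) * t) ^ 2 = √2 * G0 := by
  have h := Measure.integral_comp_mul_left (fun t => ph t ^ 2) (√(1 / 2))
  have hs : 0 < √(1 / 2 : ℝ) := Real.sqrt_pos.2 (by norm_num)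
  rw [planch, abs_of_pos (inv_pos.2 hs), smul_eq_mul] at h
  rw [h]
  congr 1
  rw [one_div, Real.sqrt_inv, inv_inv]

theorem secM_pair (n : ℕ) : secM (pairV (n + 2)) = Kn (n + 2) * (√2 * G0) := by
  have h2 : 0 < √(2 : ℝ) := by positivity
  have hv : ∀ i : Fin (n + 2), i.1 < 2 → pairV (n + 2) i ≠ 0 := by
    intro i hi
    rw [pairV_apply, if_pos hi]; positivity
  rw [secM_V (pairV (n + 2)) (pairV_norm n) (i0 := ⟨0, by omega⟩) (i1 := ⟨1, by omega⟩)
    (by intro h; have := congrArg Fin.val h; simp at this) (hv _ (by simp)) (hv _ (by simp))]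
  congr 1
  rw [← V2_int]
  congr 1
  funext t
  simp_rw [pairV_sq]
  have h3 := prod_two (n := n) (fun k => ph (√(if k < 2 then (1 / 2 : ℝ) else 0) * t)) (fun k hk => by
    simp only [not_lt.2 hk, if_false, Real.sqrt_zero, zero_mul, ph_zero])
  beta_reduce at h3
  rw [h3]
  norm_num
  ring

end

end Agent238.GS
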