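import Pool.Agent.Helper238.GS.K5
import Pool.Agent.Helper238.GS.Q2

/-!
# Dimensions at least six
-/

open MeasureTheory Real Set Filter Pool.Agent.Helper238
open scoped ENNReal Topology Nat

namespace Agent238.GS

noncomputable section

/-- the maximum in dimension at least six is at most the diagonal value -/
theorem upper_ge6 {n : ℕ} (hn : 6 ≤ n) (θ : EuclideanSpace ℝ (Fin n)) (hθ : ‖θ‖ = 1) :
    secM θ ≤ Kn n * Vd n := by
  rcases secM_cases (by omega) θ hθ with h | ⟨i0, i1, hne, h01, hmax, hD, hIII, h1, hsec⟩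
  · exact h.trans (mul_le_mul_of_nonneg_left (V2_le_Vd hn) (Kn_pos n).le)
  · rw [hsec]
    refine mul_le_mul_of_nonneg_left ?_ (Kn_pos n).le
    have hs := sum_sq_one θ hθ
    by_cases hK : ∃ k, θ k ^ 2 < 7 / 10 * θ i0 ^ 2
    · by_cases hsum : 1 / 3 ≤ θ i0 ^ 2 + θ i1 ^ 2
      · by_cases h4 : θ i1 ^ 2 < 4 / 100
        · exact regionFar2 hn (fun i => θ i ^ 2) (fun i => sq_nonneg _) hne hs h1 hmax hsum h4 hD
        · push Not at h4
          by_cases h18 : 18 / 100 ≤ θ i0 ^ 2
          · refine (regionP6 hn (fun i => θ i ^ 2) (fun i => sq_nonneg _) hne hs h01 hmax hsum h18 h4 hK hD hIII).trans ?_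
            have := (Am_le hn).2
            linarith
          · push Not at h18
            exact regionFar1 hn (fun i => θ i ^ 2) (fun i => sq_nonneg _) hne hs h01 h1 hmax
              (by beta_reduce; linarith) (by beta_reduce; linarith) (by beta_reduce; linarith) hK
      · push Not at hsum
        exact regionFar1 hn (fun i => θ i ^ 2) (fun i => sq_nonneg _) hne hs h01 h1 hmax
          (by beta_reduce; linarith) (by beta_reduce; linarith) (by beta_reduce; linarith) hK
    · push Not at hK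
      refine regionK hn (fun i => θ i ^ 2) ⟨fun i => sq_nonneg _, fun i j => ?_, hs⟩
      have h5 : θ j ^ 2 ≤ θ i0 ^ 2 := by
        by_cases h : j = i0
        · rw [h]
        · exact (hmax j h).trans h01
      have := hK i
      beta_reduce
      linarith

/-- the diagonal direction -/
def diagV (n : ℕ) : EuclideanSpace ℝ (Fin n) := WithLp.toLp 2 fun _ => 1 / √n

theorem diagV_apply {n : ℕ} (i : Fin n) : diagV n i = 1 / √n := rfl

theorem diagV_norm {n : ℕ} (hn : 0 < n) : ‖diagV n‖ = 1 := by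
  have hn' : (0 : ℝ) < n := by exact_mod_cast hn
  rw [EuclideanSpace.norm_eq]
  simp only [diagV_apply, Real.norm_eq_abs, sq_abs, div_pow, one_pow, Real.sq_sqrt hn'.le, Finset.sum_const,
    Finset.card_univ, Fintype.card_fin, nsmul_eq_mul]
  rw [mul_one_div_cancel hn'.ne', Real.sqrt_one]

theorem secM_diag {n : ℕ} (hn : 2 ≤ n) : secM (diagV n) = Kn n * Vd n := by
  have hn' : (0 : ℝ) < n := by exact_mod_cast (by omega : 0 < n)
  have hnz : ∀ i, diagV n i ≠ 0 := fun i => by rw [diagV_apply]; positivity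
  rw [secM_V (diagV n) (diagV_norm (by omega)) (i0 := ⟨0, by omega⟩) (i1 := ⟨1, by omega⟩)
    (by intro h; have := congrArg Fin.val h; simp at this) (hnz _) (hnz _)]
  congr 1
  unfold Vd
  congr 1
  funext t
  have h1 : ∀ i : Fin n, diagV n i ^ 2 = 1 / (n : ℝ) := fun i => by
    rw [diagV_apply, div_pow, one_pow, Real.sq_sqrt hn'.le]
  rw [Finset.prod_congr rfl fun i _ => by rw [h1 i], Finset.prod_const, Finset.card_univ, Fintype.card_fin, ph_div_eq]

theorem Kn_Vd (n : ℕ) : Kn n * Vd n = (2 * π) ^ (-((n : ℝ) + 1) / 2) *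
    ∫ t : ℝ, (∫ x in (-1 : ℝ)..1, cos (t * x / √n) * exp (-x ^ 2 / 2)) ^ n := by
  have hZ := Zc_pos
  have hpi : (0 : ℝ) < 2 * π := by positivity
  have h1 : (2 * π) ^ (-((n : ℝ) + 1) / 2) = ((√(2 * π))⁻¹) ^ (n + 1) := by
    rw [Real.sqrt_eq_rpow, ← Real.rpow_neg hpi.le, ← Real.rpow_natCast, ← Real.rpow_mul hpi.le]
    congr 1
    push_cast
    ring
  have h2 : ∀ t : ℝ, (∫ x in (-1 : ℝ)..1, cos (t * x / √n) * exp (-x ^ 2 / 2)) = Zc * ph (t / √n) := by
    intro t
    unfold ph
    rw [← mul_assoc, mul_inv_cancel₀ hZ.ne', one_mul]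
    refine intervalIntegral.integral_congr fun x _ => ?_
    show cos (t * x / √n) * exp (-x ^ 2 / 2) = exp (-x ^ 2 / 2) * cos (t / √n * x)
    rw [mul_comm, mul_div_right_comm]
  rw [h1]
  simp_rw [h2, mul_pow]
  rw [integral_const_mul]
  unfold Kn Vd
  rw [mul_pow]
  ring

end

end Agent238.GS
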