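import Pool.Agent.Helper238.GS.J

/-!
# The region around `(1,1)/√2`
-/

open MeasureTheory Real Set Filter Pool.Agent.Helper238
open scoped ENNReal Topology

namespace Agent238.GS

noncomputable section

theorem G0_pos : 0 < G0 := by
  have h1 := I1_num.1
  have h2 := Zc_pos
  unfold G0
  have h3 : 0 < I1 := by linarith
  positivity

theorem heatG {z : ℝ} (h0 : 0 ≤ z) (h1 : z ≤ 813 / 1000) :
    15 / 100 * G0 + 85 / 100 * ∫ u : ℝ, ph u ^ 2 * exp (-(aa / (85 / 100) * z ^ 2) * u ^ 2) ≤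
      G0 * (1 - 977 / 10000 * z - 84 / 1000 * z ^ 2) := by
  rcases eq_or_lt_of_le h0 with h0 | h0
  · rw [← h0]
    have : (fun u : ℝ => ph u ^ 2 * exp (-(aa / (85 / 100) * 0 ^ 2) * u ^ 2)) = fun u => ph u ^ 2 := by
      funext u; norm_num
    rw [this, planch]
    norm_num
    linarith
  obtain ⟨κ, hκ⟩ : ∃ κ, κ = aa / (85 / 100) * z ^ 2 := ⟨_, rfl⟩
  have ha := aa_num
  have hκ0 : 0 < κ := by rw [hκ]; have : 0 < aa := by linarith [ha.1]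
                         positivity
  rw [← hκ]
  refine (add_le_add le_rfl (mul_le_mul_of_nonneg_left (heat_raw hκ0) (by norm_num))).trans ?_
  have hG := G0_pos
  rw [show 15 / 100 * G0 + 85 / 100 * (G0 * (1 / √(1 + κ) - 2 * exp (-1) / (√π * I1) * √κ / (1 + κ) -
      exp (-1) / I1 * κ / ((1 + κ) * √(1 + κ)) + 36 / 100 / I1 * κ ^ 3)) =
      G0 * (15 / 100 + 85 / 100 * (1 / √(1 + κ) - 2 * exp (-1) / (√π * I1) * √κ / (1 + κ) -
      exp (-1) / I1 * κ / ((1 + κ) * √(1 + κ)) + 36 / 100 / I1 * κ ^ 3)) by ring]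
  refine mul_le_mul_of_nonneg_left ?_ hG.le
  obtain ⟨k, hk⟩ : ∃ k, k = √κ := ⟨_, rfl⟩
  have hk0 : 0 < k := by rw [hk]; exact Real.sqrt_pos.2 hκ0
  have hkk : κ = k ^ 2 := by rw [hk, Real.sq_sqrt hκ0.le]
  -- `z` in terms of `k`
  have hzk : z ≤ 24165 / 10000 * k := by
    by_contra hn
    push Not at hn
    have h2 : (24165 / 10000 * k) ^ 2 < z ^ 2 := by
      refine pow_lt_pow_left₀ hn (by positivity) (by norm_num)
    have h3 : k ^ 2 = aa / (85 / 100) * z ^ 2 := by rw [← hkk, hκ]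
    nlinarith [ha.1]
  have hk1 : k ≤ 33651 / 100000 := by
    by_contra hn
    push Not at hn
    have h2 : (33651 / 100000 : ℝ) ^ 2 < k ^ 2 := pow_lt_pow_left₀ hn (by norm_num) (by norm_num)
    have h3 : k ^ 2 = aa / (85 / 100) * z ^ 2 := by rw [← hkk, hκ]
    have h4 : z ^ 2 ≤ (813 / 1000) ^ 2 := pow_le_pow_left₀ h0.le h1 2
    have h5 : aa / (85 / 100) * z ^ 2 ≤ (14556254740 / 100000000000) / (85 / 100) * (813 / 1000) ^ 2 := by
      refine mul_le_mul (by linarith [ha.2]) h4 (by positivity) (by norm_num)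
    norm_num at h2 h5
    linarith
  have hI := I1_num
  have hI0 : 0 < I1 := by linarith [hI.1]
  have he1 := Real.exp_neg_one_gt_d9
  have he2 := Real.exp_neg_one_lt_d9
  have hpi1 := Real.pi_gt_d6
  have hpi2 := Real.pi_lt_d6
  have hsp : √π < 1772454 / 1000000 := by
    rw [Real.sqrt_lt' (by norm_num)]; norm_num; linarith
  have hsp0 : 0 < √π := Real.sqrt_pos.2 Real.pi_pos
  obtain ⟨c1, hc1⟩ : ∃ c1, c1 = 2 * exp (-1) / (√π * I1) := ⟨_, rfl⟩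
  obtain ⟨c2, hc2⟩ : ∃ c2, c2 = exp (-1) / I1 := ⟨_, rfl⟩
  obtain ⟨c4, hc4⟩ : ∃ c4, c4 = 36 / 100 / I1 := ⟨_, rfl⟩
  have hc1b : 27791 / 100000 < c1 := by
    rw [hc1, lt_div_iff₀ (by positivity)]
    have : √π * I1 < 1772454 / 1000000 * (14936483 / 10000000) := mul_lt_mul'' hsp hI.2 hsp0.le hI0.le
    linarith
  have hc2b : 24629 / 100000 < c2 := by
    rw [hc2, lt_div_iff₀ hI0]; linarith
  have hc4b : c4 < 24103 / 100000 := by
    rw [hc4, div_lt_iff₀ hI0]; linarith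
  have hc40 : 0 < c4 := by rw [hc4]; positivity
  rw [← hc1, ← hc2, ← hc4, ← hk, hkk]
  obtain ⟨q, hq⟩ : ∃ q, q = 1 / √(1 + k ^ 2) := ⟨_, rfl⟩
  have hs0 : 0 < √(1 + k ^ 2) := Real.sqrt_pos.2 (by positivity)
  have hq0 : 0 < q := by rw [hq]; positivity
  have hqq : q ^ 2 * (1 + k ^ 2) = 1 := by
    rw [hq, div_pow, Real.sq_sqrt (by positivity)]; field_simp
  have hqu : q ≤ 1 - k ^ 2 / 2 + 3 / 8 * k ^ 4 := by
    by_contra hn
    push Not at hn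
    have hp : 0 < 1 - k ^ 2 / 2 + 3 / 8 * k ^ 4 := by nlinarith [sq_nonneg (k ^ 2 - 1)]
    have h2 : (1 - k ^ 2 / 2 + 3 / 8 * k ^ 4) ^ 2 < q ^ 2 := pow_lt_pow_left₀ hn hp.le (by norm_num)
    have h3 : 1 ≤ (1 - k ^ 2 / 2 + 3 / 8 * k ^ 4) ^ 2 * (1 + k ^ 2) := by
      have hk2 : k ^ 2 ≤ 1 := by nlinarith
      have : (1 - k ^ 2 / 2 + 3 / 8 * k ^ 4) ^ 2 * (1 + k ^ 2) - 1 =
        k ^ 6 * (5 / 8 - 15 / 64 * k ^ 2 + 9 / 64 * k ^ 4) := by ring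
      have h4 : 0 ≤ k ^ 6 * (5 / 8 - 15 / 64 * k ^ 2 + 9 / 64 * k ^ 4) := by
        refine mul_nonneg (by positivity) ?_
        nlinarith [sq_nonneg (k ^ 2)]
      linarith
    have h5 : 0 < 1 + k ^ 2 := by positivity
    nlinarith
  have hql : 1 - k ^ 2 / 2 ≤ q := by
    by_contra hn
    push Not at hn
    have h2 : q ^ 2 < (1 - k ^ 2 / 2) ^ 2 := pow_lt_pow_left₀ hn hq0.le (by norm_num)
    have h3 : (1 - k ^ 2 / 2) ^ 2 * (1 + k ^ 2) ≤ 1 := by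
      have hk2 : k ^ 2 ≤ 1 := by nlinarith
      have : (1 - k ^ 2 / 2) ^ 2 * (1 + k ^ 2) - 1 = - (k ^ 4 * (3 / 4 - k ^ 2 / 4)) := by ring
      have h4 : 0 ≤ k ^ 4 * (3 / 4 - k ^ 2 / 4) := mul_nonneg (by positivity) (by linarith)
      linarith
    have h5 : 0 < 1 + k ^ 2 := by positivity
    nlinarith
  have hE : c2 * k ^ 2 / ((1 + k ^ 2) * √(1 + k ^ 2)) = c2 * k ^ 2 * q / (1 + k ^ 2) := by
    rw [hq]; field_simp
  rw [hE]
  have hw : 0 < 1 + k ^ 2 := by positivity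
  -- bring to the common denominator
  have hmain : (15 / 100 + 85 / 100 * (1 - k ^ 2 / 2 + 3 / 8 * k ^ 4 + c4 * (k ^ 2) ^ 3)) * (1 + k ^ 2) -
      85 / 100 * (c1 * k) - 85 / 100 * (c2 * k ^ 2 * (1 - k ^ 2 / 2)) ≤
      (1 - 977 / 10000 * z - 84 / 1000 * z ^ 2) * (1 + k ^ 2) := by
    have hz2 : z ^ 2 ≤ (24165 / 10000 * k) ^ 2 := pow_le_pow_left₀ h0.le hzk 2
    have hr : (1 - 977 / 10000 * (24165 / 10000 * k) - 84 / 1000 * (24165 / 10000 * k) ^ 2) * (1 + k ^ 2) ≤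
        (1 - 977 / 10000 * z - 84 / 1000 * z ^ 2) * (1 + k ^ 2) :=
      mul_le_mul_of_nonneg_right (by linarith) hw.le
    refine le_trans ?_ hr
    have b1 : 85 / 100 * (27791 / 100000 * k) ≤ 85 / 100 * (c1 * k) := by nlinarith
    have hk2 : k ^ 2 ≤ 1 := by nlinarith
    have b2 : 85 / 100 * (24629 / 100000 * k ^ 2 * (1 - k ^ 2 / 2)) ≤ 85 / 100 * (c2 * k ^ 2 * (1 - k ^ 2 / 2)) := by
      refine mul_le_mul_of_nonneg_left ?_ (by norm_num)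
      refine mul_le_mul_of_nonneg_right ?_ (by linarith)
      nlinarith [sq_nonneg k]
    have b3 : (15 / 100 + 85 / 100 * (1 - k ^ 2 / 2 + 3 / 8 * k ^ 4 + c4 * (k ^ 2) ^ 3)) * (1 + k ^ 2) ≤
      (15 / 100 + 85 / 100 * (1 - k ^ 2 / 2 + 3 / 8 * k ^ 4 + 24103 / 100000 * (k ^ 2) ^ 3)) * (1 + k ^ 2) := by
      refine mul_le_mul_of_nonneg_right ?_ hw.le
      have : c4 * (k ^ 2) ^ 3 ≤ 24103 / 100000 * (k ^ 2) ^ 3 := mul_le_mul_of_nonneg_right hc4b.le (by positivity)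
      linarith
    have k3 : k ^ 3 ≤ 33651 / 100000 * k ^ 2 := by
      have : k ^ 3 = k ^ 2 * k := by ring
      rw [this, mul_comm]
      exact mul_le_mul_of_nonneg_right hk1 (by positivity)
    have k4 : k ^ 4 ≤ (33651 / 100000) ^ 2 * k ^ 2 := by
      have e : k ^ 4 = k ^ 2 * k ^ 2 := by ring
      rw [e]
      exact mul_le_mul_of_nonneg_right (pow_le_pow_left₀ hk0.le hk1 2) (by positivity)
    have k6 : k ^ 6 ≤ (33651 / 100000) ^ 4 * k ^ 2 := by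
      have e : k ^ 6 = k ^ 4 * k ^ 2 := by ring
      rw [e]
      exact mul_le_mul_of_nonneg_right (pow_le_pow_left₀ hk0.le hk1 4) (by positivity)
    have k8 : k ^ 8 ≤ (33651 / 100000) ^ 6 * k ^ 2 := by
      have e : k ^ 8 = k ^ 6 * k ^ 2 := by ring
      rw [e]
      exact mul_le_mul_of_nonneg_right (pow_le_pow_left₀ hk0.le hk1 6) (by positivity)
    have k2 : 0 < k ^ 2 := by positivity
    norm_num at k3 k4 k6 k8
    linarith only [k3, k4, k6, k8, k2, hk0, b1, b2, b3]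
  have hstep : 15 / 100 + 85 / 100 * (q - c1 * k / (1 + k ^ 2) - c2 * k ^ 2 * q / (1 + k ^ 2) + c4 * (k ^ 2) ^ 3) ≤
      15 / 100 + 85 / 100 * ((1 - k ^ 2 / 2 + 3 / 8 * k ^ 4) - c1 * k / (1 + k ^ 2) -
        c2 * k ^ 2 * (1 - k ^ 2 / 2) / (1 + k ^ 2) + c4 * (k ^ 2) ^ 3) := by
    have : c2 * k ^ 2 * (1 - k ^ 2 / 2) / (1 + k ^ 2) ≤ c2 * k ^ 2 * q / (1 + k ^ 2) := by
      refine div_le_div_of_nonneg_right ?_ hw.le
      refine mul_le_mul_of_nonneg_left hql ?_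
      have : 0 < c2 := by linarith
      positivity
    linarith
  rw [← hq] at *
  refine hstep.trans ?_
  have e : 15 / 100 + 85 / 100 * ((1 - k ^ 2 / 2 + 3 / 8 * k ^ 4) - c1 * k / (1 + k ^ 2) -
        c2 * k ^ 2 * (1 - k ^ 2 / 2) / (1 + k ^ 2) + c4 * (k ^ 2) ^ 3) =
      ((15 / 100 + 85 / 100 * (1 - k ^ 2 / 2 + 3 / 8 * k ^ 4 + c4 * (k ^ 2) ^ 3)) * (1 + k ^ 2) -
      85 / 100 * (c1 * k) - 85 / 100 * (c2 * k ^ 2 * (1 - k ^ 2 / 2))) / (1 + k ^ 2) := by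
    field_simp; ring
  rw [e, div_le_iff₀ hw]
  exact hmain

end

end Agent238.GS
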