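import Pool.Agent.Helper238.GS.R3

/-!
# The region around `(1,1)/√2`, II
-/

open MeasureTheory Real Set Filter Pool.Agent.Helper238
open scoped ENNReal Topology

namespace Agent238.GS

noncomputable section

/-- the product of the remaining factors -/
theorem others_le {ι : Type*} (S : Finset ι) (x : ι → ℝ) (hx : ∀ i, 0 ≤ x i) (t : ℝ) :
    ∏ i ∈ S, |ph (√(x i) * t)| ≤ 15 / 100 + 85 / 100 * exp (-(aa / (85 / 100) * ∑ i ∈ S, x i) * t ^ 2) := by
  by_cases h : ∀ i ∈ S, |√(x i) * t| ≤ tau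
  · have h1 : ∏ i ∈ S, |ph (√(x i) * t)| ≤ ∏ i ∈ S, exp (-aa * (x i * t ^ 2)) := by
      refine Finset.prod_le_prod (fun i _ => abs_nonneg _) fun i hi => ?_
      refine (ph_le_exp (h i hi)).trans (le_of_eq ?_)
      rw [mul_pow, Real.sq_sqrt (hx i)]
    rw [← Real.exp_sum, ← Finset.mul_sum, ← Finset.sum_mul] at h1
    refine h1.trans ?_
    obtain ⟨y, hy⟩ : ∃ y, y = -(aa / (85 / 100) * ∑ i ∈ S, x i) * t ^ 2 := ⟨_, rfl⟩
    rw [← hy]
    have h2 : -aa * ((∑ i ∈ S, x i) * t ^ 2) = ((85 : ℝ) / 100) • y + ((15 : ℝ) / 100) • (0 : ℝ) := by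
      rw [hy, smul_eq_mul, smul_eq_mul]; ring
    rw [h2]
    have h3 := convexOn_exp.2 (mem_univ y) (mem_univ (0 : ℝ)) (by norm_num : (0 : ℝ) ≤ 85 / 100)
      (by norm_num : (0 : ℝ) ≤ 15 / 100) (by norm_num)
    refine h3.trans (le_of_eq ?_)
    rw [Real.exp_zero, smul_eq_mul, smul_eq_mul]; ring
  · push Not at h
    obtain ⟨i, hi, hi2⟩ := h
    classical
    have h1 : ∏ i ∈ S, |ph (√(x i) * t)| ≤ 15 / 100 := by
      rw [← Finset.mul_prod_erase S _ hi]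
      have h2 : |ph (√(x i) * t)| ≤ 15 / 100 := by
        rw [← ph_abs]; exact ph_abs_15 hi2.le
      have h3 : ∏ j ∈ S.erase i, |ph (√(x j) * t)| ≤ 1 :=
        Finset.prod_le_one (fun _ _ => abs_nonneg _) fun _ _ => ph_abs_le _
      have h4 : 0 ≤ ∏ j ∈ S.erase i, |ph (√(x j) * t)| := Finset.prod_nonneg fun _ _ => abs_nonneg _
      nlinarith [abs_nonneg (ph (√(x i) * t))]
    refine h1.trans ?_
    have := exp_pos (-(aa / (85 / 100) * ∑ i ∈ S, x i) * t ^ 2)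
    linarith

theorem ph_sc_sq_int {x : ℝ} (hx : 0 < x) : Integrable (fun t => ph (√x * t) ^ 2) :=
  ph_sq_int.comp_mul_left' (Real.sqrt_pos.2 hx).ne'

theorem ph_sc_meas (x : ℝ) : Continuous (fun t => ph (√x * t)) := ph_cont.comp (by fun_prop)

/-- the weighted mass of one factor -/
theorem mass_w {x m : ℝ} (hx : 0 < x) (hm : 0 ≤ m) (hmx : m ≤ 66 / 100 * x) :
    ∫ t, ph (√x * t) ^ 2 * (15 / 100 + 85 / 100 * exp (-(aa / (85 / 100) * m) * t ^ 2)) ≤
      (√x)⁻¹ * (G0 * (1 - 977 / 10000 * √(m / x) - 84 / 1000 * (m / x))) := by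
  have hs : 0 < √x := Real.sqrt_pos.2 hx
  have h1 := Measure.integral_comp_mul_left
    (fun u => ph u ^ 2 * (15 / 100 + 85 / 100 * exp (-(aa / (85 / 100) * (m / x)) * u ^ 2))) (√x)
  have h2 : (fun t => ph (√x * t) ^ 2 * (15 / 100 + 85 / 100 * exp (-(aa / (85 / 100) * (m / x)) * (√x * t) ^ 2))) =
      fun t => ph (√x * t) ^ 2 * (15 / 100 + 85 / 100 * exp (-(aa / (85 / 100) * m) * t ^ 2)) := by
    funext t
    rw [mul_pow (√x), Real.sq_sqrt hx.le,
      show -(aa / (85 / 100) * (m / x)) * (x * t ^ 2) = -(aa / (85 / 100) * m) * t ^ 2 by field_simp]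
  rw [h2, abs_of_pos (inv_pos.2 hs), smul_eq_mul] at h1
  rw [h1]
  refine mul_le_mul_of_nonneg_left ?_ (inv_pos.2 hs).le
  have hz0 : 0 ≤ m / x := by positivity
  have hz1 : m / x ≤ 66 / 100 := by rw [div_le_iff₀ hx]; exact hmx
  have hz2 : √(m / x) ≤ 813 / 1000 := by
    rw [Real.sqrt_le_left (by norm_num)]
    norm_num; linarith
  have h3 := heatG (Real.sqrt_nonneg (m / x)) hz2
  rw [Real.sq_sqrt hz0] at h3
  refine le_trans (le_of_eq ?_) h3
  have i1 : Integrable (fun u : ℝ => ph u ^ 2 * exp (-(aa / (85 / 100) * (m / x)) * u ^ 2)) := by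
    refine ph_sq_int.mul_bdd (c := 1) (by fun_prop) (Eventually.of_forall fun u => ?_)
    rw [Real.norm_eq_abs, abs_of_pos (exp_pos _), Real.exp_le_one_iff]
    have : 0 < aa := by linarith [aa_num.1]
    have : 0 ≤ aa / (85 / 100) * (m / x) * u ^ 2 := by positivity
    linarith
  rw [← planch, ← integral_const_mul, ← integral_const_mul, ← integral_add (ph_sq_int.const_mul _) (i1.const_mul _)]
  refine integral_congr_ae (Eventually.of_forall fun u => ?_)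
  show _ * (_ + _ * _) = _ * _ + _ * (_ * _)
  ring

theorem prod_split {n : ℕ} (F : Fin n → ℝ) {i0 i1 : Fin n} (hne : i1 ≠ i0) :
    ∏ i, F i = F i0 * (F i1 * ∏ i ∈ (Finset.univ.erase i0).erase i1, F i) := by
  rw [← Finset.mul_prod_erase Finset.univ F (Finset.mem_univ i0),
    ← Finset.mul_prod_erase (Finset.univ.erase i0) F (Finset.mem_erase.2 ⟨hne, Finset.mem_univ _⟩)]

theorem sum_split {n : ℕ} (F : Fin n → ℝ) {i0 i1 : Fin n} (hne : i1 ≠ i0) :
    ∑ i, F i = F i0 + (F i1 + ∑ i ∈ (Finset.univ.erase i0).erase i1, F i) := by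
  rw [← Finset.add_sum_erase Finset.univ F (Finset.mem_univ i0),
    ← Finset.add_sum_erase (Finset.univ.erase i0) F (Finset.mem_erase.2 ⟨hne, Finset.mem_univ _⟩)]

theorem prod_cont {n : ℕ} (x : Fin n → ℝ) : Continuous (fun t => ∏ i, ph (√(x i) * t)) :=
  continuous_finset_prod _ fun i _ => ph_sc_meas (x i)

/-- the pair bound with the heat kernel gain -/
theorem V_le_III {n : ℕ} (x : Fin n → ℝ) (hx : ∀ i, 0 ≤ x i) {i0 i1 : Fin n} (hne : i1 ≠ i0)
    (hs : ∑ i, x i = 1) (h1 : 0 < x i1) (h01 : x i1 ≤ x i0)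
    (hmx : 1 - x i0 - x i1 ≤ 66 / 100 * x i1) :
    ∫ t, ∏ i, ph (√(x i) * t) ≤ (√(√(x i0)) * √(√(x i1)))⁻¹ * (G0 *
      (1 - 977 / 10000 * ((√((1 - x i0 - x i1) / x i0) + √((1 - x i0 - x i1) / x i1)) / 2) -
        84 / 1000 * (((1 - x i0 - x i1) / x i0 + (1 - x i0 - x i1) / x i1) / 2))) := by
  classical
  obtain ⟨S, hS⟩ : ∃ S, S = (Finset.univ.erase i0).erase i1 := ⟨_, rfl⟩
  obtain ⟨m, hm⟩ : ∃ m, m = 1 - x i0 - x i1 := ⟨_, rfl⟩
  have hmS : ∑ i ∈ S, x i = m := by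
    have := sum_split x hne
    rw [hs, ← hS] at this
    linarith
  have hm0 : 0 ≤ m := by rw [← hmS]; exact Finset.sum_nonneg fun i _ => hx i
  rw [← hm] at hmx ⊢
  have h0 : 0 < x i0 := h1.trans_le h01
  obtain ⟨q0, hq0⟩ : ∃ q, q = √(√(x i0)) := ⟨_, rfl⟩
  obtain ⟨q1, hq1⟩ : ∃ q, q = √(√(x i1)) := ⟨_, rfl⟩
  have hq0p : 0 < q0 := by rw [hq0]; exact Real.sqrt_pos.2 (Real.sqrt_pos.2 h0)
  have hq1p : 0 < q1 := by rw [hq1]; exact Real.sqrt_pos.2 (Real.sqrt_pos.2 h1)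
  have hq02 : √(x i0) = q0 ^ 2 := by rw [hq0, Real.sq_sqrt (Real.sqrt_nonneg _)]
  have hq12 : √(x i1) = q1 ^ 2 := by rw [hq1, Real.sq_sqrt (Real.sqrt_nonneg _)]
  rw [← hq0, ← hq1]
  have M0 := mass_w h0 hm0 (hmx.trans (by linarith))
  have M1 := mass_w h1 hm0 hmx
  rw [hq02] at M0
  rw [hq12] at M1
  obtain ⟨w, hw⟩ : ∃ w : ℝ → ℝ, w = fun t => 15 / 100 + 85 / 100 * exp (-(aa / (85 / 100) * m) * t ^ 2) := ⟨_, rfl⟩
  have hwc : Continuous w := by rw [hw]; fun_prop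
  have haa : 0 < aa := by linarith [aa_num.1]
  have hw1 : ∀ t, 0 ≤ w t ∧ w t ≤ 1 := by
    intro t
    rw [hw]
    have e1 := exp_pos (-(aa / (85 / 100) * m) * t ^ 2)
    have e2 : exp (-(aa / (85 / 100) * m) * t ^ 2) ≤ 1 := by
      rw [Real.exp_le_one_iff]
      have : 0 ≤ aa / (85 / 100) * m * t ^ 2 := by positivity
      linarith
    constructor
    · positivity
    · show 15 / 100 + 85 / 100 * exp (-(aa / (85 / 100) * m) * t ^ 2) ≤ 1
      linarith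
  have J0 : Integrable (fun t => ph (√(x i0) * t) ^ 2 * w t) :=
    (ph_sc_sq_int h0).mul_bdd (c := 1) hwc.aestronglyMeasurable (Eventually.of_forall fun t => by
      rw [Real.norm_eq_abs, abs_of_nonneg (hw1 t).1]; exact (hw1 t).2)
  have J1 : Integrable (fun t => ph (√(x i1) * t) ^ 2 * w t) :=
    (ph_sc_sq_int h1).mul_bdd (c := 1) hwc.aestronglyMeasurable (Eventually.of_forall fun t => by
      rw [Real.norm_eq_abs, abs_of_nonneg (hw1 t).1]; exact (hw1 t).2)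
  have hpt : ∀ t, |∏ i, ph (√(x i) * t)| ≤ q0 / q1 / 2 * (ph (√(x i0) * t) ^ 2 * w t) +
      q1 / q0 / 2 * (ph (√(x i1) * t) ^ 2 * w t) := by
    intro t
    rw [prod_split _ hne, ← hS, abs_mul, abs_mul, Finset.abs_prod]
    have ho := others_le S x hx t
    rw [hmS] at ho
    have ho' : ∏ i ∈ S, |ph (√(x i) * t)| ≤ w t := by rw [hw]; exact ho
    obtain ⟨f, hf⟩ : ∃ f, f = |ph (√(x i0) * t)| := ⟨_, rfl⟩
    obtain ⟨g, hg⟩ : ∃ f, f = |ph (√(x i1) * t)| := ⟨_, rfl⟩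
    have f0 : 0 ≤ f := by rw [hf]; exact abs_nonneg _
    have g0 : 0 ≤ g := by rw [hg]; exact abs_nonneg _
    rw [← sq_abs (ph (√(x i0) * t)), ← sq_abs (ph (√(x i1) * t)), ← hf, ← hg]
    have h3 : f * (g * ∏ i ∈ S, |ph (√(x i) * t)|) ≤ f * g * w t := by
      rw [← mul_assoc]; exact mul_le_mul_of_nonneg_left ho' (by positivity)
    have h4 : f * g ≤ q0 / q1 / 2 * f ^ 2 + q1 / q0 / 2 * g ^ 2 := by
      have : q0 / q1 / 2 * f ^ 2 + q1 / q0 / 2 * g ^ 2 - f * g = (q0 * f - q1 * g) ^ 2 / (2 * q0 * q1) := by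
        field_simp; ring
      have h5 : 0 ≤ (q0 * f - q1 * g) ^ 2 / (2 * q0 * q1) := by positivity
      linarith
    have h6 := mul_le_mul_of_nonneg_right h4 (hw1 t).1
    linarith
  have hI : Integrable (fun t => q0 / q1 / 2 * (ph (√(x i0) * t) ^ 2 * w t) +
      q1 / q0 / 2 * (ph (√(x i1) * t) ^ 2 * w t)) := (J0.const_mul _).add (J1.const_mul _)
  have hle : ∫ t, ∏ i, ph (√(x i) * t) ≤ ∫ t, (q0 / q1 / 2 * (ph (√(x i0) * t) ^ 2 * w t) +
      q1 / q0 / 2 * (ph (√(x i1) * t) ^ 2 * w t)) :=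
    integral_mono (hI.mono' (prod_cont x).aestronglyMeasurable (Eventually.of_forall hpt)) hI
      fun t => (le_abs_self _).trans (hpt t)
  refine hle.trans ?_
  rw [integral_add (J0.const_mul _) (J1.const_mul _), integral_const_mul, integral_const_mul]
  rw [hw]
  have K0 := mul_le_mul_of_nonneg_left M0 (by positivity : 0 ≤ q0 / q1 / 2)
  have K1 := mul_le_mul_of_nonneg_left M1 (by positivity : 0 ≤ q1 / q0 / 2)
  rw [← hq02] at K0
  rw [← hq12] at K1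
  refine (add_le_add K0 K1).trans (le_of_eq ?_)
  rw [hq02, hq12]
  field_simp
  ring

end

end Agent238.GS
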